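import Pool.Agent.P.MP_5a7e2f_gt.AdVar

set_option autoImplicit false
set_option linter.unusedSectionVars false

open Set Filter Topology MeasureTheory TopologicalSpace
open scoped ENNReal Cardinal

namespace Pool.Agent.P.MP_5a7e2f_gt.Ad

/-- Baire category in a nonempty closed set -/
theorem bart_baire {H : Set TT} (hH : IsClosed H) (h0 : H.Nonempty) {F : ℕ → Set TT}
    (hF : ∀ n, IsClosed (F n)) (hc : ∀ t ∈ H, ∃ n, t ∈ F n) :
    ∃ n, ∃ w ∈ countableBasis TT, (w ∩ H).Nonempty ∧ w ∩ H ⊆ F n := by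
  have : CompactSpace H := isCompact_iff_compactSpace.1 hH.isCompact
  have : Nonempty H := h0.to_subtype
  obtain ⟨n, t, ht⟩ := nonempty_interior_of_iUnion_of_closed
    (f := fun n => ((↑) : H → TT) ⁻¹' F n) (fun n => (hF n).preimage continuous_subtype_val)
    (eq_univ_of_forall fun t => mem_iUnion.2 (hc t.1 t.2))
  obtain ⟨u, hu, hsub⟩ := (mem_nhds_subtype _ _ _).1 (mem_interior_iff_mem_nhds.1 ht)
  obtain ⟨w, hw, htw, hwu⟩ := (isBasis_countableBasis TT).mem_nhds_iff.1 hu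
  exact ⟨n, w, hw, ⟨t.1, htw, t.2⟩, fun s hs => hsub (a := ⟨s, hs.2⟩) (hwu hs.1)⟩

theorem loc_of_addN (h : AddN) : Loc := by
  intro f
  have hN : ∀ a, lam {t | ∃ᶠ k in atTop, t ∈ GG k (f a k)} = 0 := fun a =>
    measure_setOfPred_frequently_eq_zero (p := fun k t => t ∈ GG k (f a k)) (by
      simp only [ofPred_mem_eq, lam_GG]
      exact (geo 3).trans_ne (by simp))
  obtain ⟨M, hsub, hM, hM0⟩ := exists_measurable_superset_of_null (h.gen mk_II.le _ hN)
  obtain ⟨K, hKM, hK, hK0⟩ := hM.compl.exists_lt_isCompact (μ := lam) (r := 0)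
    (by rw [prob_compl_eq_one_sub hM, hM0]; simp)
  have hHK : acc lam K ⊆ K := acc_subset subset_rfl hK.isClosed
  have hpos : ∀ w, lam (w ∩ K) ≠ 0 → lam (w ∩ acc lam K) ≠ 0 := fun w hw h0 =>
    hw (measure_mono_null (t := w ∩ acc lam K ∪ K \ acc lam K)
      (fun t ht => by by_cases e : t ∈ acc lam K; exacts [Or.inl ⟨ht.1, e⟩, Or.inr ⟨ht.2, e⟩])
      (measure_union_null h0 null_diff_acc))
  have hne : (acc lam K).Nonempty := by
    have := nonempty_of_measure_ne_zero (hpos univ (by simpa using hK0.ne'))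
    rwa [univ_inter] at this
  have hφ : ∀ w : countableBasis TT, ∃ φ : ℕ → Finset ℕ, Slalom φ ∧ (lam (w.1 ∩ acc lam K) ≠ 0 →
      ∀ k v, lam (w.1 ∩ acc lam K ∩ GG k v) = 0 → v ∈ φ k) := fun w => by
    by_cases h0 : lam (w.1 ∩ acc lam K) = 0
    · exact ⟨fun _ => ∅, by simp [Slalom], fun h1 => absurd h0 h1⟩
    · obtain ⟨φ, h1, h2⟩ := slalom_of (θ := 0)
        ((isOpen_of_mem_countableBasis w.2).measurableSet.inter isClosed_acc.measurableSet)
        (pos_iff_ne_zero.2 h0)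
      exact ⟨φ, h1, fun _ k v h3 => h2 k v (h3.trans_le bot_le)⟩
  choose φ h1 h2 using hφ
  have : Countable (countableBasis TT) := (countable_countableBasis TT).to_subtype
  obtain ⟨ψ, h3, h4⟩ := slalom_merge φ h1
  refine ⟨ψ, h3, fun a => ?_⟩
  obtain ⟨n, w, hw, ⟨t, htw, ht⟩, hF⟩ := bart_baire isClosed_acc hne
    (F := fun n => ⋂ k, ⋂ _ : n ≤ k, (GG k (f a k))ᶜ)
    (fun n => isClosed_iInter fun k => isClosed_iInter fun _ =>
      (isClopen_GG _ _).isOpen.isClosed_compl)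
    (fun t ht => by
      have h5 : ¬ ∃ᶠ k in atTop, t ∈ GG k (f a k) := fun e =>
        hKM (hHK ht) (hsub (mem_iUnion.2 ⟨a, e⟩))
      obtain ⟨n, hn⟩ := eventually_atTop.1 (not_frequently.1 h5)
      exact ⟨n, mem_iInter₂.2 hn⟩)
  filter_upwards [h4 ⟨w, hw⟩, eventually_ge_atTop n] with k hk hnk
  refine hk (h2 ⟨w, hw⟩ (hpos w (ht w (isOpen_of_mem_countableBasis hw) htw)) k _ ?_)
  rw [eq_empty_of_forall_notMem (s := w ∩ acc lam K ∩ GG k (f a k))
    fun s hs => mem_iInter₂.1 (hF hs.1) k hnk hs.2, measure_empty]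

end Pool.Agent.P.MP_5a7e2f_gt.Ad
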