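import Pool.Agent.P.MP_5a7e2f_gt.AdDefs

set_option autoImplicit false
set_option linter.unusedSectionVars false

open Set Filter Topology MeasureTheory TopologicalSpace
open scoped ENNReal Cardinal

namespace Pool.Agent.P.MP_5a7e2f_gt.Ad

/-- the set coded by a pair of finite index sets -/
def capSet {T : Type} (b : ℕ → Set T) (x : Finset ℕ × Finset ℕ) : Set T :=
  (⋃ i ∈ x.1, b i) \ ⋃ i ∈ x.2, b i

theorem cap_basis (T : Type) [TopologicalSpace T] [SecondCountableTopology T] :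
    ∃ b : ℕ → Set T, (∀ n, IsOpen (b n)) ∧
      ∀ U, IsOpen U → ∀ t ∈ U, ∃ n, t ∈ b n ∧ b n ⊆ U := by
  obtain ⟨b, hb⟩ := ((countable_countableBasis T).insert ∅).exists_eq_range (insert_nonempty _ _)
  refine ⟨b, fun n => ?_, fun U hU t ht => ?_⟩
  · have : b n ∈ insert ∅ (countableBasis T) := hb ▸ mem_range_self n
    rcases this with h | h
    · rw [h]; exact isOpen_empty
    · exact isOpen_of_mem_countableBasis h
  · obtain ⟨v, hv, h1, h2⟩ := (isBasis_countableBasis T).exists_subset_of_mem_open ht hU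
    have : v ∈ range b := hb ▸ mem_insert_of_mem _ hv
    obtain ⟨n, rfl⟩ := this
    exact ⟨n, h1, h2⟩

theorem cap_pieces {T : Type} [TopologicalSpace T] [MeasurableSpace T] [BorelSpace T]
    (ν : Measure T) [IsFiniteMeasure ν] {b : ℕ → Set T} (hb : ∀ n, IsOpen (b n))
    (hb' : ∀ U, IsOpen U → ∀ t ∈ U, ∃ n, t ∈ b n ∧ b n ⊆ U) {U : Set T} (hU : IsOpen U)
    {e : ℕ → ℝ≥0∞} (he : ∀ j, e j ≠ 0) (h0 : ν U ≤ e 0) :
    ∃ p : ℕ → Finset ℕ × Finset ℕ, (∀ j, ν (capSet b (p j)) ≤ e j) ∧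
      U ⊆ ⋃ j, capSet b (p j) := by
  classical
  set s : ℕ → Finset ℕ := fun n => (Finset.range n).filter fun i => b i ⊆ U with hs
  set A : ℕ → Set T := fun n => ⋃ i ∈ s n, b i with hA
  have hAU : ∀ n, A n ⊆ U := fun n =>
    iUnion₂_subset fun i hi => (Finset.mem_filter.1 hi).2
  have hAo : ∀ n, IsOpen (A n) := fun n => isOpen_biUnion fun i _ => hb i
  have hAm : Monotone A := fun m n hmn =>
    biUnion_subset_biUnion_left fun i hi => by
      have hi' := Finset.mem_filter.1 hi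
      exact Finset.mem_filter.2 ⟨Finset.mem_range.2 ((Finset.mem_range.1 hi'.1).trans_le hmn), hi'.2⟩
  have hcov : ∀ t ∈ U, ∃ n, t ∈ A n := fun t ht => by
    obtain ⟨n, h1, h2⟩ := hb' U hU t ht
    exact ⟨n + 1, mem_biUnion (Finset.mem_filter.2 ⟨Finset.self_mem_range_succ n, h2⟩) h1⟩
  have hlim : Tendsto (fun n => ν (U \ A n)) atTop (𝓝 0) := by
    have h1 : Antitone fun n => U \ A n := fun m n hmn => sdiff_subset_sdiff_right (hAm hmn)
    have h2 := tendsto_measure_iInter_atTop (μ := ν)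
      (fun n => (hU.measurableSet.diff (hAo n).measurableSet).nullMeasurableSet) h1
      ⟨0, measure_ne_top _ _⟩
    have h3 : (⋂ n, U \ A n) = ∅ := eq_empty_of_forall_notMem fun t ht => by
      rw [mem_iInter] at ht
      obtain ⟨n, hn⟩ := hcov t (ht 0).1
      exact (ht n).2 hn
    rw [h3, measure_empty] at h2
    exact h2
  have hn : ∀ j, ∃ n, j ≤ n ∧ (j = 0 → n = 0) ∧ ν (U \ A n) ≤ e j := fun j => by
    rcases Nat.eq_zero_or_pos j with rfl | hj
    · exact ⟨0, le_rfl, fun _ => rfl, (measure_mono sdiff_subset).trans h0⟩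
    · have h1 := (hlim.eventually (eventually_le_nhds (pos_iff_ne_zero.2 (he j)))).and
        (eventually_ge_atTop j)
      obtain ⟨n, h2, h3⟩ := h1.exists
      exact ⟨n, h3, fun h => absurd h hj.ne', h2⟩
  choose n hn1 hn2 hn3 using hn
  refine ⟨fun j => (s (n (j + 1)), s (n j)), fun j => ?_, fun t ht => ?_⟩
  · exact (measure_mono (sdiff_subset_sdiff_left (hAU (n (j + 1))))).trans (hn3 j)
  · have hex : ∃ j, t ∈ A (n j) := by
      obtain ⟨m, hm⟩ := hcov t ht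
      exact ⟨m, hAm (hn1 m) hm⟩
    have h1 := Nat.find_spec hex
    have h2 : Nat.find hex ≠ 0 := fun h => by
      rw [h, hn2 0 rfl] at h1
      simp [hA, hs] at h1
    obtain ⟨j, hj⟩ := Nat.exists_eq_succ_of_ne_zero h2
    have h3 : t ∉ A (n j) := Nat.find_min hex (by omega)
    rw [hj] at h1
    exact mem_iUnion.2 ⟨j, h1, h3⟩

theorem cap (h : Loc) {T : Type} [TopologicalSpace T] [SecondCountableTopology T]
    [MeasurableSpace T] [BorelSpace T] (ν : Measure T) [IsFiniteMeasure ν] [ν.OuterRegular]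
    {ι : Type} (hι : #ι ≤ ℵ₁) (Q : ι → Set T) (hQ : ∀ i, MeasurableSet (Q i)) {ε : ℝ≥0∞}
    (hε : ε ≠ 0) : ∃ H, IsClosed H ∧ ν Hᶜ ≤ ε ∧ ∀ i, RelOpen (Q i) H := by
  classical
  obtain ⟨b, hb, hb'⟩ := cap_basis T
  have hpow : ∀ m : ℕ, (2⁻¹ : ℝ≥0∞) ^ m ≠ 0 := fun m => pow_ne_zero _ (by norm_num)
  have key : ∀ i (k : ℕ), ∃ (V : Set T) (p : ℕ → Finset ℕ × Finset ℕ), IsOpen V ∧ Q i ⊆ V ∧
      (∀ j, ν (capSet b (p j)) ≤ 2⁻¹ ^ Nat.pair k j) ∧ V \ Q i ⊆ ⋃ j, capSet b (p j) := by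
    intro i k
    obtain ⟨V, h1, h2, -, h3⟩ := (hQ i).exists_isOpen_sdiff_lt (measure_ne_top ν _)
      (hpow (Nat.pair k 0))
    obtain ⟨U, h4, h5, h6⟩ := Set.exists_isOpen_lt_of_lt _ _ h3
    obtain ⟨p, h7, h8⟩ := cap_pieces ν hb hb' h5 (e := fun j => 2⁻¹ ^ Nat.pair k j)
      (fun j => hpow _) h6.le
    exact ⟨V, p, h2, h1, h7, h4.trans h8⟩
  choose V p hV1 hV2 hp1 hp2 using key
  obtain ⟨φ, hφ1, hφ2⟩ := h.gen hι fun i m => p i (Nat.unpair m).1 (Nat.unpair m).2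
  have hlim := ENNReal.tendsto_sum_nat_add _ hφ1
  obtain ⟨J, hJ⟩ := (hlim.eventually (eventually_lt_nhds (pos_iff_ne_zero.2 hε))).exists
  set W : Set T := ⋃ m, ⋃ x ∈ (φ (m + J)).filter fun x => ν (capSet b x) ≤ 2⁻¹ ^ (m + J),
    capSet b x with hW
  have hWε : ν W < ε := by
    refine lt_of_le_of_lt ((measure_iUnion_le _).trans (ENNReal.tsum_le_tsum fun m => ?_)) hJ
    refine (measure_biUnion_finset_le _ _).trans ?_
    refine (Finset.sum_le_card_nsmul _ _ (2⁻¹ ^ (m + J))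
      fun x hx => (Finset.mem_filter.1 hx).2).trans ?_
    rw [nsmul_eq_mul]
    gcongr
    exact Finset.filter_subset _ _
  obtain ⟨W', h1, h2, h3⟩ := Set.exists_isOpen_lt_of_lt _ _ hWε
  refine ⟨W'ᶜ, h2.isClosed_compl, by rw [compl_compl]; exact h3.le, fun i t ht _ => ?_⟩
  obtain ⟨k₀, hk₀⟩ := eventually_atTop.1 (hφ2 i)
  refine ⟨V i (max k₀ J), hV1 _ _, hV2 _ _ ht, fun y hy => ?_⟩
  by_contra hyQ
  obtain ⟨j, hj⟩ := mem_iUnion.1 (hp2 i (max k₀ J) ⟨hy.1, hyQ⟩)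
  have hle : max k₀ J ≤ Nat.pair (max k₀ J) j := Nat.left_le_pair _ _
  have h4 := hk₀ _ ((le_max_left _ _).trans hle)
  rw [Nat.unpair_pair] at h4
  have h5 : Nat.pair (max k₀ J) j - J + J = Nat.pair (max k₀ J) j :=
    Nat.sub_add_cancel ((le_max_right _ _).trans hle)
  refine hy.2 (h1 (mem_iUnion.2 ⟨Nat.pair (max k₀ J) j - J, ?_⟩))
  rw [h5]
  exact mem_biUnion (Finset.mem_filter.2 ⟨h4, hp1 _ _ _⟩) hj

theorem addN_of_loc (h : Loc) : AddN := by
  intro 𝒩 h1 h2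
  refine le_antisymm (le_of_forall_gt_imp_ge_of_dense fun ε hε => ?_) zero_le
  obtain ⟨H, -, h3, h4⟩ := cap h lam h1 (fun N : 𝒩 => toMeasurable lam N.1)
    (fun N => measurableSet_toMeasurable _ _) hε.ne'
  have hsub : ⋃₀ 𝒩 ⊆ Hᶜ ∪ (H \ acc lam H) := by
    rintro t ⟨N, hN, ht⟩
    by_cases htH : t ∈ H
    · refine Or.inr ⟨htH, fun hacc => ?_⟩
      obtain ⟨u, hu, htu, hsub⟩ := h4 ⟨N, hN⟩ t (subset_toMeasurable _ _ ht) htH
      refine hacc u hu htu (measure_mono_null hsub ?_)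
      rw [measure_toMeasurable]
      exact h2 N hN
    · exact Or.inl htH
  refine (measure_mono hsub).trans ((measure_union_le _ _).trans ?_)
  rw [null_diff_acc, add_zero]
  exact h3

end Pool.Agent.P.MP_5a7e2f_gt.Ad
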