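import Pool.Agent.P.MP_5a7e2f_gt.AdTK

set_option autoImplicit false
set_option linter.unusedSectionVars false

open Set Filter Topology MeasureTheory TopologicalSpace
open scoped ENNReal Cardinal

namespace Pool.Agent.P.MP_5a7e2f_gt.Ad

section profinite

variable {X : Type} [TopologicalSpace X] [CompactSpace X] [T2Space X] [TotallyDisconnectedSpace X]

theorem capt_between {K U : Set X} (hK : IsCompact K) (hU : IsOpen U) (h : K ⊆ U) :
    ∃ b, IsClopen b ∧ K ⊆ b ∧ b ⊆ U := by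
  refine hK.induction_on (p := fun K => ∃ b, IsClopen b ∧ K ⊆ b ∧ b ⊆ U)
    ⟨∅, isClopen_empty, Subset.rfl, empty_subset _⟩ ?_ ?_ ?_
  · rintro s t hst ⟨b, h1, h2, h3⟩
    exact ⟨b, h1, hst.trans h2, h3⟩
  · rintro s t ⟨b, h1, h2, h3⟩ ⟨b', k1, k2, k3⟩
    exact ⟨b ∪ b', h1.union k1, union_subset_union h2 k2, union_subset h3 k3⟩
  · intro x hx
    obtain ⟨b, h1, h2, h3⟩ := compact_exists_isClopen_in_isOpen hU (h hx)
    exact ⟨b, mem_nhdsWithin_of_mem_nhds (h1.isOpen.mem_nhds h2), b, h1, Subset.rfl, h3⟩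

variable [MeasurableSpace X] [BorelSpace X]

theorem capt_shadow {T : Type} [MeasurableSpace T] (ν : Measure T) [IsProbabilityMeasure ν]
    (L : T → X) (hL : ∀ b, IsClopen b → MeasurableSet (L ⁻¹' b)) (μ : Measure X)
    [IsProbabilityMeasure μ] [μ.Regular] (key : ∀ b, IsClopen b → μ b = ν (L ⁻¹' b))
    {K : Set X} (hK : IsCompact K) : ∃ H, MeasurableSet H ∧ μ K ≤ ν H ∧
      ∀ u, IsClopen u → Disjoint K u → ν (H ∩ L ⁻¹' u) = 0 := by
  have h1 : ∀ n : ℕ, ∃ b, IsClopen b ∧ K ⊆ b ∧ μ (b \ K) ≤ 2⁻¹ ^ n := fun n => by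
    obtain ⟨U, u1, u2, -, u3⟩ := hK.measurableSet.exists_isOpen_sdiff_lt (μ := μ)
      (measure_ne_top _ _) (ε := 2⁻¹ ^ n) (ENNReal.pow_pos (by simp) _).ne'
    obtain ⟨b, b1, b2, b3⟩ := capt_between hK u2 u1
    exact ⟨b, b1, b2, (measure_mono (sdiff_subset_sdiff_left b3)).trans u3.le⟩
  choose b b1 b2 b3 using h1
  refine ⟨⋂ n, L ⁻¹' b n, MeasurableSet.iInter fun n => hL _ (b1 n), ?_, fun u hu hd => ?_⟩
  · rw [measure_iInter_eq_iInf_measure_iInter_le (fun n => (hL _ (b1 n)).nullMeasurableSet)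
      ⟨0, measure_ne_top _ _⟩]
    refine le_iInf fun n => ?_
    have hb : IsClopen (⋂ j ≤ n, b j) := (finite_le_nat n).isClopen_biInter fun j _ => b1 j
    rw [← preimage_iInter₂, ← key _ hb]
    exact measure_mono (subset_iInter₂ fun j _ => b2 j)
  · refine le_antisymm (ge_of_tendsto' (ENNReal.tendsto_pow_atTop_nhds_zero_of_lt_one
      (by norm_num : (2⁻¹ : ℝ≥0∞) < 1)) fun n => ?_) zero_le
    refine le_trans ?_ (b3 n)
    refine le_trans ?_ (measure_mono (show b n ∩ u ⊆ b n \ K from fun x hx =>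
      ⟨hx.1, fun h => disjoint_left.1 hd h hx.2⟩))
    rw [key _ ((b1 n).inter hu)]
    exact measure_mono fun t ht => ⟨mem_iInter.1 ht.1 n, ht.2⟩

end profinite

theorem capt_clopen (c : II → DD) (P : Set (KK c) → Prop) (h0 : P ∅) (hc : ∀ a, P a → P aᶜ)
    (hu : ∀ a b, P a → P b → P (a ∪ b)) (h : ∀ d, IsClopen d → P (Subtype.val ⁻¹' d)) :
    ∀ b, IsClopen b → P b := by
  have : CompactSpace (KK c) := isCompact_iff_compactSpace.1 (isClosed_KK c).isCompact
  refine clopen_induction P h0 hc hu fun x y hxy => ?_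
  obtain ⟨a, h1, h2, h3⟩ := exists_isClopen_of_totally_separated
    (show x.1 ≠ y.1 from fun e => hxy (Subtype.ext e))
  exact ⟨Subtype.val ⁻¹' a, h1.preimage continuous_subtype_val, h a h1, h2, h3⟩

theorem capt_of_Q1 (h : Q1) (c : II → DD) : Capt c := by
  classical
  have : CompactSpace (KK c) := isCompact_iff_compactSpace.1 (isClosed_KK c).isCompact
  let _ : MeasurableSpace (KK c) := borel _
  have : BorelSpace (KK c) := ⟨rfl⟩
  let L : TT → KK c := fun t => ⟨emb c (t, none), emb_mem (adm_none t)⟩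
  have hL : ∀ b, IsClopen b → MeasurableSet (L ⁻¹' b) :=
    capt_clopen c (fun b => MeasurableSet (L ⁻¹' b)) MeasurableSet.empty (fun a h => h.compl)
      (fun a b ha hb => ha.union hb) fun d hd => measurableSet_ell hd
  obtain ⟨μ, hμ, hr, key⟩ := exists_lift_measure lam L hL
  obtain ⟨A, a1, -, a3⟩ := h (KK c) (tight_KK c) μ hμ hr
  have hK : ∀ (i : ℕ) (t : Finset (Set (KK c))), t ⊆ A i → IsCompact (⋃₀ (t : Set (Set (KK c)))) :=
    fun i t ht => t.finite_toSet.isCompact_sUnion fun K hK => a1 i K (ht hK)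
  have hc : {t : Finset (Set (KK c)) | ∃ i, t ⊆ A i}.Countable := by
    refine (countable_iUnion fun i => (A i).powerset.countable_toSet).mono ?_
    rintro t ⟨i, hi⟩
    exact mem_iUnion.2 ⟨i, by simpa using hi⟩
  obtain ⟨e, he⟩ := hc.exists_eq_range ⟨∅, 0, Finset.empty_subset _⟩
  have he' : ∀ n, IsCompact (⋃₀ (e n : Set (Set (KK c)))) := fun n => by
    obtain ⟨i, hi⟩ : e n ∈ {t : Finset (Set (KK c)) | ∃ i, t ⊆ A i} := he ▸ mem_range_self n
    exact hK i _ hi
  choose H h1 h2 h3 using fun n => capt_shadow lam L hL μ key (he' n)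
  refine ⟨H, h1, fun γ => ?_⟩
  let u : Set (KK c) := Subtype.val ⁻¹' uu γ
  have hu : IsClopen u := (isClopen_uu γ).preimage continuous_subtype_val
  obtain ⟨i, i1, i2⟩ := a3 {u, uᶜ} (by
    rintro v (rfl | rfl)
    exacts [hu.isOpen, hu.compl.isOpen]) (by simp) 4⁻¹ (by simp)
  obtain ⟨n, hn⟩ : (A i).filter (· ⊆ uᶜ) ∈ range e := he ▸ ⟨i, Finset.filter_subset _ _⟩
  refine ⟨n, lt_of_lt_of_le ?_ (h2 n), h3 n u hu ?_⟩
  · by_contra hcon
    have hsub : (univ : Set (KK c)) ⊆ (univ \ ⋃₀ (A i : Set (Set (KK c)))) ∪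
        (u ∪ ⋃₀ (e n : Set (Set (KK c)))) := by
      intro x _
      by_cases hx : x ∈ ⋃₀ (A i : Set (Set (KK c)))
      · obtain ⟨K, k1, k2⟩ := hx
        obtain ⟨v, rfl | rfl, k3⟩ := i1 K k1
        · exact Or.inr (Or.inl (k3 k2))
        · exact Or.inr (Or.inr ⟨K, by rw [hn]; exact Finset.mem_filter.2 ⟨k1, k3⟩, k2⟩)
      · exact Or.inl ⟨trivial, hx⟩
    have m1 : μ u ≤ 2⁻¹ ^ 3 := by
      rw [key u hu]
      exact (measure_mono (ell_uu_subset γ)).trans ((c γ).lam_tail 0)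
    have m2 := (measure_mono (μ := μ) hsub).trans ((measure_union_le _ _).trans
      (add_le_add i2.le ((measure_union_le _ _).trans (add_le_add m1 (not_lt.1 hcon)))))
    rw [measure_univ, ← ENNReal.toReal_le_toReal (by finiteness) (by finiteness),
      ENNReal.toReal_add (by finiteness) (by finiteness),
      ENNReal.toReal_add (by finiteness) (by finiteness)] at m2
    norm_num at m2
  · rw [hn, disjoint_sUnion_left]
    intro K hK
    exact subset_compl_iff_disjoint_right.1 (Finset.mem_filter.1 hK).2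

end Pool.Agent.P.MP_5a7e2f_gt.Ad
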