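import Pool.Agent.P.MP_5a7e2f_gt.AdDefs

set_option autoImplicit false
set_option linter.unusedSectionVars false

open Set Filter Topology MeasureTheory TopologicalSpace
open scoped ENNReal Cardinal

namespace Pool.Agent.P.MP_5a7e2f_gt.Ad

theorem coll_cyl_eq {J : Type} (s : Finset J) (z : J → Bool) :
    {x : J → Bool | ∀ j ∈ s, x j = z j} = Set.pi (s : Set J) (fun j => {z j}) := by
  ext x
  simp [Set.mem_pi]

theorem coll_cyl {J : Type} (s : Finset J) (z : J → Bool) :
    coin J {x | ∀ j ∈ s, x j = z j} = 2⁻¹ ^ s.card := by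
  rw [coll_cyl_eq, coin, Measure.infinitePi_pi _ (fun i _ => measurableSet_singleton _)]
  rw [Finset.prod_congr rfl (g := fun _ => (2⁻¹ : ℝ≥0∞)), Finset.prod_const]
  intro i _
  rw [PMF.toMeasure_apply_singleton _ _ (measurableSet_singleton _)]
  simp

theorem coll_cyl_meas {J : Type} (s : Finset J) (z : J → Bool) :
    MeasurableSet {x : J → Bool | ∀ j ∈ s, x j = z j} := by
  rw [coll_cyl_eq]
  exact MeasurableSet.pi s.countable_toSet (fun i _ => measurableSet_singleton _)

theorem collapse {J : Type} (π : J → ℕ) (s o : Finset J) {c : Set (J → Bool)} (hc : DepOn c s)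
    (hπ : ∀ i ∈ s, ∀ j ∈ s, i ∉ o → j ∉ o → π i = π j → i = j) :
    lam {y | (fun j => y (π j)) ∈ c} ≤ 2 ^ o.card * coin J c := by
  classical
  let ex : (s → Bool) → J → Bool := fun z j => if h : j ∈ s then z ⟨j, h⟩ else false
  let Z : Finset (s → Bool) := Finset.univ.filter fun z => ex z ∈ c
  have hex : ∀ x : J → Bool, ∀ j ∈ s, x j = ex (fun i : s => x i) j := by
    intro x j hj
    simp [ex, hj]
  have hmem : ∀ x ∈ c, (fun i : s => x i) ∈ Z := by
    intro x hx
    simp only [Z, Finset.mem_filter, Finset.mem_univ, true_and]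
    exact hc x _ (hex x) hx
  have h1 : c = ⋃ z ∈ Z, {x : J → Bool | ∀ j ∈ s, x j = ex z j} := by
    ext x
    simp only [mem_iUnion, mem_ofPred_eq]
    constructor
    · intro hx
      exact ⟨_, hmem x hx, hex x⟩
    · rintro ⟨z, hz, hx⟩
      simp only [Z, Finset.mem_filter, Finset.mem_univ, true_and] at hz
      exact hc _ x (fun j hj => (hx j hj).symm) hz
  have h2 : coin J c = Z.card * 2⁻¹ ^ s.card := by
    conv_lhs => rw [h1]
    rw [measure_biUnion_finset _ (fun z _ => coll_cyl_meas s _)]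
    · simp only [coll_cyl, Finset.sum_const, nsmul_eq_mul]
    · intro z _ z' _ hne
      refine Set.disjoint_left.2 fun x hx hx' => hne ?_
      funext i
      have a1 := hx i i.2
      have a2 := hx' i i.2
      simp only [ex, i.2, dif_pos] at a1 a2
      exact a1.symm.trans a2
  let w : (s → Bool) → ℕ → Bool := fun z n =>
    if h : ∃ j ∈ s \ o, π j = n then ex z h.choose else false
  have h3 : {y : TT | (fun j => y (π j)) ∈ c} ⊆
      ⋃ z ∈ Z, {y : ℕ → Bool | ∀ n ∈ (s \ o).image π, y n = w z n} := by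
    intro y hy
    simp only [mem_iUnion, mem_ofPred_eq]
    refine ⟨_, hmem _ hy, fun n hn => ?_⟩
    have h : ∃ j ∈ s \ o, π j = n := Finset.mem_image.1 hn
    simp only [w, dif_pos h]
    have a1 := h.choose_spec
    rw [← hex (fun j => y (π j)) _ (Finset.mem_sdiff.1 a1.1).1, a1.2]
  have h4 : ((s \ o).image π).card = (s \ o).card := by
    refine Finset.card_image_of_injOn fun i hi j hj hij => ?_
    have a1 := Finset.mem_sdiff.1 (Finset.mem_coe.1 hi)
    have a2 := Finset.mem_sdiff.1 (Finset.mem_coe.1 hj)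
    exact hπ i a1.1 j a2.1 a1.2 a2.2 hij
  have h5 : (2⁻¹ : ℝ≥0∞) ^ (s \ o).card ≤ 2 ^ o.card * 2⁻¹ ^ s.card := by
    have a1 : s.card ≤ (s \ o).card + o.card := Finset.card_le_card_sdiff_add_card
    have a2 : (2⁻¹ : ℝ≥0∞) ^ ((s \ o).card + o.card) ≤ 2⁻¹ ^ s.card :=
      pow_le_pow_right_of_le_one' (by simp) a1
    have a3 : (2 : ℝ≥0∞) ^ o.card * 2⁻¹ ^ o.card = 1 := by
      rw [← mul_pow, ENNReal.mul_inv_cancel (by simp) (by simp), one_pow]
    calc (2⁻¹ : ℝ≥0∞) ^ (s \ o).card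
        = 2 ^ o.card * 2⁻¹ ^ ((s \ o).card + o.card) := by
          rw [pow_add, mul_comm (2⁻¹ ^ (s \ o).card), ← mul_assoc, a3, one_mul]
      _ ≤ _ := by gcongr
  calc lam {y | (fun j => y (π j)) ∈ c}
      ≤ ∑ z ∈ Z, lam {y : ℕ → Bool | ∀ n ∈ (s \ o).image π, y n = w z n} :=
        (measure_mono h3).trans (measure_biUnion_finset_le _ _)
    _ = Z.card * 2⁻¹ ^ (s \ o).card := by
        simp only [lam_eq_coin, coll_cyl, h4, Finset.sum_const, nsmul_eq_mul]
    _ ≤ Z.card * (2 ^ o.card * 2⁻¹ ^ s.card) := by gcongr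
    _ = _ := by rw [h2]; ring

end Pool.Agent.P.MP_5a7e2f_gt.Ad
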