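import Pool.Agent.P.MP_5a7e2f_gt.AdCap

set_option autoImplicit false
set_option linter.unusedSectionVars false

open Set Filter Topology MeasureTheory TopologicalSpace
open scoped ENNReal Cardinal

namespace Pool.Agent.P.MP_5a7e2f_gt.Ad

/-- the second uncountable ordinal as a type -/
abbrev OO : Type := (Cardinal.aleph 2).ord.ToType

theorem core_succ : Order.succ (ℵ₁ : Cardinal.{0}) = Cardinal.aleph 2 := by
  rw [Cardinal.succ_aleph, one_add_one_eq_two]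

theorem core_mk_Iio (x : OO) : #(Iio x) ≤ ℵ₁ := by
  rw [← Order.lt_succ_iff, core_succ]
  simpa using Cardinal.mk_Iio_lt x

theorem core_union_le {ι α : Type} (hι : #ι ≤ ℵ₁) (A : ι → Set α) (hA : ∀ i, #(A i) ≤ ℵ₁) :
    #(⋃ i, A i) ≤ ℵ₁ := by
  refine Cardinal.mk_iUnion_le_sum_mk.trans ((Cardinal.sum_le_sum _ (fun _ => ℵ₁) hA).trans ?_)
  rw [Cardinal.sum_const']
  exact (mul_le_mul_left hι _).trans (Cardinal.mul_eq_self Cardinal.aleph0_lt_aleph_one.le).le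

theorem core_bound {ι : Type} (hι : #ι ≤ ℵ₁) (f : ι → OO) : ∃ b, ∀ i, f i < b := by
  by_contra h
  push Not at h
  have h1 : #(⋃ i, Iic (f i)) ≤ ℵ₁ := core_union_le hι _ fun i => by
    rw [← Iio_insert]
    refine Cardinal.mk_insert_le.trans ((add_le_add (core_mk_Iio _)
      Cardinal.one_lt_aleph0.le).trans ?_)
    exact (Cardinal.add_eq_left Cardinal.aleph0_lt_aleph_one.le
      Cardinal.aleph0_lt_aleph_one.le).le
  have h2 : (⋃ i, Iic (f i)) = univ := eq_univ_of_forall fun b => by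
    obtain ⟨i, hi⟩ := h b
    exact mem_iUnion.2 ⟨i, hi⟩
  rw [h2, Cardinal.mk_univ, Cardinal.mk_ord_toType, ← core_succ] at h1
  exact absurd h1 (not_le.2 (Order.lt_succ _))

theorem core_bound' {C : Set OO} (hC : C.Countable) : ∃ b, ∀ c ∈ C, c < b := by
  obtain ⟨b, hb⟩ := core_bound (ι := C) ((Cardinal.le_aleph0_iff_set_countable.2 hC).trans
    Cardinal.aleph0_lt_aleph_one.le) Subtype.val
  exact ⟨b, fun c hc => hb ⟨c, hc⟩⟩

instance : Nonempty OO := (core_bound' countable_empty).elim fun b _ => ⟨b⟩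

/-- points of uncountable cofinality -/
def Good (x : OO) : Prop := ∀ C : Set OO, C.Countable → (∀ c ∈ C, c < x) → ∃ b < x, ∀ c ∈ C, c < b

theorem core_gt (i : II) : ∃ j, i < j := (exists_gt' i i).imp fun _ h => h.1

theorem core_good_sup (η : II → OO) (hη : ∀ i j, j < i → η j < η i) :
    ∃ x, Good x ∧ (∀ i, η i < x) ∧ ∀ y < x, ∃ i, y ≤ η i := by
  have h := core_bound mk_II.le η
  have h1 : ∀ i, η i < wellFounded_lt.min {b | ∀ i, η i < b} h :=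
    wellFounded_lt.min_mem {b | ∀ i, η i < b} h
  have h2 : ∀ y < wellFounded_lt.min {b | ∀ i, η i < b} h, ∃ i, y ≤ η i := fun y hy => by
    by_contra h3
    push Not at h3
    exact wellFounded_lt.not_lt_min {b | ∀ i, η i < b} h3 hy
  refine ⟨_, fun C hC h3 => ?_, h1, h2⟩
  choose! k hk using h2
  obtain ⟨i, hi⟩ := exists_bound (hC.image k)
  exact ⟨η i, h1 i, fun c hc => (hk c (h3 c hc)).trans_lt (hη _ _ (hi _ ⟨c, hc, rfl⟩))⟩

theorem core_fodor (ρ : OO → OO) (hρ : ∀ x, Good x → ρ x < x) :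
    ∃ r, ∀ b, ∃ x, Good x ∧ ρ x ≤ r ∧ r < x ∧ b < x := by
  by_contra h
  push Not at h
  choose B hB using h
  obtain ⟨η, -, hη⟩ := seq_II (fun _ : OO => True) (fun c d => c < d ∧ B c < d) fun C hC _ => by
    obtain ⟨b, hb⟩ := core_bound' (hC.union (hC.image B))
    exact ⟨b, trivial, fun c hc => ⟨hb c (Or.inl hc), hb _ (Or.inr ⟨c, hc, rfl⟩)⟩⟩
  obtain ⟨x, h1, h2, h3⟩ := core_good_sup η fun i j h => (hη i j h).1
  obtain ⟨i, hi⟩ := h3 _ (hρ x h1)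
  obtain ⟨j, hj⟩ := core_gt i
  exact absurd (hB _ x h1 hi (h2 i)) (not_le.2 ((hη j i hj).2.trans (h2 j)))

section objects

variable {T : Type}

/-- finite intersections of generators with index below `x` -/
def Ob (G : OO → Set (Set T)) (x : OO) : Set (Set T) :=
  {Q | ∃ l : List (Set T), (∀ a ∈ l, ∃ z < x, a ∈ G z) ∧ Q = ⋂ a ∈ l, a}

variable {G : OO → Set (Set T)} {H : OO → Set T} {x y : OO} {P Q : Set T}

theorem Ob.mono (h : Q ∈ Ob G x) (hxy : x ≤ y) : Q ∈ Ob G y := by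
  obtain ⟨l, h1, h2⟩ := h
  exact ⟨l, fun a ha => (h1 a ha).imp fun z hz => ⟨hz.1.trans_le hxy, hz.2⟩, h2⟩

theorem Ob.basic {z : OO} (hz : z < x) (h : Q ∈ G z) : Q ∈ Ob G x :=
  ⟨[Q], by simpa using ⟨z, hz, h⟩, by simp⟩

theorem Ob.inter (hP : P ∈ Ob G x) (hQ : Q ∈ Ob G x) : P ∩ Q ∈ Ob G x := by
  obtain ⟨l, h1, rfl⟩ := hP
  obtain ⟨l', h2, rfl⟩ := hQ
  refine ⟨l ++ l', fun a ha => (List.mem_append.1 ha).elim (h1 a) (h2 a), ?_⟩
  ext t
  simp [or_imp, forall_and]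

theorem Ob.birth (hx : Good x) (h : Q ∈ Ob G x) : ∃ y < x, Q ∈ Ob G y := by
  obtain ⟨l, h1, h2⟩ := h
  choose! z hz using h1
  obtain ⟨b, hb, h3⟩ := hx (z '' {a | a ∈ l}) ((l.finite_toSet.image z).countable)
    (by rintro _ ⟨a, ha, rfl⟩; exact (hz a ha).1)
  exact ⟨b, hb, l, fun a ha => ⟨z a, h3 _ ⟨a, ha, rfl⟩, (hz a ha).2⟩, h2⟩

theorem Ob.congr {G' : OO → Set (Set T)} (h : ∀ z < x, G z = G' z) (hQ : Q ∈ Ob G x) :
    Q ∈ Ob G' x := by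
  obtain ⟨l, h1, h2⟩ := hQ
  refine ⟨l, fun a ha => ?_, h2⟩
  obtain ⟨z, h3, h4⟩ := h1 a ha
  exact ⟨z, h3, h z h3 ▸ h4⟩

theorem Ob.card (hG : ∀ z, (G z).Countable) : #(Ob G x) ≤ ℵ₁ := by
  have h1 : #(⋃ z : Iio x, G z) ≤ ℵ₁ := core_union_le (core_mk_Iio x) _ fun z =>
    (Cardinal.le_aleph0_iff_set_countable.2 (hG z)).trans Cardinal.aleph0_lt_aleph_one.le
  have h2 : Ob G x ⊆ range fun l : List (⋃ z : Iio x, G z) => ⋂ a ∈ l.map Subtype.val, a := by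
    rintro _ ⟨l, h3, rfl⟩
    refine ⟨l.attachWith _ fun a ha => ?_, by simp⟩
    obtain ⟨z, hz, h4⟩ := h3 a ha
    exact mem_iUnion.2 ⟨⟨z, hz⟩, h4⟩
  refine (Cardinal.mk_le_mk_of_subset h2).trans (Cardinal.mk_range_le.trans
    ((Cardinal.mk_list_le_max _).trans (max_le Cardinal.aleph0_lt_aleph_one.le h1)))

theorem Ob.meas [MeasurableSpace T] (hG : ∀ z, ∀ a ∈ G z, MeasurableSet a) (h : Q ∈ Ob G x) :
    MeasurableSet Q := by
  obtain ⟨l, h1, rfl⟩ := h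
  refine MeasurableSet.biInter l.finite_toSet.countable fun a ha => ?_
  obtain ⟨z, -, hz⟩ := h1 a ha
  exact hG z a hz

/-- objects with a tag at least `ρ` -/
def Tag (G : OO → Set (Set T)) (H : OO → Set T) (x ρ : OO) (P : Set T) : Prop :=
  P ∈ Ob G x ∧ ∃ δ, ρ ≤ δ ∧ δ < x ∧ P ⊆ H δ

theorem Tag.mono {ρ ρ' : OO} (h : Tag G H x ρ P) (h' : ρ' ≤ ρ) : Tag G H x ρ' P :=
  ⟨h.1, h.2.imp fun _ k => ⟨h'.trans k.1, k.2⟩⟩

variable [TopologicalSpace T] [SecondCountableTopology T] [MeasurableSpace T] [BorelSpace T]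
  {ν : Measure T} [IsProbabilityMeasure ν]

theorem core_eventually_null {R : II → Set T} (hm : ∀ i, MeasurableSet (R i))
    (hd : ∀ i j, j < i → Disjoint (R j) (R i)) : ∃ b, ∀ i, b ≤ i → ν (R i) = 0 := by
  obtain ⟨b, hb⟩ := exists_bound (Measure.countable_meas_pos_of_disjoint_iUnion (μ := ν) hm
    fun i j hij => (lt_or_gt_of_ne hij).elim (hd j i) fun h => (hd i j h).symm)
  refine ⟨b, fun i hi => ?_⟩
  by_contra h
  exact absurd (hb i (pos_iff_ne_zero.2 h)) (not_lt.2 hi)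

theorem core_L (hH : ∀ x, IsClosed (H x)) (hG : ∀ z, ∀ a ∈ G z, MeasurableSet a)
    (hR : ∀ x, ∀ Q ∈ Ob G x, RelOpen Q (H x) ∧ RelOpen (acc ν Q) (H x)) (hx : Good x)
    {A A' : Set T} (hA : Disjoint A A') :
    ∃ ρ < x, ∀ P Q, Tag G H x ρ P → Tag G H x ρ Q → ν (P \ A) = 0 → ν (Q \ A') = 0 →
      ν (acc ν P ∩ acc ν Q) = 0 := by
  by_contra h
  push Not at h
  obtain ⟨d, h1, h2⟩ := seq_II (fun d : OO × Set T × Set T => d.1 < x ∧ d.2.1 ∈ Ob G d.1 ∧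
      d.2.2 ∈ Ob G d.1 ∧ ν (d.2.1 \ A) = 0 ∧ ν (d.2.2 \ A') = 0 ∧
      ν (acc ν d.2.1 ∩ acc ν d.2.2) ≠ 0)
      (fun c d => (∃ δ, c.1 ≤ δ ∧ d.2.1 ⊆ H δ) ∧ ∃ δ, c.1 ≤ δ ∧ d.2.2 ⊆ H δ) fun C hC hok => by
    obtain ⟨ρ, hρ, k⟩ := hx _ (hC.image Prod.fst) (by rintro _ ⟨c, hc, rfl⟩; exact (hok c hc).1)
    obtain ⟨P, Q, ⟨p1, δ, p2, -, p3⟩, ⟨q1, δ', q2, -, q3⟩, k1, k2, k3⟩ := h ρ hρ
    obtain ⟨y, hy, p4⟩ := Ob.birth hx p1
    obtain ⟨y', hy', q4⟩ := Ob.birth hx q1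
    exact ⟨(max y y', P, Q), ⟨max_lt hy hy', Ob.mono p4 (le_max_left _ _),
      Ob.mono q4 (le_max_right _ _), k1, k2, k3⟩, fun c hc =>
      ⟨⟨δ, (k _ ⟨c, hc, rfl⟩).le.trans p2, p3⟩, δ', (k _ ⟨c, hc, rfl⟩).le.trans q2, q3⟩⟩
  have ha : ∀ i j, j < i → ∀ t ∈ acc ν (d i).2.2, t ∉ (d j).2.1 := fun i j hj t ht ht' => by
    obtain ⟨δ, k1, k2⟩ := (h2 i j hj).2
    obtain ⟨u, u1, u2, u3⟩ := (hR δ _ (Ob.mono (h1 j).2.1 k1)).1 t ht' (acc_subset k2 (hH δ) ht)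
    refine ht u u1 u2 (measure_mono_null (fun s hs => ?_)
      (measure_union_null (h1 j).2.2.2.1 (h1 i).2.2.2.2.1))
    by_cases h3 : s ∈ A
    · exact Or.inr ⟨hs.2, disjoint_left.1 hA h3⟩
    · exact Or.inl ⟨u3 ⟨hs.1, k2 hs.2⟩, h3⟩
  have hP : ∀ i, MeasurableSet (d i).2.1 := fun i => Ob.meas hG (h1 i).2.1
  obtain ⟨b, hb⟩ := core_eventually_null (ν := ν)
    (R := fun i => (d i).2.1 \ ⋃ j ∈ Iio i, (d j).2.1)
    (fun i => (hP i).diff (MeasurableSet.biUnion (countable_Iio i) fun j _ => hP j))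
    fun i j hj => disjoint_left.2 fun t h3 h4 => h4.2 (mem_biUnion hj h3.1)
  obtain ⟨i, j, hij, hi, t, h3, h4⟩ : ∃ i j, i < j ∧ b ≤ i ∧ ∃ t, t ∈ acc ν (d i).2.2 ∧
      t ∈ acc ν (d j).2.1 := by
    by_contra hc
    push Not at hc
    obtain ⟨b', hb'⟩ := core_eventually_null (ν := ν)
      (R := fun i => if b ≤ i then acc ν (d i).2.1 ∩ acc ν (d i).2.2 else ∅)
      (fun i => by
        split_ifs
        exacts [(isClosed_acc.inter isClosed_acc).measurableSet, MeasurableSet.empty])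
      fun i j hj => disjoint_left.2 fun t h3 h4 => by
        split_ifs at h3 h4 with h5 h6
        · exact hc j i hj h5 t h3.2 h4.1
        all_goals first | exact h4 | exact h3
    have := hb' (max b b') (le_max_right _ _)
    rw [if_pos (le_max_left _ _)] at this
    exact (h1 _).2.2.2.2.2 this
  obtain ⟨δ, k1, k2⟩ := (h2 j i hij).1
  obtain ⟨u, u1, u2, u3⟩ := (hR δ _ (Ob.mono (h1 i).2.2.1 k1)).2 t h3 (acc_subset k2 (hH δ) h4)
  have hc : (Icc i j).Countable := ((countable_Iio j).insert j).mono fun k hk =>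
    (eq_or_lt_of_le hk.2).elim Or.inl Or.inr
  refine h4 u u1 u2 (measure_mono_null (fun s hs => ?_)
    ((measure_biUnion_null_iff hc).2 fun k hk => hb k (hi.trans hk.1)))
  have h5 : ∃ k, s ∈ (d k).2.1 := ⟨j, hs.2⟩
  have h6 := wellFounded_lt.min_mem {k | s ∈ (d k).2.1} h5
  have h7 := fun k hk => wellFounded_lt.not_lt_min {k | s ∈ (d k).2.1} (x := k) hk
  refine mem_biUnion (x := wellFounded_lt.min {k | s ∈ (d k).2.1} h5)
    ⟨not_lt.1 fun h8 => ha i _ h8 s (u3 ⟨hs.1, k2 hs.2⟩) h6, not_lt.1 (h7 j hs.2)⟩ ⟨h6, fun h8 => ?_⟩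
  obtain ⟨k, h9, h10⟩ := mem_iUnion₂.1 h8
  exact h7 k h10 h9

theorem core_step (hH : ∀ x, IsClosed (H x)) (hG : ∀ z, ∀ a ∈ G z, MeasurableSet a)
    (hR : ∀ x, ∀ Q ∈ Ob G x, RelOpen Q (H x) ∧ RelOpen (acc ν Q) (H x)) (hx : Good x)
    {f : T → ℝ} (hf : Measurable f)
    (hE : ν ({t | f t ≤ 0} ∩ acc ν (H x ∩ {t | 3 / 4 ≤ f t})) ≠ 0) :
    ∃ ρ < x, ∀ γ < x, ∃ (ψ : T → ℝ) (δ : OO) (Z : Set T), (ψ = f ∨ ψ = fun t => 1 - f t) ∧
      γ ≤ δ ∧ δ ≤ x ∧ MeasurableSet Z ∧ ν Z ≠ 0 ∧ Z ⊆ H δ ∧ (∀ t ∈ Z, 3 / 4 ≤ ψ t) ∧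
      ∀ P, Tag G H x ρ P → ν (P ∩ {t | ψ t ≤ 1 / 2}) = 0 → ν (acc ν P ∩ Z) = 0 := by
  have hsub : acc ν (H x ∩ {t | 3 / 4 ≤ f t}) ⊆ H x := acc_subset inter_subset_left (hH x)
  by_cases h : ∃ ρ < x, ∀ Q, Tag G H x ρ Q → ν (Q \ {t | f t < 1 / 2}) = 0 →
      ν (acc ν Q ∩ ({t | f t ≤ 0} ∩ acc ν (H x ∩ {t | 3 / 4 ≤ f t}))) = 0
  · obtain ⟨ρ, hρ, h⟩ := h
    refine ⟨ρ, hρ, fun γ hγ => ⟨fun t => 1 - f t, x, _, Or.inr rfl, hγ.le, le_rfl,
      (measurableSet_le hf measurable_const).inter isClosed_acc.measurableSet, hE,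
      inter_subset_right.trans hsub, fun t ht => ?_, fun P hP h0 => h P hP ?_⟩⟩
    · have : f t ≤ 0 := ht.1
      linarith
    · refine measure_mono_null (fun t ht => mem_inter ht.1 ?_) h0
      have : ¬ f t < 1 / 2 := ht.2
      show 1 - f t ≤ 1 / 2
      linarith
  push Not at h
  obtain ⟨ρ, hρ, hL⟩ := core_L (ν := ν) hH hG hR hx (A := {t | 1 / 2 < f t})
    (A' := {t | f t < 1 / 2}) (disjoint_left.2 fun t (h1 : 1 / 2 < f t) (h2 : f t < 1 / 2) =>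
      lt_asymm h1 h2)
  refine ⟨ρ, hρ, fun γ hγ => ?_⟩
  obtain ⟨Q, q1, q2, q3⟩ := h (max ρ γ) (max_lt hρ hγ)
  obtain ⟨δ, d1, d2, d3⟩ := q1.2
  refine ⟨f, δ, acc ν Q ∩ {t | 3 / 4 ≤ f t}, Or.inl rfl, (le_max_right _ _).trans d1, d2.le,
    isClosed_acc.measurableSet.inter (measurableSet_le measurable_const hf), fun h0 => ?_,
    inter_subset_left.trans (acc_subset d3 (hH δ)), fun t ht => ht.2, fun P hP h0 => ?_⟩
  · obtain ⟨t, t1, -, t2⟩ := nonempty_of_measure_ne_zero q3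
    obtain ⟨u, u1, u2, u3⟩ := (hR x Q q1.1).2 t t1 (hsub t2)
    exact t2 u u1 u2 (measure_mono_null (fun s hs => mem_inter (u3 ⟨hs.1, hs.2.1⟩) hs.2.2) h0)
  · refine measure_mono_null (inter_subset_inter_right _ inter_subset_left)
      (hL P Q hP (q1.mono (le_max_left _ _)) (measure_mono_null (fun t ht => ?_) h0) q2)
    exact mem_inter ht.1 (show f t ≤ 1 / 2 from not_lt.1 ht.2)

theorem core_local {Z B : Set T}
    (h : ∀ u ∈ countableBasis T, ν (P ∩ u ∩ B) = 0 → ν (acc ν (P ∩ u) ∩ Z) = 0) :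
    ν ((acc ν P ∩ Z) \ acc ν (P ∩ B)) = 0 := by
  have hc : {u ∈ countableBasis T | ν (P ∩ u ∩ B) = 0}.Countable :=
    (countable_countableBasis T).mono fun _ hu => hu.1
  refine measure_mono_null (fun t ht => ?_)
    ((measure_biUnion_null_iff hc).2 fun u hu => h u hu.1 hu.2)
  have := ht.2
  simp only [acc, mem_ofPred_eq, not_forall, not_not] at this
  obtain ⟨v, v1, v2, v3⟩ := this
  obtain ⟨u, u1, u2, u3⟩ := (isBasis_countableBasis T).exists_subset_of_mem_open v2 v1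
  exact mem_biUnion (x := u) ⟨u1, measure_mono_null
    (fun s hs => mem_inter (u3 hs.1.2) (mem_inter hs.1.1 hs.2)) v3⟩
    ⟨acc_inter_open (isOpen_of_mem_countableBasis u1) ⟨ht.1.1, u2⟩, ht.1.2⟩

/-- the generators attached to a closed set and a function -/
def gens (h : Set T) (f : T → ℝ) : Set (Set T) :=
  insert h (insert {t | 3 / 4 ≤ f t} (insert {t | f t ≤ 1 / 2} (insert {t | 3 / 4 ≤ 1 - f t}
    (insert {t | 1 - f t ≤ 1 / 2} (countableBasis T)))))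

theorem gens_countable (h : Set T) (f : T → ℝ) : (gens h f).Countable :=
  (((((countable_countableBasis T).insert _).insert _).insert _).insert _).insert _

theorem gens_meas {h : Set T} {f : T → ℝ} (hh : IsClosed h) (hf : Measurable f) :
    ∀ a ∈ gens h f, MeasurableSet a := by
  have h1 : Measurable fun t => 1 - f t := measurable_const.sub hf
  rintro a (rfl | rfl | rfl | rfl | rfl | ha)
  exacts [hh.measurableSet, measurableSet_le measurable_const hf,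
    measurableSet_le hf measurable_const, measurableSet_le measurable_const h1,
    measurableSet_le h1 measurable_const, (isOpen_of_mem_countableBasis ha).measurableSet]

theorem gens_psi {h : Set T} {f ψ : T → ℝ} (hψ : ψ = f ∨ ψ = fun t => 1 - f t) :
    {t | 3 / 4 ≤ ψ t} ∈ gens h f ∧ {t | ψ t ≤ 1 / 2} ∈ gens h f := by
  rcases hψ with rfl | rfl <;> simp [gens]

end objects

theorem free_core (hL : Loc) (hP : Pre) {T : Type} [TopologicalSpace T]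
    [SecondCountableTopology T] [MeasurableSpace T] [BorelSpace T] (ν : Measure T)
    [IsProbabilityMeasure ν] [ν.OuterRegular] (Φ : Set (T → ℝ)) (hm : ∀ φ ∈ Φ, Measurable φ)
    (h1 : ∀ φ ∈ Φ, (fun t => 1 - φ t) ∈ Φ) {ε : ℝ≥0∞} (hε : ε ≠ 0)
    (gen : ∀ H, IsClosed H → ν Hᶜ ≤ ε →
      ∃ φ ∈ Φ, ν ({t | φ t ≤ 0} ∩ acc ν (H ∩ {t | 3 / 4 ≤ φ t})) ≠ 0) :
    ∃ (Γ : Set II) (ψ : II → T → ℝ), Unb Γ ∧ (∀ i, ψ i ∈ Φ) ∧
      ∀ j ∈ Γ, ∀ F G : Finset II, (∀ i ∈ F, i ∈ Γ ∧ i < j) → (∀ i ∈ G, i ∈ Γ ∧ j < i) →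
        ∃ P, MeasurableSet P ∧ ν P ≠ 0 ∧ (∀ i ∈ F, ∀ t ∈ P, 3 / 4 ≤ ψ i t) ∧
          ∀ i ∈ G, ∀ t ∈ P, ψ i t ≤ 1 / 2 := by
  classical
  let D := {d : Set T × (T → ℝ) // IsClosed d.1 ∧ d.2 ∈ Φ ∧
    ν ({t | d.2 t ≤ 0} ∩ acc ν (d.1 ∩ {t | 3 / 4 ≤ d.2 t})) ≠ 0}
  obtain ⟨φ₀, a1, a2⟩ := gen univ isClosed_univ (by simp)
  obtain ⟨d, hd⟩ := rec_choice (I := OO) (⟨(univ, φ₀), isClosed_univ, a1, a2⟩ : D)
    (fun x g d => ∀ Q ∈ Ob (fun z => gens (g z).1.1 (g z).1.2) x,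
      RelOpen Q d.1.1 ∧ RelOpen (acc ν Q) d.1.1) fun x g => by
      have hc := Ob.card (G := fun z => gens (g z).1.1 (g z).1.2) (x := x)
        fun z => gens_countable _ _
      obtain ⟨H, k1, k2, k3⟩ := cap hL ν (ι := Ob (fun z => gens (g z).1.1 (g z).1.2) x × Bool)
        (by
          rw [Cardinal.mk_prod, Cardinal.lift_id, Cardinal.lift_id]
          exact (mul_le_mul' hc (Cardinal.mk_le_aleph0.trans Cardinal.aleph0_lt_aleph_one.le)).trans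
            (Cardinal.mul_eq_self Cardinal.aleph0_lt_aleph_one.le).le)
        (fun p => if p.2 then p.1.1 else acc ν p.1.1) (fun p => by
          split_ifs
          exacts [Ob.meas (fun z => gens_meas (g z).2.1 (hm _ (g z).2.2.1)) p.1.2,
            isClosed_acc.measurableSet]) hε
      obtain ⟨φ, b1, b2⟩ := gen H k1 k2
      exact ⟨⟨(H, φ), k1, b1, b2⟩, fun Q hQ => ⟨k3 (⟨Q, hQ⟩, true), k3 (⟨Q, hQ⟩, false)⟩⟩
  set H : OO → Set T := fun x => (d x).1.1 with hH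
  set φ : OO → T → ℝ := fun x => (d x).1.2 with hφ
  set G : OO → Set (Set T) := fun z => gens (H z) (φ z) with hG
  have hcl : ∀ x, IsClosed (H x) := fun x => (d x).2.1
  have hΦ : ∀ x, φ x ∈ Φ := fun x => (d x).2.2.1
  have hGm : ∀ z, ∀ a ∈ G z, MeasurableSet a := fun z => gens_meas (hcl z) (hm _ (hΦ z))
  have hR : ∀ x, ∀ Q ∈ Ob G x, RelOpen Q (H x) ∧ RelOpen (acc ν Q) (H x) := fun x Q hQ =>
    hd x Q (Ob.congr (fun z hz => by simp only [if_pos hz]; rfl) hQ)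
  choose! ρ hρ hstep using fun x (hx : Good x) =>
    core_step (ν := ν) hcl hGm hR hx (hm _ (hΦ x)) (d x).2.2.2
  obtain ⟨r, hr⟩ := core_fodor ρ hρ
  obtain ⟨x, hx, hlt⟩ := seq_II (fun x : OO => Good x ∧ ρ x ≤ r ∧ r < x) (fun c d => c < d)
    fun C hC _ => by
      obtain ⟨b, hb⟩ := core_bound' hC
      obtain ⟨x, k1, k2, k3, k4⟩ := hr b
      exact ⟨x, ⟨k1, k2, k3⟩, fun c hc => (hb c hc).trans k4⟩
  choose ψ δ Z s1 s2 s3 s4 s5 s6 s7 s8 using fun i => hstep (x i) (hx i).1 r (hx i).2.2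
  obtain ⟨Γ, hΓ, hpos⟩ := hP T ν Z s4 s5
  refine ⟨Γ, ψ, hΓ, fun i => ?_, fun j hj F G' hF hG' => ?_⟩
  · rcases s1 i with h | h <;> rw [h]
    exacts [hΦ _, h1 _ (hΦ _)]
  have hobF : ∀ F : Finset II, (∀ i ∈ F, i < j) → ∀ y, x j < y →
      H (δ j) ∩ ⋂ i ∈ F, {t | 3 / 4 ≤ ψ i t} ∈ Ob G y := by
    intro F hF y hy
    induction F using Finset.induction_on with
    | empty => simpa using Ob.basic ((s3 j).trans_lt hy) (mem_insert _ _)
    | insert a F ha ih =>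
      rw [Finset.set_biInter_insert, inter_left_comm]
      exact Ob.inter (Ob.basic ((hlt _ _ (hF a (Finset.mem_insert_self _ _))).trans hy)
        (gens_psi (s1 a)).1) (ih fun i hi => hF i (Finset.mem_insert_of_mem hi))
  set P₀ := H (δ j) ∩ ⋂ i ∈ F, {t | 3 / 4 ≤ ψ i t} with hP₀
  have key : ∀ G' : Finset II, (∀ i ∈ G', j < i) →
      (∀ y, x j < y → (∀ i ∈ G', x i < y) → P₀ ∩ ⋂ i ∈ G', {t | ψ i t ≤ 1 / 2} ∈ Ob G y) ∧
      ν ((P₀ ∩ ⋂ i ∈ G', Z i) \ acc ν (P₀ ∩ ⋂ i ∈ G', {t | ψ i t ≤ 1 / 2})) = 0 := by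
    intro G'
    induction G' using Finset.induction_on_max with
    | empty =>
      intro _
      exact ⟨fun y hy _ => by simpa using hobF F (fun i hi => (hF i hi).2) y hy,
        by simpa using null_diff_acc⟩
    | insert a G' ha ih =>
      intro hj'
      obtain ⟨i1, i2⟩ := ih fun i hi => hj' i (Finset.mem_insert_of_mem hi)
      have hja := hlt _ _ (hj' a (Finset.mem_insert_self _ _))
      have e : P₀ ∩ ⋂ i ∈ insert a G', {t | ψ i t ≤ 1 / 2} =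
          (P₀ ∩ ⋂ i ∈ G', {t | ψ i t ≤ 1 / 2}) ∩ {t | ψ a t ≤ 1 / 2} := by
        rw [Finset.set_biInter_insert, inter_comm {t | ψ a t ≤ 1 / 2}, inter_assoc P₀]
      rw [e]
      refine ⟨fun y hy hy' => Ob.inter (i1 y hy fun i hi => hy' i (Finset.mem_insert_of_mem hi))
        (Ob.basic (hy' a (Finset.mem_insert_self _ _)) (gens_psi (s1 a)).2), ?_⟩
      have i3 := core_local (ν := ν) (P := P₀ ∩ ⋂ i ∈ G', {t | ψ i t ≤ 1 / 2}) (Z := Z a)
        (B := {t | ψ a t ≤ 1 / 2}) fun u hu => s8 a _ ⟨Ob.inter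
          (i1 _ hja fun i hi => hlt _ _ (ha i hi)) (Ob.basic hja (by simp [hG, gens, hu])),
          δ j, (hx a).2.1.trans (s2 j), (s3 j).trans_lt hja, fun t ht => ht.1.1.1⟩
      refine measure_mono_null (fun t ht => ?_) (measure_union_null i2 i3)
      have t1 := ht.1.2
      rw [Finset.set_biInter_insert] at t1
      by_cases h : t ∈ acc ν (P₀ ∩ ⋂ i ∈ G', {t | ψ i t ≤ 1 / 2})
      · exact Or.inr ⟨⟨h, t1.1⟩, ht.2⟩
      · exact Or.inl ⟨⟨ht.1.1, t1.2⟩, h⟩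
  obtain ⟨k1, k2⟩ := key G' fun i hi => (hG' i hi).2
  obtain ⟨y, hy⟩ := core_bound mk_II.le x
  refine ⟨_, Ob.meas hGm (k1 y (hy j) fun i _ => hy i), ?_,
    fun i hi t ht => mem_iInter₂.1 ht.1.2 i hi, fun i hi t ht => mem_iInter₂.1 ht.2 i hi⟩
  have k3 := hpos (insert j (F ∪ G')) fun i hi => by
    rcases Finset.mem_insert.1 hi with rfl | hi
    · exact hj
    · exact (Finset.mem_union.1 hi).elim (fun h => (hF i h).1) fun h => (hG' i h).1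
  intro h0
  refine k3 (measure_mono_null (fun t ht => ?_) k2)
  have ht' := mem_iInter₂.1 ht
  refine ⟨⟨⟨s6 j (ht' j (Finset.mem_insert_self _ _)), mem_iInter₂.2 fun i hi => s7 i t
    (ht' i (by simp [hi]))⟩, mem_iInter₂.2 fun i hi => ht' i (by simp [hi])⟩,
    fun h => ne_zero_of_mem_acc h h0⟩

end Pool.Agent.P.MP_5a7e2f_gt.Ad
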