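import Pool.Agent.P.MP_5a7e2f_gt.AdDefs

set_option autoImplicit false
set_option linter.unusedSectionVars false

open Set Filter Topology MeasureTheory TopologicalSpace
open scoped ENNReal Cardinal

namespace Pool.Agent.P.MP_5a7e2f_gt.Ad

theorem cyl_meas {J : Type} {c : Set (J → Bool)} {s : Finset J} (h : DepOn c s) :
    MeasurableSet c := by
  have e : c = (fun x (j : s) => x j) ⁻¹' ((fun x (j : s) => x j) '' c) := by
    ext y
    refine ⟨fun hy => ⟨y, hy, rfl⟩, ?_⟩
    rintro ⟨x, hx, e⟩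
    exact h x y (fun j hj => congrFun e ⟨j, hj⟩) hx
  rw [e]
  exact (measurable_pi_lambda _ fun j => measurable_pi_apply _) (Set.toFinite _).measurableSet

theorem cyl_cover {J : Type} {N : Set (J → Bool)} (hN : coin J N = 0) {ε : ℝ≥0∞} (hε : ε ≠ 0) :
    ∃ (s : ℕ → Finset J) (b : ℕ → Set (J → Bool)), Monotone b ∧ (∀ n, DepOn (b n) (s n)) ∧
      N ⊆ ⋃ n, b n ∧ coin J (⋃ n, b n) ≤ ε := by
  classical
  obtain ⟨M, hNM, hM, h0⟩ := exists_measurable_superset_of_null hN
  obtain ⟨I, t, hI, rfl⟩ := hM.eq_preimage_restrict_countable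
  have : Countable I := hI.to_subtype
  have hr : Measurable (I.domRestrict : (J → Bool) → I → Bool) :=
    measurable_pi_lambda _ fun j => measurable_pi_apply _
  have ht : MeasurableSet t := by
    have hm : Measurable fun (z : I → Bool) (j : J) => if h : j ∈ I then z ⟨j, h⟩ else false :=
      measurable_pi_lambda _ fun j => by
        split_ifs
        · exact measurable_pi_apply _
        · exact measurable_const
    convert hm hM using 1
    ext z
    have : I.domRestrict (fun j : J => if h : j ∈ I then z ⟨j, h⟩ else false) = z :=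
      funext fun j => dif_pos j.2
    simp only [mem_preimage, this]
  have h1 : ((coin J).map I.domRestrict) t < ε := by
    rw [Measure.map_apply hr ht, h0]
    exact pos_iff_ne_zero.2 hε
  obtain ⟨U, hU, hUo, hUε⟩ := Set.exists_isOpen_lt_of_lt t ε h1
  rw [Measure.map_apply hr hUo.measurableSet] at hUε
  obtain ⟨f, hf⟩ := exists_injective_nat I
  have hfin : ∀ n, (Subtype.val '' {j : I | f j < n}).Finite := fun n =>
    ((Set.finite_lt_nat n).preimage hf.injOn).image _
  let W : Set (J → Bool) := (I.domRestrict : (J → Bool) → I → Bool) ⁻¹' U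
  let b : ℕ → Set (J → Bool) := fun n =>
    {x | ∀ y : J → Bool, (∀ j ∈ (hfin n).toFinset, x j = y j) → y ∈ W}
  have hb : ⋃ n, b n ⊆ W := iUnion_subset fun n x hx => hx x fun _ _ => rfl
  refine ⟨fun n => (hfin n).toFinset, b, fun m n hmn x hx y hy => hx y fun j hj => hy j ?_,
    fun n x y hxy hx z hz => hx z fun j hj => (hxy j hj).trans (hz j hj), fun x hx => ?_,
    (measure_mono hb).trans hUε.le⟩
  · rw [Set.Finite.mem_toFinset] at hj ⊢
    obtain ⟨i, hi, rfl⟩ := hj
    exact ⟨i, lt_of_lt_of_le hi hmn, rfl⟩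
  · obtain ⟨F, u, hu, hF⟩ := isOpen_pi_iff.1 hUo _ (hU (hNM hx))
    refine mem_iUnion.2 ⟨F.sup f + 1, fun y hy => hF fun j hj => ?_⟩
    have := hy j ((Set.Finite.mem_toFinset _).2 ⟨j, Nat.lt_succ_of_le (Finset.le_sup hj), rfl⟩)
    have h2 := (hu j hj).2
    change x j ∈ u j at h2
    change y j ∈ u j
    rwa [← this]

theorem cyl_pieces {J : Type} {N : Set (J → Bool)} (hN : coin J N = 0) (e : ℕ → ℝ≥0∞)
    (he : ∀ k, e k ≠ 0) :
    ∃ (s : ℕ → Finset J) (p : ℕ → Set (J → Bool)), (∀ k, DepOn (p k) (s k)) ∧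
      (∀ k, coin J (p k) ≤ e k) ∧ ∀ x ∈ N, ∃ k, x ∈ p k := by
  classical
  obtain ⟨s, b, hb, hs, hc, h0⟩ := cyl_cover hN (he 0)
  have hm : ∀ n, MeasurableSet (b n) := fun n => cyl_meas (hs n)
  have ht : Tendsto (fun n => coin J ((⋃ i, b i) \ b n)) atTop (𝓝 0) := by
    have := tendsto_measure_iInter_atTop (μ := coin J) (s := fun n => (⋃ i, b i) \ b n)
      (fun n => ((MeasurableSet.iUnion hm).diff (hm n)).nullMeasurableSet)
      (fun m n h => Set.sdiff_subset_sdiff_right (hb h)) ⟨0, measure_ne_top _ _⟩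
    rwa [← Set.sdiff_iUnion, Set.sdiff_self, measure_empty] at this
  have hn : ∀ j, ∃ n, j ≤ n ∧ coin J ((⋃ i, b i) \ b n) ≤ e (j + 1) := fun j =>
    ((eventually_ge_atTop j).and
      (ht.eventually (ge_mem_nhds (pos_iff_ne_zero.2 (he (j + 1)))))).exists
  choose n hn1 hn2 using hn
  refine ⟨fun j => Nat.casesOn j (s (n 0)) fun j => s (n (j + 1)) ∪ s (n j),
    fun j => Nat.casesOn j (b (n 0)) fun j => b (n (j + 1)) \ b (n j), ?_, ?_, fun x hx => ?_⟩
  · rintro (_ | j)
    · exact hs _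
    · exact fun x y h hx => ⟨hs _ x y (fun i hi => h i (Finset.mem_union_left _ hi)) hx.1,
        fun hy => hx.2 (hs _ y x (fun i hi => (h i (Finset.mem_union_right _ hi)).symm) hy)⟩
  · rintro (_ | j)
    · exact (measure_mono (subset_iUnion b _)).trans h0
    · exact (measure_mono (Set.sdiff_subset_sdiff_left (subset_iUnion b _))).trans (hn2 j)
  · obtain ⟨m, hm⟩ := mem_iUnion.1 (hc hx)
    have h : ∃ j, x ∈ b (n j) := ⟨m, hb (hn1 m) hm⟩
    refine ⟨Nat.find h, ?_⟩
    have h1 := Nat.find_spec h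
    have h2 := fun j => Nat.find_min h (m := j)
    rcases e : Nat.find h with _ | j
    · rwa [e] at h1
    · rw [e] at h1 h2
      exact ⟨h1, h2 j (Nat.lt_succ_self j)⟩

theorem null_cyl {J : Type} {N : Set (J → Bool)} (hN : coin J N = 0) (e : ℕ → ℝ≥0∞)
    (he : ∀ k, e k ≠ 0) :
    ∃ (s : ℕ → Finset J) (c : ℕ → Set (J → Bool)), (∀ k, DepOn (c k) (s k)) ∧
      (∀ k, coin J (c k) ≤ e k) ∧ ∀ x ∈ N, ∃ᶠ k in atTop, x ∈ c k := by
  choose s p h1 h2 h3 using fun k => cyl_pieces hN (fun j => e (Nat.pair k j)) fun j => he _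
  refine ⟨fun m => s m.unpair.1 m.unpair.2, fun m => p m.unpair.1 m.unpair.2, fun m => h1 _ _,
    fun m => by simpa using h2 m.unpair.1 m.unpair.2, fun x hx => frequently_atTop.2 fun k => ?_⟩
  obtain ⟨j, hj⟩ := h3 k x hx
  exact ⟨Nat.pair k j, Nat.left_le_pair k j, by simpa using hj⟩

end Pool.Agent.P.MP_5a7e2f_gt.Ad
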