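import Pool.Agent.P.MP_5a7e2f_gt.Scheme

namespace Pool.Agent.P.MP_5a7e2f_gt

open MeasureTheory Set Filter Topology

lemma countable_latticeClosure {S : Type} {𝓕 : Set (Set S)} (h : 𝓕.Countable) :
    (latticeClosure 𝓕).Countable := by
  have h1 : (infClosure 𝓕).Countable := by
    refine ((countable_ofPred_finite_subset h).image fun t => ⋂₀ t).mono ?_
    rintro _ ⟨t, ht, hts, rfl⟩
    refine ⟨t, ⟨t.finite_toSet, hts⟩, ?_⟩
    ext x
    simp [Finset.inf'_eq_inf, Finset.inf_set_eq_iInter]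
  rw [← supClosure_infClosure]
  refine ((countable_ofPred_finite_subset h1).image fun t => ⋃₀ t).mono ?_
  rintro _ ⟨t, ht, hts, rfl⟩
  refine ⟨t, ⟨t.finite_toSet, hts⟩, ?_⟩
  ext x
  simp [Finset.sup'_eq_sup, Finset.sup_set_eq_biUnion]

section

variable {S : Type} [TopologicalSpace S] [MeasurableSpace S] (μ : Measure S)
  [IsProbabilityMeasure μ] (𝓖 : Set (Set S))

/-- inner approximation by members of a family -/
def ApprR (U : Set S) : Prop := ∀ ε > 0, ∃ F ∈ 𝓖, F ⊆ U ∧ μ.real (U \ F) < ε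

variable {μ 𝓖}

omit [TopologicalSpace S] in
lemma ApprR.inter (h𝓖 : IsSublattice 𝓖) {U V : Set S} (hU : ApprR μ 𝓖 U) (hV : ApprR μ 𝓖 V) :
    ApprR μ 𝓖 (U ∩ V) := by
  intro ε hε
  obtain ⟨F, h1, h2, h3⟩ := hU (ε / 2) (by positivity)
  obtain ⟨G, h4, h5, h6⟩ := hV (ε / 2) (by positivity)
  refine ⟨F ∩ G, h𝓖.infClosed h1 h4, inter_subset_inter h2 h5, ?_⟩
  have : (U ∩ V) \ (F ∩ G) ⊆ (U \ F) ∪ (V \ G) := by
    intro s hs
    by_cases h : s ∈ F
    · exact Or.inr ⟨hs.1.2, fun h' => hs.2 ⟨h, h'⟩⟩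
    · exact Or.inl ⟨hs.1.1, h⟩
  have := (measureReal_mono (μ := μ) this).trans (measureReal_union_le _ _)
  linarith

omit [TopologicalSpace S] in
lemma ApprR.union (h𝓖 : IsSublattice 𝓖) {U V : Set S} (hU : ApprR μ 𝓖 U) (hV : ApprR μ 𝓖 V) :
    ApprR μ 𝓖 (U ∪ V) := by
  intro ε hε
  obtain ⟨F, h1, h2, h3⟩ := hU (ε / 2) (by positivity)
  obtain ⟨G, h4, h5, h6⟩ := hV (ε / 2) (by positivity)
  refine ⟨F ∪ G, h𝓖.supClosed h1 h4, union_subset_union h2 h5, ?_⟩
  have : (U ∪ V) \ (F ∪ G) ⊆ (U \ F) ∪ (V \ G) := by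
    rintro s ⟨hs | hs, hs'⟩
    · exact Or.inl ⟨hs, fun h => hs' (Or.inl h)⟩
    · exact Or.inr ⟨hs, fun h => hs' (Or.inr h)⟩
  have := (measureReal_mono (μ := μ) this).trans (measureReal_union_le _ _)
  linarith

omit [TopologicalSpace S] [IsProbabilityMeasure μ] in
lemma ApprR.of_mem {U : Set S} (h : U ∈ 𝓖) : ApprR μ 𝓖 U := fun ε hε =>
  ⟨U, h, Subset.rfl, by simpa using hε⟩

end

/-- approximation of one subbasic set -/
lemma appr_sub {S : Type} [TopologicalSpace S] [MeasurableSpace S] [BorelSpace S]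
    (μ : Measure S) [IsProbabilityMeasure μ] {g : S → ℝ} (hg : Continuous g) (γ : ℝ) {ε : ℝ}
    (hε : 0 < ε) : ∃ α β : ℚ, γ < α ∧ α < β ∧ μ.real ({s | γ < g s} \ {s | β < g s}) < ε := by
  have h1 : Tendsto (fun n : ℕ => μ ({s | γ < g s} \ {s | γ + 1 / ((n : ℝ) + 1) < g s})) atTop
      (𝓝 (μ (⋂ n : ℕ, {s | γ < g s} \ {s | γ + 1 / ((n : ℝ) + 1) < g s}))) := by
    refine tendsto_measure_iInter_atTop (fun n => ?_) (fun n m hnm s hs => ⟨hs.1, fun h => hs.2 ?_⟩)
      ⟨0, measure_ne_top _ _⟩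
    · exact ((isOpen_lt continuous_const hg).measurableSet.diff
        (isOpen_lt continuous_const hg).measurableSet).nullMeasurableSet
    · have := Nat.one_div_le_one_div (α := ℝ) hnm
      have h' : γ + 1 / ((n : ℝ) + 1) < g s := h
      show γ + 1 / ((m : ℝ) + 1) < g s
      linarith
  have h2 : (⋂ n : ℕ, {s | γ < g s} \ {s | γ + 1 / ((n : ℝ) + 1) < g s}) = ∅ := by
    refine eq_empty_of_forall_notMem fun s hs => ?_
    obtain ⟨n, hn⟩ := exists_nat_one_div_lt (sub_pos.2 (show γ < g s from (mem_iInter.1 hs 0).1))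
    exact (mem_iInter.1 hs n).2 (show γ + 1 / ((n : ℝ) + 1) < g s by linarith)
  rw [h2, measure_empty] at h1
  obtain ⟨n, hn⟩ := (h1.eventually (gt_mem_nhds (ENNReal.ofReal_pos.2 hε))).exists
  obtain ⟨β, h3, h4⟩ := exists_rat_btwn
    (show γ < γ + 1 / ((n : ℝ) + 1) from lt_add_of_pos_right _ (by positivity))
  obtain ⟨α, h5, h6⟩ := exists_rat_btwn h3
  refine ⟨α, β, h5, by exact_mod_cast h6, lt_of_le_of_lt (measureReal_mono
    (s₂ := {s | γ < g s} \ {s | γ + 1 / ((n : ℝ) + 1) < g s}) fun s hs =>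
      ⟨hs.1, fun h => hs.2 (h4.trans h)⟩) ?_⟩
  exact ENNReal.toReal_lt_of_lt_ofReal hn

theorem exists_family {S X : Type} [TopologicalSpace S] [CompactSpace S] [T2Space S]
    [MeasurableSpace S] [BorelSpace S] [MetricSpace X] [CompleteSpace X]
    [SecondCountableTopology X] (μ : Measure S) [IsProbabilityMeasure μ] [μ.Regular]
    (e : S → X → ℝ) (he : Continuous e) (hi : Function.Injective e)
    (hF : ∀ s ∈ μ.support, Frag (e s)) :
    ∃ 𝓖 : Set (Set S), 𝓖.Countable ∧ (∀ F ∈ 𝓖, IsClosed F) ∧ ∀ U, IsOpen U → ApprR μ 𝓖 U := by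
  have hsupp : μ μ.supportᶜ = 0 := Measure.measure_compl_support_of_regular
  have hx : ∀ x, Continuous fun s => e s x := fun x => (continuous_apply x).comp he
  have T : ∀ p : ℚ × ℚ × ℕ, p.1 < p.2.1 → Tiny μ e p.1 p.2.1 (1 / ((p.2.2 : ℝ) + 1)) univ :=
    fun p hp => tiny_univ μ hsupp e he hF (by exact_mod_cast hp) (by positivity)
  choose! 𝒴 h1 h2 h3 using T
  set 𝓕 : Set (Set S) := {∅, univ} ∪ ⋃ p ∈ {p : ℚ × ℚ × ℕ | p.1 < p.2.1},
    ((fun Z => {s | ∀ x ∈ Z, (p.1 : ℝ) ≤ e s x}) '' 𝒴 p ∪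
      (fun Z => {s | ∀ x ∈ Z, e s x ≤ (p.2.1 : ℝ)}) '' 𝒴 p) with h𝓕
  have hc : 𝓕.Countable := (Set.toFinite _).countable.union
    ((to_countable _).biUnion fun p hp => ((h1 p hp).image _).union ((h1 p hp).image _))
  have hcl : ∀ F ∈ 𝓕, IsClosed F := by
    rintro F (hF | hF)
    · rcases hF with rfl | rfl
      exacts [isClosed_empty, isClosed_univ]
    · obtain ⟨p, _, ⟨Z, _, rfl⟩ | ⟨Z, _, rfl⟩⟩ := mem_iUnion₂.1 hF
      · simp only [ofPred_forall]
        exact isClosed_biInter fun x _ => isClosed_le continuous_const (hx x)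
      · simp only [ofPred_forall]
        exact isClosed_biInter fun x _ => isClosed_le (hx x) continuous_const
  have hL := isSublattice_latticeClosure (s := 𝓕)
  have s1 : ∀ x γ, ApprR μ (latticeClosure 𝓕) {s | γ < e s x} := by
    intro x γ ε hε
    obtain ⟨α, β, a1, a2, a3⟩ := appr_sub μ (hx x) γ (half_pos hε)
    obtain ⟨n, hn⟩ := exists_nat_one_div_lt (half_pos hε)
    obtain ⟨Z, hZ, hxZ⟩ := h2 (α, β, n) a2 (mem_univ x)
    refine ⟨{s | ∀ x ∈ Z, (α : ℝ) ≤ e s x}, subset_latticeClosure (Or.inr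
      (mem_iUnion₂.2 ⟨(α, β, n), a2, Or.inl ⟨Z, hZ, rfl⟩⟩)), fun s hs => a1.trans_le (hs x hxZ), ?_⟩
    have : {s | γ < e s x} \ {s | ∀ x ∈ Z, (α : ℝ) ≤ e s x} ⊆
        ({s | γ < e s x} \ {s | β < e s x}) ∪ osc e α β Z := by
      intro s hs
      by_cases h : (β : ℝ) < e s x
      · right
        have h' := hs.2
        simp only [mem_ofPred_eq, not_forall, not_le] at h'
        obtain ⟨x', hx', h'⟩ := h'
        rintro (_ | _)
        · exact ⟨x', hx', by simpa [gap] using h'⟩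
        · exact ⟨x, hxZ, by simpa [gap] using h⟩
      · exact Or.inl ⟨hs.1, h⟩
    have := (measureReal_mono (μ := μ) this).trans (measureReal_union_le _ _)
    have := h3 (α, β, n) a2 Z hZ
    simp only at this
    linarith
  have s2 : ∀ x γ, ApprR μ (latticeClosure 𝓕) {s | e s x < γ} := by
    intro x γ ε hε
    obtain ⟨α, β, a1, a2, a3⟩ := appr_sub μ (g := fun s => -e s x) (hx x).neg (-γ) (half_pos hε)
    obtain ⟨n, hn⟩ := exists_nat_one_div_lt (half_pos hε)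
    have a2' : -β < -α := neg_lt_neg a2
    obtain ⟨Z, hZ, hxZ⟩ := h2 (-β, -α, n) a2' (mem_univ x)
    refine ⟨{s | ∀ x ∈ Z, e s x ≤ ((-α : ℚ) : ℝ)}, subset_latticeClosure (Or.inr
      (mem_iUnion₂.2 ⟨(-β, -α, n), a2', Or.inr ⟨Z, hZ, rfl⟩⟩)), fun s hs => ?_, ?_⟩
    · have := hs x hxZ
      push_cast at this
      show e s x < γ
      linarith
    have : {s | e s x < γ} \ {s | ∀ x ∈ Z, e s x ≤ ((-α : ℚ) : ℝ)} ⊆
        ({s | -γ < -e s x} \ {s | β < -e s x}) ∪ osc e ((-β : ℚ) : ℝ) ((-α : ℚ) : ℝ) Z := by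
      intro s hs
      by_cases h : (β : ℝ) < -e s x
      · right
        have h' := hs.2
        simp only [mem_ofPred_eq, not_forall, not_le] at h'
        obtain ⟨x', hx', h'⟩ := h'
        rintro (_ | _)
        · exact ⟨x, hxZ, by simp only [gap, Bool.false_eq_true, if_false]; push_cast; linarith⟩
        · exact ⟨x', hx', by simp only [gap, if_true]; linarith⟩
      · exact Or.inl ⟨neg_lt_neg (show e s x < γ from hs.1), h⟩
    have := (measureReal_mono (μ := μ) this).trans (measureReal_union_le _ _)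
    have := h3 (-β, -α, n) a2' Z hZ
    simp only at this
    linarith
  have s3 : ∀ U, IsOpen U → ∀ s ∈ U, ∃ W, IsOpen W ∧ ApprR μ (latticeClosure 𝓕) W ∧ s ∈ W ∧
      W ⊆ U := by
    intro U hU s hs
    have key : ∃ W, IsOpen W ∧ ApprR μ (latticeClosure 𝓕) W ∧ s ∈ W ∧ Disjoint W Uᶜ := by
      refine hU.isClosed_compl.isCompact.induction_on
        (p := fun K => ∃ W, IsOpen W ∧ ApprR μ (latticeClosure 𝓕) W ∧ s ∈ W ∧ Disjoint W K)
        ⟨univ, isOpen_univ, ApprR.of_mem (subset_latticeClosure (Or.inl (Or.inr rfl))), trivial,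
          by simp⟩ ?_ ?_ ?_
      · rintro K K' hK ⟨W, a1, a2, a3, a4⟩
        exact ⟨W, a1, a2, a3, a4.mono_right hK⟩
      · rintro K K' ⟨W, a1, a2, a3, a4⟩ ⟨W', b1, b2, b3, b4⟩
        exact ⟨W ∩ W', a1.inter b1, a2.inter hL b2, ⟨a3, b3⟩,
          (a4.mono_left inter_subset_left).union_right (b4.mono_left inter_subset_right)⟩
      · intro t ht
        have hne : e s ≠ e t := fun h => ht (hi h ▸ hs)
        obtain ⟨x, hx'⟩ := Function.ne_iff.1 hne
        rcases lt_or_gt_of_ne hx' with h | h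
        · obtain ⟨γ, h1, h2⟩ := exists_between h
          exact ⟨{t | γ < e t x}, mem_nhdsWithin_of_mem_nhds
            ((isOpen_lt continuous_const (hx x)).mem_nhds h2), {t | e t x < γ},
            isOpen_lt (hx x) continuous_const, s2 x γ, h1,
            disjoint_left.2 fun u hu hu' => lt_asymm (show e u x < γ from hu) hu'⟩
        · obtain ⟨γ, h1, h2⟩ := exists_between h
          exact ⟨{t | e t x < γ}, mem_nhdsWithin_of_mem_nhds
            ((isOpen_lt (hx x) continuous_const).mem_nhds h1), {t | γ < e t x},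
            isOpen_lt continuous_const (hx x), s1 x γ, h2,
            disjoint_left.2 fun u hu hu' => lt_asymm (show γ < e u x from hu) hu'⟩
    obtain ⟨W, a1, a2, a3, a4⟩ := key
    exact ⟨W, a1, a2, a3, disjoint_compl_right_iff_subset.1 a4⟩
  refine ⟨latticeClosure 𝓕, countable_latticeClosure hc, fun F hF => ?_, fun U hU ε hε => ?_⟩
  · exact latticeClosure_min (t := {F | IsClosed F}) hcl
      ⟨fun _ ha _ hb => IsClosed.union ha hb, fun _ ha _ hb => IsClosed.inter ha hb⟩ hF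
  obtain ⟨K, k1, k2, k3⟩ := hU.measurableSet.exists_isCompact_sdiff_lt (μ := μ)
    (measure_ne_top _ _) (ENNReal.ofReal_pos.2 (half_pos hε)).ne'
  have key : ∃ W, ApprR μ (latticeClosure 𝓕) W ∧ K ⊆ W ∧ W ⊆ U := by
    refine k2.induction_on (p := fun K => ∃ W, ApprR μ (latticeClosure 𝓕) W ∧ K ⊆ W ∧ W ⊆ U)
      ⟨∅, ApprR.of_mem (subset_latticeClosure (Or.inl (Or.inl rfl))), Subset.rfl,
        empty_subset _⟩ ?_ ?_ ?_
    · rintro K K' hK ⟨W, a1, a2, a3⟩
      exact ⟨W, a1, hK.trans a2, a3⟩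
    · rintro K K' ⟨W, a1, a2, a3⟩ ⟨W', b1, b2, b3⟩
      exact ⟨W ∪ W', a1.union hL b1, union_subset_union a2 b2, union_subset a3 b3⟩
    · intro s hs
      obtain ⟨W, a1, a2, a3, a4⟩ := s3 U hU s (k1 hs)
      exact ⟨W, mem_nhdsWithin_of_mem_nhds (a1.mem_nhds a3), W, a2, Subset.rfl, a4⟩
  obtain ⟨W, a1, a2, a3⟩ := key
  obtain ⟨F, f1, f2, f3⟩ := a1 (ε / 2) (half_pos hε)
  refine ⟨F, f1, f2.trans a3, ?_⟩
  have : U \ F ⊆ (U \ K) ∪ (W \ F) := by
    intro s hs
    by_cases h : s ∈ K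
    · exact Or.inr ⟨a2 h, hs.2⟩
    · exact Or.inl ⟨hs.1, h⟩
  have := (measureReal_mono (μ := μ) this).trans (measureReal_union_le _ _)
  have := ENNReal.toReal_lt_of_lt_ofReal k3
  rw [← measureReal_def] at this
  linarith

/-- from an inner approximating countable family to the sequence of finite families -/
theorem conclusion_of_family {S : Type} [TopologicalSpace S] [CompactSpace S]
    [MeasurableSpace S] [BorelSpace S] (μ : Measure S) [IsProbabilityMeasure μ]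
    {𝓖 : Set (Set S)} (hc : 𝓖.Countable) (hcl : ∀ F ∈ 𝓖, IsClosed F)
    (hA : ∀ U, IsOpen U → ApprR μ 𝓖 U) :
    ∃ A : ℕ → Finset (Set S),
      (∀ i, ∀ K ∈ A i, IsCompact K) ∧
      (∀ i, ((A i : Set (Set S))).PairwiseDisjoint id) ∧
      ∀ U : Set (Set S), (∀ u ∈ U, IsOpen u) → ⋃₀ U = Set.univ →
        ∀ ε : ENNReal, 0 < ε →
          ∃ i, (∀ K ∈ A i, ∃ u ∈ U, K ⊆ u) ∧
            μ (Set.univ \ ⋃₀ ((A i : Set (Set S)))) < ε := by
  classical
  have h1 : {t : Finset (Set S) | (t : Set (Set S)) ⊆ 𝓖 ∧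
      (t : Set (Set S)).PairwiseDisjoint id}.Countable :=
    ((countable_ofPred_finite_subset hc).preimage Finset.coe_injective).mono
      fun t ht => And.intro t.finite_toSet ht.1
  obtain ⟨A, hA'⟩ := h1.exists_eq_range ⟨∅, by simp⟩
  have h2 : ∀ i, (A i : Set (Set S)) ⊆ 𝓖 ∧ (A i : Set (Set S)).PairwiseDisjoint id := fun i =>
    (hA' ▸ mem_range_self i : A i ∈ {t : Finset (Set S) | (t : Set (Set S)) ⊆ 𝓖 ∧
      (t : Set (Set S)).PairwiseDisjoint id})
  refine ⟨A, fun i K hK => (hcl K ((h2 i).1 hK)).isCompact, fun i => (h2 i).2,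
    fun U hU hcov ε hε => ?_⟩
  have key : ∀ V : Finset (Set S), (V : Set (Set S)) ⊆ U → ∀ δ > 0, ∃ t : Finset (Set S),
      (t : Set (Set S)) ⊆ 𝓖 ∧ (t : Set (Set S)).PairwiseDisjoint id ∧
      (∀ K ∈ t, ∃ u ∈ U, K ⊆ u) ∧ μ.real (⋃₀ (V : Set (Set S)) \ ⋃₀ (t : Set (Set S))) < δ := by
    intro V
    induction V using Finset.induction_on with
    | empty => exact fun _ δ hδ => ⟨∅, by simp, by simp, by simp, by simpa using hδ⟩
    | insert u V hu ih =>
      intro hV δ hδ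
      have huU : u ∈ U := hV (by simp)
      obtain ⟨t, t1, t2, t3, t4⟩ := ih (fun v hv => hV (by simp [Finset.mem_coe.1 hv])) (δ / 2)
        (half_pos hδ)
      have hcl' : IsClosed (⋃₀ (t : Set (Set S))) := by
        rw [sUnion_eq_biUnion]
        exact t.finite_toSet.isClosed_biUnion fun F hF => hcl F (t1 hF)
      obtain ⟨F, f1, f2, f3⟩ := hA _ ((hU u huU).sdiff hcl') (δ / 2) (half_pos hδ)
      refine ⟨insert F t, ?_, ?_, ?_, ?_⟩
      · rw [Finset.coe_insert]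
        exact insert_subset f1 t1
      · rw [Finset.coe_insert]
        exact t2.insert fun G hG _ => disjoint_left.2 fun s hs hs' => (f2 hs).2 ⟨G, hG, hs'⟩
      · intro K hK
        rcases Finset.mem_insert.1 hK with rfl | hK
        · exact ⟨u, huU, f2.trans sdiff_subset⟩
        · exact t3 K hK
      · rw [Finset.coe_insert, Finset.coe_insert, sUnion_insert, sUnion_insert]
        have : (u ∪ ⋃₀ (V : Set (Set S))) \ (F ∪ ⋃₀ (t : Set (Set S))) ⊆
            ((u \ ⋃₀ (t : Set (Set S))) \ F) ∪ (⋃₀ (V : Set (Set S)) \ ⋃₀ (t : Set (Set S))) := by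
          rintro s ⟨hs | hs, hs'⟩
          · exact Or.inl ⟨⟨hs, fun h => hs' (Or.inr h)⟩, fun h => hs' (Or.inl h)⟩
          · exact Or.inr ⟨hs, fun h => hs' (Or.inr h)⟩
        have := (measureReal_mono (μ := μ) this).trans (measureReal_union_le _ _)
        linarith
  obtain ⟨V, hV, hVf, hV'⟩ := isCompact_univ.elim_finite_subcover_image (c := id) (b := U) hU
    (by rw [← hcov, sUnion_eq_biUnion]; exact Subset.rfl)
  lift V to Finset (Set S) using hVf
  obtain ⟨δ, _, hδ1, hδ2⟩ := ENNReal.lt_iff_exists_real_btwn.1 hε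
  obtain ⟨t, t1, t2, t3, t4⟩ := key V hV δ (ENNReal.ofReal_pos.1 hδ1)
  obtain ⟨i, rfl⟩ : t ∈ range A := hA' ▸ ⟨t1, t2⟩
  refine ⟨i, t3, lt_of_le_of_lt (measure_mono (t := ⋃₀ (V : Set (Set S)) \
    ⋃₀ (A i : Set (Set S))) (sdiff_subset_sdiff_left ?_)) (lt_trans ?_ hδ2)⟩
  · rw [sUnion_eq_biUnion]
    exact hV'
  · exact (ENNReal.lt_ofReal_iff_toReal_lt (measure_ne_top _ _)).2 t4

theorem main (S : Type) [TopologicalSpace S] [CompactSpace S] [T2Space S] [MeasurableSpace S]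
    [BorelSpace S] (X : Type) [TopologicalSpace X] [PolishSpace X] (e : S → X → ℝ)
    (he : Topology.IsEmbedding e)
    (hb : ∀ s, ∃ f : ℕ → C(X, ℝ), ∀ x, Tendsto (fun n => f n x) atTop (𝓝 (e s x)))
    (μ : Measure S) (hμ : IsProbabilityMeasure μ) (hr : μ.Regular) :
    ∃ A : ℕ → Finset (Set S),
      (∀ i, ∀ K ∈ A i, IsCompact K) ∧
      (∀ i, ((A i : Set (Set S))).PairwiseDisjoint id) ∧
      ∀ U : Set (Set S), (∀ u ∈ U, IsOpen u) → ⋃₀ U = Set.univ →
        ∀ ε : ENNReal, 0 < ε →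
          ∃ i, (∀ K ∈ A i, ∃ u ∈ U, K ⊆ u) ∧
            μ (Set.univ \ ⋃₀ ((A i : Set (Set S)))) < ε := by
  let _ := TopologicalSpace.upgradeIsCompletelyMetrizable X
  obtain ⟨𝓖, h1, h2, h3⟩ := exists_family μ e he.continuous he.injective fun s _ =>
    let ⟨f, hf⟩ := hb s; frag_of_baire_one _ f hf
  exact conclusion_of_family μ h1 h2 h3

end Pool.Agent.P.MP_5a7e2f_gt
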