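import Pool.Agent.P.MP_5a7e2f_gt.Tight
import Pool.Agent.P.MP_5a7e2f_gt.Main

set_option autoImplicit false
set_option linter.unusedSectionVars false

open Set Filter Topology MeasureTheory TopologicalSpace
open scoped ENNReal Cardinal

namespace Pool.Agent.P.MP_5a7e2f_gt.Ad

/-- the union of `ℵ₁` null subsets of Cantor space is null -/
def AddN : Prop :=
  ∀ 𝒩 : Set (Set TT), #𝒩 ≤ ℵ₁ → (∀ N ∈ 𝒩, lam N = 0) → lam (⋃₀ 𝒩) = 0

/-- summable slaloms -/
def Slalom {C : Type} (φ : ℕ → Finset C) : Prop :=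
  ∑' k, ((φ k).card : ℝ≥0∞) * 2⁻¹ ^ k ≠ ⊤

/-- `ℵ₁` functions are localized by one slalom -/
def Loc : Prop :=
  ∀ f : II → ℕ → ℕ, ∃ φ : ℕ → Finset ℕ, Slalom φ ∧ ∀ α, ∀ᶠ k in atTop, f α k ∈ φ k

/-- unbounded subsets of `ω₁` -/
def Unb (Γ : Set II) : Prop := ∀ β, ∃ γ ∈ Γ, β < γ

/-- `ℵ₁` is a measure precaliber of all probability spaces -/
def Pre : Prop :=
  ∀ (S : Type) [MeasurableSpace S] (μ : Measure S) [IsProbabilityMeasure μ] (D : II → Set S),
    (∀ i, MeasurableSet (D i)) → (∀ i, μ (D i) ≠ 0) →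
      ∃ Γ : Set II, Unb Γ ∧ ∀ F : Finset II, (∀ i ∈ F, i ∈ Γ) → μ (⋂ i ∈ F, D i) ≠ 0

/-- coin tossing on an arbitrary index set (`lam = coin ℕ` by `rfl`) -/
noncomputable def coin (J : Type) : Measure (J → Bool) :=
  Measure.infinitePi fun _ => (PMF.uniformOfFintype Bool).toMeasure

instance (J : Type) : IsProbabilityMeasure (coin J) := by unfold coin; infer_instance

theorem lam_eq_coin : lam = coin ℕ := rfl

/-- `ℵ₁` null sets do not cover `2 ^ ω₁` -/
def CovP : Prop :=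
  ∀ J ι : Type, #J ≤ ℵ₁ → #ι ≤ ℵ₁ → ∀ N : ι → Set (J → Bool), (∀ i, coin J (N i) = 0) →
    ∃ x, ∀ i, x ∉ N i

/-- `c` depends only on the coordinates in `s` -/
def DepOn {J : Type} (c : Set (J → Bool)) (s : Finset J) : Prop :=
  ∀ x y : J → Bool, (∀ j ∈ s, x j = y j) → x ∈ c → y ∈ c

/-- independent clopen sets -/
def GG (k v : ℕ) : Set TT := {t | ∀ l < k + 4, t (Nat.pair (Nat.pair k v) l) = true}

/-- the trace of `Q` on `H` is relatively open -/
def RelOpen {T : Type} [TopologicalSpace T] (Q H : Set T) : Prop :=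
  ∀ t ∈ Q, t ∈ H → ∃ u, IsOpen u ∧ t ∈ u ∧ u ∩ H ⊆ Q

/-- the points all of whose neighbourhoods meet `Q` in a set of positive measure -/
def acc {T : Type} [TopologicalSpace T] [MeasurableSpace T] (ν : Measure T) (Q : Set T) : Set T :=
  {t | ∀ u, IsOpen u → t ∈ u → ν (u ∩ Q) ≠ 0}

/-- regular probability measures -/
abbrev PR (S : Type) [TopologicalSpace S] [MeasurableSpace S] : Type :=
  {μ : ProbabilityMeasure S // (μ : Measure S).Regular}

/-- countable tightness of the space of regular probability measures -/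
def Tight (S : Type) [TopologicalSpace S] [MeasurableSpace S] [OpensMeasurableSpace S] : Prop :=
  ∀ (A : Set (PR S)) x, x ∈ closure A → ∃ B ⊆ A, B.Countable ∧ x ∈ closure B

/-- metrizable-like support -/
def ML {S : Type} [TopologicalSpace S] [MeasurableSpace S] (μ : Measure S) : Prop :=
  ∃ A : ℕ → Finset (Set S),
    (∀ i, ∀ K ∈ A i, IsCompact K) ∧
    (∀ i, ((A i : Set (Set S))).PairwiseDisjoint id) ∧
    ∀ U : Set (Set S), (∀ u ∈ U, IsOpen u) → ⋃₀ U = Set.univ →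
      ∀ ε : ENNReal, 0 < ε →
        ∃ i, (∀ K ∈ A i, ∃ u ∈ U, K ⊆ u) ∧ μ (Set.univ \ ⋃₀ ((A i : Set (Set S)))) < ε

/-- the question -/
def Q1 : Prop :=
  ∀ (S : Type) [TopologicalSpace S] [CompactSpace S] [T2Space S] [MeasurableSpace S]
    [BorelSpace S], Tight S →
    ∀ μ : Measure S, IsProbabilityMeasure μ → μ.Regular → ML μ

/-- an `ω₁`-sequence of continuous functions that is free in the mean -/
def FreeP {S : Type} [TopologicalSpace S] [MeasurableSpace S] (μ : Measure S) : Prop :=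
  ∃ (Γ : Set II) (ψ : II → C(S, ℝ)) (a b : ℝ), Unb Γ ∧ a < b ∧
    ∀ j ∈ Γ, ∀ F G : Finset II, (∀ i ∈ F, i ∈ Γ ∧ i < j) → (∀ i ∈ G, i ∈ Γ ∧ j < i) →
      ∃ P, MeasurableSet P ∧ μ P ≠ 0 ∧ (∀ i ∈ F, b * μ.real P ≤ ∫ s in P, ψ i s ∂μ) ∧
        ∀ i ∈ G, ∫ s in P, ψ i s ∂μ ≤ a * μ.real P

/-- the map to `ℝ ^ ℕ` given by a sequence of continuous functions -/
def pr {S : Type} [TopologicalSpace S] (g : ℕ → C(S, ℝ)) : S → ℕ → ℝ := fun s n => g n s

/-- the measurable functions on `ℝ ^ ℕ` that represent continuous functions -/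
def Phi {S : Type} [TopologicalSpace S] [MeasurableSpace S] (μ : Measure S) (g : ℕ → C(S, ℝ)) :
    Set ((ℕ → ℝ) → ℝ) :=
  {φ | Measurable φ ∧ ∃ f : C(S, ℝ), (fun s => f s) =ᵐ[μ] fun s => φ (pr g s)}

/-- every continuous function is represented -/
def CType {S : Type} [TopologicalSpace S] [MeasurableSpace S] (μ : Measure S)
    (g : ℕ → C(S, ℝ)) : Prop :=
  ∀ f : C(S, ℝ), ∃ φ : (ℕ → ℝ) → ℝ, Measurable φ ∧ (fun s => f s) =ᵐ[μ] fun s => φ (pr g s)

/-- countably many large sets, one of which is almost disjoint from each generator -/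
def Capt (c : II → DD) : Prop :=
  ∃ H : ℕ → Set TT, (∀ n, MeasurableSet (H n)) ∧
    ∀ γ, ∃ n, 2⁻¹ < lam (H n) ∧ lam (H n ∩ ell c (uu γ)) = 0

theorem mk_II : #II = ℵ₁ := Cardinal.mk_ord_toType _

theorem exists_surj_II {ι : Type} [Nonempty ι] (hι : #ι ≤ ℵ₁) :
    ∃ s : II → ι, Function.Surjective s := by
  rw [← mk_II] at hι
  obtain ⟨e⟩ := Cardinal.le_def _ _ |>.1 hι
  exact ⟨Function.invFun e, Function.invFun_surjective e.injective⟩

theorem Loc.gen (h : Loc) {ι C : Type} [Countable C] (hι : #ι ≤ ℵ₁) (f : ι → ℕ → C) :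
    ∃ φ : ℕ → Finset C, Slalom φ ∧ ∀ α, ∀ᶠ k in atTop, f α k ∈ φ k := by
  classical
  rcases isEmpty_or_nonempty ι with h0 | h0
  · exact ⟨fun _ => ∅, by simp [Slalom], fun α => h0.elim α⟩
  obtain ⟨s, hs⟩ := exists_surj_II hι
  obtain ⟨e, he⟩ := exists_injective_nat C
  obtain ⟨φ, h1, h2⟩ := h fun α k => e (f (s α) k)
  refine ⟨fun k => (φ k).preimage e he.injOn, ne_top_of_le_ne_top h1
    (ENNReal.tsum_le_tsum fun k => ?_), fun α => ?_⟩
  · gcongr
    exact Finset.card_le_card_of_injOn e (fun x hx => by simpa using hx) he.injOn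
  · obtain ⟨β, rfl⟩ := hs α
    exact (h2 β).mono fun k hk => Finset.mem_preimage.2 hk

theorem AddN.gen (h : AddN) {ι : Type} (hι : #ι ≤ ℵ₁) (N : ι → Set TT) (hN : ∀ i, lam (N i) = 0) :
    lam (⋃ i, N i) = 0 := by
  rw [← sUnion_range]
  exact h _ (Cardinal.mk_range_le.trans hι) (by rintro _ ⟨i, rfl⟩; exact hN i)

theorem continuous_pr {S : Type} [TopologicalSpace S] (g : ℕ → C(S, ℝ)) : Continuous (pr g) :=
  continuous_pi fun n => (g n).continuous

/-- transfinite sequences of length `ω₁` -/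
theorem seq_II {D : Type} (ok : D → Prop) (r : D → D → Prop)
    (h : ∀ C : Set D, C.Countable → (∀ c ∈ C, ok c) → ∃ d, ok d ∧ ∀ c ∈ C, r c d) :
    ∃ x : II → D, (∀ i, ok (x i)) ∧ ∀ i j, j < i → r (x j) (x i) := by
  obtain ⟨d₀, h₀, -⟩ := h ∅ countable_empty (by simp)
  obtain ⟨x, hx⟩ := rec_choice (I := II) (⟨d₀, h₀⟩ : {d // ok d})
    (fun i g d => ∀ j < i, r (g j).1 d.1) fun i g => by
      obtain ⟨d, h1, h2⟩ := h ((fun j => (g j).1) '' Iio i) ((countable_Iio i).image _)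
        (by rintro _ ⟨j, -, rfl⟩; exact (g j).2)
      exact ⟨⟨d, h1⟩, fun j hj => h2 _ ⟨j, hj, rfl⟩⟩
  exact ⟨fun i => (x i).1, fun i => (x i).2, fun i j hj => by simpa [hj] using hx i j hj⟩

section acc

variable {T : Type} [TopologicalSpace T] [MeasurableSpace T] {ν : Measure T} {Q Q' H : Set T}

theorem isClosed_acc : IsClosed (acc ν Q) := by
  refine isClosed_of_closure_subset fun t ht u hu htu => ?_
  obtain ⟨s, hs, hs'⟩ := mem_closure_iff.1 ht u hu htu
  exact hs' u hu hs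

theorem acc_mono (h : Q ⊆ Q') : acc ν Q ⊆ acc ν Q' := fun _ ht u hu htu h0 =>
  ht u hu htu (measure_mono_null (inter_subset_inter_right _ h) h0)

theorem acc_subset (h : Q ⊆ H) (hH : IsClosed H) : acc ν Q ⊆ H := fun t ht => by
  by_contra h1
  refine ht Hᶜ hH.isOpen_compl h1 ?_
  rw [(disjoint_compl_left.mono_right h).inter_eq, measure_empty]

theorem ne_zero_of_mem_acc {t : T} (h : t ∈ acc ν Q) : ν Q ≠ 0 := by
  simpa using h univ isOpen_univ trivial

theorem acc_inter_open {u : Set T} (hu : IsOpen u) : acc ν Q ∩ u ⊆ acc ν (Q ∩ u) :=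
  fun t ht v hv htv => by
    have := ht.1 (v ∩ u) (hv.inter hu) ⟨htv, ht.2⟩
    rwa [inter_assoc, inter_comm u] at this

theorem null_diff_acc [SecondCountableTopology T] : ν (Q \ acc ν Q) = 0 := by
  refine measure_null_of_locally_null _ fun t ht => ?_
  have := ht.2
  simp only [acc, mem_ofPred_eq, not_forall, not_not] at this
  obtain ⟨u, hu, htu, h0⟩ := this
  exact ⟨(Q \ acc ν Q) ∩ u, inter_mem_nhdsWithin _ (hu.mem_nhds htu),
    measure_mono_null (fun s hs => mem_inter hs.2 hs.1.1) h0⟩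

end acc

end Pool.Agent.P.MP_5a7e2f_gt.Ad
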