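import Pool.Agent.P.MP_5a7e2f_gt.AdDefs

set_option autoImplicit false
set_option linter.unusedSectionVars false

open Set Filter Topology MeasureTheory TopologicalSpace
open scoped ENNReal Cardinal

namespace Pool.Agent.P.MP_5a7e2f_gt.Ad

theorem free_regularize {S : Type} [TopologicalSpace S] [CompactSpace S] [T2Space S]
    [MeasurableSpace S] [BorelSpace S] (ν : ProbabilityMeasure S) :
    ∃ ν' : PR S, ∀ g : BoundedContinuousFunction S ℝ,
      ∫ x, g x ∂(ν : Measure S) = ∫ x, g x ∂(ν'.1 : Measure S) := by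
  obtain ⟨ρ, h1, h2, h3⟩ := Measure.exists_regular_eq_of_compactSpace (ν : Measure S)
  have h4 : IsProbabilityMeasure ρ := by
    have h5 := h3 1
    simp only [BoundedContinuousFunction.coe_one, Pi.one_apply, integral_const, probReal_univ,
      smul_eq_mul, mul_one] at h5
    refine ⟨?_⟩
    rw [← ENNReal.toReal_eq_one_iff]
    exact h5.symm
  exact ⟨⟨⟨ρ, h4⟩, h1⟩, h3⟩

theorem compactSpace_PR (S : Type) [TopologicalSpace S] [CompactSpace S] [T2Space S]
    [MeasurableSpace S] [BorelSpace S] : CompactSpace (PR S) := by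
  refine ⟨isCompact_iff_ultrafilter_le_nhds.2 fun F _ => ?_⟩
  obtain ⟨ν, -, hν⟩ := isCompact_iff_ultrafilter_le_nhds.1
    (isCompact_univ (X := ProbabilityMeasure S)) (F.map Subtype.val) (by simp)
  obtain ⟨ν', h'⟩ := free_regularize ν
  refine ⟨ν', mem_univ _, ?_⟩
  have h1 : Tendsto (fun σ : PR S => σ.1) F (𝓝 ν) := hν
  have h2 : Tendsto (fun σ : PR S => σ.1) F (𝓝 ν'.1) := by
    refine ProbabilityMeasure.tendsto_iff_forall_integral_tendsto.2 fun f => ?_
    rw [← h' f]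
    exact ProbabilityMeasure.tendsto_iff_forall_integral_tendsto.1 h1 f
  exact tendsto_subtype_rng.2 h2

theorem free_cont {S : Type} [TopologicalSpace S] [CompactSpace S] [T2Space S]
    [MeasurableSpace S] [BorelSpace S] (f : C(S, ℝ)) :
    Continuous fun ν : PR S => ∫ s, f s ∂(ν.1 : Measure S) :=
  (ProbabilityMeasure.continuous_integral_boundedContinuousFunction
    (BoundedContinuousFunction.mkOfCompact f)).comp continuous_subtype_val

theorem free_cond {S : Type} [TopologicalSpace S] [CompactSpace S] [T2Space S]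
    [MeasurableSpace S] [BorelSpace S] (μ : Measure S) [IsProbabilityMeasure μ] [μ.Regular]
    {P : Set S} (h0 : μ P ≠ 0) :
    ∃ ν : PR S, ∀ f : C(S, ℝ),
      ∫ s, f s ∂(ν.1 : Measure S) = (μ.real P)⁻¹ * ∫ s in P, f s ∂μ := by
  have h1 : (μ.restrict P).Regular := Measure.Regular.restrict_of_measure_ne_top (measure_ne_top _ _)
  have h2 : ((μ P)⁻¹ • μ.restrict P).Regular := Measure.Regular.smul (ENNReal.inv_ne_top.2 h0)
  have h3 : IsProbabilityMeasure ((μ P)⁻¹ • μ.restrict P) := ⟨by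
    simp only [Measure.smul_apply, MeasurableSet.univ, Measure.restrict_apply, univ_inter,
      smul_eq_mul]
    exact ENNReal.inv_mul_cancel h0 (measure_ne_top _ _)⟩
  refine ⟨⟨⟨_, h3⟩, h2⟩, fun f => ?_⟩
  change ∫ s, f s ∂((μ P)⁻¹ • μ.restrict P) = _
  rw [integral_smul_measure, ENNReal.toReal_inv, smul_eq_mul]
  rfl

theorem free_point {S : Type} [TopologicalSpace S] [CompactSpace S] [T2Space S]
    [MeasurableSpace S] [BorelSpace S] (μ : Measure S) [IsProbabilityMeasure μ] [μ.Regular]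
    {Γ : Set II} {ψ : II → C(S, ℝ)} {a b : ℝ} {j : II}
    (h : ∀ F G : Finset II, (∀ i ∈ F, i ∈ Γ ∧ i < j) → (∀ i ∈ G, i ∈ Γ ∧ j < i) →
      ∃ P, MeasurableSet P ∧ μ P ≠ 0 ∧ (∀ i ∈ F, b * μ.real P ≤ ∫ s in P, ψ i s ∂μ) ∧
        ∀ i ∈ G, ∫ s in P, ψ i s ∂μ ≤ a * μ.real P) :
    ∃ ν : PR S, (∀ i ∈ Γ, i < j → b ≤ ∫ s, ψ i s ∂(ν.1 : Measure S)) ∧
      ∀ i ∈ Γ, j < i → ∫ s, ψ i s ∂(ν.1 : Measure S) ≤ a := by
  classical
  have := compactSpace_PR S
  let t : II → Set (PR S) := fun i =>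
    {ν | (i ∈ Γ ∧ i < j → b ≤ ∫ s, ψ i s ∂(ν.1 : Measure S)) ∧
      (i ∈ Γ ∧ j < i → ∫ s, ψ i s ∂(ν.1 : Measure S) ≤ a)}
  have htc : ∀ i, IsClosed (t i) := fun i => by
    refine IsClosed.and ?_ ?_
    · by_cases hi : i ∈ Γ ∧ i < j
      · simp only [hi, and_self, forall_const]
        exact isClosed_le continuous_const (free_cont _)
      · simp only [hi, false_imp_iff]
        exact isClosed_const
    · by_cases hi : i ∈ Γ ∧ j < i
      · simp only [hi, and_self, forall_const]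
        exact isClosed_le (free_cont _) continuous_const
      · simp only [hi, false_imp_iff]
        exact isClosed_const
  obtain ⟨ν, -, hν⟩ := (isCompact_univ (X := PR S)).inter_iInter_nonempty t htc fun u => by
    obtain ⟨P, -, h0, h1, h2⟩ := h (u.filter fun i => i ∈ Γ ∧ i < j)
      (u.filter fun i => i ∈ Γ ∧ j < i) (fun i hi => (Finset.mem_filter.1 hi).2)
      (fun i hi => (Finset.mem_filter.1 hi).2)
    obtain ⟨ν, hν⟩ := free_cond μ h0
    have hp : 0 < μ.real P := ENNReal.toReal_pos h0 (measure_ne_top _ _)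
    refine ⟨ν, mem_univ _, mem_iInter₂.2 fun i hi => ⟨fun hi' => ?_, fun hi' => ?_⟩⟩
    · rw [hν, ← div_eq_inv_mul, le_div_iff₀ hp]
      exact h1 i (Finset.mem_filter.2 ⟨hi, hi'⟩)
    · rw [hν, ← div_eq_inv_mul, div_le_iff₀ hp]
      exact h2 i (Finset.mem_filter.2 ⟨hi, hi'⟩)
  exact ⟨ν, fun i h1 h2 => (mem_iInter.1 hν i).1 ⟨h1, h2⟩,
    fun i h1 h2 => (mem_iInter.1 hν i).2 ⟨h1, h2⟩⟩

theorem not_tight_of_free {S : Type} [TopologicalSpace S] [CompactSpace S] [T2Space S]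
    [MeasurableSpace S] [BorelSpace S] (μ : Measure S) [IsProbabilityMeasure μ] [μ.Regular]
    (h : FreeP μ) : ¬ Tight S := by
  classical
  intro hT
  obtain ⟨Γ, ψ, a, b, hΓ, hab, h⟩ := h
  have := compactSpace_PR S
  choose ν hν1 hν2 using fun j : Γ => free_point μ (h j.1 j.2)
  let t : II → Set (PR S) := fun β => closure (ν '' {j | β < j.1})
  obtain ⟨x, -, hx⟩ := (isCompact_univ (X := PR S)).inter_iInter_nonempty t
    (fun _ => isClosed_closure) fun u => by
      obtain ⟨δ, hδ⟩ := exists_bound u.countable_toSet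
      obtain ⟨γ, h1, h2⟩ := hΓ δ
      exact ⟨ν ⟨γ, h1⟩, mem_univ _, mem_iInter₂.2 fun β hβ =>
        subset_closure ⟨⟨γ, h1⟩, (hδ β hβ).trans h2, rfl⟩⟩
  have hx' : ∀ β, x ∈ t β := mem_iInter.1 hx
  have hb : ∀ i ∈ Γ, b ≤ ∫ s, ψ i s ∂(x.1 : Measure S) := fun i hi => by
    have hc : IsClosed {σ : PR S | b ≤ ∫ s, ψ i s ∂(σ.1 : Measure S)} :=
      isClosed_le continuous_const (free_cont _)
    refine hc.closure_subset_iff.2 ?_ (hx' i)
    rintro _ ⟨j, hj, rfl⟩
    exact hν1 j i hi hj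
  obtain ⟨β₀⟩ : Nonempty II := inferInstance
  obtain ⟨B, hB1, hB2, hB3⟩ := hT _ x (hx' β₀)
  choose c _ hc2 using fun σ : B => hB1 σ.2
  have := hB2.to_subtype
  obtain ⟨δ, hδ⟩ := exists_bound (countable_range fun σ : B => (c σ).1)
  obtain ⟨i, hi, hi'⟩ := hΓ δ
  have hc : IsClosed {σ : PR S | ∫ s, ψ i s ∂(σ.1 : Measure S) ≤ a} :=
    isClosed_le (free_cont _) continuous_const
  have ha : ∫ s, ψ i s ∂(x.1 : Measure S) ≤ a := by
    refine hc.closure_subset_iff.2 ?_ hB3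
    intro σ hσ
    have h1 := hν2 (c ⟨σ, hσ⟩) i hi ((hδ _ ⟨⟨σ, hσ⟩, rfl⟩).trans hi')
    rwa [hc2] at h1
  exact absurd ((hb i hi).trans ha) (not_le.2 hab)

end Pool.Agent.P.MP_5a7e2f_gt.Ad
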