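import Pool.Agent.P.MP_5a7e2f_gt.AdDefs

set_option autoImplicit false
set_option linter.unusedSectionVars false

open Set Filter Topology MeasureTheory TopologicalSpace
open scoped ENNReal Cardinal

namespace Pool.Agent.P.MP_5a7e2f_gt.Ad

/-- the coordinates used by `GG k v` -/
def GGs (k v : ℕ) : Finset ℕ := (Finset.range (k + 4)).image (Nat.pair (Nat.pair k v))

theorem card_GGs (k v : ℕ) : (GGs k v).card = k + 4 := by
  rw [GGs, Finset.card_image_of_injective _ fun a b h => (Nat.pair_eq_pair.1 h).2,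
    Finset.card_range]

theorem GG_eq (k v : ℕ) : GG k v = Set.pi (GGs k v) fun _ => {true} := by
  ext t
  simp [GG, GGs]

theorem lam_pi (s : Finset ℕ) : lam (Set.pi s fun _ => {true}) = 2⁻¹ ^ s.card := by
  rw [lam, Measure.infinitePi_pi _ fun i _ => measurableSet_singleton _]
  simp [PMF.toMeasure_apply_singleton _ _ (measurableSet_singleton _)]

theorem isClopen_GG (k v : ℕ) : IsClopen (GG k v) := by
  rw [GG_eq]
  exact ⟨isClosed_set_pi fun _ _ => isClosed_discrete _,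
    isOpen_set_pi (Finset.finite_toSet _) fun _ _ => isOpen_discrete _⟩

theorem lam_GG (k v : ℕ) : lam (GG k v) = 2⁻¹ ^ (k + 4) := by
  rw [GG_eq, lam_pi, card_GGs]

theorem lam_GG_inter {k v k' v' : ℕ} (h : (k, v) ≠ (k', v')) :
    lam (GG k v ∩ GG k' v') = 2⁻¹ ^ (k + 4) * 2⁻¹ ^ (k' + 4) := by
  have hd : Disjoint (GGs k v) (GGs k' v') := by
    refine Finset.disjoint_left.2 fun a h1 h2 => h ?_
    obtain ⟨l, -, rfl⟩ := Finset.mem_image.1 h1
    obtain ⟨l', -, e⟩ := Finset.mem_image.1 h2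
    obtain ⟨e1, e2⟩ := Nat.pair_eq_pair.1 (Nat.pair_eq_pair.1 e).1
    rw [e1, e2]
  rw [GG_eq, GG_eq, ← Set.union_pi, ← Finset.coe_union, lam_pi, Finset.card_union_of_disjoint hd,
    card_GGs, card_GGs, pow_add]

theorem slalom_merge {ι C : Type} [Countable ι] (φ : ι → ℕ → Finset C) (h : ∀ n, Slalom (φ n)) :
    ∃ ψ : ℕ → Finset C, Slalom ψ ∧ ∀ n, ∀ᶠ k in atTop, φ n k ⊆ ψ k := by
  classical
  obtain ⟨e, he⟩ := exists_injective_nat ι
  have h1 : ∀ n, ∃ N, e n ≤ N ∧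
      ∑' k, (if N ≤ k then ((φ n k).card : ℝ≥0∞) * 2⁻¹ ^ k else 0) ≤ 2⁻¹ ^ e n := fun n => by
    have a := (ENNReal.tendsto_sum_nat_add _ (h n)).eventually
      (eventually_le_nhds (ENNReal.pow_pos (by norm_num : (0 : ℝ≥0∞) < 2⁻¹) (e n)))
    obtain ⟨N, b1, b2⟩ := (a.and (eventually_ge_atTop (e n))).exists
    refine ⟨N, b2, le_of_eq_of_le ?_ b1⟩
    rw [← (add_left_injective N).tsum_eq (f := fun k =>
      if N ≤ k then ((φ n k).card : ℝ≥0∞) * 2⁻¹ ^ k else 0) fun k hk =>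
        ⟨k - N, Nat.sub_add_cancel (by by_contra hn; exact hk (if_neg hn))⟩]
    simp
  choose N h2 h3 using h1
  have hf : ∀ k, {n | N n ≤ k}.Finite := fun k =>
    ((finite_Iic k).preimage he.injOn).subset fun n hn => (h2 n).trans hn
  refine ⟨fun k => (hf k).toFinset.biUnion fun n => φ n k, ?_, fun n =>
    (eventually_ge_atTop (N n)).mono fun k hk =>
      Finset.subset_biUnion_of_mem (fun n => φ n k) ((hf k).mem_toFinset.2 hk)⟩
  have h4 : ∑' n, (2⁻¹ : ℝ≥0∞) ^ e n ≠ ⊤ :=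
    ne_top_of_le_ne_top (by simp) (ENNReal.tsum_comp_le_tsum_of_injective he fun k => 2⁻¹ ^ k)
  refine ne_top_of_le_ne_top h4 (le_trans ?_ (ENNReal.tsum_le_tsum h3))
  rw [ENNReal.tsum_comm]
  refine ENNReal.tsum_le_tsum fun k => le_trans ?_ (ENNReal.sum_le_tsum (hf k).toFinset)
  rw [Finset.sum_congr rfl fun n hn => if_pos (show N n ≤ k from (hf k).mem_toFinset.1 hn),
    ← Finset.sum_mul]
  gcongr
  exact_mod_cast Finset.card_biUnion_le

end Pool.Agent.P.MP_5a7e2f_gt.Ad
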