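import Pool.Agent.P.MP_5a7e2f_gt.AdDefs

set_option autoImplicit false
set_option linter.unusedSectionVars false

open Set Filter Topology MeasureTheory TopologicalSpace
open scoped ENNReal Cardinal

namespace Pool.Agent.P.MP_5a7e2f_gt.Ad

theorem gen_null_diff {S : Type} [TopologicalSpace S] [CompactSpace S] [T2Space S]
    [MeasurableSpace S] [BorelSpace S] (μ : Measure S) [IsProbabilityMeasure μ] [μ.Regular]
    {Q : Set S} (hQ : MeasurableSet Q) : μ (Q \ acc μ Q) = 0 := by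
  rw [(hQ.diff isClosed_acc.measurableSet).measure_eq_iSup_isCompact]
  simp only [ENNReal.iSup_eq_zero]
  intro K hK hc
  refine hc.measure_zero_of_nhdsWithin fun t ht => ?_
  have h1 := (hK ht).2
  simp only [acc, mem_ofPred_eq, not_forall, not_not] at h1
  obtain ⟨u, hu, htu, h0⟩ := h1
  exact ⟨K ∩ u, inter_mem_nhdsWithin _ (hu.mem_nhds htu),
    measure_mono_null (fun s hs => mem_inter hs.2 (hK hs.1).1) h0⟩

theorem gen_inner {T : Type} [TopologicalSpace T] [RegularSpace T] [SecondCountableTopology T]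
    [MeasurableSpace T] [BorelSpace T] (ν : Measure T) [IsFiniteMeasure ν] {O : Set T}
    (hO : IsOpen O) {ε : ℝ≥0∞} (hε : ε ≠ 0) :
    ∃ t : Set (Set T), t.Finite ∧ t ⊆ countableBasis T ∧ (⋃ b ∈ t, closure b) ⊆ O ∧
      ν (O \ ⋃ b ∈ t, closure b) < ε := by
  have hc : {b | b ∈ countableBasis T ∧ closure b ⊆ O}.Countable :=
    (countable_countableBasis T).mono fun b hb => hb.1
  rcases Set.eq_empty_or_nonempty {b | b ∈ countableBasis T ∧ closure b ⊆ O} with h0 | h0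
  · refine ⟨∅, finite_empty, empty_subset _, by simp, ?_⟩
    have h1 : O = ∅ := by
      by_contra h1
      obtain ⟨x, hx⟩ := nonempty_iff_ne_empty.2 h1
      obtain ⟨v, h2, -, h3⟩ := (isBasis_countableBasis T).exists_closure_subset (hO.mem_nhds hx)
      exact (h0 ▸ show v ∈ {b | b ∈ countableBasis T ∧ closure b ⊆ O} from ⟨h2, h3⟩ : v ∈ (∅ : Set _))
    simpa [h1] using pos_iff_ne_zero.2 hε
  obtain ⟨b, hb⟩ := hc.exists_eq_range h0
  have h1 : ∀ n, b n ∈ countableBasis T ∧ closure (b n) ⊆ O := fun n =>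
    (hb ▸ mem_range_self n : b n ∈ {b | b ∈ countableBasis T ∧ closure b ⊆ O})
  have h2 : Tendsto (fun n => ν (O \ ⋃ i ∈ Iic n, closure (b i))) atTop
      (𝓝 (ν (⋂ n, O \ ⋃ i ∈ Iic n, closure (b i)))) := by
    refine tendsto_measure_iInter_atTop (fun n => ?_) (fun n n' hn => ?_) ⟨0, measure_ne_top _ _⟩
    · exact (hO.measurableSet.diff (MeasurableSet.biUnion (to_countable _)
        fun i _ => isClosed_closure.measurableSet)).nullMeasurableSet
    · exact sdiff_subset_sdiff_right (biUnion_subset_biUnion_left (Iic_subset_Iic.2 hn))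
  have h3 : (⋂ n, O \ ⋃ i ∈ Iic n, closure (b i)) = ∅ := by
    refine eq_empty_of_forall_notMem fun x hx => ?_
    rw [mem_iInter] at hx
    obtain ⟨v, h4, h5, h6⟩ :=
      (isBasis_countableBasis T).exists_closure_subset (hO.mem_nhds (hx 0).1)
    obtain ⟨n, rfl⟩ : v ∈ range b := hb ▸ ⟨h4, h6⟩
    exact (hx n).2 (mem_biUnion (mem_Iic.2 le_rfl) (subset_closure h5))
  rw [h3, measure_empty] at h2
  obtain ⟨n, hn⟩ := (h2.eventually_lt_const (pos_iff_ne_zero.2 hε)).exists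
  refine ⟨b '' Iic n, (finite_Iic n).image b, ?_, ?_, ?_⟩
  · rintro _ ⟨i, -, rfl⟩
    exact (h1 i).1
  · rw [biUnion_image]
    exact iUnion₂_subset fun i _ => (h1 i).2
  · rwa [biUnion_image]

theorem gen_of_not_ML {S : Type} [TopologicalSpace S] [CompactSpace S] [T2Space S]
    [MeasurableSpace S] [BorelSpace S] (μ : Measure S) [IsProbabilityMeasure μ] [μ.Regular]
    (g : ℕ → C(S, ℝ)) (hg : CType μ g) (h : ¬ ML μ) :
    ∃ ε : ℝ≥0∞, ε ≠ 0 ∧ ∀ H, IsClosed H → μ.map (pr g) Hᶜ ≤ ε → ∃ φ ∈ Phi μ g,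
      μ.map (pr g) ({t | φ t ≤ 0} ∩ acc (μ.map (pr g)) (H ∩ {t | 3 / 4 ≤ φ t})) ≠ 0 := by
  by_contra hcon
  push Not at hcon
  have hpc := continuous_pr g
  have hpm : Measurable (pr g) := hpc.measurable
  choose H hH hHc hH0 using fun m : ℕ =>
    hcon ((m : ℝ≥0∞) + 1)⁻¹ (ENNReal.inv_ne_zero.2 (by simp))
  have hle : ∀ A : Set (ℕ → ℝ), μ (pr g ⁻¹' A) ≤ μ.map (pr g) A := fun A =>
    Measure.le_map_apply hpm.aemeasurable A
  refine h (conclusion_of_family μ (𝓖 := range fun x : ℕ × {t : Set (Set (ℕ → ℝ)) |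
      t.Finite ∧ t ⊆ countableBasis (ℕ → ℝ)} =>
      acc μ (pr g ⁻¹' H x.1) ∩ pr g ⁻¹' ⋃ b ∈ x.2.1, closure b) ?_ ?_ ?_)
  · have := (countable_ofPred_finite_subset (countable_countableBasis (ℕ → ℝ))).to_subtype
    exact countable_range _
  · rintro _ ⟨x, rfl⟩
    exact isClosed_acc.inter ((x.2.2.1.isClosed_biUnion fun _ _ => isClosed_closure).preimage hpc)
  intro U hU δ hδ
  have hε : ENNReal.ofReal (δ / 3) ≠ 0 := by simpa using hδ
  obtain ⟨C, hCU, hC, hCμ⟩ := hU.measurableSet.exists_isCompact_sdiff_lt (measure_ne_top μ U) hε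
  obtain ⟨f, hf0, hf1, -⟩ := exists_continuous_zero_one_of_isClosed hC.isClosed hU.isClosed_compl
    (disjoint_compl_right_iff_subset.2 hCU)
  obtain ⟨φ, hφm, hφ⟩ := hg f
  obtain ⟨m, hm⟩ := ENNReal.exists_inv_nat_lt hε
  have hm' : μ.map (pr g) (H m)ᶜ < ENNReal.ofReal (δ / 3) :=
    (hHc m).trans_lt (lt_of_le_of_lt (ENNReal.inv_le_inv.2 le_self_add) hm)
  set Z := acc (μ.map (pr g)) (H m ∩ {t | 3 / 4 ≤ φ t}) with hZ
  have hZc : IsClosed Z := isClosed_acc
  obtain ⟨t, ht, htb, htO, htν⟩ := gen_inner (μ.map (pr g)) hZc.isOpen_compl hε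
  refine ⟨_, ⟨(m, ⟨t, ht, htb⟩), rfl⟩, fun s hs => ?_, ?_⟩
  · by_contra hsU
    refine hs.1 ({s | 3 / 4 < f s} ∩ pr g ⁻¹' Zᶜ)
      ((isOpen_lt continuous_const f.continuous).inter (hZc.isOpen_compl.preimage hpc))
      ⟨?_, htO hs.2⟩ ?_
    · rw [mem_ofPred_eq, hf1 hsU]
      norm_num
    · refine le_antisymm (le_trans (measure_mono_ae ?_)
        ((hle ((H m ∩ {t | 3 / 4 ≤ φ t}) \ Z)).trans null_diff_acc.le)) zero_le
      filter_upwards [hφ] with x hx hx'
      exact ⟨⟨hx'.2, by rw [mem_ofPred_eq, ← hx]; exact le_of_lt hx'.1.1⟩, hx'.1.2⟩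
  · have h1 : μ (C ∩ pr g ⁻¹' Z) = 0 := by
      refine le_antisymm (le_trans (measure_mono_ae ?_)
        ((hle ({t | φ t ≤ 0} ∩ Z)).trans (hH0 m φ ⟨hφm, f, hφ⟩).le)) zero_le
      filter_upwards [hφ] with x hx hx'
      exact ⟨by rw [mem_ofPred_eq, ← hx]; exact le_of_eq (hf0 hx'.1), hx'.2⟩
    have h2 := gen_null_diff μ ((hH m).preimage hpc).measurableSet
    have h3 : U \ (acc μ (pr g ⁻¹' H m) ∩ pr g ⁻¹' ⋃ b ∈ t, closure b) ⊆
        (U \ C ∪ pr g ⁻¹' (Zᶜ \ ⋃ b ∈ t, closure b) ∪ pr g ⁻¹' (H m)ᶜ) ∪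
          (C ∩ pr g ⁻¹' Z ∪ pr g ⁻¹' H m \ acc μ (pr g ⁻¹' H m)) := by
      intro x hx
      have := hx.2
      simp only [mem_union, Set.mem_sdiff, mem_inter_iff, mem_preimage, mem_compl_iff] at this ⊢
      have := hx.1
      tauto
    have h4 : μ (U \ (acc μ (pr g ⁻¹' H m) ∩ pr g ⁻¹' ⋃ b ∈ t, closure b)) <
        ENNReal.ofReal δ := by
      refine (measure_mono h3).trans_lt ((measure_union_le _ _).trans_lt ?_)
      rw [measure_union_null h1 h2, add_zero]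
      refine (measure_union_le _ _).trans_lt ?_
      have e : ENNReal.ofReal δ =
          ENNReal.ofReal (δ / 3) + ENNReal.ofReal (δ / 3) + ENNReal.ofReal (δ / 3) := by
        rw [← ENNReal.ofReal_add (by linarith) (by linarith),
          ← ENNReal.ofReal_add (by linarith) (by linarith)]
        congr 1
        ring
      rw [e]
      exact ENNReal.add_lt_add ((measure_union_le _ _).trans_lt
        (ENNReal.add_lt_add hCμ ((hle _).trans_lt htν))) ((hle _).trans_lt hm')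
    exact ENNReal.toReal_lt_of_lt_ofReal h4

end Pool.Agent.P.MP_5a7e2f_gt.Ad
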