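import Pool.Agent.P.MP_5a7e2f_gt.AdCyl
import Pool.Agent.P.MP_5a7e2f_gt.AdColl

set_option autoImplicit false
set_option linter.unusedSectionVars false

open Set Filter Topology MeasureTheory TopologicalSpace
open scoped ENNReal Cardinal

namespace Pool.Agent.P.MP_5a7e2f_gt.Ad

theorem hash_inj {J : Type} (hJ : #J ≤ ℵ₁) : ∃ h : J → ℕ → Bool, Function.Injective h := by
  have h1 : #J ≤ #(ℕ → Bool) := by
    refine hJ.trans (Cardinal.aleph_one_le_continuum.trans (le_of_eq ?_))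
    simp
  obtain ⟨e⟩ := Cardinal.le_def _ _ |>.1 h1
  exact ⟨e, e.injective⟩

theorem hash_level {J : Type} {h : J → ℕ → Bool} (hh : Function.Injective h) (s : Finset J) :
    ∃ m : ℕ, ∀ i ∈ s, ∀ j ∈ s, (∀ l < m, h i l = h j l) → i = j := by
  classical
  have h1 : ∀ i j : J, ∃ d : ℕ, h i d = h j d → i = j := by
    intro i j
    by_cases hij : i = j
    · exact ⟨0, fun _ => hij⟩
    · obtain ⟨d, hd⟩ := Function.ne_iff.1 (hh.ne hij)
      exact ⟨d, fun h0 => absurd h0 hd⟩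
  choose d hd using h1
  refine ⟨(s ×ˢ s).sup (fun p => d p.1 p.2) + 1, fun i hi j hj hl => hd i j (hl _ ?_)⟩
  exact Nat.lt_succ_of_le (Finset.le_sup (f := fun p : J × J => d p.1 p.2)
    (Finset.mk_mem_product hi hj))

theorem hash_dom (hL : Loc) {ι : Type} (hι : #ι ≤ ℵ₁) (m : ι → ℕ → ℕ) :
    ∃ n : ℕ → ℕ, Monotone n ∧ ∀ a, ∀ᶠ k in atTop, m a k ≤ n k := by
  obtain ⟨φ, -, h2⟩ := hL.gen hι m
  refine ⟨fun k => (Finset.range (k + 1)).sup fun i => (φ i).sup id, fun k k' hk => ?_,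
    fun a => (h2 a).mono fun k hk => ?_⟩
  · exact Finset.sup_mono (Finset.range_mono (by omega))
  · exact (Finset.le_sup (f := id) hk).trans
      (Finset.le_sup (f := fun i => (φ i).sup id) (Finset.self_mem_range_succ k))

theorem hash_card {C : Type} {ψ : ℕ → Finset C} (hψ : Slalom ψ) :
    ∀ᶠ k in atTop, (ψ k).card ≤ 2 ^ k := by
  have h1 := ENNReal.tendsto_atTop_zero_of_tsum_ne_top hψ
  filter_upwards [h1.eventually (ge_mem_nhds (zero_lt_one' ℝ≥0∞))] with k hk
  have h2 : ((ψ k).card : ℝ≥0∞) ≤ 2 ^ k := by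
    have h3 : (2⁻¹ : ℝ≥0∞) ^ k * 2 ^ k = 1 := by
      rw [← mul_pow, ENNReal.inv_mul_cancel (by simp) (by simp), one_pow]
    calc ((ψ k).card : ℝ≥0∞) = ((ψ k).card * 2⁻¹ ^ k) * 2 ^ k := by rw [mul_assoc, h3, mul_one]
      _ ≤ 1 * 2 ^ k := by gcongr
      _ = 2 ^ k := one_mul _
  exact_mod_cast h2

theorem hash_code {J : Type} {h : J → ℕ → Bool} {n : ℕ} {i j : J}
    (hc : (Finset.range n).filter (fun l => h i l = true) =
      (Finset.range n).filter (fun l => h j l = true)) : ∀ l < n, h i l = h j l := by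
  intro l hl
  have h1 := Finset.ext_iff.1 hc l
  simp only [Finset.mem_filter, Finset.mem_range, hl, true_and] at h1
  exact Bool.eq_iff_iff.2 h1

/-- a map to `ℕ` that is almost injective on almost all of the given finite sets -/
theorem hash_map (hL : Loc) {J ι : Type} (hJ : #J ≤ ℵ₁) (hι : #ι ≤ ℵ₁) (s : ι → ℕ → Finset J) :
    ∃ π : J → ℕ, ∀ a, ∀ᶠ k in atTop, ∃ o : Finset J, o.card ≤ 2 ^ k ∧
      ∀ i ∈ s a k, ∀ j ∈ s a k, i ∉ o → j ∉ o → π i = π j → i = j := by
  classical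
  obtain ⟨h, hh⟩ := hash_inj hJ
  choose m hm using fun a k => hash_level hh (s a k)
  obtain ⟨n, hn, hmn⟩ := hash_dom hL hι m
  obtain ⟨ψ, hψ, h2⟩ := hL.gen hJ
    (fun j k => (Finset.range (n k)).filter (fun l => h j l = true))
  choose r hr using fun j => eventually_atTop.1 (h2 j)
  obtain ⟨e, he⟩ := exists_injective_nat (ℕ × Finset ℕ)
  refine ⟨fun j => e (r j, (Finset.range (n (r j))).filter (fun l => h j l = true)), fun a => ?_⟩
  filter_upwards [hmn a, hash_card hψ] with k hk hc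
  refine ⟨(s a k).filter (fun j => r j ≤ k), le_trans ?_ hc, fun i hi j hj hio hjo hij => ?_⟩
  · refine Finset.card_le_card_of_injOn
      (fun j => (Finset.range (n k)).filter (fun l => h j l = true)) (fun j hj => ?_)
      (fun i hi j hj hij => ?_)
    · exact hr j k (Finset.mem_filter.1 hj).2
    · exact hm a k i (Finset.mem_filter.1 hi).1 j (Finset.mem_filter.1 hj).1
        fun l hl => hash_code hij l (hl.trans_le hk)
  · have h3 := he hij
    simp only [Prod.mk.injEq] at h3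
    obtain ⟨h4, h5⟩ := h3
    rw [← h4] at h5
    have h6 : k ≤ r i := by
      by_contra h7
      exact hio (Finset.mem_filter.2 ⟨hi, by omega⟩)
    exact hm a k i hi j hj fun l hl => hash_code h5 l (hl.trans_le (hk.trans (hn h6)))

theorem hash_pow (k : ℕ) : (2 : ℝ≥0∞) ^ (2 ^ k) * 2⁻¹ ^ (2 ^ k + k) = 2⁻¹ ^ k := by
  rw [pow_add, ← mul_assoc, ← mul_pow, ENNReal.mul_inv_cancel (by simp) (by simp), one_pow, one_mul]

theorem covP_of (hL : Loc) (hA : AddN) : CovP := by
  intro J ι hJ hι N hN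
  choose s c h1 h2 h3 using fun a => null_cyl (hN a) (fun k => 2⁻¹ ^ (2 ^ k + k))
    (fun k => pow_ne_zero _ (by simp))
  obtain ⟨π, hπ⟩ := hash_map hL hJ hι s
  have h4 : ∀ a, lam {y | ∃ᶠ k in atTop, (fun j => y (π j)) ∈ c a k} = 0 := by
    intro a
    obtain ⟨K, hK⟩ := eventually_atTop.1 (hπ a)
    have h5 : lam {y | ∃ᶠ k in atTop, K ≤ k ∧ (fun j => y (π j)) ∈ c a k} = 0 := by
      refine measure_setOfPred_frequently_eq_zero (ne_top_of_le_ne_top ?_
        (ENNReal.tsum_le_tsum (g := fun k => (2⁻¹ : ℝ≥0∞) ^ k) fun k => ?_))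
      · rw [ENNReal.tsum_geometric]
        simp
      · by_cases hk : K ≤ k
        · obtain ⟨o, ho, ho'⟩ := hK k hk
          simp only [hk, true_and]
          refine (collapse π (s a k) o (h1 a k) ho').trans ?_
          rw [← hash_pow k]
          gcongr
          · exact one_le_two
          · exact h2 a k
        · simp [hk]
    refine measure_mono_null (fun y hy => ?_) h5
    exact (Frequently.and_eventually hy (eventually_ge_atTop K)).mono fun k hk => ⟨hk.2, hk.1⟩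
  have h6 := hA.gen hι _ h4
  have h7 : (⋃ a, {y : TT | ∃ᶠ k in atTop, (fun j => y (π j)) ∈ c a k}) ≠ univ := by
    intro h8
    rw [h8, lam_eq_coin, measure_univ] at h6
    exact one_ne_zero h6
  obtain ⟨y, hy⟩ := (ne_univ_iff_exists_notMem _).1 h7
  exact ⟨fun j => y (π j), fun a ha => hy (mem_iUnion.2 ⟨a, h3 a _ ha⟩)⟩

end Pool.Agent.P.MP_5a7e2f_gt.Ad
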