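import Pool.Agent.P.MP_5a7e2f_gt.AdVar

set_option autoImplicit false
set_option linter.unusedSectionVars false

open Set Filter Topology MeasureTheory TopologicalSpace
open scoped ENNReal Cardinal

namespace Pool.Agent.P.MP_5a7e2f_gt.Ad

theorem loc_exists_h : ∃ h : II → ℕ → ℕ, ∀ g b k, b < g → ee g b ≤ k → h g k ≠ h b k := by
  obtain ⟨h, hh⟩ := rec_choice (I := II) (fun _ : ℕ => (0 : ℕ))
    (fun g p d => ∀ b k, b < g → ee g b ≤ k → d k ≠ p b k) (fun g p => by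
      have : ∀ k, ∃ n : ℕ, n ∉ (fun b => p b k) '' {b | b < g ∧ ee g b ≤ k} :=
        fun k => ((finite_ee g k).image _).exists_notMem
      choose d hd using this
      exact ⟨d, fun b k h1 h2 h3 => hd k ⟨b, ⟨h1, h2⟩, h3.symm⟩⟩)
  exact ⟨h, fun g b k h1 h2 => by simpa [h1] using hh g b k h1 h2⟩

/-- the disjointified independent sets -/
def loc_DD (v : ℕ → ℕ) : DD where
  c k := GG k (v k) \ ⋃ i ∈ Finset.range k, GG i (v i)
  clopen k := (isClopen_GG _ _).diff (isClopen_biUnion_finset fun i _ => isClopen_GG _ _)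
  disj i j hij := by
    have key : ∀ i j : ℕ, i < j → Disjoint (GG i (v i) \ ⋃ l ∈ Finset.range i, GG l (v l))
        (GG j (v j) \ ⋃ l ∈ Finset.range j, GG l (v l)) := fun i j h =>
      disjoint_left.2 fun t h1 h2 => h2.2 (mem_iUnion₂.2 ⟨i, Finset.mem_range.2 h, h1.1⟩)
    rcases lt_or_gt_of_ne hij with h | h
    · exact key i j h
    · exact (key j i h).symm
  small k := (measure_mono sdiff_subset).trans (lam_GG _ _).le

theorem loc_bound (v : II → ℕ → ℕ) (hv : ∀ g b k, b < g → ee g b ≤ k → v g k ≠ v b k)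
    {H : Set TT} {g : II} (h0 : lam (H ∩ ell (fun b => loc_DD (v b)) (uu g)) = 0) (k : ℕ) :
    lam (H ∩ GG k (v g k)) ≤ 2⁻¹ * 2⁻¹ ^ (k + 4) := by
  have := (countable_Iio g).to_subtype
  have hsub : H ∩ GG k (v g k) ⊆ (H ∩ ell (fun b => loc_DD (v b)) (uu g)) ∪
      ((⋃ i ∈ Finset.range k, GG k (v g k) ∩ GG i (v g i)) ∪
        ⋃ b : Iio g, ⋃ j : ℕ, GG k (v g k) ∩ GG (j + ee g b) (v b (j + ee g b))) := by
    intro t ht
    by_cases h1 : t ∈ ⋃ i ∈ Finset.range k, GG i (v g i)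
    · obtain ⟨i, hi, h2⟩ := mem_iUnion₂.1 h1
      exact Or.inr (Or.inl (mem_iUnion₂.2 ⟨i, hi, ht.2, h2⟩))
    · by_cases h2 : t ∈ avoid (fun b => loc_DD (v b)) g
      · obtain ⟨b, hb⟩ := mem_iUnion.1 h2
        obtain ⟨j, hj⟩ := mem_iUnion.1 hb
        exact Or.inr (Or.inr (mem_iUnion.2 ⟨b, mem_iUnion.2 ⟨j, ht.2, hj.1⟩⟩))
      · exact Or.inl ⟨ht.1, subset_ell_uu (c := fun b => loc_DD (v b)) g k ⟨⟨ht.2, h1⟩, h2⟩⟩
  have hA : lam (⋃ i ∈ Finset.range k, GG k (v g k) ∩ GG i (v g i)) ≤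
      2⁻¹ ^ (k + 4) * 2⁻¹ ^ 3 := by
    refine (measure_biUnion_finset_le _ _).trans ?_
    rw [← geo 3, ← ENNReal.tsum_mul_left]
    refine le_trans (Finset.sum_le_sum fun i hi => ?_) (ENNReal.sum_le_tsum (Finset.range k))
    refine (lam_GG_inter fun h => ?_).le
    have := Finset.mem_range.1 hi
    have h2 := congrArg Prod.fst h
    simp only at h2
    omega
  have hB : lam (⋃ b : Iio g, ⋃ j : ℕ, GG k (v g k) ∩ GG (j + ee g b) (v b (j + ee g b))) ≤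
      2⁻¹ ^ (k + 4) * 2⁻¹ ^ 2 := by
    refine (measure_iUnion_le _).trans ?_
    have h1 : ∀ b : Iio g,
        lam (⋃ j : ℕ, GG k (v g k) ∩ GG (j + ee g b) (v b (j + ee g b))) ≤
          2⁻¹ ^ (k + 4) * 2⁻¹ ^ (ee g b + 3) := by
      intro b
      refine (measure_iUnion_le _).trans ?_
      rw [← geo (ee g b + 3), ← ENNReal.tsum_mul_left]
      refine ENNReal.tsum_le_tsum fun j => (lam_GG_inter fun h => ?_).le
      have h2 := congrArg Prod.fst h
      have h3 := congrArg Prod.snd h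
      simp only at h2 h3
      rw [← h2] at h3
      exact hv g b k b.2 (by omega) h3
    refine (ENNReal.tsum_le_tsum h1).trans ?_
    rw [ENNReal.tsum_mul_left, ← geo 2]
    gcongr
    exact ENNReal.tsum_comp_le_tsum_of_injective (f := fun β : Iio g => ee g β)
      (fun a b h => Subtype.ext (ee_inj g a.2 b.2 h)) fun m => (2⁻¹ : ℝ≥0∞) ^ (m + 3)
  refine (measure_mono hsub).trans ((measure_union_le _ _).trans ?_)
  rw [h0, zero_add]
  refine (measure_union_le _ _).trans ((add_le_add hA hB).trans ?_)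
  rw [← mul_add, mul_comm]
  gcongr
  calc (2⁻¹ ^ 3 + 2⁻¹ ^ 2 : ℝ≥0∞) ≤ 2⁻¹ ^ 2 + 2⁻¹ ^ 2 :=
        add_le_add (pow_le_pow_of_le_one (by simp) (by simp) (by norm_num)) le_rfl
    _ = 2⁻¹ := by
        rw [pow_two, ← mul_add, ENNReal.inv_two_add_inv_two, mul_one]

theorem loc_of_capt (h : ∀ c, Capt c) : Loc := by
  classical
  intro f
  obtain ⟨a, ha⟩ := loc_exists_h
  let v : II → ℕ → ℕ := fun g k => Nat.pair (f g k) (a g k)
  have hv : ∀ g b k, b < g → ee g b ≤ k → v g k ≠ v b k := fun g b k h1 h2 h3 =>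
    ha g b k h1 h2 (Nat.pair_eq_pair.1 h3).2
  obtain ⟨H, hH, hc⟩ := h fun b => loc_DD (v b)
  have hφ : ∀ n, ∃ φ : ℕ → Finset ℕ, Slalom φ ∧ (2⁻¹ < lam (H n) →
      ∀ k w, lam (H n ∩ GG k w) ≤ 2⁻¹ * 2⁻¹ ^ (k + 4) → w ∈ φ k) := by
    intro n
    by_cases h1 : 2⁻¹ < lam (H n)
    · obtain ⟨φ, h2, h3⟩ := slalom_of (hH n) h1
      exact ⟨φ, h2, fun _ => h3⟩
    · exact ⟨fun _ => ∅, by simp [Slalom], fun h2 => absurd h2 h1⟩
  choose φ h1 h2 using hφ
  obtain ⟨ψ, h3, h4⟩ := slalom_merge φ h1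
  refine ⟨fun k => (ψ k).image fun w => (Nat.unpair w).1,
    ne_top_of_le_ne_top h3 (ENNReal.tsum_le_tsum fun k => ?_), fun g => ?_⟩
  · have h7 : ((ψ k).image fun w => (Nat.unpair w).1).card ≤ (ψ k).card := Finset.card_image_le
    gcongr
  · obtain ⟨n, h5, h6⟩ := hc g
    refine (h4 n).mono fun k hk => Finset.mem_image.2 ⟨v g k, hk ?_, by simp [v]⟩
    exact h2 n h5 k _ (loc_bound v hv h6 k)

end Pool.Agent.P.MP_5a7e2f_gt.Ad
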