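import Pool.Agent.P.MP_5a7e2f_gt.AdRep

set_option autoImplicit false
set_option linter.unusedSectionVars false

open Set Filter Topology MeasureTheory TopologicalSpace
open scoped ENNReal Cardinal

namespace Pool.Agent.P.MP_5a7e2f_gt.Ad

/-- double currying -/
def pre_ev (x : ℕ × II × ℕ → Bool) : ℕ → II → TT := fun n b l => x (n, b, l)

theorem pre_meas : Measurable pre_ev := by
  unfold pre_ev
  fun_prop

theorem pre_map : (coin (ℕ × II × ℕ)).map pre_ev =
    Measure.infinitePi fun _ : ℕ => Measure.infinitePi fun _ : II => lam := by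
  have h1 := Measure.infinitePi_map_curry
    (fun (_ : ℕ) (_ : II × ℕ) => (PMF.uniformOfFintype Bool).toMeasure)
  have h2 := Measure.infinitePi_map_curry
    (fun (_ : II) (_ : ℕ) => (PMF.uniformOfFintype Bool).toMeasure)
  have h3 := Measure.infinitePi_map_pi
    (fun _ : ℕ => Measure.infinitePi fun _ : II × ℕ => (PMF.uniformOfFintype Bool).toMeasure)
    (f := fun _ => MeasurableEquiv.curry II ℕ Bool)
    fun _ => (MeasurableEquiv.curry II ℕ Bool).measurable
  rw [← h1, Measure.map_map (by fun_prop) (by fun_prop)] at h3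
  simp only [h2] at h3
  exact h3

theorem pre_null {X : Type} [MeasurableSpace X] (P : Measure X) [IsProbabilityMeasure P]
    {A : Set X} (hA : MeasurableSet A) (h0 : P A ≠ 0) :
    Measure.infinitePi (fun _ : ℕ => P) {y | ∀ n, y n ∉ A} = 0 := by
  have h : ∀ n : ℕ, Measure.infinitePi (fun _ : ℕ => P) {y | ∀ n, y n ∉ A} ≤ P Aᶜ ^ n := by
    intro n
    have h1 : {y : ℕ → X | ∀ n, y n ∉ A} ⊆ Set.pi (Finset.range n) fun _ => Aᶜ :=
      fun y hy i _ => hy i
    refine (measure_mono h1).trans ?_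
    rw [Measure.infinitePi_pi _ fun i _ => hA.compl]
    simp
  have h2 : P Aᶜ < 1 := by
    rw [prob_compl_eq_one_sub hA]
    exact ENNReal.sub_lt_self ENNReal.one_ne_top one_ne_zero h0
  exact le_antisymm (ge_of_tendsto' (ENNReal.tendsto_pow_atTop_nhds_zero_of_lt_one h2) h) zero_le

theorem pre_card1 : #(ℕ × II × ℕ) ≤ ℵ₁ := by
  have h : ℵ₀ ≤ ℵ₁ := Cardinal.aleph0_lt_aleph_one.le
  simp only [Cardinal.mk_prod, Cardinal.lift_id, mk_II, Cardinal.mk_nat]
  rw [Cardinal.mul_eq_left h h Cardinal.aleph0_ne_zero,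
    Cardinal.mul_eq_right h h Cardinal.aleph0_ne_zero]

theorem pre_card2 : #(II ⊕ ℕ × Finset II) ≤ ℵ₁ := by
  have h : ℵ₀ ≤ ℵ₁ := Cardinal.aleph0_lt_aleph_one.le
  simp only [Cardinal.mk_sum, Cardinal.mk_prod, Cardinal.lift_id, Cardinal.mk_finset_of_infinite,
    mk_II, Cardinal.mk_nat]
  rw [Cardinal.mul_eq_right h h Cardinal.aleph0_ne_zero, Cardinal.add_eq_self h]

theorem pre_of_covP (h : CovP) : Pre := by
  intro S _ μ _ D hD h0
  obtain ⟨D', hm, hP⟩ := rep μ D hD
  set P : Measure (II → TT) := Measure.infinitePi fun _ : II => lam with hPdef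
  have hF : ∀ F : Finset II, MeasurableSet (⋂ i ∈ F, D' i) := fun F =>
    F.measurableSet_biInter fun i _ => hm i
  let N : II ⊕ ℕ × Finset II → Set (ℕ × II × ℕ → Bool) := fun k =>
    match k with
    | .inl a => pre_ev ⁻¹' {y | ∀ n, y n ∉ D' a}
    | .inr (n, F) => {x | μ (⋂ i ∈ F, D i) = 0 ∧ pre_ev x n ∈ ⋂ i ∈ F, D' i}
  have hN : ∀ k, coin (ℕ × II × ℕ) (N k) = 0 := by
    rintro (a | ⟨n, F⟩)
    · have h1 : MeasurableSet {y : ℕ → II → TT | ∀ n, y n ∉ D' a} := by
        rw [ofPred_forall]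
        exact MeasurableSet.iInter fun n =>
          measurable_pi_apply (X := fun _ : ℕ => II → TT) n (hm a).compl
      refine (Measure.map_apply pre_meas h1).symm.trans ?_
      rw [pre_map]
      refine pre_null P (hm a) ?_
      have := hP {a}
      simp only [Finset.mem_singleton, iInter_iInter_eq_left] at this
      rw [this]
      exact h0 a
    · by_cases h1 : μ (⋂ i ∈ F, D i) = 0
      · have h2 : N (.inr (n, F)) = pre_ev ⁻¹' ((fun y => y n) ⁻¹' ⋂ i ∈ F, D' i) := by
          ext x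
          simp only [N, h1, true_and, mem_ofPred_eq, mem_preimage]
        rw [h2, ← Measure.map_apply pre_meas ((measurable_pi_apply n) (hF F)), pre_map,
          ← Measure.map_apply (measurable_pi_apply n) (hF F), Measure.infinitePi_map_eval, hP, h1]
      · have h2 : N (.inr (n, F)) = ∅ := by
          ext x
          simp only [N, h1, false_and, mem_ofPred_eq, mem_empty_iff_false]
        rw [h2, measure_empty]
  obtain ⟨x, hx⟩ := h _ _ pre_card1 pre_card2 N hN
  have h1 : ∃ n, Unb {a | pre_ev x n ∈ D' a} := by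
    by_contra h2
    simp only [Unb, not_exists, not_forall, not_and, mem_ofPred_eq] at h2
    choose β hβ using h2
    obtain ⟨δ, hδ⟩ := exists_bound (countable_range β)
    have h3 := hx (.inl δ)
    simp only [N, mem_preimage, mem_ofPred_eq, not_forall, not_not] at h3
    obtain ⟨n, hn⟩ := h3
    exact hβ n δ hn (hδ _ (mem_range_self n))
  obtain ⟨n, hn⟩ := h1
  refine ⟨_, hn, fun F hF h2 => hx (.inr (n, F)) ⟨h2, ?_⟩⟩
  exact mem_iInter₂.2 hF

end Pool.Agent.P.MP_5a7e2f_gt.Ad
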