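import Pool.Agent.P.MP_5a7e2f_gt.AdMax

set_option autoImplicit false
set_option linter.unusedSectionVars false

open Set Filter Topology MeasureTheory TopologicalSpace
open scoped ENNReal Cardinal

namespace Pool.Agent.P.MP_5a7e2f_gt.Ad

section ctype

variable {S : Type} [TopologicalSpace S]

/-- the sigma-algebra generated by a family of continuous functions -/
@[reducible] def typeSig (C : Set C(S, ℝ)) : MeasurableSpace S :=
  ⨆ f ∈ C, MeasurableSpace.comap (fun s => f s) (inferInstance : MeasurableSpace ℝ)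

theorem type_sig_mono {C C' : Set C(S, ℝ)} (h : C ⊆ C') : typeSig C ≤ typeSig C' :=
  iSup₂_le fun f hf => le_iSup₂_of_le f (h hf) le_rfl

theorem type_sig_meas {C : Set C(S, ℝ)} {f : C(S, ℝ)} (hf : f ∈ C) :
    Measurable[typeSig C] fun s => f s :=
  Measurable.mono (comap_measurable _) (le_iSup₂_of_le f hf le_rfl) le_rfl

theorem type_sig_le_pr {C : Set C(S, ℝ)} {g : ℕ → C(S, ℝ)} (h : C ⊆ range g) :
    typeSig C ≤ MeasurableSpace.comap (pr g) (inferInstance : MeasurableSpace (ℕ → ℝ)) := by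
  refine iSup₂_le fun f hf => ?_
  obtain ⟨n, rfl⟩ := h hf
  have h1 : (fun s => g n s) = (fun x : ℕ → ℝ => x n) ∘ pr g := rfl
  rw [h1, ← MeasurableSpace.comap_comp]
  exact MeasurableSpace.comap_mono (measurable_pi_apply n).comap_le

theorem type_sig_le [m0 : MeasurableSpace S] [BorelSpace S] (C : Set C(S, ℝ)) :
    typeSig C ≤ m0 :=
  iSup₂_le fun f _ => f.continuous.measurable.comap_le

theorem type_int [CompactSpace S] [MeasurableSpace S] [BorelSpace S] (μ : Measure S)
    [IsFiniteMeasure μ] (f : C(S, ℝ)) : Integrable (fun s => f s) μ :=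
  (BoundedContinuousFunction.mkOfCompact f).integrable μ

theorem type_pos {S : Type} [MeasurableSpace S] (μ : Measure S) {G : S → ℝ}
    (hG : Integrable G μ) (h0 : ∫ s, G s ∂μ = 0) (hne : ¬ G =ᵐ[μ] 0) :
    ∃ η : ℝ, 0 < η ∧ μ {s | 3 * η < G s} ≠ 0 := by
  by_contra h
  push Not at h
  apply hne
  have h1 : ∀ n : ℕ, ∀ᵐ s ∂μ, G s ≤ 3 * (1 / ((n : ℝ) + 1)) := fun n => by
    have := h (1 / ((n : ℝ) + 1)) Nat.one_div_pos_of_nat
    rw [ae_iff]
    simpa only [not_le] using this
  have h2 : 0 ≤ᵐ[μ] fun s => -G s := by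
    filter_upwards [ae_all_iff.2 h1] with s hs
    have h3 : Tendsto (fun n : ℕ => 3 * (1 / ((n : ℝ) + 1))) atTop (𝓝 (3 * 0)) :=
      tendsto_one_div_add_atTop_nhds_zero_nat.const_mul 3
    have h4 : G s ≤ 3 * 0 := ge_of_tendsto' h3 hs
    simp only [Pi.zero_apply]
    linarith
  have h5 := (integral_eq_zero_iff_of_nonneg_ae h2 hG.neg).1 (by rw [integral_neg, h0, neg_zero])
  filter_upwards [h5] with s hs
  simpa using hs

/-- the step property of the recursion -/
def typeGood [MeasurableSpace S] (μ : Measure S) (C : Set C(S, ℝ)) (φ : C(S, ℝ)) : Prop :=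
  ∃ (G : S → ℝ) (η : ℝ), Measurable G ∧ Integrable G μ ∧ 0 < η ∧
    (∀ P, MeasurableSet[typeSig C] P → ∫ s in P, G s ∂μ = 0) ∧
    2 * ∫ s, |φ s - G s| ∂μ < η * μ.real {s | 3 * η < G s}

theorem type_step [CompactSpace S] [T2Space S] [m0 : MeasurableSpace S] [BorelSpace S]
    (μ : Measure S) [IsProbabilityMeasure μ] [μ.Regular]
    (h : ¬ ∃ g : ℕ → C(S, ℝ), CType μ g) {C : Set C(S, ℝ)} (hC : C.Countable) :
    ∃ φ, typeGood μ C φ := by
  obtain ⟨g, hg⟩ := (hC.insert 0).exists_eq_range (insert_nonempty _ _)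
  have hsub : C ⊆ range g := hg ▸ subset_insert _ _
  have h1 : ¬ CType μ g := fun h2 => h ⟨g, h2⟩
  unfold CType at h1
  push Not at h1
  obtain ⟨f, hf⟩ := h1
  have hle := type_sig_le (m0 := m0) C
  have hfi := type_int μ f
  set E : S → ℝ := μ[fun s => f s | typeSig C] with hE
  have hEm : StronglyMeasurable[typeSig C] E := stronglyMeasurable_condExp
  have hEi : Integrable E μ := integrable_condExp
  let G : S → ℝ := fun s => f s - E s
  have hGm : Measurable G := f.continuous.measurable.sub (hEm.mono hle).measurable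
  have hGi : Integrable G μ := hfi.sub hEi
  have hG0 : ∀ P, MeasurableSet[typeSig C] P → ∫ s in P, G s ∂μ = 0 := fun P hP => by
    simp only [G]
    rw [integral_sub hfi.integrableOn hEi.integrableOn, hE, setIntegral_condExp hle hfi hP,
      sub_self]
  have hne : ¬ G =ᵐ[μ] 0 := fun h3 => by
    obtain ⟨φ, h4, h5⟩ := (hEm.mono (type_sig_le_pr hsub)).exists_eq_measurable_comp
    refine hf φ h4.measurable ?_
    filter_upwards [h3] with s hs
    have h6 : E s = φ (pr g s) := congrFun h5 s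
    simp only [G, Pi.zero_apply] at hs
    linarith
  have hz : ∫ s, G s ∂μ = 0 := by
    have := hG0 univ MeasurableSet.univ
    rwa [Measure.restrict_univ] at this
  obtain ⟨η, hη, hc⟩ := type_pos μ hGi hz hne
  have hc' : 0 < μ.real {s | 3 * η < G s} :=
    ENNReal.toReal_pos hc (measure_ne_top _ _)
  obtain ⟨φ, hφ, -⟩ := hGi.exists_boundedContinuous_integral_sub_le
    (ε := η * μ.real {s | 3 * η < G s} / 4) (by positivity)
  refine ⟨φ.toContinuousMap, G, η, hGm, hGi, hη, hG0, ?_⟩
  have h7 : ∫ s, |φ.toContinuousMap s - G s| ∂μ = ∫ s, ‖G s - φ s‖ ∂μ := by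
    refine integral_congr_ae (Eventually.of_forall fun s => ?_)
    simp only [Real.norm_eq_abs]
    exact abs_sub_comm _ _
  rw [h7]
  have h8 : 0 < η * μ.real {s | 3 * η < G s} := mul_pos hη hc'
  linarith

end ctype

theorem ctype_of_not_free (hP : Pre) {S : Type} [TopologicalSpace S] [CompactSpace S] [T2Space S]
    [MeasurableSpace S] [BorelSpace S] (μ : Measure S) [IsProbabilityMeasure μ] [μ.Regular]
    (h : ¬ FreeP μ) : ∃ g : ℕ → C(S, ℝ), CType μ g := by
  classical
  rename_i m0 _ _ _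
  by_contra hg
  apply h
  obtain ⟨φ, hφ⟩ := rec_choice (I := II) (0 : C(S, ℝ))
    (fun i g d => typeGood μ (g '' Iio i) d)
    fun i g => type_step μ hg ((countable_Iio i).image _)
  have hφ' : ∀ i, typeGood μ (φ '' Iio i) (φ i) := fun i => by
    have h1 : (fun j => if j < i then φ j else 0) '' Iio i = φ '' Iio i :=
      image_congr fun j hj => if_pos hj
    have := hφ i
    rwa [h1] at this
  choose G η hGm hGi hη hG0 hlt using hφ'
  let m : II → MeasurableSpace S := fun b => typeSig (φ '' Iio b)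
  have hm : Monotone m := fun a b hab => type_sig_mono (image_mono (Iio_subset_Iio hab))
  have hle : ∀ b, m b ≤ m0 := fun b => type_sig_le (m0 := m0) _
  let r : II → S → ℝ := fun i s => |φ i s - G i s|
  have hri : ∀ i, Integrable (r i) μ := fun i => ((type_int μ (φ i)).sub (hGi i)).abs
  have hrm : ∀ i, Measurable (r i) := fun i =>
    continuous_abs.measurable.comp ((φ i).continuous.measurable.sub (hGm i))
  have hr0 : ∀ i, 0 ≤ᵐ[μ] r i := fun i => Eventually.of_forall fun s => abs_nonneg _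
  have hcm : ∀ i a, MeasurableSet[m a] {s | η i < (μ[r i | m a]) s} := fun i a =>
    (stronglyMeasurable_condExp (μ := μ) (m := m a) (f := r i)).measurable measurableSet_Ioi
  have hIic : ∀ i : II, (Iic i).Countable := fun i => by
    rw [← Iio_insert]; exact (countable_Iio i).insert i
  let B : II → Set S := fun i =>
    {s | η i ≤ r i s} ∪ ⋃ a ∈ Iic i, {s | η i < (μ[r i | m a]) s}
  let D : II → Set S := fun i => {s | 3 * η i < G i s} \ B i
  have hBm : ∀ i, MeasurableSet (B i) := fun i =>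
    (hrm i measurableSet_Ici).union
      (MeasurableSet.biUnion (hIic i) fun a _ => hle a _ (hcm i a))
  have hDm : ∀ i, MeasurableSet (D i) := fun i => (hGm i measurableSet_Ioi).diff (hBm i)
  have hD0 : ∀ i, μ (D i) ≠ 0 := fun i h0 => by
    have h1 := mul_meas_ge_le_integral_of_nonneg (hr0 i) (hri i) (η i)
    have h2 := maximal μ m hm hle (hri i) (hr0 i) (hη i) i
    have h3 : μ.real (B i) ≤ μ.real {s | η i ≤ r i s} +
        μ.real (⋃ a ∈ Iic i, {s | η i < (μ[r i | m a]) s}) := measureReal_union_le _ _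
    have h4 : μ.real {s | 3 * η i < G i s} ≤ μ.real (D i) + μ.real (B i) := by
      refine le_trans (measureReal_mono ?_) (measureReal_union_le _ _)
      intro s hs
      by_cases hb : s ∈ B i
      · exact Or.inr hb
      · exact Or.inl ⟨hs, hb⟩
    have h5 : μ.real (D i) = 0 := by rw [measureReal_def, h0, ENNReal.toReal_zero]
    have h6 := hlt i
    have h7 : η i * μ.real {s | 3 * η i < G i s} ≤ η i * (μ.real {s | η i ≤ r i s} +
        μ.real (⋃ a ∈ Iic i, {s | η i < (μ[r i | m a]) s})) :=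
      mul_le_mul_of_nonneg_left (by linarith) (hη i).le
    have h8 : ∫ s, r i s ∂μ = ∫ s, |φ i s - G i s| ∂μ := rfl
    linarith
  obtain ⟨Γ, hΓ, hF⟩ := hP S μ D hDm hD0
  refine ⟨Γ, fun i => (η i)⁻¹ • φ i, 1, 2, hΓ, one_lt_two, fun j _ F F' h1 h2 => ?_⟩
  let P : Set S := (⋂ i ∈ F, {s | 2 * η i < φ i s}) ∩ ⋂ i ∈ F', {s | η i < (μ[r i | m j]) s}ᶜ
  have hPm : MeasurableSet[m j] P := by
    refine MeasurableSet.inter (Finset.measurableSet_biInter F fun i hi => ?_)
      (Finset.measurableSet_biInter F' fun i _ => (hcm i j).compl)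
    exact type_sig_meas (C := φ '' Iio j) (mem_image_of_mem φ (h1 i hi).2) measurableSet_Ioi
  have hPm0 : MeasurableSet P := hle j _ hPm
  have hsub : (⋂ i ∈ F ∪ F', D i) ⊆ P := by
    intro s hs
    simp only [mem_iInter] at hs
    refine ⟨mem_iInter₂.2 fun i hi => ?_, mem_iInter₂.2 fun i hi => ?_⟩
    · obtain ⟨h3, h4⟩ := hs i (Finset.mem_union_left _ hi)
      have h5 : ¬ η i ≤ r i s := fun h6 => h4 (Or.inl h6)
      have h7 : |φ i s - G i s| < η i := not_le.1 h5
      have h8 := (abs_lt.1 h7).1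
      have h9 : 3 * η i < G i s := h3
      show 2 * η i < φ i s
      linarith
    · obtain ⟨-, h4⟩ := hs i (Finset.mem_union_right _ hi)
      exact fun h5 => h4 (Or.inr (mem_biUnion (show j ∈ Iic i from (h2 i hi).2.le) h5))
  have hsm : ∀ i, ∫ s in P, ((η i)⁻¹ • φ i) s ∂μ = (η i)⁻¹ * ∫ s in P, φ i s ∂μ := fun i => by
    rw [← integral_const_mul]
    rfl
  refine ⟨P, hPm0, fun h0 => hF (F ∪ F') (fun i hi => ?_) (measure_mono_null hsub h0),
    fun i hi => ?_, fun i hi => ?_⟩
  · rcases Finset.mem_union.1 hi with h3 | h3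
    · exact (h1 i h3).1
    · exact (h2 i h3).1
  · have h3 : 2 * η i * μ.real P ≤ ∫ s in P, φ i s ∂μ :=
      setIntegral_ge_of_const_le_real hPm0 (measure_ne_top _ _)
        (fun s hs => le_of_lt (mem_iInter₂.1 hs.1 i hi)) (type_int μ (φ i)).integrableOn
    rw [hsm, ← div_eq_inv_mul, le_div_iff₀ (hη i)]
    linarith
  · have h3 : ∫ s in P, φ i s ∂μ ≤ ∫ s in P, (G i s + r i s) ∂μ := by
      refine setIntegral_mono_on (type_int μ (φ i)).integrableOn
        ((hGi i).add (hri i)).integrableOn hPm0 fun s _ => ?_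
      have := le_abs_self (φ i s - G i s)
      simp only [r]
      linarith
    rw [integral_add (hGi i).integrableOn (hri i).integrableOn,
      hG0 i P (hm (h2 i hi).2.le _ hPm), zero_add,
      ← setIntegral_condExp (hle j) (hri i) hPm] at h3
    have h4 : ∫ s in P, (μ[r i | m j]) s ∂μ ≤ ∫ _ in P, η i ∂μ :=
      setIntegral_mono_on integrable_condExp.integrableOn (integrable_const _).integrableOn hPm0
        fun s hs => not_lt.1 (mem_iInter₂.1 hs.2 i hi)
    rw [setIntegral_const, smul_eq_mul] at h4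
    rw [hsm, ← div_eq_inv_mul, div_le_iff₀ (hη i)]
    linarith

end Pool.Agent.P.MP_5a7e2f_gt.Ad
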