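import Pool.Agent.P.MP_5a7e2f_gt.AdBart
import Pool.Agent.P.MP_5a7e2f_gt.AdHash
import Pool.Agent.P.MP_5a7e2f_gt.AdPre
import Pool.Agent.P.MP_5a7e2f_gt.AdType
import Pool.Agent.P.MP_5a7e2f_gt.AdFree
import Pool.Agent.P.MP_5a7e2f_gt.AdCore
import Pool.Agent.P.MP_5a7e2f_gt.AdGen
import Pool.Agent.P.MP_5a7e2f_gt.AdCapt
import Pool.Agent.P.MP_5a7e2f_gt.AdLoc

set_option autoImplicit false
set_option linter.unusedSectionVars false

open Set Filter Topology MeasureTheory TopologicalSpace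
open scoped ENNReal Cardinal

namespace Pool.Agent.P.MP_5a7e2f_gt.Ad

theorem Q1_of_addN (h : AddN) : Q1 := by
  intro S _ _ _ _ _ ht μ hμ hr
  have hL := loc_of_addN h
  have hP := pre_of_covP (covP_of hL h)
  have hF : ¬ FreeP μ := fun hf => not_tight_of_free μ hf ht
  obtain ⟨g, hg⟩ := ctype_of_not_free hP μ hF
  by_contra hn
  obtain ⟨ε, hε, gen⟩ := gen_of_not_ML μ g hg hn
  have hπ : Measurable (pr g) := (continuous_pr g).measurable
  have : IsProbabilityMeasure (μ.map (pr g)) := Measure.isProbabilityMeasure_map hπ.aemeasurable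
  obtain ⟨Γ, ψ, h1, h2, h3⟩ := free_core hL hP (μ.map (pr g)) (Phi μ g) (fun φ hφ => hφ.1)
    (fun φ ⟨k1, f, k2⟩ => ⟨measurable_const.sub k1, 1 - f, k2.mono fun s hs => by
      simp only [ContinuousMap.sub_apply, ContinuousMap.one_apply] at hs ⊢
      rw [hs]⟩) hε gen
  choose f hf using fun i => (h2 i).2
  refine hF ⟨Γ, f, 1 / 2, 3 / 4, h1, by norm_num, fun j hj F G hF hG => ?_⟩
  obtain ⟨P, p1, p2, p3, p4⟩ := h3 j hj F G hF hG
  have hi : ∀ i, IntegrableOn (fun s => f i s) (pr g ⁻¹' P) μ := fun i =>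
    ((BoundedContinuousFunction.mkOfCompact (f i)).integrable μ).integrableOn
  have hc : ∀ a : ℝ, a * μ.real (pr g ⁻¹' P) = ∫ _ in pr g ⁻¹' P, a ∂μ := fun a => by
    simp [mul_comm]
  refine ⟨pr g ⁻¹' P, hπ p1, by rwa [Measure.map_apply hπ p1] at p2, fun i hi' => ?_,
    fun i hi' => ?_⟩
  · rw [hc]
    refine setIntegral_mono_on_ae (integrableOn_const (measure_ne_top _ _)) (hi i) (hπ p1) ?_
    filter_upwards [hf i] with s hs hs'
    rw [hs]
    exact p3 i hi' _ hs'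
  · rw [hc]
    refine setIntegral_mono_on_ae (hi i) (integrableOn_const (measure_ne_top _ _)) (hπ p1) ?_
    filter_upwards [hf i] with s hs hs'
    rw [hs]
    exact p4 i hi' _ hs'

theorem Q1_iff : Q1 ↔ AddN :=
  ⟨fun h => addN_of_loc (loc_of_capt (capt_of_Q1 h)), Q1_of_addN⟩

end Pool.Agent.P.MP_5a7e2f_gt.Ad
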