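import Pool.Agent.P.MP_5a7e2f_gt.AdDefs

set_option autoImplicit false
set_option linter.unusedSectionVars false

open Set Filter Topology MeasureTheory TopologicalSpace
open scoped ENNReal Cardinal

namespace Pool.Agent.P.MP_5a7e2f_gt.Ad

theorem maximal {S : Type} {m0 : MeasurableSpace S} (μ : Measure S) [IsFiniteMeasure μ]
    (m : II → MeasurableSpace S) (hm : Monotone m) (hle : ∀ α, m α ≤ m0) {r : S → ℝ}
    (hr : Integrable r μ) (h0 : 0 ≤ᵐ[μ] r) {η : ℝ} (hη : 0 < η) (β : II) :
    η * μ.real (⋃ α ∈ Iic β, {s | η < (μ[r | m α]) s}) ≤ ∫ s, r s ∂μ := by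
  set B : II → Set S := fun α => {s | η < (μ[r | m α]) s} with hB
  set A : II → Set S := fun α => B α \ ⋃ γ ∈ Iio α, B γ with hA
  have mB : ∀ α, MeasurableSet[m α] (B α) := fun α =>
    (stronglyMeasurable_condExp (m := m α) (μ := μ) (f := r)).measurable measurableSet_Ioi
  have mA : ∀ α, MeasurableSet[m α] (A α) := fun α =>
    (mB α).diff (MeasurableSet.biUnion (countable_Iio α) fun γ hγ => hm (le_of_lt hγ) _ (mB γ))
  have mA0 : ∀ α, MeasurableSet[m0] (A α) := fun α => hle α _ (mA α)
  have dis : Pairwise (Function.onFun Disjoint fun a : Iic β => A a) := by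
    have key : ∀ a b : II, a < b → Disjoint (A a) (A b) := fun a b h =>
      disjoint_left.2 fun s h1 h2 => h2.2 (mem_biUnion (show a ∈ Iio b from h) h1.1)
    intro a b hab
    rcases lt_or_gt_of_ne (Subtype.coe_injective.ne hab) with h | h
    · exact key _ _ h
    · exact (key _ _ h).symm
  have un : (⋃ α ∈ Iic β, B α) = ⋃ a : Iic β, A a := by
    refine Subset.antisymm (fun s hs => ?_) (iUnion_subset fun a s hs => mem_biUnion a.2 hs.1)
    obtain ⟨α, h1, h2⟩ := mem_iUnion₂.1 hs
    obtain ⟨γ, h3, h4⟩ := wellFounded_lt.has_min {γ | s ∈ B γ} ⟨α, h2⟩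
    refine mem_iUnion.2 ⟨⟨γ, (not_lt.1 (h4 α h2)).trans h1⟩, h3, fun h5 => ?_⟩
    obtain ⟨δ, h6, h7⟩ := mem_iUnion₂.1 h5
    exact h4 δ h7 h6
  have : Countable (Iic β) := by
    rw [← Iio_insert]
    exact ((countable_Iio β).insert β).to_subtype
  have s1 := hasSum_integral_iUnion (μ := μ) (f := r) (fun a : Iic β => mA0 a) dis hr.integrableOn
  have s2 := hasSum_integral_iUnion (μ := μ) (f := fun _ => η) (fun a : Iic β => mA0 a) dis
    (integrable_const η).integrableOn
  have s3 := hasSum_le (fun a : Iic β => by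
    rw [← setIntegral_condExp (hle a) hr (mA a)]
    exact setIntegral_mono_on (integrable_const η).integrableOn integrable_condExp.integrableOn
      (mA0 a) fun s hs => le_of_lt hs.1) s2 s1
  rw [setIntegral_const, smul_eq_mul, mul_comm] at s3
  rw [un]
  exact s3.trans (setIntegral_le_integral hr h0)

end Pool.Agent.P.MP_5a7e2f_gt.Ad
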