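import Pool.Agent.P.MP_5a7e2f_gt.AdUnif

set_option autoImplicit false
set_option linter.unusedSectionVars false

open Set Filter Topology MeasureTheory TopologicalSpace
open scoped ENNReal Cardinal

namespace Pool.Agent.P.MP_5a7e2f_gt.Ad

/-- the pattern of membership in the sets with index below `b` -/
def rep_cut {S : Type} (D : II → Set S) (b : II) (s : S) (i : II) : Prop := i < b ∧ s ∈ D i

theorem rep_cut_meas {S : Type} [MeasurableSpace S] {D : II → Set S} {b : II}
    (h : ∀ i < b, MeasurableSet (D i)) : Measurable (rep_cut D b) := by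
  refine measurable_pi_lambda _ (fun i => ?_)
  by_cases hi : i < b
  · simpa [rep_cut, hi] using h i hi
  · simp [rep_cut, hi]

/-- basic sets of patterns -/
def rep_box (F : Finset II) : Set (II → Prop) := ⋂ i ∈ F, {x | x i}

theorem rep_box_meas (F : Finset II) : MeasurableSet (rep_box F) :=
  Finset.measurableSet_biInter F (fun i _ => (measurable_pi_apply i).setOf)

theorem rep_pre {S : Type} (D : II → Set S) {b : II} {F : Finset II} (h : ∀ i ∈ F, i < b) :
    rep_cut D b ⁻¹' rep_box F = ⋂ i ∈ F, D i := by
  ext s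
  simp only [rep_box, rep_cut, mem_preimage, mem_iInter, mem_setOf_eq]
  exact ⟨fun H i hi => (H i hi).2, fun H i hi => ⟨h i hi, H i hi⟩⟩

theorem rep_pre' {S : Type} (D : II → Set S) {b : II} {F : Finset II} (h : ¬ ∀ i ∈ F, i < b) :
    rep_cut D b ⁻¹' rep_box F = ∅ := by
  refine eq_empty_of_forall_notMem (fun s hs => h (fun i hi => ?_))
  simp only [rep_box, rep_cut, mem_preimage, mem_iInter, mem_setOf_eq] at hs
  exact (hs i hi).1

theorem rep_ext {ν ν' : Measure (II → Prop)} [IsFiniteMeasure ν]
    (h : ∀ F, ν (rep_box F) = ν' (rep_box F)) : ν = ν' := by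
  classical
  refine ext_of_generate_finite (range rep_box) ?_ ?_ ?_ ?_
  · refine le_antisymm ?_ (MeasurableSpace.generateFrom_le ?_)
    · refine iSup_le (fun i => ?_)
      letI : MeasurableSpace (II → Prop) := MeasurableSpace.generateFrom (range rep_box)
      have h1 : MeasurableSet {x : II → Prop | x i} :=
        MeasurableSpace.measurableSet_generateFrom ⟨{i}, by simp [rep_box]⟩
      exact (measurableSet_setOfPred.1 h1).comap_le
    · rintro _ ⟨F, rfl⟩
      exact rep_box_meas F
  · rintro _ ⟨F, rfl⟩ _ ⟨G, rfl⟩ _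
    exact ⟨F ∪ G, by unfold rep_box; rw [Finset.set_biInter_inter]⟩
  · rintro _ ⟨F, rfl⟩
    exact h F
  · simpa [rep_box] using h ∅

theorem rep_law {S S' : Type} [MeasurableSpace S] [MeasurableSpace S'] {μ : Measure S}
    {μ' : Measure S'} [IsFiniteMeasure μ'] {D : II → Set S} {D' : II → Set S'}
    (hD : ∀ i, MeasurableSet (D i)) (hD' : ∀ i, MeasurableSet (D' i)) {b : II}
    (h : ∀ F : Finset II, (∀ i ∈ F, i < b) → μ' (⋂ i ∈ F, D' i) = μ (⋂ i ∈ F, D i)) :
    μ'.map (rep_cut D' b) = μ.map (rep_cut D b) := by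
  refine rep_ext (fun F => ?_)
  rw [Measure.map_apply (rep_cut_meas fun i _ => hD' i) (rep_box_meas F),
    Measure.map_apply (rep_cut_meas fun i _ => hD i) (rep_box_meas F)]
  by_cases hF : ∀ i ∈ F, i < b
  · rw [rep_pre _ hF, rep_pre _ hF, h F hF]
  · rw [rep_pre' _ hF, rep_pre' _ hF, measure_empty, measure_empty]

theorem rep_cond {S : Type} [MeasurableSpace S] (μ : Measure S) [IsProbabilityMeasure μ]
    {D : II → Set S} (hD : ∀ i, MeasurableSet (D i)) (b : II) :
    ∃ q : (II → Prop) → ℝ≥0∞, Measurable q ∧ (∀ x, q x ≤ 1) ∧ ∀ A, MeasurableSet A →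
      ∫⁻ x in A, q x ∂(μ.map (rep_cut D b)) = μ (rep_cut D b ⁻¹' A ∩ D b) := by
  have hm : Measurable (rep_cut D b) := rep_cut_meas fun i _ => hD i
  have hle : (μ.restrict (D b)).map (rep_cut D b) ≤ μ.map (rep_cut D b) :=
    Measure.map_mono Measure.restrict_le_self hm
  refine ⟨fun x => min (((μ.restrict (D b)).map (rep_cut D b)).rnDeriv (μ.map (rep_cut D b)) x) 1,
    (Measure.measurable_rnDeriv _ _).min measurable_const, fun x => min_le_right _ _,
    fun A hA => ?_⟩
  rw [← Measure.restrict_apply (hm hA), ← Measure.map_apply hm hA,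
    ← Measure.setLIntegral_rnDeriv' hle.absolutelyContinuous hA]
  refine lintegral_congr_ae (ae_restrict_of_ae ?_)
  filter_upwards [Measure.rnDeriv_le_one_of_le hle] with x hx
  exact min_eq_left hx

open Classical in
theorem rep_update (b : II) :
    ((Measure.infinitePi (fun _ : II => lam)).prod lam).map
      (fun p : (II → TT) × TT => Function.update p.1 b p.2)
      = Measure.infinitePi (fun _ : II => lam) := by
  refine Measure.eq_infinitePi _ (fun s t ht => ?_)
  rw [Measure.map_apply measurable_update'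
    (MeasurableSet.pi s.countable_toSet (fun i _ => ht i))]
  by_cases hb : b ∈ s
  · have e : (fun p : (II → TT) × TT => Function.update p.1 b p.2) ⁻¹' Set.pi s t
        = Set.pi (s.erase b) t ×ˢ t b := by
      ext ⟨w, u⟩
      simp only [mem_preimage, Set.mem_pi, Finset.mem_coe, mem_prod, Finset.mem_erase]
      constructor
      · intro h
        refine ⟨fun i hi => ?_, ?_⟩
        · simpa [Function.update_of_ne hi.1] using h i hi.2
        · simpa using h b hb
      · rintro ⟨h1, h2⟩ i hi
        by_cases hib : i = b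
        · subst hib; simpa using h2
        · simpa [Function.update_of_ne hib] using h1 i ⟨hib, hi⟩
    rw [e, Measure.prod_prod, Measure.infinitePi_pi _ (fun i _ => ht i),
      Finset.prod_erase_mul _ _ hb]
  · have e : (fun p : (II → TT) × TT => Function.update p.1 b p.2) ⁻¹' Set.pi s t
        = Set.pi s t ×ˢ univ := by
      ext ⟨w, u⟩
      simp only [mem_preimage, Set.mem_pi, Finset.mem_coe, mem_prod, mem_univ, and_true]
      refine forall₂_congr (fun i hi => ?_)
      rw [Function.update_of_ne (fun h : i = b => hb (h ▸ hi))]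
    rw [e, Measure.prod_prod, Measure.infinitePi_pi _ (fun i _ => ht i), measure_univ, mul_one]

open Classical in
theorem rep_indep {U : TT → ℝ≥0∞} (hU : Measurable U) (hU' : ∀ p ≤ 1, lam {t | U t < p} = p)
    (b : II) {B : Set (II → TT)} (hB : MeasurableSet B) {r : (II → TT) → ℝ≥0∞}
    (hr : Measurable r) (hr1 : ∀ w, r w ≤ 1)
    (iB : ∀ w u, Function.update w b u ∈ B ↔ w ∈ B)
    (ir : ∀ w u, r (Function.update w b u) = r w) :
    Measure.infinitePi (fun _ : II => lam) (B ∩ {w | U (w b) < r w})
      = ∫⁻ w in B, r w ∂(Measure.infinitePi (fun _ : II => lam)) := by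
  have hE : MeasurableSet (B ∩ {w | U (w b) < r w}) :=
    hB.inter (measurableSet_lt (hU.comp (measurable_pi_apply b)) hr)
  conv_lhs => rw [← rep_update b]
  rw [Measure.map_apply measurable_update' hE, Measure.prod_apply (measurable_update' hE),
    ← lintegral_indicator hB]
  refine lintegral_congr (fun w => ?_)
  by_cases hw : w ∈ B
  · rw [indicator_of_mem hw, ← hU' _ (hr1 w)]
    congr 1
    ext u
    simp [iB, ir, hw]
  · rw [indicator_of_notMem hw]
    convert measure_empty (μ := lam)
    ext u
    simp [iB, hw]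

theorem rep {S : Type} [MeasurableSpace S] (μ : Measure S) [IsProbabilityMeasure μ]
    (D : II → Set S) (hD : ∀ i, MeasurableSet (D i)) :
    ∃ D' : II → Set (II → TT), (∀ i, MeasurableSet (D' i)) ∧ ∀ F : Finset II,
      Measure.infinitePi (fun _ : II => lam) (⋂ i ∈ F, D' i) = μ (⋂ i ∈ F, D i) := by
  classical
  obtain ⟨U, hU, hU'⟩ := exists_unif
  choose q hq hq1 hqA using rep_cond μ hD
  obtain ⟨D', hD'⟩ := rec_choice (∅ : Set (II → TT))
    (fun (b : II) g d => d = {w | U (w b) < q b (fun i => w ∈ g i)}) (fun b g => ⟨_, rfl⟩)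
  have e : ∀ b, D' b = {w | U (w b) < q b (rep_cut D' b w)} := by
    intro b
    rw [hD' b]
    ext w
    have : (fun i => w ∈ (if i < b then D' i else ∅)) = rep_cut D' b w := by
      funext i
      by_cases hi : i < b <;> simp [rep_cut, hi]
    simp only [mem_setOf_eq, this]
  have hm : ∀ b, MeasurableSet (D' b) := by
    intro b
    induction b using WellFoundedLT.induction with
    | ind b ih =>
      rw [e b]
      exact measurableSet_lt (hU.comp (measurable_pi_apply b)) ((hq b).comp (rep_cut_meas ih))
  have hu : ∀ g w u b, b ≤ g → rep_cut D' b (Function.update w g u) = rep_cut D' b w := by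
    intro g w u b
    induction b using WellFoundedLT.induction with
    | ind b ih =>
      intro hb
      funext i
      by_cases hi : i < b
      · have h1 : i < g := lt_of_lt_of_le hi hb
        simp only [rep_cut, hi, true_and]
        rw [e i]
        simp only [mem_setOf_eq]
        rw [ih i hi h1.le, Function.update_of_ne h1.ne]
      · simp [rep_cut, hi]
  have step : ∀ g, (∀ F : Finset II, (∀ i ∈ F, i < g) →
      Measure.infinitePi (fun _ : II => lam) (⋂ i ∈ F, D' i) = μ (⋂ i ∈ F, D i)) →
      ∀ F : Finset II, (∀ i ∈ F, i ≤ g) →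
        Measure.infinitePi (fun _ : II => lam) (⋂ i ∈ F, D' i) = μ (⋂ i ∈ F, D i) := by
    intro g h F hF
    by_cases hg : g ∈ F
    swap
    · exact h F (fun i hi => lt_of_le_of_ne (hF i hi) (fun h1 => hg (h1 ▸ hi)))
    have h1 : ∀ i ∈ F.erase g, i < g := fun i hi =>
      lt_of_le_of_ne (hF i (Finset.mem_of_mem_erase hi)) (Finset.ne_of_mem_erase hi)
    have hc : Measurable (rep_cut D' g) := rep_cut_meas (fun i _ => hm i)
    rw [← Finset.insert_erase hg, Finset.set_biInter_insert, Finset.set_biInter_insert,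
      ← rep_pre D' h1, ← rep_pre D h1, inter_comm (D g), ← hqA g _ (rep_box_meas _),
      ← rep_law hD hm h, setLIntegral_map (rep_box_meas _) (hq g) hc, inter_comm, e g]
    exact rep_indep hU hU' g (hc (rep_box_meas _)) ((hq g).comp hc) (fun w => hq1 g _)
      (fun w u => by simp only [mem_preimage, hu g w u g le_rfl])
      (fun w u => by simp only [Function.comp, hu g w u g le_rfl])
  have main : ∀ g, ∀ F : Finset II, (∀ i ∈ F, i ≤ g) →
      Measure.infinitePi (fun _ : II => lam) (⋂ i ∈ F, D' i) = μ (⋂ i ∈ F, D i) := by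
    intro g
    induction g using WellFoundedLT.induction with
    | ind g ih =>
      refine step g (fun F hF => ?_)
      rcases F.eq_empty_or_nonempty with rfl | hne
      · simp
      · exact ih _ (hF _ (F.max'_mem hne)) F (fun i hi => F.le_max' i hi)
  refine ⟨D', hm, fun F => ?_⟩
  rcases F.eq_empty_or_nonempty with rfl | hne
  · simp
  · exact main (F.max' hne) F (fun i hi => F.le_max' i hi)

end Pool.Agent.P.MP_5a7e2f_gt.Ad
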