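import Pool.Agent.P.MP_5a7e2f_gt.AdDefs

set_option autoImplicit false
set_option linter.unusedSectionVars false

open Set Filter Topology MeasureTheory TopologicalSpace
open scoped ENNReal Cardinal

namespace Pool.Agent.P.MP_5a7e2f_gt.Ad

theorem tk_compact (c : II → DD) : CompactSpace (KK c) :=
  isCompact_iff_compactSpace.1 (isClosed_KK c).isCompact

/-- clopen subsets of the subspace come from the cube -/
theorem tk_clopen_preimage (c : II → DD) {b : Set (KK c)} (hb : IsClopen b) :
    ∃ d : Set YY, IsClopen d ∧ Subtype.val ⁻¹' d = b := by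
  have := tk_compact c
  refine clopen_induction (fun b : Set (KK c) => ∃ d : Set YY, IsClopen d ∧ Subtype.val ⁻¹' d = b)
    ⟨∅, isClopen_empty, rfl⟩ ?_ ?_ ?_ b hb
  · rintro _ ⟨d, hd, rfl⟩
    exact ⟨dᶜ, hd.compl, rfl⟩
  · rintro _ _ ⟨d, hd, rfl⟩ ⟨d', hd', rfl⟩
    exact ⟨d ∪ d', hd.union hd', rfl⟩
  · intro x y hxy
    obtain ⟨d, h1, h2, h3⟩ := exists_isClopen_of_totally_separated (Subtype.val_injective.ne hxy)
    exact ⟨Subtype.val ⁻¹' d, h1.preimage continuous_subtype_val, ⟨d, h1, rfl⟩, h2, h3⟩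

theorem tk_fa (c : II → DD) [MeasurableSpace (KK c)] [BorelSpace (KK c)]
    (σ : ProbabilityMeasure (KK c)) :
    FA c fun d => (σ : Measure (KK c)).real (Subtype.val ⁻¹' d) where
  nonneg := fun _ _ => measureReal_nonneg
  total := by simp
  add := fun d d' _ hd' h => by
    rw [preimage_union]
    exact measureReal_union (h.preimage _)
      (hd'.preimage continuous_subtype_val).isOpen.measurableSet
  null := fun d _ h => by
    have : (Subtype.val ⁻¹' d : Set (KK c)) = ∅ :=
      eq_empty_of_forall_notMem fun y hy => disjoint_left.1 h hy y.2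
    rw [this, measureReal_empty]

theorem tight_KK (c : II → DD) [MeasurableSpace (KK c)] [BorelSpace (KK c)] : Tight (KK c) := by
  classical
  have := tk_compact c
  intro A x hx
  rw [closure_subtype] at hx
  obtain ⟨B, hB, h⟩ := tight (c := c) (ι := A)
    (fun i d => (i.1.1 : Measure (KK c)).real (Subtype.val ⁻¹' d))
    (fun d => (x.1 : Measure (KK c)).real (Subtype.val ⁻¹' d)) (fun i => tk_fa c i.1.1)
    (tk_fa c x.1) fun s hs ε hε => by
      obtain ⟨σ, ⟨τ, hτ, rfl⟩, h⟩ := approx_of_mem_closure hx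
        (s.image fun d => (Subtype.val ⁻¹' d : Set (KK c))) (by
          intro b hb
          obtain ⟨d, hd, rfl⟩ := Finset.mem_image.1 hb
          exact (hs d hd).preimage continuous_subtype_val) hε
      exact ⟨⟨τ, hτ⟩, fun d hd => h _ (Finset.mem_image_of_mem _ hd)⟩
  refine ⟨Subtype.val '' B, ?_, hB.image _, ?_⟩
  · rintro _ ⟨i, -, rfl⟩
    exact i.2
  · rw [closure_subtype]
    refine mem_closure_of_approx fun s hs ε hε => ?_
    choose! g hg using fun b : Set (KK c) => tk_clopen_preimage c (b := b)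
    obtain ⟨i, hi, h1⟩ := h (s.image g) (by
      intro d hd
      obtain ⟨b, hb, rfl⟩ := Finset.mem_image.1 hd
      exact (hg b (hs b hb)).1) ε hε
    refine ⟨i.1.1, ⟨i.1, ⟨i, hi, rfl⟩, rfl⟩, fun b hb => ?_⟩
    have h2 := h1 _ (Finset.mem_image_of_mem _ hb)
    simp only [(hg b (hs b hb)).2] at h2
    exact h2

end Pool.Agent.P.MP_5a7e2f_gt.Ad
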