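import Pool.Agent.P.MP_5a7e2f_gt.AdDefs

set_option autoImplicit false
set_option linter.unusedSectionVars false

open Set Filter Topology MeasureTheory TopologicalSpace
open scoped ENNReal Cardinal

namespace Pool.Agent.P.MP_5a7e2f_gt.Ad

theorem adunif_cont (ρ : Measure ℝ) [IsProbabilityMeasure ρ] (h : ∀ x, ρ {x} = 0) :
    Continuous (ProbabilityTheory.cdf ρ) := by
  refine continuous_iff_continuousAt.2 fun x => ?_
  have hm := ProbabilityTheory.monotone_cdf ρ
  rw [hm.continuousAt_iff_leftLim_eq_rightLim, StieltjesFunction.rightLim_eq]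
  have h1 := (ProbabilityTheory.cdf ρ).measure_singleton x
  rw [ProbabilityTheory.measure_cdf, h x, eq_comm, ENNReal.ofReal_eq_zero] at h1
  exact le_antisymm (hm.leftLim_le le_rfl) (by linarith)

theorem adunif_lt (ρ : Measure ℝ) [IsProbabilityMeasure ρ] (h : ∀ x, ρ {x} = 0) {r : ℝ}
    (h1 : r ≤ 1) : ρ {x | ProbabilityTheory.cdf ρ x < r} = ENNReal.ofReal r := by
  have hc := adunif_cont ρ h
  have hm := ProbabilityTheory.monotone_cdf ρ
  by_cases ha : ∀ x, ProbabilityTheory.cdf ρ x < r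
  · have h2 : 1 ≤ r := le_of_tendsto' (ProbabilityTheory.tendsto_cdf_atTop ρ) fun x => (ha x).le
    rw [eq_univ_of_forall (s := {x | ProbabilityTheory.cdf ρ x < r}) ha, measure_univ,
      le_antisymm h1 h2, ENNReal.ofReal_one]
  by_cases hb : ∀ x, r ≤ ProbabilityTheory.cdf ρ x
  · have h2 : r ≤ 0 := ge_of_tendsto' (ProbabilityTheory.tendsto_cdf_atBot ρ) hb
    rw [eq_empty_of_forall_notMem (s := {x | ProbabilityTheory.cdf ρ x < r})
      fun x hx => absurd (hb x) (not_le.2 hx), measure_empty, ENNReal.ofReal_eq_zero.2 h2]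
  push Not at ha hb
  obtain ⟨x2, hx2⟩ := hb
  have hcl : IsClosed {x | r ≤ ProbabilityTheory.cdf ρ x} := isClosed_le continuous_const hc
  have hbd : BddBelow {x | r ≤ ProbabilityTheory.cdf ρ x} := ⟨x2, fun x hx => by
    by_contra hlt
    exact absurd (hx2.trans_le hx) (not_lt.2 (hm (not_le.1 hlt).le))⟩
  obtain ⟨x0, hx0, hlow⟩ : ∃ x0, r ≤ ProbabilityTheory.cdf ρ x0 ∧
      ∀ x, r ≤ ProbabilityTheory.cdf ρ x → x0 ≤ x :=
    ⟨_, hcl.csInf_mem ha hbd, fun x hx => csInf_le hbd hx⟩
  have h20 : x2 ≤ x0 := by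
    by_contra hlt
    exact absurd (hx2.trans_le hx0) (not_lt.2 (hm (not_le.1 hlt).le))
  obtain ⟨x, hx, e⟩ := intermediate_value_Icc h20 hc.continuousOn ⟨hx2.le, hx0⟩
  have e0 : x = x0 := le_antisymm hx.2 (hlow x e.ge)
  have hA : {x | ProbabilityTheory.cdf ρ x < r} = Iio x0 := by
    ext y
    simp only [mem_ofPred_eq, mem_Iio]
    constructor
    · intro hy
      by_contra hlt
      exact absurd (hy.trans_le hx0) (not_lt.2 (hm (not_lt.1 hlt)))
    · intro hy
      by_contra hlt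
      exact absurd hy (not_lt.2 (hlow y (not_lt.1 hlt)))
  rw [hA, ← e, e0, ProbabilityTheory.ofReal_cdf, ← Iic_sdiff_right, measure_sdiff_null (h x0)]

theorem exists_unif : ∃ U : TT → ℝ≥0∞, Measurable U ∧ ∀ p ≤ 1, lam {t | U t < p} = p := by
  obtain ⟨e, he⟩ := exists_measurableEmbedding_real TT
  have : IsProbabilityMeasure (lam.map e) :=
    Measure.isProbabilityMeasure_map he.measurable.aemeasurable
  have h0 : ∀ x, lam.map e {x} = 0 := by
    intro x
    rw [he.map_apply]
    rcases (subsingleton_singleton.preimage he.injective).eq_empty_or_singleton with h | ⟨t, h⟩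
    · rw [h, measure_empty]
    · rw [h, lam_singleton]
  refine ⟨fun t => ENNReal.ofReal (ProbabilityTheory.cdf (lam.map e) (e t)),
    (((adunif_cont _ h0).measurable).comp he.measurable).ennreal_ofReal, fun p hp => ?_⟩
  have hp' : p ≠ ⊤ := ne_top_of_le_ne_top ENNReal.one_ne_top hp
  have h1 := adunif_lt (lam.map e) h0 (r := p.toReal) (ENNReal.toReal_le_of_le_ofReal zero_le_one
    (by simpa using hp))
  rw [he.map_apply, ENNReal.ofReal_toReal hp'] at h1
  rw [← h1]
  congr 1
  ext t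
  simp only [mem_ofPred_eq, mem_preimage]
  rw [h1, ENNReal.ofReal_lt_iff_lt_toReal (ProbabilityTheory.cdf_nonneg _ _) hp']

end Pool.Agent.P.MP_5a7e2f_gt.Ad
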