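import Pool.Agent.P.MP_5a7e2f_gt.AdGG

set_option autoImplicit false
set_option linter.unusedSectionVars false

open Set Filter Topology MeasureTheory TopologicalSpace
open scoped ENNReal Cardinal

namespace Pool.Agent.P.MP_5a7e2f_gt.Ad

/-- real weight of a pair -/
noncomputable def varP (e : ℕ × ℕ) : ℝ := (2⁻¹ : ℝ) ^ (e.1 + 4)

/-- real indicator of a pair -/
noncomputable def varF (e : ℕ × ℕ) (t : TT) : ℝ := (GG e.1 e.2).indicator (fun _ => (1 : ℝ)) t

theorem var_meas (e : ℕ × ℕ) : MeasurableSet (GG e.1 e.2) :=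
  (isClopen_GG e.1 e.2).isOpen.measurableSet

theorem varP_pos (e : ℕ × ℕ) : 0 < varP e := by unfold varP; positivity

theorem var_real_GG (e : ℕ × ℕ) : lam.real (GG e.1 e.2) = varP e := by
  unfold varP
  rw [Measure.real, lam_GG]
  simp [ENNReal.toReal_pow, ENNReal.toReal_inv]

theorem var_real_inter {e e' : ℕ × ℕ} (h : e ≠ e') :
    lam.real (GG e.1 e.2 ∩ GG e'.1 e'.2) = varP e * varP e' := by
  unfold varP
  rw [Measure.real, lam_GG_inter (by simpa using h)]
  simp [ENNReal.toReal_pow, ENNReal.toReal_inv, ENNReal.toReal_mul]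

theorem var_int_ind {A : Set TT} (hA : MeasurableSet A) :
    Integrable (A.indicator (fun _ => (1 : ℝ))) lam :=
  (integrable_const (1 : ℝ)).indicator hA

theorem var_integral_ind {A : Set TT} (hA : MeasurableSet A) :
    ∫ t, A.indicator (fun _ => (1 : ℝ)) t ∂lam = lam.real A := by
  rw [integral_indicator hA]; simp

theorem var_prod (e e' : ℕ × ℕ) (t : TT) :
    (varP e - varF e t) * (varP e' - varF e' t) =
      varP e * varP e' - varP e * varF e' t - varP e' * varF e t +
        (GG e.1 e.2 ∩ GG e'.1 e'.2).indicator (fun _ => (1 : ℝ)) t := by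
  unfold varF
  by_cases h1 : t ∈ GG e.1 e.2 <;> by_cases h2 : t ∈ GG e'.1 e'.2 <;>
    simp [Set.indicator, h1, h2] <;> ring

theorem var_intF (e : ℕ × ℕ) : Integrable (varF e) lam := var_int_ind (var_meas e)

theorem var_integralF (e : ℕ × ℕ) : ∫ t, varF e t ∂lam = varP e := by
  unfold varF; rw [var_integral_ind (var_meas e), var_real_GG]

theorem var_prod_int (e e' : ℕ × ℕ) :
    Integrable (fun t => (varP e - varF e t) * (varP e' - varF e' t)) lam := by
  simp only [var_prod]
  exact (((integrable_const _).sub ((var_intF e').const_mul _)).sub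
    ((var_intF e).const_mul _)).add (var_int_ind ((var_meas e).inter (var_meas e')))

theorem var_prod_integral (e e' : ℕ × ℕ) :
    ∫ t, (varP e - varF e t) * (varP e' - varF e' t) ∂lam ≤ if e = e' then varP e else 0 := by
  simp only [var_prod]
  have h1 : Integrable (fun t => varP e * varP e' - varP e * varF e' t) lam :=
    (integrable_const _).sub ((var_intF e').const_mul _)
  have h2 : Integrable (fun t => varP e * varP e' - varP e * varF e' t - varP e' * varF e t) lam :=
    h1.sub ((var_intF e).const_mul _)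
  rw [integral_add h2 (var_int_ind ((var_meas e).inter (var_meas e'))),
    integral_sub h1 ((var_intF e).const_mul _),
    integral_sub (integrable_const _) ((var_intF e').const_mul _),
    var_integral_ind ((var_meas e).inter (var_meas e'))]
  simp only [integral_const_mul, var_integralF, integral_const, probReal_univ, smul_eq_mul, one_mul]
  split_ifs with h
  · subst h
    rw [Set.inter_self, var_real_GG]
    nlinarith [varP_pos e]
  · rw [var_real_inter h]; nlinarith

theorem var_bound {H : Set TT} (hH : MeasurableSet H) {c : ℝ} (hc : c < lam.real H)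
    (E : Finset (ℕ × ℕ)) (hE : ∀ e ∈ E, lam.real (H ∩ GG e.1 e.2) ≤ c * varP e) :
    ∑ e ∈ E, varP e ≤ 1 / (lam.real H - c) ^ 2 := by
  classical
  set d := lam.real H - c with hd
  have hd0 : 0 < d := by linarith
  set s := ∑ e ∈ E, varP e with hs
  have hs0 : 0 ≤ s := Finset.sum_nonneg fun e _ => (varP_pos e).le
  rcases hs0.eq_or_lt with h0 | h0
  · rw [← h0]; positivity
  let Y : TT → ℝ := fun t => ∑ e ∈ E, (varP e - varF e t)
  have hYint : Integrable Y lam :=
    integrable_finsetSum _ fun e _ => (integrable_const _).sub (var_intF e)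
  have hYsq : ∀ t, Y t ^ 2 = ∑ e ∈ E, ∑ e' ∈ E, (varP e - varF e t) * (varP e' - varF e' t) := by
    intro t; simp only [Y]; rw [sq, Finset.sum_mul_sum]
  have hY2int : Integrable (fun t => Y t ^ 2) lam := by
    simp only [hYsq]
    exact integrable_finsetSum _ fun e _ => integrable_finsetSum _ fun e' _ => var_prod_int e e'
  have hY2 : ∫ t, Y t ^ 2 ∂lam ≤ s := by
    simp only [hYsq]
    rw [integral_finsetSum _ fun e _ => integrable_finsetSum _ fun e' _ => var_prod_int e e']
    refine Finset.sum_le_sum fun e he => ?_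
    rw [integral_finsetSum _ fun e' _ => var_prod_int e e']
    refine (Finset.sum_le_sum fun e' _ => var_prod_integral e e').trans ?_
    rw [Finset.sum_ite_eq]; simp [he]
  have hY1 : d * s ≤ ∫ t, H.indicator Y t ∂lam := by
    rw [integral_indicator hH]
    simp only [Y]
    have hi : ∀ e ∈ E, Integrable (fun t => varP e - varF e t) (lam.restrict H) :=
      fun e _ => ((integrable_const _).sub (var_intF e)).integrableOn
    rw [integral_finsetSum _ hi, hs, Finset.mul_sum]
    refine Finset.sum_le_sum fun e he => ?_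
    rw [integral_sub (integrable_const _) (var_intF e).integrableOn]
    have h1 : ∫ t in H, varF e t ∂lam = lam.real (H ∩ GG e.1 e.2) := by
      unfold varF
      rw [integral_indicator (var_meas e), Measure.restrict_restrict (var_meas e), Set.inter_comm]
      simp
    rw [h1]
    simp only [integral_const, smul_eq_mul, measureReal_restrict_apply_univ]
    have := hE e he
    rw [hd]; nlinarith
  set a := d * s / 2 with ha
  have ha0 : 0 < a := by positivity
  have hpt : ∀ t, H.indicator Y t ≤ Y t ^ 2 / (4 * a) + a := by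
    intro t
    have h4 : 0 < 4 * a := by positivity
    have key : Y t ≤ Y t ^ 2 / (4 * a) + a := by
      rw [div_add' _ _ _ h4.ne', le_div_iff₀ h4]
      nlinarith [sq_nonneg (Y t - 2 * a)]
    by_cases ht : t ∈ H
    · rw [Set.indicator_of_mem ht]; exact key
    · rw [Set.indicator_of_notMem ht]; positivity
  have h3 : ∫ t, H.indicator Y t ∂lam ≤ s / (4 * a) + a := by
    have hi : Integrable (fun t => Y t ^ 2 / (4 * a) + a) lam :=
      (hY2int.div_const _).add (integrable_const a)
    refine (integral_mono (hYint.indicator hH) hi hpt).trans ?_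
    rw [integral_add (hY2int.div_const _) (integrable_const a), integral_div]
    simp only [integral_const, probReal_univ, smul_eq_mul, one_mul]
    gcongr
  have h4 : s / (4 * a) = 1 / (2 * d) := by
    rw [ha]; field_simp; ring
  have h5 : d * s / 2 ≤ 1 / (2 * d) := by
    rw [h4] at h3; linarith
  rw [le_div_iff₀ (by positivity)]
  rw [le_div_iff₀ (by positivity)] at h5
  nlinarith

theorem slalom_of {H : Set TT} (hH : MeasurableSet H) {θ : ℝ≥0∞} (hθ : θ < lam H) :
    ∃ φ : ℕ → Finset ℕ, Slalom φ ∧
      ∀ k v, lam (H ∩ GG k v) ≤ θ * 2⁻¹ ^ (k + 4) → v ∈ φ k := by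
  classical
  have hθt : θ ≠ ⊤ := ne_top_of_lt hθ
  have hc : θ.toReal < lam.real H :=
    (ENNReal.toReal_lt_toReal hθt (measure_ne_top _ _)).2 hθ
  set B := 1 / (lam.real H - θ.toReal) ^ 2 with hB
  have hreal : ∀ e : ℕ × ℕ, lam (H ∩ GG e.1 e.2) ≤ θ * 2⁻¹ ^ (e.1 + 4) →
      lam.real (H ∩ GG e.1 e.2) ≤ θ.toReal * varP e := by
    intro e he
    have h1 : (θ * 2⁻¹ ^ (e.1 + 4)) ≠ ⊤ :=
      ENNReal.mul_ne_top hθt (ENNReal.pow_ne_top (by simp))
    have h2 := ENNReal.toReal_mono h1 he
    unfold varP
    simpa [Measure.real, ENNReal.toReal_mul, ENNReal.toReal_pow, ENNReal.toReal_inv] using h2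
  have hfin : ∀ k, {v | lam (H ∩ GG k v) ≤ θ * 2⁻¹ ^ (k + 4)}.Finite := by
    intro k
    by_contra hinf
    have hinf' : {v | lam (H ∩ GG k v) ≤ θ * 2⁻¹ ^ (k + 4)}.Infinite := hinf
    obtain ⟨n, hn⟩ := exists_nat_gt (B / varP (k, 0))
    obtain ⟨T, hT, hcard⟩ := hinf'.exists_subset_card_eq n
    have hb := var_bound hH hc (T.image fun v => (k, v)) (by
      intro e he
      obtain ⟨v, hv, rfl⟩ := Finset.mem_image.1 he
      exact hreal (k, v) (hT hv))
    rw [Finset.sum_image (by intro x _ y _ h; simpa using h)] at hb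
    have h2 : ∑ v ∈ T, varP (k, v) = n * varP (k, 0) := by
      simp [varP, hcard]
    rw [h2] at hb
    rw [div_lt_iff₀ (varP_pos _)] at hn
    linarith
  refine ⟨fun k => (hfin k).toFinset, ?_, fun k v h => by simpa using h⟩
  unfold Slalom
  refine ne_top_of_le_ne_top (b := ENNReal.ofReal (16 * B)) ENNReal.ofReal_ne_top ?_
  refine ENNReal.tsum_le_of_sum_range_le fun n => ?_
  have hb := var_bound hH hc
    (((Finset.range n).sigma fun k => (hfin k).toFinset).image fun x => (x.1, x.2)) (by
      intro e he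
      obtain ⟨x, hx, rfl⟩ := Finset.mem_image.1 he
      have := (Finset.mem_sigma.1 hx).2
      exact hreal (x.1, x.2) (by simpa using this))
  rw [Finset.sum_image (by
    rintro ⟨x1, x2⟩ _ ⟨y1, y2⟩ _ h
    simp only [Prod.mk.injEq] at h
    obtain ⟨rfl, rfl⟩ := h
    rfl), Finset.sum_sigma] at hb
  have h2 : ∀ k, (((hfin k).toFinset.card : ℝ≥0∞) * 2⁻¹ ^ k) =
      ENNReal.ofReal (16 * ∑ v ∈ (hfin k).toFinset, varP (k, v)) := by
    intro k
    have h3 : (16 : ℝ) * ∑ v ∈ (hfin k).toFinset, varP (k, v) =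
        ((hfin k).toFinset.card : ℝ) * 2⁻¹ ^ k := by
      simp only [varP, Finset.sum_const, nsmul_eq_mul, pow_add]; norm_num; ring
    rw [h3, ENNReal.ofReal_mul (by positivity), ENNReal.ofReal_natCast,
      ENNReal.ofReal_pow (by norm_num), ENNReal.ofReal_inv_of_pos (by norm_num)]
    simp
  simp only [h2]
  rw [← ENNReal.ofReal_sum_of_nonneg (fun k _ => mul_nonneg (by norm_num)
    (Finset.sum_nonneg fun v _ => (varP_pos _).le))]
  refine ENNReal.ofReal_le_ofReal ?_
  rw [← Finset.mul_sum]
  exact mul_le_mul_of_nonneg_left hb (by norm_num)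

end Pool.Agent.P.MP_5a7e2f_gt.Ad
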