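import Pool.Agent.P.MP_5a7e2f_gt.Top

set_option autoImplicit false
set_option synthInstance.maxSize 100000

open Set Pool.Agent.Lib.PosetForcing

namespace Pool.Agent.P.MP_5a7e2f_gt

open Classical in
/-- name of the indicator function of the trace of `d` -/
noncomputable def chi (d : Set YY) : Name PP :=
  graphName (ι := {z : XX × PP // ok z.2 z.1 ∧ Dep d z.2.δ}) (fun z => elt z.1.1)
    (fun z => elt (if emb z.1.2.c z.1.1 ∈ d then (1 : ℝ) else 0)) fun z => z.1.2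

open Classical in
theorem chi_fun {d : Set YY} (hd : IsClopen d) (U : Gen PP) :
    IsFun Mod.mem ((chi d).val U) (CC.val U).S (CC.val U).R := by
  revert U
  refine of_forces_all fun p => ⟨p, le_rfl, forces_isFunOn_graph (a := NN univ)
    (V := fun U y => Mod.mem y (CC.val U).R) (fun i q _ hi => ⟨q, le_rfl,
      (forces_mem_S (i.2.1.mono hi)).and (Forces.of_forall (elt_mem_R _) q)⟩)
    (fun j q _ hj => ?_) fun i j q _ hi hj h => ⟨q, le_rfl, Forces.of_forall (fun U => ?_) q⟩⟩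
  · obtain ⟨r, hr, h⟩ := q.exists_dep hd
    exact ⟨r, hr, ⟨(j.1.1, r), j.2.1.mono (hr.trans hj), h⟩, le_rfl,
      Forces.of_forall (fun _ => rfl) r⟩
  · have e : i.1.1 = j.1.1 := h.elt_inj
    have e' : emb i.1.2.c i.1.1 ∈ d ↔ emb j.1.2.c j.1.1 ∈ d := by
      rw [← i.2.2.emb_mono hi, ← j.2.2.emb_mono hj, e]
    exact congrArg (fun t : ℝ => (elt t : Name PP).val U) (if_congr e' rfl rfl)

theorem chi_val (d : Set YY) (U : Gen PP) : ∀ z y, App Mod.mem ((chi d).val U) z y →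
    (Mod.mem z ((NN d).val U) → y = (elt (1 : ℝ)).val U) ∧
      (Mod.mem z ((NN dᶜ).val U) → y = (elt (0 : ℝ)).val U) := by
  revert U
  refine of_forces_all fun p => ⟨p, le_rfl, ?_⟩
  refine forces_forall_app_graph fun i q _ hi => ⟨q, le_rfl, fun U hU => ?_⟩
  beta_reduce
  rw [mem_NN_iff (i.2.2.mono hi.1) (i.2.1.mono hi) U hU,
    mem_NN_iff (i.2.2.mono hi.1).compl (i.2.1.mono hi) U hU, mem_compl_iff, i.2.2.emb_mono hi]
  exact ⟨fun h => by rw [if_pos h], fun h => by rw [if_neg h]⟩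

theorem chi_cont {d : Set YY} (hd : IsClopen d) (U : Gen PP) :
    IsCont Mod.mem (CC.val U) ((chi d).val U) := by
  refine ⟨chi_fun hd U, fun x y a b h1 h2 h3 => ?_⟩
  by_cases h : Mod.mem x ((NN d).val U)
  · refine ⟨_, NN_open hd U, h, fun x' y' h4 h5 => ?_⟩
    rw [(chi_val d U _ _ h5).1 h4, ← (chi_val d U _ _ h1).1 h]
    exact ⟨h2, h3⟩
  · replace h := (mem_NN_compl hd U x).2 ⟨((isZFC U).app_val (chi_fun hd U) h1).1, h⟩
    refine ⟨_, NN_open hd.compl U, h, fun x' y' h4 h5 => ?_⟩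
    rw [(chi_val d U _ _ h5).2 h4, ← (chi_val d U _ _ h1).2 h]
    exact ⟨h2, h3⟩

theorem dec_NN {p : PP} {σ : Name PP} {d : Set YY} (hd : IsClopen d)
    (h : Forces p fun U => IsProb Mod.mem (CC.val U) (σ.val U)) :
    ∃ q ≤ p, ∃ a : ℝ, Forces q fun U => App Mod.mem (σ.val U) ((NN d).val U) ((elt a).val U) :=
  dec_app (C := CC) (a := CC.bor) (h.imp fun _ h => h.1) (Forces.of_forall (NN_bor hd) p)

theorem chi_int {p : PP} {σ : Name PP} {d : Set YY} {a : ℝ} (hd : IsClopen d)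
    (h : Forces p fun U => IsProb Mod.mem (CC.val U) (σ.val U))
    (ha : Forces p fun U => App Mod.mem (σ.val U) ((NN d).val U) ((elt a).val U)) :
    Forces p fun U => IsIntegral Mod.mem (CC.val U) (σ.val U) ((chi d).val U) ((elt a).val U) := by
  refine Forces.of_dn fun q hq => ?_
  obtain ⟨r, hr, b, hb⟩ := dec_NN hd.compl (h.mono hq)
  have := forces_integral_eq (C := CC) sigmaClosed (fun U => (isBorel U).1) (p := r) (σ := σ)
    (f := chi d) (n := 2) (D := fun i => if i = 0 then NN d else NN dᶜ)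
    (v := fun i => if i = 0 then 1 else 0) (d := fun i => if i = 0 then a else b)
    (h.mono (hr.trans hq)) (Forces.of_forall (chi_fun hd) r) (fun U _ z hz => ?_)
    (fun i _ => ?_) fun i _ U _ z y h1 h2 => ?_
  · exact ⟨r, hr, by simpa [Finset.sum_range_succ] using this⟩
  · by_cases e : Mod.mem z ((NN d).val U)
    · refine ⟨0, ⟨by norm_num, e⟩, fun j hj => by_contra fun h0 => ?_⟩
      beta_reduce at hj
      rw [if_neg h0, mem_NN_compl hd] at hj
      exact hj.2.2 e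
    · refine ⟨1, ⟨by norm_num, (mem_NN_compl hd U z).2 ⟨hz, e⟩⟩, fun j hj => by_contra fun h0 => ?_⟩
      beta_reduce at hj
      rw [if_pos (by omega)] at hj
      exact e hj.2
  · split_ifs
    exacts [ha.mono (hr.trans hq), hb]
  · split_ifs at h1 ⊢
    exacts [(chi_val d U _ _ h2).1 h1, (chi_val d U _ _ h2).2 h1]

theorem approx_a {p : PP} {A ν : Name PP}
    (h1 : Forces p fun U => ∀ σ, Mod.mem σ (A.val U) → IsRegProb Mod.mem (CC.val U) σ)
    (h2 : Forces p fun U => IsRegProb Mod.mem (CC.val U) (ν.val U))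
    (h3 : Forces p fun U => InClosure Mod.mem (CC.val U) (A.val U) (ν.val U))
    (s : Finset (Set YY)) (hs : ∀ d ∈ s, IsClopen d) {ε : ℝ} (hε : 0 < ε) :
    ∃ σ : Name PP, (Forces p fun U => Mod.mem (σ.val U) (A.val U)) ∧ ∀ d ∈ s, ∀ q ≤ p, ∀ a b : ℝ,
      (Forces q fun U => App Mod.mem (σ.val U) ((NN d).val U) ((elt a).val U)) →
      (Forces q fun U => App Mod.mem (ν.val U) ((NN d).val U) ((elt b).val U)) → |a - b| < ε := by
  have h4 := h3.imp fun U h => h ((fam fun d : s => chi d).val U) ((elt ε).val U) (isFin_fam _ U)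
    (fun f hf => by
      obtain ⟨d, hd, rfl⟩ := (mem_fam_finset s chi U f).1 hf
      exact chi_cont (hs d hd) U) (by rw [zero_eq, rlt_iff]; exact hε)
  obtain ⟨σ, hσ⟩ := h4.exists_name
  refine ⟨σ, hσ.imp fun _ h => h.1, fun d hd q hq a b ha hb => forces_const (p := q) fun U hU => ?_⟩
  exact (near_iff (C := CC)).1 ((hσ.mono hq U hU).2 _ _ _ ((mem_fam_finset s chi U _).2 ⟨d, hd, rfl⟩)
    (chi_int (hs d hd) (((h1.and hσ).mono hq).imp fun _ h => (h.1 _ h.2.1).1) ha U hU)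
    (chi_int (hs d hd) ((h2.mono hq).imp fun _ h => h.1) hb U hU))

theorem finset_enum {α : Type*} [Inhabited α] (s : Finset α) :
    ∃ (n : ℕ) (f : ℕ → α), ∀ a, a ∈ s ↔ ∃ i < n, f i = a := by
  refine ⟨s.toList.length, fun i => s.toList.getD i default, fun a => ?_⟩
  rw [← Finset.mem_toList, List.mem_iff_getElem]
  exact exists_congr fun i => ⟨fun ⟨h, e⟩ => ⟨h, (List.getD_eq_getElem _ _ h).trans e⟩,
    fun ⟨h, e⟩ => ⟨h, (List.getD_eq_getElem _ _ h).symm.trans e⟩⟩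

theorem cont_partition {p : PP} {f : Name PP} {η : ℝ} (hη : 0 < η)
    (h : Forces p fun U => IsCont Mod.mem (CC.val U) (f.val U)) :
    ∃ q ≤ p, ∃ (n : ℕ) (d : ℕ → Set YY) (v : ℕ → ℝ), (∀ i < n, IsClopen (d i)) ∧
      (Forces q fun U => ∀ z, Mod.mem z (CC.val U).S →
        ∃! i, i < n ∧ Mod.mem z ((NN (d i)).val U)) ∧
      ∀ i < n, Forces q fun U => ∀ z y, Mod.mem z ((NN (d i)).val U) → App Mod.mem (f.val U) z y →
        RLe Mod.mem (CC.val U) ((elt (v i)).val U) y ∧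
          RLe Mod.mem (CC.val U) y ((elt (v i + η)).val U) := by
  obtain ⟨q, hq, s, g1, g2⟩ := cover_lemma (p := p) (fun d r => ∃ v : ℝ, Forces r fun U =>
      ∀ z y, Mod.mem z ((NN d).val U) → App Mod.mem (f.val U) z y →
        RLe Mod.mem (CC.val U) ((elt v).val U) y ∧ RLe Mod.mem (CC.val U) y ((elt (v + η)).val U))
    (fun d q r hr ⟨v, h⟩ => ⟨v, h.mono hr⟩) (by
      intro q hq x hx
      obtain ⟨r, hr, w, hw⟩ := dec_app (C := CC) (a := CC.S) ((h.mono hq).imp fun _ h => h.1)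
        (forces_mem_S hx)
      have h1 := ((h.mono (hr.trans hq)).and hw).imp fun U h => h.1.2 _ _
        ((elt (w - η / 2)).val U) ((elt (w - η / 2 + η)).val U) h.2
        (rlt_iff.2 (by linarith)) (rlt_iff.2 (by linarith))
      obtain ⟨V, hV⟩ := h1.exists_name
      obtain ⟨t, ht, d, k1, k2, k3, k4⟩ := open_nbhd (hx.mono hr) (hV.imp fun _ h => h.1)
        (hV.imp fun _ h => h.2.1)
      exact ⟨t, ht.trans hr, d, k1, k2, k3, w - η / 2, ((hV.mono ht).and k4).imp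
        fun U h z y h1 h2 => (h.1.2.2 z y (h.2 z h1) h2).imp (·.1) (·.1)⟩)
  obtain ⟨n, d0, hd0⟩ := finset_enum s
  have g3 := fun i (hi : i < n) => g1 _ ((hd0 _).2 ⟨i, hi, rfl⟩)
  choose! v hv using fun i hi => (g3 i hi).2.2
  have g4 : ∀ i < n, IsClopen (⋃ j ∈ Finset.range i, d0 j) := fun i hi =>
    isClopen_biUnion_finset fun j hj => (g3 j ((Finset.mem_range.1 hj).trans hi)).1
  have g5 : ∀ i < n, ∀ (U : Gen PP) z, Mod.mem z ((NN (d0 i \ ⋃ j ∈ Finset.range i, d0 j)).val U) ↔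
      Mod.mem z ((NN (d0 i)).val U) ∧ ∀ j < i, ¬ Mod.mem z ((NN (d0 j)).val U) := by
    intro i hi U z
    rw [sdiff_eq, mem_NN_inter (g3 i hi).1 (g4 i hi).compl, mem_NN_compl (g4 i hi),
      mem_NN_biUnion _ fun j hj => (g3 j ((Finset.mem_range.1 hj).trans hi)).1]
    have := NN_sub (d0 i) U z
    simp only [Finset.mem_range, not_exists, not_and]
    tauto
  have g6 : Forces q fun U => ∀ z, Mod.mem z (CC.val U).S →
      ∃ i < n, Mod.mem z ((NN (d0 i)).val U) := by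
    refine forces_pts fun r hr x hx => ⟨r, le_rfl, fun U hU => ?_⟩
    obtain ⟨d, hd, h⟩ := g2 r hr x hx
    obtain ⟨i, hi, rfl⟩ := (hd0 d).1 hd
    exact ⟨i, hi, (mem_NN_iff ((g3 i hi).2.1.mono hr.1) hx U hU).2 h⟩
  refine ⟨q, hq, n, fun i => d0 i \ ⋃ j ∈ Finset.range i, d0 j, v,
    fun i hi => (g3 i hi).1.diff (g4 i hi), fun U hU z hz => ?_,
    fun i hi U hU z y h1 => hv i hi U hU z y ((g5 i hi U z).1 h1).1⟩
  classical
  have h1 := g6 U hU z hz
  have h2 := Nat.find_spec h1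
  refine ⟨Nat.find h1, ⟨h2.1, (g5 _ h2.1 U z).2 ⟨h2.2, fun j hj h3 =>
    Nat.find_min h1 hj ⟨hj.trans h2.1, h3⟩⟩⟩, fun j hj => ?_⟩
  have h3 := (g5 j hj.1 U z).1 hj.2
  exact le_antisymm (not_lt.1 fun h4 => h3.2 _ h4 h2.2) (Nat.find_min' h1 ⟨hj.1, h3.1⟩)

theorem sum_near {n : ℕ} {v a b : ℕ → ℝ} {ε : ℝ} (h : ∀ i < n, |a i - b i| < ε) :
    |∑ i ∈ Finset.range n, v i * a i - ∑ i ∈ Finset.range n, v i * b i| ≤
      (∑ i ∈ Finset.range n, |v i|) * ε := by
  rw [← Finset.sum_sub_distrib, Finset.sum_mul]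
  refine (Finset.abs_sum_le_sum_abs _ _).trans (Finset.sum_le_sum fun i hi => ?_)
  rw [← mul_sub, abs_mul]
  exact mul_le_mul_of_nonneg_left (h i (Finset.mem_range.1 hi)).le (abs_nonneg _)

theorem approx_b {ι : Type} {p : PP} {σ : ι → Name PP} {ν : Name PP}
    (h1 : ∀ i, Forces p fun U => IsProb Mod.mem (CC.val U) ((σ i).val U))
    (h2 : Forces p fun U => IsProb Mod.mem (CC.val U) (ν.val U))
    (h : ∀ q ≤ p, ∀ s : Finset (Set YY), (∀ d ∈ s, IsClopen d) → ∀ ε > 0, ∃ r ≤ q, ∃ i,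
      ∀ d ∈ s, ∃ a b : ℝ, (Forces r fun U => App Mod.mem ((σ i).val U) ((NN d).val U) ((elt a).val U)) ∧
        (Forces r fun U => App Mod.mem (ν.val U) ((NN d).val U) ((elt b).val U)) ∧ |a - b| < ε) :
    Forces p fun U => InClosure Mod.mem (CC.val U) ((fam σ).val U) (ν.val U) := by
  classical
  unfold InClosure
  refine forces_forall fun F => forces_forall fun ε => ?_
  refine forces_imp fun p1 hp1 k1 => ⟨p1, le_rfl, ?_⟩
  refine forces_imp fun p2 hp2 k2 => ⟨p2, le_rfl, ?_⟩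
  refine forces_imp fun p3 hp3 k3 => ?_
  obtain ⟨p4, hp4, e, he⟩ := dec_real (C := CC) (k3.imp fun U h => (le_mem U _ _ h.1).2)
  have e0 : 0 < e := forces_const (p := p4) fun U hU => by
    have := k3.mono hp4 U hU
    beta_reduce at this
    rwa [he U hU, zero_eq, rlt_iff] at this
  obtain ⟨p5, hp5, s, f, hf⟩ := fin_cover (k1.mono (hp4.trans (hp3.trans hp2)))
  obtain ⟨p6, hp6, k4⟩ := sigmaClosed.exists_forall p5 (fun (j : ℕ) q => ∃ (n : ℕ)
      (d : ℕ → Set YY) (v : ℕ → ℝ), j ∈ s → (∀ i < n, IsClopen (d i)) ∧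
      (Forces q fun U => ∀ z, Mod.mem z (CC.val U).S →
        ∃! i, i < n ∧ Mod.mem z ((NN (d i)).val U)) ∧
      ∀ i < n, Forces q fun U => ∀ z y, Mod.mem z ((NN (d i)).val U) →
        App Mod.mem ((f j).val U) z y → RLe Mod.mem (CC.val U) ((elt (v i)).val U) y ∧
          RLe Mod.mem (CC.val U) y ((elt (v i + e / 4)).val U))
    (fun j q r hr ⟨n, d, v, h⟩ => ⟨n, d, v, fun hj => ⟨(h hj).1, (h hj).2.1.mono hr,
      fun i hi => ((h hj).2.2 i hi).mono hr⟩⟩) fun j q hq => by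
      by_cases hj : j ∈ s
      · obtain ⟨r, hr, n, d, v, h⟩ := cont_partition (p := q) (f := f j) (η := e / 4) (by linarith)
          fun U hU => k2.mono (hq.trans (hp5.trans (hp4.trans hp3))) U hU _
            ((hf.mono hq U hU _).2 ⟨j, hj, rfl⟩)
        exact ⟨r, hr, n, d, v, fun _ => h⟩
      · exact ⟨q, le_rfl, 0, fun _ => ∅, fun _ => 0, fun h => absurd h hj⟩
  choose n d v k4 using k4
  have e6 : p6 ≤ p3 := hp6.trans (hp5.trans hp4)
  have e7 : p3 ≤ p := hp3.trans (hp2.trans hp1)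
  let M : ℝ := ∑ j ∈ s, ∑ i ∈ Finset.range (n j), |v j i|
  have hM : ∀ j ∈ s, ∑ i ∈ Finset.range (n j), |v j i| ≤ M := fun j hj =>
    Finset.single_le_sum (f := fun j => ∑ i ∈ Finset.range (n j), |v j i|)
      (fun j _ => Finset.sum_nonneg fun i _ => abs_nonneg _) hj
  have hM0 : 0 ≤ M := Finset.sum_nonneg fun j _ => Finset.sum_nonneg fun i _ => abs_nonneg _
  obtain ⟨r, hr, i0, k5⟩ := h p6 (e6.trans e7) (s.biUnion fun j => (Finset.range (n j)).image (d j))
    (fun b hb => by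
      obtain ⟨j, hj, hb⟩ := Finset.mem_biUnion.1 hb
      obtain ⟨i, hi, rfl⟩ := Finset.mem_image.1 hb
      exact (k4 j hj).1 i (Finset.mem_range.1 hi)) (e / (4 * (M + 1))) (by positivity)
  choose! a b k5 using k5
  have k6 := fun j (hj : j ∈ s) i (hi : i < n j) => k5 (d j i) (Finset.mem_biUnion.2
    ⟨j, hj, Finset.mem_image_of_mem _ (Finset.mem_range.2 hi)⟩)
  have k7 : ∀ j ∈ s, Forces r fun U => ∀ x x',
      IsIntegral Mod.mem (CC.val U) ((σ i0).val U) ((f j).val U) x →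
      IsIntegral Mod.mem (CC.val U) (ν.val U) ((f j).val U) x' →
      Near Mod.mem (CC.val U) x x' ((elt e).val U) := by
    intro j hj
    refine forces_forall fun x => forces_forall fun x' => ?_
    refine forces_imp fun r1 hr1 l1 => ⟨r1, le_rfl, ?_⟩
    refine forces_imp fun r2 hr2 l2 => ?_
    obtain ⟨r3, hr3, y, hy⟩ := dec_real (C := CC) ((l1.mono hr2).imp fun _ h => h.1)
    obtain ⟨r4, hr4, y', hy'⟩ := dec_real (C := CC) ((l2.mono hr3).imp fun _ h => h.1)
    have e8 : r4 ≤ r := hr4.trans (hr3.trans (hr2.trans hr1))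
    have e9 : r4 ≤ p6 := e8.trans hr
    have l3 : Forces r4 fun U => IsFun Mod.mem ((f j).val U) (CC.val U).S (CC.val U).R :=
      fun U hU => (k2.mono (e9.trans (e6.trans hp3)) U hU _
        ((hf.mono (e9.trans hp6) U hU _).2 ⟨j, hj, rfl⟩)).1
    have l4 := forces_integral_near (C := CC) sigmaClosed (fun U => (isBorel U).1)
      (D := fun i => NN (d j i)) (d := fun i => a (d j i)) (r := y)
      ((h1 i0).mono (e9.trans (e6.trans e7))) l3 ((k4 j hj).2.1.mono e9)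
      (fun i hi => (k6 j hj i hi).1.mono e8) (fun i hi => ((k4 j hj).2.2 i hi).mono e9)
      (((l1.mono (hr4.trans (hr3.trans hr2))).and (hy.mono hr4)).imp fun U h => h.2 ▸ h.1)
    have l5 := forces_integral_near (C := CC) sigmaClosed (fun U => (isBorel U).1)
      (D := fun i => NN (d j i)) (d := fun i => b (d j i)) (r := y')
      (h2.mono (e9.trans (e6.trans e7))) l3 ((k4 j hj).2.1.mono e9)
      (fun i hi => (k6 j hj i hi).2.1.mono e8) (fun i hi => ((k4 j hj).2.2 i hi).mono e9)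
      (((l2.mono (hr4.trans hr3)).and hy').imp fun U h => h.2 ▸ h.1)
    have l6 := sum_near (v := v j) fun i hi => (k6 j hj i hi).2.2
    have l7 : (∑ i ∈ Finset.range (n j), |v j i|) * (e / (4 * (M + 1))) ≤ e / 4 := by
      calc _ ≤ (M + 1) * (e / (4 * (M + 1))) :=
            mul_le_mul_of_nonneg_right ((hM j hj).trans (by linarith)) (by positivity)
        _ = e / 4 := by field_simp
    refine ⟨r4, hr4.trans hr3, fun U hU => ?_⟩
    beta_reduce
    rw [hy.mono hr4 U hU, hy' U hU, near_iff, abs_lt]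
    rw [abs_le] at l6
    constructor <;> linarith [l4.1, l4.2, l5.1, l5.2, l6.1, l6.2]
  refine ⟨r, hr.trans e6, fun U hU => ⟨_, mem_fam σ i0 U, fun g x x' hg => ?_⟩⟩
  obtain ⟨j, hj, rfl⟩ := (hf.mono (hr.trans hp6) U hU g).1 hg
  rw [he.mono (hr.trans (hp6.trans hp5)) U hU]
  exact k7 j hj U hU x x'

end Pool.Agent.P.MP_5a7e2f_gt
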