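import Pool.Agent.Lib.PosetForcing.CardDefs

set_option autoImplicit false

/-! The notions of the problem written inside a structure `(M, mem)`; all quantifiers range
over `M`. -/

open Pool.Agent.Lib.PosetForcing

namespace Pool.Agent.P.MP_5a7e2f_gt

universe v

/-- the parameters: `ω`, the ordered field of real numbers, a set `S`, a topology on it and its
Borel sets -/
structure Ctx (M : Type v) : Type v where
  /-- the set of natural numbers -/
  w : M
  /-- the set of real numbers -/
  R : M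
  /-- addition -/
  add : M
  /-- multiplication -/
  mul : M
  /-- the order -/
  le : M
  /-- the real number zero -/
  zero : M
  /-- the real number one -/
  one : M
  /-- the space -/
  S : M
  /-- the set of open sets -/
  top : M
  /-- the set of Borel sets -/
  bor : M

variable {M : Type v} (mem : M → M → Prop) (C : Ctx M)

/-- `((x, y), z) ∈ f` -/
def App2 (f x y z : M) : Prop := ∃ p, IsPair mem p x y ∧ App mem f p z

/-- `f` is a binary operation on `R` -/
def IsOp (f R : M) : Prop :=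
  (∀ x y z, App2 mem f x y z → mem x R ∧ mem y R ∧ mem z R) ∧
  (∀ x, mem x R → ∀ y, mem y R → ∃ z, App2 mem f x y z) ∧
  ∀ x y z z', App2 mem f x y z → App2 mem f x y z' → z = z'

/-- `x + y = z` -/
def RAdd (x y z : M) : Prop := App2 mem C.add x y z

/-- `x * y = z` -/
def RMul (x y z : M) : Prop := App2 mem C.mul x y z

/-- `x ≤ y` -/
def RLe (x y : M) : Prop := App mem C.le x y

/-- `x < y` -/
def RLt (x y : M) : Prop := RLe mem C x y ∧ x ≠ y

/-- `r` is the least upper bound of the real numbers satisfying `Φ` -/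
def IsSup (Φ : M → Prop) (r : M) : Prop :=
  mem r C.R ∧ (∀ x, Φ x → RLe mem C x r) ∧
    ∀ y, mem y C.R → (∀ x, Φ x → RLe mem C x y) → RLe mem C r y

/-- `r` is the greatest lower bound of the real numbers satisfying `Φ` -/
def IsInf (Φ : M → Prop) (r : M) : Prop :=
  mem r C.R ∧ (∀ x, Φ x → RLe mem C r x) ∧
    ∀ y, mem y C.R → (∀ x, Φ x → RLe mem C y x) → RLe mem C y r

/-- `(R, add, mul, le, zero, one)` is a complete ordered field -/
structure IsReals : Prop where
  add_op : IsOp mem C.add C.R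
  mul_op : IsOp mem C.mul C.R
  le_mem : ∀ x y, RLe mem C x y → mem x C.R ∧ mem y C.R
  zero_mem : mem C.zero C.R
  one_mem : mem C.one C.R
  zero_ne_one : C.zero ≠ C.one
  add_comm : ∀ x y z, RAdd mem C x y z → RAdd mem C y x z
  add_assoc : ∀ x y z a b c, RAdd mem C x y a → RAdd mem C a z c → RAdd mem C y z b →
    RAdd mem C x b c
  add_zero : ∀ x, mem x C.R → RAdd mem C x C.zero x
  add_neg : ∀ x, mem x C.R → ∃ y, RAdd mem C x y C.zero
  mul_comm : ∀ x y z, RMul mem C x y z → RMul mem C y x z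
  mul_assoc : ∀ x y z a b c, RMul mem C x y a → RMul mem C a z c → RMul mem C y z b →
    RMul mem C x b c
  mul_one : ∀ x, mem x C.R → RMul mem C x C.one x
  mul_inv : ∀ x, mem x C.R → x ≠ C.zero → ∃ y, RMul mem C x y C.one
  distrib : ∀ x y z a b c d, RAdd mem C y z a → RMul mem C x a b → RMul mem C x y c →
    RMul mem C x z d → RAdd mem C c d b
  le_refl : ∀ x, mem x C.R → RLe mem C x x
  le_antisymm : ∀ x y, RLe mem C x y → RLe mem C y x → x = y
  le_trans : ∀ x y z, RLe mem C x y → RLe mem C y z → RLe mem C x z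
  le_total : ∀ x, mem x C.R → ∀ y, mem y C.R → RLe mem C x y ∨ RLe mem C y x
  add_le : ∀ x y z a b, RLe mem C x y → RAdd mem C x z a → RAdd mem C y z b → RLe mem C a b
  mul_nonneg : ∀ x y z, RLe mem C C.zero x → RLe mem C C.zero y → RMul mem C x y z →
    RLe mem C C.zero z
  complete : ∀ A, IsSub mem A C.R → (∃ x, mem x A) →
    (∃ b, mem b C.R ∧ ∀ x, mem x A → RLe mem C x b) → ∃ r, IsSup mem C (fun x => mem x A) r

/-- `A` is finite -/
def IsFin (A : M) : Prop := ∃ n, mem n C.w ∧ LeCard mem A n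

/-- `top` is a topology on `S` -/
def IsTop : Prop :=
  (∀ V, mem V C.top → IsSub mem V C.S) ∧ mem C.S C.top ∧
  (∀ V W X, mem V C.top → mem W C.top → (∀ x, mem x X ↔ mem x V ∧ mem x W) → mem X C.top) ∧
  ∀ F X, IsSub mem F C.top → (∀ x, mem x X ↔ ∃ V, mem V F ∧ mem x V) → mem X C.top

/-- the topology is Hausdorff -/
def IsHausdorff : Prop :=
  ∀ x y, mem x C.S → mem y C.S → x ≠ y → ∃ V W, mem V C.top ∧ mem W C.top ∧ mem x V ∧ mem y W ∧
    ∀ z, mem z V → ¬ mem z W

/-- `F` covers `K` -/
def CoversSet (F K : M) : Prop := ∀ x, mem x K → ∃ V, mem V F ∧ mem x V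

/-- `K` is a compact subset of `S` -/
def IsCpt (K : M) : Prop :=
  IsSub mem K C.S ∧ ∀ F, IsSub mem F C.top → CoversSet mem F K →
    ∃ G, IsSub mem G F ∧ IsFin mem C G ∧ CoversSet mem G K

/-- `X` is the union of the values of `f` -/
def IsSeqUnion (X f : M) : Prop := ∀ x, mem x X ↔ ∃ n B, App mem f n B ∧ mem x B

/-- `A` is a sigma-algebra of subsets of `S` -/
def IsSigma (A : M) : Prop :=
  (∀ B, mem B A → IsSub mem B C.S) ∧ mem C.S A ∧
  (∀ B X, mem B A → (∀ x, mem x X ↔ mem x C.S ∧ ¬ mem x B) → mem X A) ∧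
  ∀ f X, IsFun mem f C.w A → IsSeqUnion mem X f → mem X A

/-- `bor` is the least sigma-algebra containing the open sets -/
def IsBorel : Prop :=
  IsSigma mem C C.bor ∧ IsSub mem C.top C.bor ∧
    ∀ A, IsSigma mem C A → IsSub mem C.top A → IsSub mem C.bor A

/-- `s : ω → R` has `s(0) = 0` and `s(i+1) = s(i) + b` for `i ∈ n`, `b` being the `i`-th term -/
def PSums (term : M → M → Prop) (s n : M) : Prop :=
  IsFun mem s C.w C.R ∧ (∀ e, (∀ x, ¬ mem x e) → App mem s e C.zero) ∧
    ∀ i j a b c, mem i n → IsSucc mem j i → App mem s i a → term i b → RAdd mem C a b c →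
      App mem s j c

/-- `μ` is a Borel probability measure: non-negative, of total mass one, finitely additive and
countably additive (the measure of a disjoint union is the supremum of the partial sums) -/
def IsProb (μ : M) : Prop :=
  IsFun mem μ C.bor C.R ∧ (∀ B a, App mem μ B a → RLe mem C C.zero a) ∧ App mem μ C.S C.one ∧
  (∀ A B X a b c, App mem μ A a → App mem μ B b → (∀ x, mem x A → ¬ mem x B) →
    (∀ x, mem x X ↔ mem x A ∨ mem x B) → RAdd mem C a b c → App mem μ X c) ∧
  ∀ f X s r, IsFun mem f C.w C.bor →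
    (∀ i j A B x, App mem f i A → App mem f j B → mem x A → mem x B → i = j) →
    IsSeqUnion mem X f → PSums mem C (fun i b => ∃ B, App mem f i B ∧ App mem μ B b) s C.w →
    App mem μ X r → IsSup mem C (fun x => ∃ n, App mem s n x) r

/-- `μ ∈ P(S)`: a Borel probability measure that is inner regular with respect to compact sets
and outer regular with respect to open sets -/
def IsRegProb (μ : M) : Prop :=
  IsProb mem C μ ∧ ∀ B r, App mem μ B r →
    IsSup mem C (fun x => ∃ K, IsCpt mem C K ∧ IsSub mem K B ∧ App mem μ K x) r ∧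
    IsInf mem C (fun x => ∃ V, mem V C.top ∧ IsSub mem B V ∧ App mem μ V x) r

/-- `f : S → R` is continuous -/
def IsCont (f : M) : Prop :=
  IsFun mem f C.S C.R ∧ ∀ x y a b, App mem f x y → RLt mem C a y → RLt mem C y b →
    ∃ V, mem V C.top ∧ mem x V ∧
      ∀ x' y', mem x' V → App mem f x' y' → RLt mem C a y' ∧ RLt mem C y' b

/-- `x = ∑ q(i) μ(B(i))` for a finite Borel partition `B` of `S` with `q(i) ≤ f` on `B(i)` -/
def LowerSum (μ f x : M) : Prop :=
  ∃ n B q s, mem n C.w ∧ IsFun mem B n C.bor ∧ IsFun mem q n C.R ∧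
    (∀ z, mem z C.S → ∃! i, ∃ A, App mem B i A ∧ mem z A) ∧
    (∀ i A a z y, App mem B i A → App mem q i a → mem z A → App mem f z y → RLe mem C a y) ∧
    PSums mem C (fun i b => ∃ A a m, App mem B i A ∧ App mem q i a ∧ App mem μ A m ∧
      RMul mem C a m b) s n ∧ App mem s n x

/-- `r = ∫ f dμ` for a bounded Borel function `f` -/
def IsIntegral (μ f r : M) : Prop := IsSup mem C (LowerSum mem C μ f) r

/-- `|r - r'| < ε` -/
def Near (r r' ε : M) : Prop :=
  ∃ a b, RAdd mem C r ε a ∧ RAdd mem C r' ε b ∧ RLt mem C r' a ∧ RLt mem C r b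

/-- `ν` lies in the weak* closure of `A` -/
def InClosure (A ν : M) : Prop :=
  ∀ F ε, IsFin mem C F → (∀ f, mem f F → IsCont mem C f) → RLt mem C C.zero ε →
    ∃ σ, mem σ A ∧ ∀ f r r', mem f F → IsIntegral mem C σ f r → IsIntegral mem C ν f r' →
      Near mem C r r' ε

/-- `P(S)` has countable tightness -/
def CtblyTight : Prop :=
  ∀ A ν, (∀ σ, mem σ A → IsRegProb mem C σ) → IsRegProb mem C ν → InClosure mem C A ν →
    ∃ B, IsSub mem B A ∧ LeCard mem B C.w ∧ InClosure mem C B ν

/-- `μ` has metrizable-like support -/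
def MetrLike (μ : M) : Prop :=
  ∃ A, IsFunOn mem A C.w (fun F => IsFin mem C F ∧ (∀ K, mem K F → IsCpt mem C K) ∧
      ∀ K L x, mem K F → mem L F → mem x K → mem x L → K = L) ∧
    ∀ F ε, IsSub mem F C.top → CoversSet mem F C.S → RLt mem C C.zero ε →
      ∃ i G, App mem A i G ∧ (∀ K, mem K G → ∃ V, mem V F ∧ IsSub mem K V) ∧
        ∃ X m, (∀ x, mem x X ↔ mem x C.S ∧ ¬ ∃ K, mem K G ∧ mem x K) ∧ App mem μ X m ∧
          RLt mem C m ε

end Pool.Agent.P.MP_5a7e2f_gt
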