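import Pool.Agent.P.MP_5a7e2f_gt.Meas

set_option autoImplicit false
set_option synthInstance.maxSize 100000

open Set Filter MeasureTheory Pool.Agent.Lib.PosetForcing
open scoped ENNReal Topology

namespace Pool.Agent.P.MP_5a7e2f_gt

theorem rel_cpt {p : PP} {K : Name PP} (h : Forces p fun U => IsCpt Mod.mem (CC.val U) (K.val U)) :
    ∃ q ≤ p, ∃ E, Rel q K E := by
  have e := mem_sepName (NN univ) fun U x => ¬ Mod.mem x (K.val U)
  obtain ⟨q, hq, G, h1, -⟩ := rel_open (h.imp fun U h => open_of_cpt U _ _ h (e U))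
  refine ⟨q, hq, Gᶜ, h1.compl ((h.mono hq).imp fun U h x => ?_)⟩
  rw [e]
  exact ⟨fun h2 => ⟨h.1 x h2, fun h3 => h3.2 h2⟩, fun h2 => by_contra fun h3 => h2.2 ⟨h2.1, h3⟩⟩

theorem measure_end {E : ℕ → Set TT} {s t : Finset ℕ} {L : Set TT} (hL : lam L ≤ 2⁻¹ ^ 3)
    (h1 : lam.real (⋃ j, if j ∈ s then E j else ∅)ᶜ < 1 / 4)
    (h2 : ∀ j ∈ s, j ∉ t → lam (E j \ L) = 0) : 2⁻¹ < lam (⋃ j ∈ t, E j) := by
  have h3 : (univ : Set TT) ⊆ (⋃ j, if j ∈ s then E j else ∅)ᶜ ∪ ((⋃ j ∈ t, E j) ∪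
      (L ∪ ⋃ j ∈ s \ t, E j \ L)) := fun x _ => by
    refine or_iff_not_imp_left.2 fun h => ?_
    obtain ⟨j, hj⟩ := mem_iUnion.1 (not_not.1 h)
    split_ifs at hj with h4
    · by_cases h5 : j ∈ t
      · exact Or.inl (mem_iUnion₂.2 ⟨j, h5, hj⟩)
      · exact Or.inr (or_iff_not_imp_left.2 fun h6 =>
          mem_iUnion₂.2 ⟨j, Finset.mem_sdiff.2 ⟨h4, h5⟩, hj, h6⟩)
    · exact hj.elim
  have h4 : lam.real (⋃ j ∈ s \ t, E j \ L) = 0 := by
    have : lam (⋃ j ∈ s \ t, E j \ L) = 0 :=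
      (measure_biUnion_null_iff (s \ t).countable_toSet).2 fun j hj =>
        h2 j (Finset.mem_sdiff.1 hj).1 (Finset.mem_sdiff.1 hj).2
    rw [Measure.real, this]
    rfl
  have h5 : lam.real L ≤ 2⁻¹ ^ 3 := by
    have := ENNReal.toReal_mono (by simp) hL
    simpa [Measure.real] using this
  have h6 := (measureReal_mono (μ := lam) h3).trans ((measureReal_union_le _ _).trans
    (add_le_add le_rfl ((measureReal_union_le _ _).trans
      (add_le_add le_rfl (measureReal_union_le _ _)))))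
  rw [probReal_univ, h4] at h6
  rw [← ENNReal.toReal_lt_toReal (by simp) (measure_ne_top _ _)]
  simp only [ENNReal.toReal_inv, ENNReal.toReal_ofNat]
  change _ < lam.real _
  linarith

theorem not_metrLike (U : Gen PP) : ¬ MetrLike Mod.mem (CC.val U) (muN.val U) := by
  classical
  revert U
  refine of_forces_all fun p0 => ⟨p0, le_rfl, forces_not_iff.2 fun p _ h => ?_⟩
  unfold MetrLike at h
  obtain ⟨A, h⟩ := h.exists_name
  obtain ⟨G, hG⟩ := exists_app_name A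
  have h1 : ∀ i, Forces p fun U =>
      App Mod.mem (A.val U) ((natName i : Name PP).val U) ((G i).val U) :=
    fun i => h.imp fun U h => hG i U (h.1.2.1 _ (nat_mem_w i U))
  have h2 := fun i => (h.and (h1 i)).imp fun U h => ((isZFC U).app_val h.1.1 h.2).2
  obtain ⟨q, hq, h3⟩ := sigmaClosed.exists_forall p (fun (i : ℕ) q => ∃ (s : Finset ℕ)
      (a : ℕ → Name PP) (E : ℕ → Set TT), (Forces q fun U => ∀ x, Mod.mem x ((G i).val U) ↔
        ∃ j ∈ s, x = (a j).val U) ∧ ∀ j ∈ s, Rel q (a j) (E j))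
    (fun i q r hr ⟨s, a, E, k1, k2⟩ => ⟨s, a, E, k1.mono hr, fun j hj => (k2 j hj).mono hr⟩)
    fun i q hq => by
      obtain ⟨r, hr, s, a, ha⟩ := fin_cover (((h2 i).mono hq).imp fun _ h => h.1)
      obtain ⟨t, ht, k⟩ := sigmaClosed.exists_forall r (fun (j : ℕ) t => ∃ E, j ∈ s → Rel t (a j) E)
        (fun j q r hr ⟨E, h⟩ => ⟨E, fun hj => (h hj).mono hr⟩) fun j t ht => by
          by_cases hj : j ∈ s
          · obtain ⟨u, hu, E, hE⟩ := rel_cpt (p := t) (K := a j) fun U hU =>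
              ((h2 i).mono (ht.trans (hr.trans hq)) U hU).2.1 _
                ((ha.mono ht U hU _).2 ⟨j, hj, rfl⟩)
            exact ⟨u, hu, E, fun _ => hE⟩
          · exact ⟨t, le_rfl, ∅, fun h => absurd h hj⟩
      choose E hE using k
      exact ⟨t, ht.trans hr, s, a, E, ha.mono ht, hE⟩
  choose s a E g1 g2 using h3
  obtain ⟨τ, hτ⟩ := exists_surjective_nat (ℕ × Finset ℕ)
  let T : ℕ × Finset ℕ → Set TT := fun z => ⋃ j ∈ z.2, E z.1 j
  obtain ⟨a0, ha0⟩ := step (lam_avoid q.c q.δ)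
    (fun k => if 2⁻¹ < lam (T (τ k)) then T (τ k) else univ) fun k => by
      split_ifs with h
      · exact h
      · simp
  obtain ⟨γ, hγ, -⟩ := exists_gt' q.δ q.δ
  let r : PP := ⟨γ, Function.update q.c q.δ a0⟩
  have hr : r ≤ q := ⟨hγ.le, fun β hβ => (Function.update_of_ne hβ.ne _ _).symm⟩
  have hc := isClopen_uu q.δ
  have k1 := (h.mono (hr.trans hq)).imp fun U h => h.2
    ((upairName (NN (uu q.δ)) (NN (uu q.δ)ᶜ)).val U) ((elt (1 / 4 : ℝ)).val U)
    (fun V hV => by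
      rcases (mem_upairName _ _ U V).1 hV with rfl | rfl
      exacts [NN_open hc U, NN_open hc.compl U])
    (fun x hx => by
      by_cases e : Mod.mem x ((NN (uu q.δ)).val U)
      · exact ⟨_, (mem_upairName _ _ U _).2 (Or.inl rfl), e⟩
      · exact ⟨_, (mem_upairName _ _ U _).2 (Or.inr rfl), (mem_NN_compl hc U x).2 ⟨hx, e⟩⟩)
    (by rw [zero_eq, rlt_iff]; norm_num)
  obtain ⟨i, k1⟩ := k1.exists_name
  obtain ⟨G', k1⟩ := k1.exists_name
  obtain ⟨r1, hr1, n, hn⟩ := dec_nat (C := CC) (((h.mono (hr.trans hq)).and k1).imp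
    fun U h => ((isZFC U).app_val h.1.1 h.2.1).1)
  have e1 : r1 ≤ p := hr1.trans (hr.trans hq)
  have k2 : Forces r1 fun U => G'.val U = (G n).val U := fun U hU =>
    (h.mono e1 U hU).1.2.2 _ _ _ (hn U hU ▸ (k1.mono hr1 U hU).1) ((h1 n).mono e1 U hU)
  replace k1 := ((k1.mono hr1).and k2).imp fun U h => (h.2 ▸ h.1.2 :)
  obtain ⟨r2, hr2, k3⟩ := sigmaClosed.exists_forall r1 (fun (j : ℕ) t => j ∈ s n →
      (Forces t fun U => IsSub Mod.mem ((a n j).val U) ((NN (uu q.δ)).val U)) ∨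
      Forces t fun U => IsSub Mod.mem ((a n j).val U) ((NN (uu q.δ)ᶜ).val U))
    (fun j q r hr h hj => (h hj).imp (·.mono hr) (·.mono hr)) fun j t ht => by
      obtain ⟨u, hu, k | k⟩ := exists_decide
        (fun U => IsSub Mod.mem ((a n j).val U) ((NN (uu q.δ)).val U)) t
      · exact ⟨u, hu, fun _ => Or.inl k⟩
      · refine ⟨u, hu, fun hj => Or.inr fun U hU => ?_⟩
        obtain ⟨V, v1, v2⟩ := (k1.mono (hu.trans ht) U hU).1 _
          (((g1 n).mono (hu.trans (ht.trans (hr1.trans hr))) U hU _).2 ⟨j, hj, rfl⟩)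
        rcases (mem_upairName _ _ U V).1 v1 with rfl | rfl
        exacts [absurd v2 (k U hU), v2]
  have e2 : r2 ≤ q := hr2.trans (hr1.trans hr)
  have e3 : q.δ < r2.δ := hγ.trans_le (hr2.trans hr1).1
  obtain ⟨X, k4⟩ := ((k1.mono hr2).imp fun _ h => h.2).exists_name
  obtain ⟨m, k4⟩ := k4.exists_name
  have k5 : Rel r2 (unionName (G n)) (⋃ j, if j ∈ s n then E n j else ∅) := by
    refine rel_iUnion (B := fun j => if j ∈ s n then a n j else NN ∅) (fun j => ?_)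
      (fun j U hU x hx => ?_) fun t ht x hx => ?_
    · split_ifs with hj
      exacts [(g2 n j hj).mono e2, rel_NN isClopen_empty fun _ _ _ _ h => h]
    · split_ifs at hx with hj
      · exact (mem_unionName _ U x).2 ⟨_, ((g1 n).mono e2 U hU _).2 ⟨j, hj, rfl⟩, hx⟩
      · exact absurd hx (not_mem_NN_empty U x)
    · by_contra hcon
      push Not at hcon
      obtain ⟨u, hu, k⟩ := sigmaClosed.exists_forall t (fun (j : ℕ) u => Forces u fun U =>
        ¬ Mod.mem (x.val U) ((if j ∈ s n then a n j else NN ∅).val U))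
        (fun _ _ _ hr h => h.mono hr) fun j u hu => exists_forces_not (hcon u hu j)
      refine Forces.not_false (p := u) fun U hU => ?_
      obtain ⟨y, y1, y2⟩ := (mem_unionName _ U _).1 (hx.mono hu U hU)
      obtain ⟨j, hj, rfl⟩ := ((g1 n).mono (hu.trans (ht.trans e2)) U hU _).1 y1
      exact k j U hU (by rwa [if_pos hj])
  have k6 := mu_val (k4.imp fun U h => ((isZFC U).app_val (mu_fun U) h.2.1).1)
    (k5.compl (k4.imp fun U h x => by rw [mem_unionName]; exact h.1 x))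
  have k7 : lam.real (⋃ j, if j ∈ s n then E n j else ∅)ᶜ < 1 / 4 :=
    forces_const (p := r2) fun U hU => by
      have := (k4 U hU).2.2
      rwa [(mu_fun U).2.2 _ _ _ (k4 U hU).2.1 (k6 U hU), rlt_iff] at this
  let t := (s n).filter fun j =>
    Forces r2 fun U => IsSub Mod.mem ((a n j).val U) ((NN (uu q.δ)ᶜ).val U)
  have k8 : 2⁻¹ < lam (T (n, t)) := measure_end (L := ell r2.c (uu q.δ))
    ((measure_mono (ell_uu_subset _)).trans (DD.lam_tail _ 0)) k7 fun j hj hj' =>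
      ((g2 n j hj).mono e2).null_diff (rel_NN hc (dep_uu e3))
        ((k3 j hj).resolve_right fun h => hj' (Finset.mem_filter.2 ⟨hj, h⟩))
  obtain ⟨k, hk⟩ := hτ (n, t)
  have k9 := ha0 k
  rw [hk, if_pos k8] at k9
  refine k9 (measure_mono_null (t := ⋃ j ∈ t, E n j \ ell r2.c (uu q.δ)ᶜ) (fun x hx => ?_)
    ((measure_biUnion_null_iff t.countable_toSet).2 fun j hj => ?_))
  · obtain ⟨j, hj, h4⟩ := mem_iUnion₂.1 hx.1.1
    refine mem_iUnion₂.2 ⟨j, hj, h4, not_not.2 (subset_ell_uu q.δ k ⟨?_, fun h5 => hx.1.2 ?_⟩)⟩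
    · rw [← (hr2.trans hr1).2 q.δ hγ]
      simpa [r] using hx.2
    · obtain ⟨β, hβ⟩ := mem_iUnion.1 h5
      exact mem_iUnion.2 ⟨β, by rwa [e2.2 β β.2]⟩
  · rw [Finset.mem_coe, Finset.mem_filter] at hj
    exact ((g2 n j hj.1).mono e2).null_diff (rel_NN hc.compl (dep_uu e3).compl) hj.2

end Pool.Agent.P.MP_5a7e2f_gt
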