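import Pool.Agent.P.MP_5a7e2f_gt.Chi
import Pool.Agent.P.MP_5a7e2f_gt.NotMetr

set_option autoImplicit false
set_option synthInstance.maxSize 100000

open Set Filter Pool.Agent.Lib.PosetForcing

namespace Pool.Agent.P.MP_5a7e2f_gt

theorem branch_val {g : II → PP} (hg : Antitone g) (hδ : ∀ ξ, ξ < (g ξ).δ) {τ : Name PP}
    (h1 : ∀ ξ, Forces (g ξ) fun U => IsProb Mod.mem (CC.val U) (τ.val U))
    (h2 : ∀ d, IsClopen d → ∃ ξ, ∃ a : ℝ,
      Forces (g ξ) fun U => App Mod.mem (τ.val U) ((NN d).val U) ((elt a).val U)) :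
    ∃ m : Set YY → ℝ, FA (fun β => (g β).c β) m ∧ ∀ d, IsClopen d → ∀ᶠ ξ in atTop,
      Forces (g ξ) fun U => App Mod.mem (τ.val U) ((NN d).val U) ((elt (m d)).val U) := by
  choose! ξ m hm using h2
  have h3 : ∀ d, IsClopen d → ∀ᶠ ζ in atTop,
      Forces (g ζ) fun U => App Mod.mem (τ.val U) ((NN d).val U) ((elt (m d)).val U) :=
    fun d hd => (eventually_ge_atTop (ξ d)).mono fun ζ h => (hm d hd).mono (hg h)
  have h4 : ∀ ζ, ∀ β < (g ζ).δ, (g ζ).c β = (g β).c β := fun ζ β hβ =>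
    (le_total β ζ).elim (fun h => ((hg h).2 β (hδ β)).symm) fun h => (hg h).2 β hβ
  refine ⟨m, ⟨fun d hd => ?_, ?_, fun d d' hd hd' h => ?_, fun d hd h => ?_⟩, h3⟩
  · exact forces_const (p := g (ξ d)) fun U hU => prob_nonneg (h1 _ U hU) (hm d hd U hU)
  · refine forces_const (p := g (ξ univ)) fun U hU =>
      prob_val_eq (h1 _ U hU) (hm univ isClopen_univ U hU) ?_
    rw [← one_eq (C := CC)]
    exact (h1 _ U hU).2.2.1
  · obtain ⟨ζ, k1, k2, k3⟩ := ((h3 d hd).and ((h3 d' hd').and (h3 _ (hd.union hd')))).exists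
    refine forces_const (p := g ζ) fun U hU => prob_val_eq (h1 _ U hU) (k3 U hU)
      ((h1 _ U hU).2.2.2.1 _ _ _ _ _ _ (k1 U hU) (k2 U hU) (fun x x1 x2 => ?_)
        (mem_NN_union hd hd' U) (radd_iff.2 rfl))
    have := (mem_NN_inter hd hd' U x).2 ⟨x1, x2⟩
    rw [h.inter_eq] at this
    exact not_mem_NN_empty U x this
  · obtain ⟨δ, hd'⟩ := exists_dep hd
    obtain ⟨ζ, k1, k2⟩ := ((h3 d hd).and (eventually_ge_atTop δ)).exists
    replace hd' : Dep d (g ζ).δ := hd'.mono (k2.trans (hδ ζ).le)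
    have k3 : Forces (g ζ) fun U => ∀ z, Mod.mem z (CC.val U).S → ¬ Mod.mem z ((NN d).val U) := by
      refine forces_pts fun q hq x hx => ⟨q, le_rfl, fun U hU => ?_⟩
      beta_reduce
      rw [mem_NN_iff (hd'.mono hq.1) hx U hU]
      obtain ⟨x', x1, -, x3⟩ := exists_ok hq.2 hx.1
      exact x3 _ hd'.compl fun k4 => disjoint_left.1 h
        (hd'.emb_congr (h4 ζ) rfl (fun _ _ => Iff.rfl) k4) (emb_mem (x1.1.congr (h4 ζ) x1.2))
    exact forces_const (p := g ζ) fun U hU => prob_val_eq (h1 _ U hU) (k1 U hU)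
      (prob_empty (isBorel U).1 (h1 _ U hU) fun z hz => k3 U hU z (NN_sub d U z hz) hz)

theorem exists_dep_finset (s : Finset (Set YY)) (hs : ∀ d ∈ s, IsClopen d) :
    ∀ᶠ ξ in atTop, ∀ d ∈ s, Dep d ξ :=
  (eventually_all_finset s).2 fun d hd => by
    obtain ⟨δ, h⟩ := exists_dep (hs d hd)
    exact (eventually_ge_atTop δ).mono fun ξ => h.mono

/-- indices of the approximating measures -/
abbrev JJ : Type := {s : Finset (Set YY) // ∀ d ∈ s, IsClopen d} × ℕ

theorem countable_JJ (ξ : II) : {j : JJ | ∀ d ∈ j.1.1, Dep d ξ}.Countable := by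
  have h1 := Set.countable_ofPred_finite_subset (countable_dep ξ)
  refine ((h1.prod (countable_univ (α := ℕ))).preimage_of_injOn
    (f := fun j : JJ => ((j.1.1 : Set (Set YY)), j.2)) fun i _ j _ h => ?_).mono fun j hj => ?_
  · rw [Prod.mk.injEq] at h
    exact Prod.ext (Subtype.ext (Finset.coe_injective h.1)) h.2
  · exact ⟨⟨j.1.1.finite_toSet, fun d hd => ⟨j.1.2 d hd, hj d hd⟩⟩, trivial⟩

theorem ctblyTight (U : Gen PP) : CtblyTight Mod.mem (CC.val U) := by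
  classical
  intro A ν
  obtain ⟨A, rfl⟩ := A.exists_name
  obtain ⟨ν, rfl⟩ := ν.exists_name
  revert U
  refine by_forcing3 fun p h1 h2 h3 => ?_
  by_contra hcon
  push Not at hcon
  choose σ hσ1 hσ2 using fun j : JJ => approx_a h1 h2 h3 j.1.1 j.1.2
    (Nat.one_div_pos_of_nat (α := ℝ) (n := j.2))
  let J : II → Set JJ := fun ξ => {j | ∀ d ∈ j.1.1, Dep d ξ}
  let τ : Option JJ → Name PP := fun o => o.elim ν σ
  have hτ : ∀ o, Forces p fun U => IsProb Mod.mem (CC.val U) ((τ o).val U) := by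
    rintro (_ | j)
    exacts [h2.imp fun _ h => h.1, (h1.and (hσ1 j)).imp fun _ h => (h.1 _ h.2).1]
  obtain ⟨g, hg, h4⟩ := exists_branch p (fun ξ q => (∀ o d, (∀ j, o = some j → j ∈ J ξ) →
      IsClopen d → Dep d ξ → ∃ a : ℝ,
        Forces q fun U => App Mod.mem ((τ o).val U) ((NN d).val U) ((elt a).val U)) ∧
      ∃ s : Finset (Set YY), (∀ d ∈ s, IsClopen d) ∧ ∃ ε > 0, ∀ r ≤ q, ∀ j ∈ J ξ,
        ¬ ∀ d ∈ s, ∃ a b : ℝ,
          (Forces r fun U => App Mod.mem ((σ j).val U) ((NN d).val U) ((elt a).val U)) ∧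
          (Forces r fun U => App Mod.mem (ν.val U) ((NN d).val U) ((elt b).val U)) ∧
          |a - b| < ε) (by
    intro ξ q hq
    have c1 : Countable (J ξ) := (countable_JJ ξ).to_subtype
    have c2 := (countable_dep ξ).to_subtype
    obtain ⟨q1, hq1, k1⟩ := sigmaClosed.exists_forall q
      (fun (z : Option (J ξ) × {d : Set YY | IsClopen d ∧ Dep d ξ}) r => ∃ a : ℝ, Forces r fun U =>
        App Mod.mem ((τ (z.1.map Subtype.val)).val U) ((NN z.2).val U) ((elt a).val U))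
      (fun _ _ _ hr ⟨a, h⟩ => ⟨a, h.mono hr⟩)
      fun z r hr => dec_NN z.2.2.1 ((hτ _).mono (hr.trans hq))
    by_contra k2
    refine hcon q1 (hq1.trans hq) ?_
    have k3 := approx_b (p := q1) (σ := fun j : J ξ => σ j) (ν := ν)
      (fun j => (hτ (some j)).mono (hq1.trans hq)) ((hτ none).mono (hq1.trans hq))
      fun r hr s hs ε hε => by
        by_contra k4
        refine k2 ⟨r, hr.trans hq1, fun o d ho d1 d2 => ?_, s, hs, ε, hε,
          fun t ht j hj k5 => k4 ⟨t, ht, ⟨j, hj⟩, k5⟩⟩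
        cases o with
        | none => exact (k1 (none, ⟨d, d1, d2⟩)).imp fun a h => h.mono hr
        | some j => exact (k1 (some ⟨j, ho j rfl⟩, ⟨d, d1, d2⟩)).imp fun a h => h.mono hr
    have k4 : Forces q1 fun U => ∀ x, Mod.mem x ((fam fun j : J ξ => σ j).val U) →
        Mod.mem x (A.val U) :=
      forces_forall_mem_fam fun j r hr => ⟨r, le_rfl, (hσ1 j).mono (hr.trans (hq1.trans hq))⟩
    exact fun U hU => ⟨_, k4 U hU, leCard_fam _ U, k3 U hU⟩)
  choose m hm1 hm2 using fun o => branch_val (τ := τ o) hg (fun ξ => (h4 ξ).2.1)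
    (fun ξ => (hτ o).mono (h4 ξ).1) fun d hd => by
      have k1 : ∀ᶠ ξ in atTop, ∀ j, o = some j → j ∈ J ξ := by
        cases o with
        | none => simp
        | some j => exact (exists_dep_finset j.1.1 j.1.2).mono fun ξ h i e => Option.some.inj e ▸ h
      obtain ⟨ξ, k2, k3⟩ := (k1.and (exists_dep_finset {d} (by simpa using hd))).exists
      exact ⟨ξ, (h4 ξ).2.2.1 o d k2 hd (by simpa using k3)⟩
  obtain ⟨B, hB, h5⟩ := tight (fun j => m (some j)) (m none) (fun j => hm1 _) (hm1 _)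
    fun s hs ε hε => by
      obtain ⟨k, hk⟩ := exists_nat_one_div_lt hε
      refine ⟨(⟨s, hs⟩, k), fun d hd => lt_trans ?_ hk⟩
      obtain ⟨ξ, k1, k2⟩ := ((hm2 (some (⟨s, hs⟩, k)) d (hs d hd)).and (hm2 none d (hs d hd))).exists
      exact hσ2 (⟨s, hs⟩, k) d hd _ (h4 ξ).1 _ _ k1 k2
  choose b hb using fun j : JJ => (exists_dep_finset j.1.1 j.1.2).exists
  obtain ⟨ξ, hξ⟩ := exists_bound (hB.image b)
  obtain ⟨s, hs, ε, hε, h6⟩ := (h4 ξ).2.2.2
  obtain ⟨j, hj, h7⟩ := h5 s hs ε hε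
  obtain ⟨ζ, k1, k2⟩ := ((eventually_ge_atTop ξ).and ((eventually_all_finset s).2 fun d hd =>
    (hm2 (some j) d (hs d hd)).and (hm2 none d (hs d hd)))).exists
  exact h6 (g ζ) (hg k1) j (fun d hd => (hb j d hd).mono (hξ _ (mem_image_of_mem b hj)).le)
    fun d hd => ⟨_, _, (k2 d hd).1, (k2 d hd).2, h7 d hd⟩

end Pool.Agent.P.MP_5a7e2f_gt
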