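import Mathlib

namespace Pool.Agent.P.MP_5a7e2f_gt

open MeasureTheory Set Filter Topology

section Limsup

variable {S : Type} [MeasurableSpace S] {μ : Measure S} [IsFiniteMeasure μ]

lemma le_measure_limsup {A : ℕ → Set S} (hA : ∀ n, MeasurableSet (A n)) {c : ℝ}
    (hc : ∀ n, c ≤ μ.real (A n)) : c ≤ μ.real (⋂ N, ⋃ n, ⋃ (_ : N ≤ n), A n) := by
  have h1 : Tendsto (μ ∘ fun N => ⋃ n, ⋃ (_ : N ≤ n), A n) atTop
      (𝓝 (μ (⋂ N, ⋃ n, ⋃ (_ : N ≤ n), A n))) := by
    refine tendsto_measure_iInter_atTop (fun N => ?_) ?_ ⟨0, measure_ne_top _ _⟩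
    · exact (MeasurableSet.iUnion fun n => MeasurableSet.iUnion fun _ => hA n).nullMeasurableSet
    · intro N N' h s hs
      simp only [mem_iUnion] at hs ⊢
      obtain ⟨n, hn, hs⟩ := hs
      exact ⟨n, h.trans hn, hs⟩
  have h2 := (ENNReal.tendsto_toReal (measure_ne_top _ _)).comp h1
  refine ge_of_tendsto' h2 fun N => (hc N).trans ?_
  exact measureReal_mono (subset_iUnion₂ (s := fun n (_ : N ≤ n) => A n) N le_rfl)
    (measure_ne_top _ _)

end Limsup

section W

variable {S : Type} [MeasurableSpace S] (μ : Measure S) [IsProbabilityMeasure μ]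
variable {J : Type} [Countable J] (cl : J → J → ℕ → Prop) (E : J → J → Set S) (θ : ℝ)

/-- the derivative of a family of events -/
def der (W : J → Set S) (j : J) : Set S :=
  ⋂ n, ⋃ i, ⋃ i', ⋃ (_ : cl i j n ∧ cl i' j n), E i i' ∩ W i ∩ W i'

/-- admissible families of events -/
structure Adm (W : J → Set S) : Prop where
  meas : ∀ j, MeasurableSet (W j)
  pre : ∀ j, der cl E W j ⊆ W j
  big : ∀ j n, ∀ η > 0, ∃ i i', cl i j n ∧ cl i' j n ∧ θ ≤ μ.real (E i i') ∧
    μ.real (E i i' \ (W i ∩ W i')) < η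

variable {μ cl E θ}

omit [MeasurableSpace S] [Countable J] in
lemma mem_der {W : J → Set S} {j : J} {s : S} : s ∈ der cl E W j ↔
    ∀ n, ∃ i i', cl i j n ∧ cl i' j n ∧ s ∈ E i i' ∧ s ∈ W i ∧ s ∈ W i' := by
  simp only [der, mem_iInter, mem_iUnion, mem_inter_iff, exists_prop, and_assoc]

omit [MeasurableSpace S] [Countable J] in
lemma der_mono {W W' : J → Set S} (h : ∀ j, W j ⊆ W' j) (j : J) :
    der cl E W j ⊆ der cl E W' j := by
  intro s hs
  rw [mem_der] at hs ⊢
  intro n
  obtain ⟨i, i', h1, h2, h3, h4, h5⟩ := hs n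
  exact ⟨i, i', h1, h2, h3, h i h4, h i' h5⟩

lemma der_meas (hE : ∀ i i', MeasurableSet (E i i')) {W : J → Set S}
    (hW : ∀ j, MeasurableSet (W j)) (j : J) : MeasurableSet (der cl E W j) :=
  MeasurableSet.iInter fun _ => MeasurableSet.iUnion fun i => MeasurableSet.iUnion fun i' =>
    MeasurableSet.iUnion fun _ => ((hE i i').inter (hW i)).inter (hW i')

lemma adm_step (hE : ∀ i i', MeasurableSet (E i i'))
    (hrefl : ∀ j n, cl j j n) (hmono : ∀ i j n m, n ≤ m → cl i j m → cl i j n)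
    (htr : ∀ i j k n, cl i j (n + 1) → cl j k (n + 1) → cl i k n)
    (hopen : ∀ j k n, cl j k n → ∃ N, ∀ i, cl i j N → cl i k n)
    (W : ℕ → J → Set S) (hW : ∀ n, Adm μ cl E θ (W n))
    (hanti : ∀ n j, W (n + 1) j ⊆ W n j) :
    Adm μ cl E θ (fun j => ⋂ n, der cl E (W n) j) := by
  have hanti' : ∀ n m, n ≤ m → ∀ j, W m j ⊆ W n j := fun n m h j =>
    antitone_nat_of_succ_le (f := fun n => W n j) (fun n => hanti n j) h
  set W' : J → Set S := fun j => ⋂ n, der cl E (W n) j with hW'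
  have hsub : ∀ n j, W' j ⊆ W n j := fun n j => (iInter_subset _ n).trans ((hW n).pre j)
  have hmeas : ∀ j, MeasurableSet (W' j) := fun j =>
    MeasurableSet.iInter fun n => der_meas hE (hW n).meas j
  refine ⟨hmeas, fun j => subset_iInter fun n => der_mono (hsub n) j, ?_⟩
  intro j₀ n₀ η hη
  by_contra hcon
  push Not at hcon
  have key : ∀ k : ℕ, ∀ z, cl z j₀ n₀ → k * (η / 3) ≤ μ.real (W' z) := by
    intro k
    induction k with
    | zero => intro z _; simp
    | succ k ih =>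
      intro z hz
      obtain ⟨N, hN⟩ := hopen z j₀ n₀ hz
      have h1 : ∀ n, ∃ u A, cl u z n ∧ MeasurableSet A ∧
          ((k + 1 : ℕ) : ℝ) * (η / 3) ≤ μ.real (A ∪ W' u) ∧
          ∃ i i', cl i z n ∧ cl i' z n ∧ A = E i i' ∩ W n i ∩ W n i' := by
        intro n
        obtain ⟨i, i', a1, a2, a3, a4⟩ := (hW n).big z (n + N) (η / 3) (by positivity)
        have b1 := hN i (hmono _ _ _ _ (by omega) a1)
        have b2 := hN i' (hmono _ _ _ _ (by omega) a2)
        have c1 := hmono _ _ n _ (by omega) a1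
        have c2 := hmono _ _ n _ (by omega) a2
        have a5 := hcon i i' b1 b2 a3
        set A := E i i' ∩ W n i ∩ W n i' with hA
        have hAm : MeasurableSet A := ((hE i i').inter ((hW n).meas i)).inter ((hW n).meas i')
        have a6 : μ.real (E i i' \ (W' i ∩ W' i')) ≤
            μ.real (E i i' \ (W n i ∩ W n i')) + (μ.real (A \ W' i) + μ.real (A \ W' i')) := by
          refine le_trans (measureReal_mono ?_) ((measureReal_union_le _ _).trans
            (add_le_add le_rfl (measureReal_union_le _ _)))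
          intro s hs
          simp only [hA, mem_union, Set.mem_sdiff, mem_inter_iff] at hs ⊢
          tauto
        have a7 : ∀ u, cl u j₀ n₀ → η / 3 ≤ μ.real (A \ W' u) →
            ((k + 1 : ℕ) : ℝ) * (η / 3) ≤ μ.real (A ∪ W' u) := by
          intro u hu h
          have := measureReal_add_sdiff (μ := μ) (s := W' u) (t := A) (hmeas u)
          rw [union_comm, ← this]
          have := ih u hu
          push_cast; linarith
        by_cases h : η / 3 ≤ μ.real (A \ W' i)
        · exact ⟨i, A, c1, hAm, a7 i b1 h, i, i', c1, c2, rfl⟩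
        · exact ⟨i', A, c2, hAm, a7 i' b2 (by linarith), i, i', c1, c2, rfl⟩
      choose u A hu hA hμ i i' hi hi' hAe using h1
      refine (le_measure_limsup (fun n => (hA n).union (hmeas _)) hμ).trans (measureReal_mono ?_)
      intro s hs
      simp only [mem_iInter, mem_iUnion, exists_prop] at hs
      refine mem_iInter.2 fun m => mem_der.2 fun n => ?_
      obtain ⟨p, hp, hs⟩ := hs (m + n + 1)
      rcases hs with hs | hs
      · rw [hAe] at hs
        exact ⟨i p, i' p, hmono _ _ _ _ (by omega) (hi p), hmono _ _ _ _ (by omega) (hi' p),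
          hs.1.1, hanti' m p (by omega) _ hs.1.2, hanti' m p (by omega) _ hs.2⟩
      · obtain ⟨a, a', h1, h2, h3⟩ := mem_der.1 (mem_iInter.1 hs m) (n + 1)
        have h4 := hmono _ _ (n + 1) _ (by omega) (hu p)
        exact ⟨a, a', htr _ _ _ _ h1 h4, htr _ _ _ _ h2 h4, h3⟩
  obtain ⟨k, hk⟩ := exists_nat_gt (3 / η)
  have h1 := key k j₀ (hrefl _ _)
  have h2 : μ.real (W' j₀) ≤ 1 := measureReal_le_one
  rw [div_lt_iff₀ hη] at hk
  linarith

lemma exists_fixed [Nonempty J] (hE : ∀ i i', MeasurableSet (E i i'))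
    (hrefl : ∀ j n, cl j j n) (hmono : ∀ i j n m, n ≤ m → cl i j m → cl i j n)
    (htr : ∀ i j k n, cl i j (n + 1) → cl j k (n + 1) → cl i k n)
    (hopen : ∀ j k n, cl j k n → ∃ N, ∀ i, cl i j N → cl i k n) (hθ : 0 < θ)
    (hbig : ∀ j n, ∃ i i', cl i j n ∧ cl i' j n ∧ θ ≤ μ.real (E i i'))
    {Z : Set S} (hZ : μ Z = 0) :
    ∃ s ∉ Z, ∃ J' : Set J, J'.Nonempty ∧
      ∀ j ∈ J', ∀ n, ∃ i ∈ J', ∃ i' ∈ J', cl i j n ∧ cl i' j n ∧ s ∈ E i i' := by
  obtain ⟨en, hen⟩ := exists_surjective_nat J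
  have h0 : Adm μ cl E θ (fun _ => univ) := by
    refine ⟨fun _ => MeasurableSet.univ, fun _ => subset_univ _, fun j n η hη => ?_⟩
    obtain ⟨i, i', h1, h2, h3⟩ := hbig j n
    exact ⟨i, i', h1, h2, h3, by simpa using hη⟩
  have step : ∀ (n : ℕ) (W : {W : J → Set S // Adm μ cl E θ W}),
      ∃ W' : {W : J → Set S // Adm μ cl E θ W}, (∀ j, W'.1 j ⊆ W.1 j) ∧
        ∀ W'' : J → Set S, Adm μ cl E θ W'' → (∀ j, W'' j ⊆ W.1 j) →
          μ.real (W'.1 (en (Nat.unpair n).1)) ≤
            μ.real (W'' (en (Nat.unpair n).1)) + 1 / (n + 1) := by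
    intro n W
    set T : Set ℝ := {r | ∃ W'' : J → Set S, Adm μ cl E θ W'' ∧ (∀ j, W'' j ⊆ W.1 j) ∧
      r = μ.real (W'' (en (Nat.unpair n).1))} with hT
    have hne : T.Nonempty := ⟨_, W.1, W.2, fun _ => Subset.rfl, rfl⟩
    have hbd : BddBelow T := ⟨0, by rintro r ⟨W'', _, _, rfl⟩; exact measureReal_nonneg⟩
    obtain ⟨r, ⟨W', h1, h2, rfl⟩, hr⟩ := Real.lt_sInf_add_pos hne
      (show (0 : ℝ) < 1 / (n + 1) by positivity)
    refine ⟨⟨W', h1⟩, h2, fun W'' h3 h4 => ?_⟩
    have := csInf_le hbd (show _ ∈ T from ⟨W'', h3, h4, rfl⟩)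
    exact hr.le.trans (by linarith)
  choose F hF1 hF2 using step
  let W : ℕ → {W : J → Set S // Adm μ cl E θ W} := fun n => Nat.rec ⟨_, h0⟩ (fun n w => F n w) n
  have hWs : ∀ n, W (n + 1) = F n (W n) := fun n => rfl
  have a1 := adm_step hE hrefl hmono htr hopen (fun n => (W n).1) (fun n => (W n).2)
    (fun n j => by rw [hWs]; exact hF1 n (W n) j)
  set W' : J → Set S := fun j => ⋂ n, der cl E (W n).1 j with hW'
  have hsub : ∀ n j, W' j ⊆ (W n).1 j := fun n j => (iInter_subset _ n).trans ((W n).2.pre j)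
  have a2 : Adm μ cl E θ (der cl E W') := by
    have := adm_step hE hrefl hmono htr hopen (fun _ => W') (fun _ => a1) (fun _ _ => Subset.rfl)
    simpa only [iInter_const] using this
  have null : ∀ j, μ (W' j \ der cl E W' j) = 0 := by
    intro j
    have h1 : μ.real (W' j) ≤ μ.real (der cl E W' j) := by
      refine le_of_forall_pos_le_add fun ε hε => ?_
      obtain ⟨a, rfl⟩ := hen j
      obtain ⟨b, hb⟩ := exists_nat_one_div_lt hε
      have h2 := hF2 (Nat.pair a b) (W (Nat.pair a b)) _ a2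
        (fun j => (a1.pre j).trans (hsub _ j))
      rw [← hWs, Nat.unpair_pair] at h2
      have h3 : μ.real (W' (en a)) ≤ μ.real ((W (Nat.pair a b + 1)).1 (en a)) :=
        measureReal_mono (hsub (Nat.pair a b + 1) (en a))
      have h4 : (1 : ℝ) / ((Nat.pair a b : ℕ) + 1) ≤ 1 / (b + 1) := by
        have : (b : ℝ) ≤ (Nat.pair a b : ℕ) := by exact_mod_cast Nat.right_le_pair a b
        gcongr
      simp only at h2
      linarith
    rw [← measureReal_eq_zero_iff, measureReal_sdiff (a1.pre j) (a2.meas j)]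
    have := measureReal_mono (μ := μ) (a1.pre j)
    linarith
  obtain ⟨j₀⟩ := ‹Nonempty J›
  obtain ⟨i, i', _, _, h3, h4⟩ := a1.big j₀ 0 θ hθ
  have hpos : μ (W' i) ≠ 0 := by
    intro h
    have h5 : μ.real (E i i') ≤ μ.real (E i i' \ (W' i ∩ W' i')) + μ.real (W' i) := by
      refine le_trans (measureReal_mono ?_) (measureReal_union_le _ _)
      intro s hs
      simp only [mem_union, Set.mem_sdiff, mem_inter_iff]
      tauto
    rw [(measureReal_eq_zero_iff (μ := μ) (s := W' i)).2 h] at h5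
    linarith
  have hN : μ (Z ∪ ⋃ j, W' j \ der cl E W' j) = 0 :=
    measure_union_null hZ (measure_iUnion_null null)
  obtain ⟨s, hs1, hs2⟩ : ∃ s ∈ W' i, s ∉ Z ∪ ⋃ j, W' j \ der cl E W' j := by
    by_contra h
    push Not at h
    exact hpos (measure_mono_null h hN)
  simp only [mem_union, mem_iUnion, not_or, not_exists, Set.mem_sdiff, not_and, not_not] at hs2
  refine ⟨s, hs2.1, {j | s ∈ W' j}, ⟨i, hs1⟩, fun j hj n => ?_⟩
  obtain ⟨a, a', h1, h2, h3, h4, h5⟩ := mem_der.1 (hs2.2 j hj) n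
  exact ⟨a, h4, a', h5, h1, h2, h3⟩

end W

/-- `f` has small oscillation somewhere on every nonempty set -/
def Frag {X : Type} [MetricSpace X] (f : X → ℝ) : Prop :=
  ∀ D : Set X, D.Nonempty → ∀ m > 0, ∃ z ∈ D, ∃ r > 0,
    ∀ x ∈ D, ∀ y ∈ D, dist x z < r → dist y z < r → |f x - f y| < m

/-- points of the tree of witnesses -/
def treePt {X : Type} (z : X) (f : Bool → X → ℕ → X) : List (Bool × ℕ) → X
  | [] => z
  | p :: l => f p.1 (treePt z f l) p.2

/-- Fragmentability in measure. -/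
lemma frag_measure {S X : Type} [MeasurableSpace S] [MetricSpace X] (μ : Measure S)
    [IsProbabilityMeasure μ] (e : S → X → ℝ) (he : ∀ x, Measurable fun s => e s x)
    {Z : Set S} (hZ : μ Z = 0) (hF : ∀ s ∉ Z, Frag (e s)) (P : Set X) (hP : P.Nonempty)
    {m θ : ℝ} (hm : 0 < m) (hθ : 0 < θ) :
    ∃ z ∈ P, ∃ r > 0, ∀ x ∈ P, ∀ y ∈ P, dist x z < r → dist y z < r →
      μ.real {s | m ≤ |e s x - e s y|} < θ := by
  by_contra hcon
  push Not at hcon
  choose! fx hfx fy hfy h1 h2 h3 using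
    fun z (hz : z ∈ P) (n : ℕ) => hcon z hz ((1 / 2) ^ n) (by positivity)
  obtain ⟨z₀, hz₀⟩ := hP
  set pt := treePt z₀ (fun b => if b then fx else fy) with hpt
  have hptP : ∀ l, pt l ∈ P := by
    intro l
    induction l with
    | nil => exact hz₀
    | cons p l ih =>
      obtain ⟨b, n⟩ := p
      cases b
      · exact hfy _ ih n
      · exact hfx _ ih n
  obtain ⟨s, hs, J', hJ', H⟩ := exists_fixed (μ := μ) (J := List (Bool × ℕ))
    (cl := fun i j n => dist (pt i) (pt j) < (1 / 2) ^ n)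
    (E := fun i i' => {s | m ≤ |e s (pt i) - e s (pt i')|}) (θ := θ)
    (fun i i' => measurableSet_le measurable_const (((he _).sub (he _)).abs))
    (fun j n => by simp)
    (fun i j n k hnk h => h.trans_le (pow_le_pow_of_le_one (by norm_num) (by norm_num) hnk))
    (fun i j k n h h' => by
      have := dist_triangle (pt i) (pt j) (pt k)
      rw [pow_succ] at h h'
      linarith)
    (fun j k n h => by
      obtain ⟨N, hN⟩ := exists_pow_lt_of_lt_one (sub_pos.2 h) (show (1 / 2 : ℝ) < 1 by norm_num)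
      refine ⟨N, fun i hi => ?_⟩
      have := dist_triangle (pt i) (pt j) (pt k)
      linarith)
    hθ
    (fun j n => ⟨(true, n) :: j, (false, n) :: j, h1 _ (hptP j) n, h2 _ (hptP j) n,
      h3 _ (hptP j) n⟩) hZ
  obtain ⟨z, ⟨j, hj, rfl⟩, r, hr, H'⟩ := hF s hs (pt '' J') (hJ'.image _) m hm
  obtain ⟨n, hn⟩ := exists_pow_lt_of_lt_one hr (show (1 / 2 : ℝ) < 1 by norm_num)
  obtain ⟨i, hi, i', hi', a1, a2, a3⟩ := H j hj n
  exact absurd (H' _ ⟨i, hi, rfl⟩ _ ⟨i', hi', rfl⟩ (a1.trans hn) (a2.trans hn)) (not_lt.2 a3)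

/-- Baire's theorem: a pointwise limit of continuous functions on a complete space. -/
lemma frag_of_baire_one {X : Type} [MetricSpace X] [CompleteSpace X] (g : X → ℝ)
    (f : ℕ → C(X, ℝ)) (hf : ∀ x, Tendsto (fun n => f n x) atTop (𝓝 (g x))) : Frag g := by
  intro D hD m hm
  have : CompleteSpace (closure D) := isClosed_closure.completeSpace_coe
  have : Nonempty (closure D) := hD.closure.to_subtype
  obtain ⟨N, w, hw⟩ := nonempty_interior_of_iUnion_of_closed
    (f := fun N : ℕ => {x : closure D | ∀ j ≥ N, |f j x - f N x| ≤ m / 4})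
    (fun N => by
      simp only [ofPred_forall]
      exact isClosed_iInter fun j => isClosed_iInter fun _ =>
        isClosed_le (by fun_prop) continuous_const)
    (by
      refine eq_univ_of_forall fun x => mem_iUnion.2 ?_
      obtain ⟨N, hN⟩ := Metric.cauchySeq_iff'.1 (hf x).cauchySeq (m / 4) (by positivity)
      exact ⟨N, fun j hj => (hN j hj).le⟩)
  obtain ⟨ρ, hρ, hb⟩ := Metric.mem_nhds_iff.1 (mem_interior_iff_mem_nhds.1 hw)
  obtain ⟨δ, hδ, hc⟩ := Metric.continuousAt_iff.1 ((f N).continuous.continuousAt (x := w.1))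
    (m / 4) (by positivity)
  obtain ⟨z, hz, hzw⟩ := Metric.mem_closure_iff.1 w.2 (min ρ δ / 2) (by positivity)
  have key : ∀ x ∈ D, dist x z < min ρ δ / 2 → |g x - f N w| < m / 2 := by
    intro x hx hxz
    have h1 : dist x w < min ρ δ := by
      have := dist_triangle x z w
      rw [dist_comm] at hzw
      linarith
    have h2 := hb (show (⟨x, subset_closure hx⟩ : closure D) ∈ Metric.ball w ρ from
      h1.trans_le (min_le_left _ _))
    have h3 : |g x - f N x| ≤ m / 4 :=
      le_of_tendsto (((hf x).sub_const _).abs) (eventually_atTop.2 ⟨N, h2⟩)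
    have h4 := hc (h1.trans_le (min_le_right _ _))
    rw [Real.dist_eq] at h4
    have := abs_sub_le (g x) (f N x) (f N w)
    linarith
  refine ⟨z, hz, min ρ δ / 2, by positivity, fun x hx y hy hxz hyz => ?_⟩
  have h1 := key x hx hxz
  have h2 := key y hy hyz
  rw [abs_sub_comm] at h2
  have := abs_sub_le (g x) (f N w) (g y)
  linarith

end Pool.Agent.P.MP_5a7e2f_gt
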