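import Pool.Agent.Lib.PosetForcing.Card
import Pool.Agent.Lib.PosetForcing.Cond
import Pool.Agent.P.MP_5a7e2f_gt.ConDefs

set_option autoImplicit false
set_option synthInstance.maxSize 100000

open Pool.Agent.Lib.PosetForcing

namespace Pool.Agent.P.MP_5a7e2f_gt

variable {P : Type} [Preorder P]

/-- the value of a context of names -/
@[reducible] def Ctx.val (C : Ctx (Name P)) (U : Gen P) : Ctx (Mod U) :=
  ⟨C.w.val U, C.R.val U, C.add.val U, C.mul.val U, C.le.val U, C.zero.val U, C.one.val U,
    C.S.val U, C.top.val U, C.bor.val U⟩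

instance clopen_forall_finset {ι : Type*} (s : Finset ι) (Φ : ι → Gen P → Prop)
    [∀ m, Clopen (Φ m)] : Clopen fun U => ∀ m ∈ s, Φ m U := by
  classical
  induction s using Finset.induction_on with
  | empty => exact Clopen.congr (Φ := fun _ => True) fun U => by simp
  | insert a s _ ih =>
    exact Clopen.congr (Φ := fun U => Φ a U ∧ ∀ m ∈ s, Φ m U) fun U => by simp

instance clopen_exists_finset {ι : Type*} (s : Finset ι) (Φ : ι → Gen P → Prop)
    [∀ m, Clopen (Φ m)] : Clopen fun U => ∃ m ∈ s, Φ m U :=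
  Clopen.congr (Φ := fun U => ¬ ∀ m ∈ s, ¬ Φ m U) fun U => by simp

instance clopen_forall_lt (n : ℕ) (Φ : ℕ → Gen P → Prop) [∀ m, Clopen (Φ m)] :
    Clopen fun U => ∀ m < n, Φ m U :=
  Clopen.congr (Φ := fun U => ∀ m ∈ Finset.range n, Φ m U) fun U => by simp

variable (C : Ctx (Name P))

instance clopen_app2 (f a b c : Name P) :
    Clopen fun U : Gen P => App2 Mod.mem (f.val U) (a.val U) (b.val U) (c.val U) := by
  unfold App2; infer_instance

instance clopen_radd (a b c : Name P) :
    Clopen fun U : Gen P => RAdd Mod.mem (C.val U) (a.val U) (b.val U) (c.val U) := by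
  unfold RAdd; infer_instance

instance clopen_rmul (a b c : Name P) :
    Clopen fun U : Gen P => RMul Mod.mem (C.val U) (a.val U) (b.val U) (c.val U) := by
  unfold RMul; infer_instance

instance clopen_rle (a b : Name P) :
    Clopen fun U : Gen P => RLe Mod.mem (C.val U) (a.val U) (b.val U) := by
  unfold RLe; infer_instance

instance clopen_rlt (a b : Name P) :
    Clopen fun U : Gen P => RLt Mod.mem (C.val U) (a.val U) (b.val U) := by
  unfold RLt; infer_instance

instance clopen_isSup (Φ : ∀ U : Gen P, Mod U → Prop)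
    [∀ a : Name P, Clopen fun U => Φ U (a.val U)] (a : Name P) :
    Clopen fun U : Gen P => IsSup Mod.mem (C.val U) (Φ U) (a.val U) := by
  unfold IsSup; infer_instance

instance clopen_isInf (Φ : ∀ U : Gen P, Mod U → Prop)
    [∀ a : Name P, Clopen fun U => Φ U (a.val U)] (a : Name P) :
    Clopen fun U : Gen P => IsInf Mod.mem (C.val U) (Φ U) (a.val U) := by
  unfold IsInf; infer_instance

instance clopen_isFin (a : Name P) :
    Clopen fun U : Gen P => IsFin Mod.mem (C.val U) (a.val U) := by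
  unfold IsFin; infer_instance

instance clopen_coversSet (a b : Name P) :
    Clopen fun U : Gen P => CoversSet Mod.mem (a.val U) (b.val U) := by
  unfold CoversSet; infer_instance

instance clopen_isCpt (a : Name P) :
    Clopen fun U : Gen P => IsCpt Mod.mem (C.val U) (a.val U) := by
  unfold IsCpt; infer_instance

instance clopen_isSeqUnion (a b : Name P) :
    Clopen fun U : Gen P => IsSeqUnion Mod.mem (a.val U) (b.val U) := by
  unfold IsSeqUnion; infer_instance

instance clopen_isSigma (a : Name P) :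
    Clopen fun U : Gen P => IsSigma Mod.mem (C.val U) (a.val U) := by
  unfold IsSigma; infer_instance

instance clopen_pSums (Φ : ∀ U : Gen P, Mod U → Mod U → Prop)
    [∀ a b : Name P, Clopen fun U => Φ U (a.val U) (b.val U)] (a b : Name P) :
    Clopen fun U : Gen P => PSums Mod.mem (C.val U) (Φ U) (a.val U) (b.val U) := by
  unfold PSums; infer_instance

instance clopen_isProb (a : Name P) :
    Clopen fun U : Gen P => IsProb Mod.mem (C.val U) (a.val U) := by
  unfold IsProb; infer_instance

instance clopen_isRegProb (a : Name P) :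
    Clopen fun U : Gen P => IsRegProb Mod.mem (C.val U) (a.val U) := by
  unfold IsRegProb; infer_instance

instance clopen_isCont (a : Name P) :
    Clopen fun U : Gen P => IsCont Mod.mem (C.val U) (a.val U) := by
  unfold IsCont; infer_instance

instance clopen_lowerSum (a b c : Name P) :
    Clopen fun U : Gen P => LowerSum Mod.mem (C.val U) (a.val U) (b.val U) (c.val U) := by
  unfold LowerSum; infer_instance

instance clopen_isIntegral (a b c : Name P) :
    Clopen fun U : Gen P => IsIntegral Mod.mem (C.val U) (a.val U) (b.val U) (c.val U) := by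
  unfold IsIntegral; infer_instance

instance clopen_near (a b c : Name P) :
    Clopen fun U : Gen P => Near Mod.mem (C.val U) (a.val U) (b.val U) (c.val U) := by
  unfold Near; infer_instance

instance clopen_inClosure (a b : Name P) :
    Clopen fun U : Gen P => InClosure Mod.mem (C.val U) (a.val U) (b.val U) := by
  unfold InClosure; infer_instance

instance clopen_metrLike (a : Name P) :
    Clopen fun U : Gen P => MetrLike Mod.mem (C.val U) (a.val U) := by
  unfold MetrLike; infer_instance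

theorem by_forcing {Φ Ψ : Gen P → Prop} [Clopen Φ] [Clopen Ψ]
    (h : ∀ p, Forces p Φ → ∃ q ≤ p, Forces q Ψ) : ∀ U, Φ U → Ψ U :=
  of_forces_all (Φ := fun U => Φ U → Ψ U) fun p => ⟨p, le_rfl, forces_imp fun q _ => h q⟩

theorem by_forcing2 {Φ Φ' Ψ : Gen P → Prop} [Clopen Φ] [Clopen Φ'] [Clopen Ψ]
    (h : ∀ p, Forces p Φ → Forces p Φ' → ∃ q ≤ p, Forces q Ψ) : ∀ U, Φ U → Φ' U → Ψ U :=
  fun U h1 h2 => by_forcing (Φ := fun U => Φ U ∧ Φ' U)
    (fun p hp => h p (hp.imp fun _ h => h.1) (hp.imp fun _ h => h.2)) U ⟨h1, h2⟩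

theorem by_forcing3 {Φ Φ' Φ'' Ψ : Gen P → Prop} [Clopen Φ] [Clopen Φ'] [Clopen Φ''] [Clopen Ψ]
    (h : ∀ p, Forces p Φ → Forces p Φ' → Forces p Φ'' → ∃ q ≤ p, Forces q Ψ) :
    ∀ U, Φ U → Φ' U → Φ'' U → Ψ U :=
  fun U h1 h2 h3 => by_forcing2 (Φ := fun U => Φ U ∧ Φ' U)
    (fun p hp => h p (hp.imp fun _ h => h.1) (hp.imp fun _ h => h.2)) U ⟨h1, h2⟩ h3

theorem exists_decide (Φ : Gen P → Prop) [Clopen Φ] (p : P) :
    ∃ q ≤ p, Forces q Φ ∨ Forces q fun U => ¬ Φ U := by
  by_cases h : Forces p Φ
  · exact ⟨p, le_rfl, Or.inl h⟩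
  · obtain ⟨q, hq, h1⟩ := exists_forces_not h
    exact ⟨q, hq, Or.inr h1⟩

theorem forces_const {p : P} {A : Prop} (h : Forces p fun _ => A) : A := by
  obtain ⟨_, h⟩ := h.exists
  exact h

variable (P) in
/-- countably closed -/
def SigmaClosed : Prop := ∀ p : ℕ → P, (∀ n, p (n + 1) ≤ p n) → ∃ q, ∀ i, q ≤ p i

theorem SigmaClosed.exists_forall (hσ : SigmaClosed P) {ι : Type*} [Countable ι] (p : P)
    (R : ι → P → Prop) (hR : ∀ n q r, r ≤ q → R n q → R n r) (h : ∀ n, ∀ q ≤ p, ∃ r ≤ q, R n r) :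
    ∃ q ≤ p, ∀ n, R n q := by
  cases isEmpty_or_nonempty ι with
  | inl _ => exact ⟨p, le_rfl, fun n => isEmptyElim n⟩
  | inr _ =>
    obtain ⟨f, hf⟩ := exists_surjective_nat ι
    obtain ⟨q, hq, h1⟩ := exists_le_forall hσ p (fun n => R (f n)) (fun n => hR (f n))
      fun n => h (f n)
    exact ⟨q, hq, fun n => by obtain ⟨m, rfl⟩ := hf n; exact h1 m⟩

end Pool.Agent.P.MP_5a7e2f_gt
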