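import Pool.Agent.P.MP_5a7e2f_gt.Seq

set_option autoImplicit false
set_option synthInstance.maxSize 100000
set_option linter.unusedSectionVars false

open Pool.Agent.Lib.PosetForcing

namespace Pool.Agent.P.MP_5a7e2f_gt

variable {P : Type} [Preorder P] [OrderTop P] {C : Ctx (Name P)} [hC : Std C]

theorem dec_app {p : P} {g a x : Name P}
    (h1 : Forces p fun U => IsFun Mod.mem (g.val U) (a.val U) (C.val U).R)
    (h2 : Forces p fun U => Mod.mem (x.val U) (a.val U)) :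
    ∃ q ≤ p, ∃ r : ℝ, Forces q fun U => App Mod.mem (g.val U) (x.val U) ((elt r).val U) := by
  obtain ⟨y, hy⟩ := Forces.exists_name (Φ := fun U y => App Mod.mem (g.val U) (x.val U) y)
    ((h1.and h2).imp fun U h => h.1.2.1 _ h.2)
  obtain ⟨q, hq, r, hr⟩ := dec_real (C := C)
    ((h1.and hy).imp fun U h => ((isZFC U).app_val h.1 h.2).2)
  exact ⟨q, hq, r, ((hy.mono hq).and hr).imp fun U h => h.2 ▸ h.1⟩

theorem dec_many (hσ : SigmaClosed P) {ι : Type} [Countable ι] {p : P} {g a x : ι → Name P}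
    {s : Set ι}
    (h1 : ∀ i ∈ s, Forces p fun U => IsFun Mod.mem ((g i).val U) ((a i).val U) (C.val U).R)
    (h2 : ∀ i ∈ s, Forces p fun U => Mod.mem ((x i).val U) ((a i).val U)) :
    ∃ q ≤ p, ∃ r : ι → ℝ, ∀ i ∈ s,
      Forces q fun U => App Mod.mem ((g i).val U) ((x i).val U) ((elt (r i)).val U) := by
  obtain ⟨q, hq, h⟩ := hσ.exists_forall p (fun i q => ∃ r : ℝ, i ∈ s →
    Forces q fun U => App Mod.mem ((g i).val U) ((x i).val U) ((elt r).val U))
    (fun i q r h ⟨a, ha⟩ => ⟨a, fun hi => (ha hi).mono h⟩) fun i q hq => by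
      by_cases hi : i ∈ s
      · obtain ⟨r, hr, a, ha⟩ := dec_app (C := C) ((h1 i hi).mono hq) ((h2 i hi).mono hq)
        exact ⟨r, hr, a, fun _ => ha⟩
      · exact ⟨q, le_rfl, 0, fun h => absurd h hi⟩
  choose r hr using h
  exact ⟨q, hq, r, hr⟩

theorem exists_app_name (g : Name P) : ∃ y : ℕ → Name P, ∀ i U,
    (∃ z, App Mod.mem (g.val U) ((natName i : Name P).val U) z) →
      App Mod.mem (g.val U) ((natName i : Name P).val U) ((y i).val U) := by
  choose y hy using fun i : ℕ =>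
    max_principle (P := P) fun U z => App Mod.mem (g.val U) ((natName i : Name P).val U) z
  exact ⟨y, hy⟩

theorem forces_lower_le (hσc : SigmaClosed P)
    (hb : ∀ U, IsSigma Mod.mem (C.val U) (C.val U).bor) {p : P} {σ f : Name P} {n : ℕ}
    {D : ℕ → Name P} {v d : ℕ → ℝ}
    (hσ : Forces p fun U => IsProb Mod.mem (C.val U) (σ.val U))
    (hf : Forces p fun U => IsFun Mod.mem (f.val U) (C.val U).S (C.val U).R)
    (hD : Forces p fun U => ∀ z, Mod.mem z (C.val U).S → ∃! i, i < n ∧ Mod.mem z ((D i).val U))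
    (hd : ∀ i < n, Forces p fun U => App Mod.mem (σ.val U) ((D i).val U) ((elt (d i)).val U))
    (hv : ∀ i < n, Forces p fun U => ∀ z y, Mod.mem z ((D i).val U) → App Mod.mem (f.val U) z y →
      RLe Mod.mem (C.val U) y ((elt (v i)).val U)) :
    Forces p fun U => ∀ x, LowerSum Mod.mem (C.val U) (σ.val U) (f.val U) x →
      RLe Mod.mem (C.val U) x ((elt (∑ i ∈ Finset.range n, v i * d i)).val U) := by
  refine forces_forall fun x => forces_imp fun p1 hp1 h => ?_
  unfold LowerSum at h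
  obtain ⟨n', h⟩ := h.exists_name
  obtain ⟨B, h⟩ := h.exists_name
  obtain ⟨q, h⟩ := h.exists_name
  obtain ⟨s, h⟩ := h.exists_name
  obtain ⟨p2, hp2, N, hN⟩ := dec_nat (C := C) (h.imp fun _ h => h.1)
  replace h := h.mono hp2
  have hm : ∀ j < N, Forces p2 fun U => Mod.mem ((natName j : Name P).val U) (n'.val U) :=
    fun j hj => hN.imp fun U h => h ▸ natName_mem hj U
  obtain ⟨B', hB'⟩ := exists_app_name B
  have h1 : ∀ j < N, Forces p2 fun U =>
      App Mod.mem (B.val U) ((natName j : Name P).val U) ((B' j).val U) :=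
    fun j hj => (h.and (hm j hj)).imp fun U h => hB' j U (h.1.2.1.2.1 _ h.2)
  have h2 : ∀ j < N, Forces p2 fun U => Mod.mem ((B' j).val U) (C.bor.val U) :=
    fun j hj => (h.and (h1 j hj)).imp fun U h => ((isZFC U).app_val h.1.2.1 h.2).2
  choose X hX using fun j i : ℕ => max_principle (P := P) fun U X => Mod.mem X (C.bor.val U) ∧
    ∀ z, Mod.mem z X ↔ Mod.mem z ((B' j).val U) ∧ Mod.mem z ((D i).val U)
  have h3 : ∀ j < N, ∀ i < n, Forces p2 fun U => Mod.mem ((X j i).val U) (C.bor.val U) ∧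
      ∀ z, Mod.mem z ((X j i).val U) ↔ Mod.mem z ((B' j).val U) ∧ Mod.mem z ((D i).val U) :=
    fun j hj i hi U hU => hX j i U (sigma_inter (hb U) (h2 j hj U hU) ((isZFC U).app_val
      (hσ.mono (hp2.trans hp1) U hU).1 ((hd i hi).mono (hp2.trans hp1) U hU)).1)
  have hσ' : Forces p2 fun U => IsFun Mod.mem (σ.val U) (C.bor.val U) (C.val U).R :=
    (hσ.mono (hp2.trans hp1)).imp fun _ h => h.1
  obtain ⟨p3, hp3, a, ha⟩ := dec_many (C := C) hσc (g := fun _ => q) (a := fun _ => n')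
    (x := fun j => natName j) (s := {j | j < N}) (fun _ _ => h.imp fun _ h => h.2.2.1) hm
  obtain ⟨p4, hp4, m, hm'⟩ := dec_many (C := C) hσc (g := fun _ => σ) (a := fun _ => C.bor)
    (x := B') (s := {j | j < N}) (fun _ _ => hσ'.mono hp3) fun j hj => (h2 j hj).mono hp3
  obtain ⟨p5, hp5, t, ht⟩ := dec_many (C := C) hσc (g := fun _ => σ) (a := fun _ => C.bor)
    (x := fun z : ℕ × ℕ => X z.1 z.2) (s := {z | z.1 < N ∧ z.2 < n})
    (fun _ _ => hσ'.mono (hp4.trans hp3))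
    fun z hz => ((h3 _ hz.1 _ hz.2).imp fun _ h => h.1).mono (hp4.trans hp3)
  have e2 : p5 ≤ p2 := hp5.trans (hp4.trans hp3)
  have e0 : p5 ≤ p := e2.trans (hp2.trans hp1)
  refine ⟨p5, e2.trans hp2, fun U hU => ?_⟩
  obtain ⟨-, g1, g2, g3, g4, g5, g6⟩ := h.mono e2 U hU
  have g0 : n'.val U = (natName N).val U := hN.mono e2 U hU
  have k1 := fun j hj => (h1 j hj).mono e2 U hU
  have k2 := fun j hj => (ha j hj).mono (hp5.trans hp4) U hU
  have k3 := fun j hj => (hm' j hj).mono hp5 U hU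
  have k4 := psums_eval g5 (fun j => a j * m j) N fun j hj =>
    ⟨(hm j hj).mono e2 U hU, _, _, _, k1 j hj, k2 j hj, k3 j hj, rmul_iff.2 rfl⟩
  rw [g0] at g6 g1
  rw [g5.1.2.2 _ _ _ g6 k4, rle_iff]
  refine lower_le (hb U) (hσ.mono e0 U hU) (B := fun j => (B' j).val U) (D := fun i => (D i).val U)
    (X := fun j i => (X j i).val U) (x := fun j i => t (j, i)) (fun z hz => ?_) (hD.mono e0 U hU)
    k3 (fun i hi => (hd i hi).mono e0 U hU) (fun j hj i hi => ((h3 j hj i hi).mono e2 U hU).2)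
    (fun j hj i hi => ht (j, i) ⟨hj, hi⟩ U hU) fun j hj i hi z z1 z2 => ?_
  · obtain ⟨i, ⟨A, i1, i2⟩, hu⟩ := g3 z hz
    obtain ⟨j, hj, rfl⟩ := (mem_natName U i).1 ((isZFC U).app_val g1 i1).1
    rw [g1.2.2 _ _ _ i1 (k1 j hj)] at i2
    exact ⟨j, ⟨hj, i2⟩, fun k hk => natName_inj (hu _ ⟨_, k1 k hk.1, hk.2⟩)⟩
  · obtain ⟨y, hy⟩ := (hf.mono e0 U hU).2.1 z ((hb U).1 _ ((h2 j hj).mono e2 U hU) z z1)
    exact rle_iff.1 (rle_trans U _ _ _ (g4 _ _ _ _ _ (k1 j hj) (k2 j hj) z1 hy)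
      ((hv i hi).mono e0 U hU z y z2 hy))

theorem forces_integral_near (hσc : SigmaClosed P)
    (hb : ∀ U, IsSigma Mod.mem (C.val U) (C.val U).bor) {p : P} {σ f : Name P} {n : ℕ}
    {D : ℕ → Name P} {v d : ℕ → ℝ} {ε r : ℝ}
    (hσ : Forces p fun U => IsProb Mod.mem (C.val U) (σ.val U))
    (hf : Forces p fun U => IsFun Mod.mem (f.val U) (C.val U).S (C.val U).R)
    (hD : Forces p fun U => ∀ z, Mod.mem z (C.val U).S → ∃! i, i < n ∧ Mod.mem z ((D i).val U))
    (hd : ∀ i < n, Forces p fun U => App Mod.mem (σ.val U) ((D i).val U) ((elt (d i)).val U))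
    (hv : ∀ i < n, Forces p fun U => ∀ z y, Mod.mem z ((D i).val U) → App Mod.mem (f.val U) z y →
      RLe Mod.mem (C.val U) ((elt (v i)).val U) y ∧ RLe Mod.mem (C.val U) y ((elt (v i + ε)).val U))
    (hr : Forces p fun U => IsIntegral Mod.mem (C.val U) (σ.val U) (f.val U) ((elt r).val U)) :
    ∑ i ∈ Finset.range n, v i * d i ≤ r ∧ r ≤ ∑ i ∈ Finset.range n, v i * d i + ε := by
  have h1 := forces_lower_le hσc hb hσ hf hD hd (v := fun i => v i + ε)
    fun i hi => (hv i hi).imp fun U h z y h1 h2 => (h z y h1 h2).2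
  refine forces_const (p := p) fun U hU => ⟨rle_iff.1 ((hr U hU).2.1 _ (lowerSum_of_partition
    (hσ U hU) (hD U hU) (fun i hi => hd i hi U hU)
      fun i hi z y h1 h2 => (hv i hi U hU z y h1 h2).1)), ?_⟩
  have h2 := rle_iff.1 ((hr U hU).2.2 _ (elt_mem_R _ U) (h1 U hU))
  have h3 : ∑ i ∈ Finset.range n, d i = 1 := by
    refine prob_val_eq (hσ U hU) (prob_sum (hb U) (hσ U hU) (fun i => (D i).val U) d n
      (fun i hi => hd i hi U hU) (fun i hi j hj z h1 h2 => (hD U hU z ((hb U).1 _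
        ((isZFC U).app_val (hσ U hU).1 (hd i hi U hU)).1 z h1)).unique ⟨hi, h1⟩ ⟨hj, h2⟩)
      (X := (C.val U).S) fun z => ⟨fun hz => (hD U hU z hz).exists, fun ⟨i, hi, hz⟩ =>
        (hb U).1 _ ((isZFC U).app_val (hσ U hU).1 (hd i hi U hU)).1 z hz⟩) ?_
    rw [← one_eq (C := C)]
    exact (hσ U hU).2.2.1
  simp only [add_mul, Finset.sum_add_distrib, ← Finset.mul_sum, h3, mul_one] at h2
  exact h2

theorem forces_integral_eq (hσc : SigmaClosed P)
    (hb : ∀ U, IsSigma Mod.mem (C.val U) (C.val U).bor) {p : P} {σ f : Name P} {n : ℕ}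
    {D : ℕ → Name P} {v d : ℕ → ℝ}
    (hσ : Forces p fun U => IsProb Mod.mem (C.val U) (σ.val U))
    (hf : Forces p fun U => IsFun Mod.mem (f.val U) (C.val U).S (C.val U).R)
    (hD : Forces p fun U => ∀ z, Mod.mem z (C.val U).S → ∃! i, i < n ∧ Mod.mem z ((D i).val U))
    (hd : ∀ i < n, Forces p fun U => App Mod.mem (σ.val U) ((D i).val U) ((elt (d i)).val U))
    (hv : ∀ i < n, Forces p fun U => ∀ z y, Mod.mem z ((D i).val U) → App Mod.mem (f.val U) z y →
      y = (elt (v i)).val U) :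
    Forces p fun U => IsIntegral Mod.mem (C.val U) (σ.val U) (f.val U)
      ((elt (∑ i ∈ Finset.range n, v i * d i)).val U) := by
  have h1 := forces_lower_le hσc hb hσ hf hD hd (v := v)
    fun i hi => (hv i hi).imp fun U h z y h1 h2 => by rw [h z y h1 h2, rle_iff]
  exact fun U hU => ⟨elt_mem_R _ U, h1 U hU, fun y _ h => h _ (lowerSum_of_partition
    (hσ U hU) (hD U hU) (fun i hi => hd i hi U hU)
      fun i hi z y h1 h2 => by rw [hv i hi U hU z y h1 h2, rle_iff])⟩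

theorem near_iff {a b ε : ℝ} {U : Gen P} :
    Near Mod.mem (C.val U) ((elt a).val U) ((elt b).val U) ((elt ε).val U) ↔ |a - b| < ε := by
  simp only [Near, radd_iff, exists_and_left, exists_eq_left, rlt_iff, abs_lt]
  constructor <;> rintro ⟨h1, h2⟩ <;> constructor <;> linarith

end Pool.Agent.P.MP_5a7e2f_gt
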