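import Pool.Agent.P.MP_5a7e2f_gt.Rel

set_option autoImplicit false
set_option synthInstance.maxSize 100000

open Set Filter MeasureTheory Pool.Agent.Lib.PosetForcing
open scoped ENNReal Topology

namespace Pool.Agent.P.MP_5a7e2f_gt

variable {p q : PP} {B B' : Name PP} {E E' : Set TT}

theorem Rel.sub (h : Rel p B E) : Forces p fun U => IsSub Mod.mem (B.val U) (CC.val U).S := by
  obtain ⟨V, V1, h1, -⟩ := h.2 1 one_pos
  exact h1.imp fun U h x hx => (mem_top.1 h.1).1 x (h.2.2.1 x hx)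

theorem rel_union {X : Name PP} (h : Rel p B E) (h' : Rel p B' E')
    (e : Forces p fun U => ∀ x, Mod.mem x (X.val U) ↔ Mod.mem x (B.val U) ∨ Mod.mem x (B'.val U)) :
    Rel p X (E ∪ E') := by
  have : E ∪ E' = ⋃ n : ℕ, if n = 0 then E else E' := by
    ext t
    simp only [mem_union, mem_iUnion]
    exact ⟨fun h => h.elim (fun h => ⟨0, h⟩) fun h => ⟨1, h⟩,
      fun ⟨n, h⟩ => by split_ifs at h <;> tauto⟩
  rw [this]
  refine rel_iUnion (B := fun n => if n = 0 then B else B') (fun n => by split_ifs <;> assumption)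
    (fun n => e.imp fun U h x hx => (h x).2 (by split_ifs at hx <;> tauto)) fun q hq x hx => ?_
  obtain ⟨r, hr, k | k⟩ := exists_decide (fun U => Mod.mem (x.val U) (B.val U)) q
  · exact ⟨r, hr, 0, k⟩
  · exact ⟨r, hr, 1, fun U hU =>
      ((e.mono (hr.trans hq) U hU _).1 (hx.mono hr U hU)).resolve_left (k U hU)⟩

theorem seq_rel {f X A : Name PP}
    (hA : ∀ q ≤ p, ∀ b : Name PP, (Forces q fun U => Mod.mem (b.val U) (A.val U)) →
      ∃ r ≤ q, ∃ E, Rel r b E)
    (h1 : Forces p fun U => IsFun Mod.mem (f.val U) (CC.val U).w (A.val U))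
    (h2 : Forces p fun U => IsSeqUnion Mod.mem (X.val U) (f.val U)) :
    ∃ q ≤ p, ∃ (B : ℕ → Name PP) (E : ℕ → Set TT), (∀ n, Rel q (B n) (E n) ∧ Forces q fun U =>
      App Mod.mem (f.val U) ((natName n : Name PP).val U) ((B n).val U)) ∧ Rel q X (⋃ n, E n) := by
  obtain ⟨B, hB⟩ := exists_app_name f
  have h3 : ∀ n, Forces p fun U =>
      App Mod.mem (f.val U) ((natName n : Name PP).val U) ((B n).val U) :=
    fun n => h1.imp fun U h => hB n U (h.2.1 _ (nat_mem_w n U))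
  obtain ⟨q, hq, h4⟩ := sigmaClosed.exists_forall p (fun (n : ℕ) q => ∃ E, Rel q (B n) E)
    (fun n q r hr ⟨E, h⟩ => ⟨E, h.mono hr⟩) fun n q hq => hA q hq _
      (((h1.and (h3 n)).mono hq).imp fun U h => ((isZFC U).app_val h.1 h.2).2)
  choose E hE using h4
  refine ⟨q, hq, B, E, fun n => ⟨hE n, (h3 n).mono hq⟩, rel_iUnion hE (fun n U hU x hx =>
    (h2.mono hq U hU x).2 ⟨_, _, (h3 n).mono hq U hU, hx⟩) fun r hr x hx => ?_⟩
  obtain ⟨n, hn⟩ := Forces.exists_name (p := r) (Φ := fun U n => ∃ b, App Mod.mem (f.val U) n b ∧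
    Mod.mem (x.val U) b) fun U hU => (h2.mono (hr.trans hq) U hU _).1 (hx U hU)
  obtain ⟨t, ht, m, hm⟩ := dec_nat (C := CC) (p := r) (a := n) fun U hU => by
    obtain ⟨b, h5, -⟩ := hn U hU
    exact ((isZFC U).app_val (h1.mono (hr.trans hq) U hU) h5).1
  refine ⟨t, ht, m, fun U hU => ?_⟩
  obtain ⟨b, h5, h6⟩ := hn.mono ht U hU
  rw [hm U hU] at h5
  exact (h1.mono (ht.trans (hr.trans hq)) U hU).2.2 _ _ _ h5
    ((h3 m).mono (ht.trans (hr.trans hq)) U hU) ▸ h6

/-- name of the class of representable sets -/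
noncomputable def repN : Name PP :=
  .mk {z : (powName (NN univ)).idx × PP // ∃ E, Rel z.2 ((powName (NN univ)).el z.1) E}
    (fun z => (powName (NN univ)).el z.1.1) fun z => z.1.2

theorem Rel.mem_rep (h : Rel p B E) : Forces p fun U => Mod.mem (B.val U) (repN.val U) := by
  refine Forces.of_dn fun q hq => ?_
  obtain ⟨r, hr, i, -, hi⟩ := Forces.exists_el (p := q) (a := B) (b := powName (NN univ))
    fun U hU => (mem_powName _ U _).2 (h.sub.mono hq U hU)
  exact ⟨r, hr, (hi.and (forces_el_mem (b := repN) ⟨(i, r), E, (h.mono (hr.trans hq)).congr hi⟩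
    le_rfl)).imp fun U h => h.1 ▸ h.2⟩

theorem rel_of_mem_rep (h : Forces p fun U => Mod.mem (B.val U) (repN.val U)) :
    ∃ q ≤ p, ∃ E, Rel q B E := by
  obtain ⟨q, hq, ⟨⟨i, r⟩, E, h1⟩, h2, h3⟩ := h.exists_el
  exact ⟨q, hq, E, (h1.mono h2).congr (h3.imp fun _ h => h.symm)⟩

theorem isSigma_rep (U : Gen PP) : IsSigma Mod.mem (CC.val U) (repN.val U) := by
  refine ⟨fun B => ?_, ?_, fun B X => ?_, fun f X => ?_⟩
  · obtain ⟨B, rfl⟩ := B.exists_name
    revert U
    refine by_forcing fun p h => ?_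
    obtain ⟨q, hq, E, h1⟩ := rel_of_mem_rep h
    exact ⟨q, hq, h1.sub⟩
  · revert U
    exact of_forces_all fun p =>
      ⟨p, le_rfl, (rel_NN isClopen_univ fun _ _ _ _ _ => trivial).mem_rep⟩
  · obtain ⟨B, rfl⟩ := B.exists_name
    obtain ⟨X, rfl⟩ := X.exists_name
    revert U
    refine by_forcing2 fun p h h' => ?_
    obtain ⟨q, hq, E, h1⟩ := rel_of_mem_rep h
    exact ⟨q, hq, (h1.compl (h'.mono hq)).mem_rep⟩
  · obtain ⟨f, rfl⟩ := f.exists_name
    obtain ⟨X, rfl⟩ := X.exists_name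
    revert U
    refine by_forcing2 fun p h h' => ?_
    obtain ⟨q, hq, B, E, -, h1⟩ := seq_rel (fun q _ b => rel_of_mem_rep) h h'
    exact ⟨q, hq, h1.mem_rep⟩

theorem bor_rel (h : Forces p fun U => Mod.mem (B.val U) (CC.val U).bor) :
    ∃ q ≤ p, ∃ E, Rel q B E := by
  refine rel_of_mem_rep (h.imp fun U h => (isBorel U).2.2 _ (isSigma_rep U) (fun V => ?_) _ h)
  obtain ⟨V, rfl⟩ := V.exists_name
  clear h
  revert U
  refine by_forcing fun p h => ?_
  obtain ⟨q, hq, E, h1, -⟩ := rel_open h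
  exact ⟨q, hq, h1.mem_rep⟩

/-- name of the measure -/
noncomputable def muN : Name PP :=
  graphName (ι := {z : borN.idx × PP × ℝ // z.2.1 ≤ borN.cond z.1 ∧
      ∃ E, Rel z.2.1 (borN.el z.1) E ∧ z.2.2 = lam.real E})
    (fun z => borN.el z.1.1) (fun z => elt z.1.2.2) fun z => z.1.2.1

theorem mu_val (h : Forces p fun U => Mod.mem (B.val U) (CC.val U).bor) (h' : Rel p B E) :
    Forces p fun U => App Mod.mem (muN.val U) (B.val U) ((elt (lam.real E)).val U) := by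
  refine Forces.of_dn fun q hq => ?_
  obtain ⟨r, hr, i, h1, hi⟩ := Forces.exists_el (b := borN) (h.mono hq)
  exact ⟨r, hr, (hi.and (forces_app_graph (ι := {z : borN.idx × PP × ℝ // z.2.1 ≤ borN.cond z.1 ∧
      ∃ E, Rel z.2.1 (borN.el z.1) E ∧ z.2.2 = lam.real E})
      ⟨(i, r, lam.real E), h1, E, (h'.mono (hr.trans hq)).congr hi, rfl⟩ le_rfl)).imp
    fun U h => h.1 ▸ h.2⟩

theorem mu_fun (U : Gen PP) : IsFun Mod.mem (muN.val U) (CC.val U).bor (CC.val U).R := by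
  revert U
  refine of_forces_all fun p => ⟨p, le_rfl, forces_isFunOn_graph (a := borN)
    (V := fun U y => Mod.mem y (CC.val U).R) (fun i q _ hi => ⟨q, le_rfl,
      (forces_el_mem i.1.1 (hi.trans i.2.1)).and (Forces.of_forall (elt_mem_R _) q)⟩)
    (fun j q _ hj => ?_) fun i j q _ hi hj h => ⟨q, le_rfl, Forces.of_forall (fun U => ?_) q⟩⟩
  · obtain ⟨r, hr, E, h⟩ := bor_rel (forces_el_mem (b := borN) j hj)
    exact ⟨r, hr, ⟨(j, r, lam.real E), hr.trans hj, E, h, rfl⟩, le_rfl,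
      Forces.of_forall (fun _ => rfl) r⟩
  · obtain ⟨E, h1, h2⟩ := i.2.2
    obtain ⟨E', h3, h4⟩ := j.2.2
    rw [h2, h4, Measure.real, Measure.real, ((h1.mono hi).congr h).lam_eq (h3.mono hj)]

theorem mu_dec {a : Name PP} (h : Forces p fun U => App Mod.mem (muN.val U) (B.val U) (a.val U)) :
    ∃ q ≤ p, ∃ E, Rel q B E ∧ Forces q fun U => a.val U = (elt (lam.real E)).val U := by
  have h1 : Forces p fun U => Mod.mem (B.val U) (CC.val U).bor :=
    h.imp fun U h => ((isZFC U).app_val (mu_fun U) h).1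
  obtain ⟨q, hq, E, h2⟩ := bor_rel h1
  exact ⟨q, hq, E, h2, ((h.mono hq).and (mu_val (h1.mono hq) h2)).imp
    fun U h => (mu_fun U).2.2 _ _ _ h.1 h.2⟩

theorem mu_add (U : Gen PP) (A B X a b c : Mod U) (h1 : App Mod.mem (muN.val U) A a)
    (h2 : App Mod.mem (muN.val U) B b) (h3 : ∀ x, Mod.mem x A → ¬ Mod.mem x B)
    (h4 : ∀ x, Mod.mem x X ↔ Mod.mem x A ∨ Mod.mem x B) (h5 : RAdd Mod.mem (CC.val U) a b c) :
    App Mod.mem (muN.val U) X c := by
  have h6 : Mod.mem X (CC.val U).bor := by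
    obtain ⟨Y, y1, y2⟩ := sigma_union (isBorel U).1 ((isZFC U).app_val (mu_fun U) h1).1
      ((isZFC U).app_val (mu_fun U) h2).1
    rwa [Mod.ext X Y fun x => (h4 x).trans (y2 x).symm]
  have h := And.intro (And.intro h1 h2) (And.intro (And.intro h3 h4) (And.intro h5 h6))
  clear h1 h2 h3 h4 h5 h6
  obtain ⟨A, rfl⟩ := A.exists_name
  obtain ⟨B, rfl⟩ := B.exists_name
  obtain ⟨X, rfl⟩ := X.exists_name
  obtain ⟨a, rfl⟩ := a.exists_name
  obtain ⟨b, rfl⟩ := b.exists_name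
  obtain ⟨c, rfl⟩ := c.exists_name
  revert U
  refine by_forcing fun p h => ?_
  obtain ⟨q, hq, E, e1, e2⟩ := mu_dec (h.imp fun _ h => h.1.1)
  obtain ⟨r, hr, E', e3, e4⟩ := mu_dec ((h.mono hq).imp fun _ h => h.1.2)
  replace h := h.mono (hr.trans hq)
  have k := mu_val (h.imp fun _ h => h.2.2.2) (rel_union (e1.mono hr) e3 (h.imp fun _ h => h.2.1.2))
  rw [measureReal_union₀ e3.1.nullMeasurableSet
    ((e1.mono hr).null_inter e3 (h.imp fun _ h => h.2.1.1))] at k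
  refine ⟨r, hr.trans hq, fun U hU => ?_⟩
  have k2 := (h U hU).2.2.1
  rw [e2.mono hr U hU, e4 U hU, radd_iff] at k2
  beta_reduce
  rw [k2]
  exact k U hU

theorem mu_sigma (U : Gen PP) (f X s r : Mod U)
    (h1 : IsFun Mod.mem f (CC.val U).w (CC.val U).bor)
    (h2 : ∀ i j A B x, App Mod.mem f i A → App Mod.mem f j B → Mod.mem x A → Mod.mem x B → i = j)
    (h3 : IsSeqUnion Mod.mem X f)
    (h4 : PSums Mod.mem (CC.val U)
      (fun i b => ∃ B, App Mod.mem f i B ∧ App Mod.mem (muN.val U) B b) s (CC.val U).w)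
    (h5 : App Mod.mem (muN.val U) X r) :
    IsSup Mod.mem (CC.val U) (fun x => ∃ n, App Mod.mem s n x) r := by
  have h := And.intro (And.intro h1 h2) (And.intro h3 (And.intro h4 h5))
  clear h1 h2 h3 h4 h5
  obtain ⟨f, rfl⟩ := f.exists_name
  obtain ⟨X, rfl⟩ := X.exists_name
  obtain ⟨s, rfl⟩ := s.exists_name
  obtain ⟨r, rfl⟩ := r.exists_name
  revert U
  refine by_forcing fun p h => ?_
  obtain ⟨q, hq, B, E, g1, g2⟩ := seq_rel (A := borN) (fun q _ b => bor_rel)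
    (h.imp fun _ h => h.1.1) (h.imp fun _ h => h.2.1)
  replace h := h.mono hq
  have k1 : ∀ n, Forces q fun U => App Mod.mem (s.val U) ((natName n : Name PP).val U)
      ((elt (∑ i ∈ Finset.range n, lam.real (E i))).val U) := fun n U hU =>
    psums_eval (h U hU).2.2.1 _ n fun i _ => ⟨nat_mem_w i U, _, (g1 i).2 U hU,
      mu_val ((h.and (g1 i).2).imp fun U h => ((isZFC U).app_val h.1.1.1 h.2).2) (g1 i).1 U hU⟩
  have k2 : HasSum (fun i => lam.real (E i)) (lam.real (⋃ i, E i)) := by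
    have e := measure_iUnion₀ (μ := lam) (f := E) (fun i j hij => (g1 i).1.null_inter (g1 j).1
      fun U hU x x1 x2 => hij (natName_inj ((h U hU).1.2 _ _ _ _ _ ((g1 i).2 U hU)
        ((g1 j).2 U hU) x1 x2))) fun i => (g1 i).1.1.nullMeasurableSet
    rw [Measure.real, e, ENNReal.tsum_toReal_eq fun i => measure_ne_top _ _]
    exact ENNReal.hasSum_toReal (e ▸ measure_ne_top _ _)
  have k3 := mu_val (h.imp fun U h => ((isZFC U).app_val (mu_fun U) h.2.2.2).1) g2
  refine ⟨q, hq, ((forces_isSup (C := CC) (Φ := fun U x => ∃ n, App Mod.mem (s.val U) n x)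
    (r := lam.real (⋃ i, E i)) (h.imp fun U h x ⟨n, hn⟩ => ((isZFC U).app_val h.2.2.1.1 hn).2)
    (fun t ht a ha => ?_) fun t ht b hb => ?_).and (h.and k3)).imp
      fun U h => (mu_fun U).2.2 _ _ _ h.2.2 h.2.1.2.2.2 ▸ h.1⟩
  · obtain ⟨n, hn⟩ := ha.exists_name
    obtain ⟨u, hu, m, hm⟩ := dec_nat (C := CC) (((h.mono ht).and hn).imp
      fun U h => ((isZFC U).app_val h.1.2.2.1.1 h.2).1)
    have : a = ∑ i ∈ Finset.range m, lam.real (E i) := forces_const (p := u) fun U hU =>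
      elt_inj ((h.mono (hu.trans ht) U hU).2.2.1.1.2.2 _ _ _ (hm U hU ▸ hn.mono hu U hU)
        ((k1 m).mono (hu.trans ht) U hU))
    exact this ▸ sum_le_hasSum _ (fun i _ => measureReal_nonneg) k2
  · obtain ⟨n, hn⟩ := (k2.tendsto_sum_nat.eventually (lt_mem_nhds hb)).exists
    exact ⟨t, le_rfl, _, hn, ((k1 n).mono ht).imp fun U h => ⟨_, h⟩⟩

theorem isProb_mu (U : Gen PP) : IsProb Mod.mem (CC.val U) (muN.val U) := by
  refine ⟨mu_fun U, fun B a => ?_, ?_, mu_add U, mu_sigma U⟩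
  · obtain ⟨B, rfl⟩ := B.exists_name
    obtain ⟨a, rfl⟩ := a.exists_name
    revert U
    refine by_forcing fun p h => ?_
    obtain ⟨q, hq, E, -, h1⟩ := mu_dec h
    exact ⟨q, hq, h1.imp fun U h => by rw [h, zero_eq, rle_iff]; exact measureReal_nonneg⟩
  · revert U
    refine of_forces_all fun p => ⟨p, le_rfl, ?_⟩
    have := mu_val (Forces.of_forall (NN_bor isClopen_univ) p)
      (rel_NN isClopen_univ fun _ _ _ _ _ => trivial)
    rw [show ell p.c univ = univ from rfl, probReal_univ] at this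
    exact this

theorem real_le_of_diff {E F : Set TT} {ε : ℝ} (hε : 0 ≤ ε) (h : lam (E \ F) ≤ ENNReal.ofReal ε) :
    lam.real E ≤ lam.real F + ε :=
  (measureReal_mono (show E ⊆ F ∪ E \ F by
    rw [union_sdiff_self]; exact subset_union_right)).trans ((measureReal_union_le _ _).trans
      (add_le_add le_rfl (ENNReal.toReal_le_of_le_ofReal hε h)))

theorem isRegProb_mu (U : Gen PP) : IsRegProb Mod.mem (CC.val U) (muN.val U) := by
  refine ⟨isProb_mu U, fun B r => ?_⟩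
  obtain ⟨B, rfl⟩ := B.exists_name
  obtain ⟨r, rfl⟩ := r.exists_name
  revert U
  refine by_forcing fun p h => ?_
  obtain ⟨q, hq, E, h1, h2⟩ := mu_dec h
  refine ⟨q, hq, (((forces_isSup (C := CC) (Φ := fun U x => ∃ K, IsCpt Mod.mem (CC.val U) K ∧
    IsSub Mod.mem K (B.val U) ∧ App Mod.mem (muN.val U) K x) (r := lam.real E)
    (fun U _ x ⟨K, hK⟩ => ((isZFC U).app_val (mu_fun U) hK.2.2).2) (fun t ht a ha => ?_)
    fun t ht b hb => ?_).and (forces_isInf (C := CC) (Φ := fun U x => ∃ V,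
      Mod.mem V (CC.val U).top ∧ IsSub Mod.mem (B.val U) V ∧ App Mod.mem (muN.val U) V x)
      (r := lam.real E) (fun U _ x ⟨K, hK⟩ => ((isZFC U).app_val (mu_fun U) hK.2.2).2)
      (fun t ht a ha => ?_) fun t ht b hb => ?_)).and h2).imp fun U h => h.2 ▸ h.1⟩
  · obtain ⟨K, hK⟩ := ha.exists_name
    obtain ⟨u, hu, F, k1, k2⟩ := mu_dec (hK.imp fun _ h => h.2.2)
    rw [k2.elt_inj]
    exact ENNReal.toReal_mono (measure_ne_top _ _)
      (k1.lam_le (h1.mono (hu.trans ht)) ((hK.mono hu).imp fun _ h => h.2.1))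
  · obtain ⟨V, V', k1, -, k2⟩ := h1.2 (ENNReal.ofReal ((lam.real E - b) / 2))
      (ENNReal.ofReal_pos.2 (by linarith))
    obtain ⟨u, hu, G, k3, k4⟩ := rel_open ((k1.mono ht).imp fun _ h => h.2.1)
    have e := mem_sepName (NN univ) fun U x => ¬ Mod.mem x (V'.val U)
    have k5 := real_le_of_diff (E := E) (F := Gᶜ) (ε := (lam.real E - b) / 2) (by linarith)
      (le_trans (measure_mono (show E \ Gᶜ ⊆ G \ Eᶜ from
        fun t ht => ⟨not_not.1 ht.2, not_not.2 ht.1⟩)) (k4 _ _ (k2.mono (hu.trans ht))))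
    replace k1 := k1.mono (hu.trans ht)
    refine ⟨u, hu, lam.real Gᶜ, by linarith, fun U hU => ⟨_, cpt_of_compl U _ _ (k1 U hU).2.1 (e U),
      fun x hx => ?_, mu_val (fun U hU => (isBorel U).1.2.2.1 _ _
        ((isBorel U).2.1 _ (k1 U hU).2.1) (e U)) (k3.compl (Forces.of_forall e u)) U hU⟩⟩
    by_contra h3
    exact ((e U x).1 hx).2 ((k1 U hU).2.2.2 x ((e U x).1 hx).1 h3)
  · obtain ⟨K, hK⟩ := ha.exists_name
    obtain ⟨u, hu, F, k1, k2⟩ := mu_dec (hK.imp fun _ h => h.2.2)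
    rw [k2.elt_inj]
    exact ENNReal.toReal_mono (measure_ne_top _ _)
      ((h1.mono (hu.trans ht)).lam_le k1 ((hK.mono hu).imp fun _ h => h.2.1))
  · obtain ⟨V, V', k1, k2, -⟩ := h1.2 (ENNReal.ofReal ((b - lam.real E) / 2))
      (ENNReal.ofReal_pos.2 (by linarith))
    obtain ⟨u, hu, G, k3, k4⟩ := rel_open ((k1.mono ht).imp fun _ h => h.1)
    have k5 := real_le_of_diff (ε := (b - lam.real E) / 2) (by linarith)
      (k4 _ _ (k2.mono (hu.trans ht)))
    replace k1 := k1.mono (hu.trans ht)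
    exact ⟨u, hu, lam.real G, by linarith, fun U hU => ⟨_, (k1 U hU).1, (k1 U hU).2.2.1,
      mu_val (fun U hU => (isBorel U).2.1 _ (k1 U hU).1) k3 U hU⟩⟩

end Pool.Agent.P.MP_5a7e2f_gt
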