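import Pool.Agent.P.MP_5a7e2f_gt.Tight
import Pool.Agent.P.MP_5a7e2f_gt.Integ

set_option autoImplicit false
set_option synthInstance.maxSize 100000

open Set Pool.Agent.Lib.PosetForcing

namespace Pool.Agent.P.MP_5a7e2f_gt

/-- conditions: the values of `c` below `δ` are decided -/
structure PP : Type where
  /-- the height -/
  δ : II
  /-- the sequences of clopen sets -/
  c : II → DD

instance : Preorder PP where
  le q p := p.δ ≤ q.δ ∧ ∀ β < p.δ, p.c β = q.c β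
  le_refl p := ⟨le_rfl, fun _ _ => rfl⟩
  le_trans _ _ _ h h' := ⟨h'.1.trans h.1, fun β hβ =>
    (h'.2 β hβ).trans (h.2 β (hβ.trans_le h'.1))⟩

noncomputable instance : OrderTop PP where
  top := ⟨(wellFounded_lt (α := II)).min univ univ_nonempty, fun _ => default⟩
  le_top p := ⟨not_lt.1 ((wellFounded_lt (α := II)).not_lt_min univ (mem_univ _)),
    fun β hβ => absurd hβ ((wellFounded_lt (α := II)).not_lt_min univ (mem_univ _))⟩

theorem PP.exists_lower {ι : Type*} [Countable ι] (g : ι → PP)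
    (h : ∀ i j, g i ≤ g j ∨ g j ≤ g i) : ∃ q, ∀ i, q ≤ g i := by
  classical
  obtain ⟨δ, hδ⟩ := exists_bound (countable_range fun i => (g i).δ)
  refine ⟨⟨δ, fun β => if h : ∃ i, β < (g i).δ then (g h.choose).c β else default⟩,
    fun i => ⟨(hδ _ (mem_range_self i)).le, fun β hβ => ?_⟩⟩
  have h1 : ∃ i, β < (g i).δ := ⟨i, hβ⟩
  simp only [dif_pos h1]
  rcases h i h1.choose with h2 | h2
  · exact (h2.2 β h1.choose_spec).symm
  · exact h2.2 β hβ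

theorem sigmaClosed : SigmaClosed PP := fun p h =>
  PP.exists_lower p fun i j => (le_total i j).elim
    (fun hij => Or.inr (antitone_nat_of_succ_le h hij)) fun hij =>
      Or.inl (antitone_nat_of_succ_le h hij)

theorem PP.exists_ge (p : PP) (δ : II) : ∃ q ≤ p, δ < q.δ := by
  obtain ⟨γ, h1, h2⟩ := exists_gt' p.δ δ
  exact ⟨⟨γ, p.c⟩, ⟨h1.le, fun _ _ => rfl⟩, h2⟩

theorem PP.exists_dep (p : PP) {d : Set YY} (hd : IsClopen d) : ∃ q ≤ p, Dep d q.δ := by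
  obtain ⟨δ, h⟩ := MP_5a7e2f_gt.exists_dep hd
  obtain ⟨q, hq, h1⟩ := p.exists_ge δ
  exact ⟨q, hq, h.mono h1.le⟩

/-- `p` puts the point with code `x` into the space -/
def ok (p : PP) (x : XX) : Prop := adm p.c x ∧ ∀ γ, x.2 = some γ → γ < p.δ

theorem ok.mono {p q : PP} {x : XX} (h : ok p x) (hq : q ≤ p) : ok q x :=
  ⟨h.1.congr hq.2 h.2, fun γ hγ => (h.2 γ hγ).trans_le hq.1⟩

theorem ok_none (p : PP) (t : TT) : ok p (t, none) := ⟨adm_none t, fun _ h => by simp at h⟩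

theorem Dep.emb_mono {d : Set YY} {p q : PP} (hd : Dep d p.δ) (hq : q ≤ p) (x : XX) :
    emb q.c x ∈ d ↔ emb p.c x ∈ d :=
  ⟨hd.emb_congr (fun β hβ => (hq.2 β hβ).symm) rfl fun _ _ => Iff.rfl,
    hd.emb_congr hq.2 rfl fun _ _ => Iff.rfl⟩

theorem Dep.ell_mono {d : Set YY} {p q : PP} (hd : Dep d p.δ) (hq : q ≤ p) :
    ell q.c d = ell p.c d := Set.ext fun _ => hd.emb_mono hq _

theorem exists_ok {p : PP} {c : II → DD} (h : ∀ β < p.δ, p.c β = c β) {x : XX} (hx : adm c x) :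
    ∃ x', ok p x' ∧ x'.1 = x.1 ∧ ∀ d, Dep d p.δ → emb p.c x' ∈ d → emb c x ∈ d := by
  by_cases h1 : ∀ γ, x.2 = some γ → γ < p.δ
  · exact ⟨x, ⟨hx.congr (fun β hβ => (h β hβ).symm) h1, h1⟩, rfl,
      fun d hd => hd.emb_congr h rfl fun _ _ => Iff.rfl⟩
  · push Not at h1
    obtain ⟨γ, h1, h2⟩ := h1
    refine ⟨(x.1, none), ok_none p _, rfl, fun d hd => hd.emb_congr h rfl fun β hβ => ?_⟩
    simp only [h1, reduceCtorEq, Option.some.injEq, false_iff]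
    exact fun e => absurd hβ (not_lt.2 (e ▸ h2))

theorem cover_lemma {p : PP} (Ψ : Set YY → PP → Prop) (hΨ : ∀ d q r, r ≤ q → Ψ d q → Ψ d r)
    (h : ∀ q ≤ p, ∀ x, ok q x → ∃ r ≤ q, ∃ d, IsClopen d ∧ Dep d r.δ ∧ emb r.c x ∈ d ∧ Ψ d r) :
    ∃ q ≤ p, ∃ s : Finset (Set YY), (∀ d ∈ s, IsClopen d ∧ Dep d q.δ ∧ Ψ d q) ∧
      ∀ r ≤ q, ∀ x, ok r x → ∃ d ∈ s, emb r.c x ∈ d := by
  classical
  let Cov : Set TT → PP → Prop := fun a q => ∃ s : Finset (Set YY),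
    (∀ d ∈ s, IsClopen d ∧ Dep d q.δ ∧ Ψ d q) ∧ ∀ r ≤ q, ∀ x, ok r x → x.1 ∈ a → ∃ d ∈ s, emb r.c x ∈ d
  have hCov : ∀ a q r, r ≤ q → Cov a q → Cov a r := fun a q r hr ⟨s, h1, h2⟩ =>
    ⟨s, fun d hd => ⟨(h1 d hd).1, (h1 d hd).2.1.mono hr.1, hΨ _ _ _ hr (h1 d hd).2.2⟩,
      fun t ht => h2 t (ht.trans hr)⟩
  have hc : Countable (TopologicalSpace.Clopens TT) :=
    TopologicalSpace.Clopens.countable_iff_secondCountable.2 inferInstance
  obtain ⟨q, hq, h1⟩ := sigmaClosed.exists_forall p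
    (fun (a : TopologicalSpace.Clopens TT) q => Cov a q ∨ ∀ r ≤ q, ¬ Cov a r)
    (fun a q r hr h => h.imp (hCov _ _ _ hr) fun h t ht => h t (ht.trans hr)) fun a q _ => by
      by_cases h : ∃ r ≤ q, Cov a r
      · obtain ⟨r, hr, h⟩ := h
        exact ⟨r, hr, Or.inl h⟩
      · exact ⟨q, le_rfl, Or.inr fun r hr h' => h ⟨r, hr, h'⟩⟩
  have h2 : ∀ t : TT, ∃ a, IsClopen a ∧ t ∈ a ∧ Cov a q := by
    intro t
    obtain ⟨r0, hr0, d0, g1, g2, g3, g4⟩ := h q hq (t, none) (ok_none q t)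
    have := (countable_Iio r0.δ).to_subtype
    obtain ⟨r, hr, g5⟩ := sigmaClosed.exists_forall r0 (fun (γ : Iio r0.δ) r => ∃ d, IsClopen d ∧
      Dep d r.δ ∧ (d = ∅ ∨ Ψ d r) ∧ (ok r0 (t, some γ) → emb r.c (t, some γ) ∈ d))
      (fun γ r r' hr ⟨d, k1, k2, k3, k4⟩ => ⟨d, k1, k2.mono hr.1, k3.imp id (hΨ _ _ _ hr),
        fun k => (k2.emb_mono hr _).2 (k4 k)⟩) fun γ r hr => by
        by_cases k : ok r0 (t, some γ)
        · obtain ⟨r', hr', d, k1, k2, k3, k4⟩ := h r (hr.trans (hr0.trans hq)) _ (k.mono hr)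
          exact ⟨r', hr', d, k1, k2, Or.inr k4, fun _ => k3⟩
        · exact ⟨r, le_rfl, ∅, isClopen_empty, fun _ _ _ _ h => h, Or.inl rfl, fun h => absurd h k⟩
    choose d k1 k2 k3 k4 using g5
    obtain ⟨a, a1, a2, a3⟩ := tube (c := r.c) (t := t) (W := d0 ∪ ⋃ γ, d γ)
      (g1.isOpen.union (isOpen_iUnion fun γ => (k1 γ).isOpen)) (by
        intro x hx ht
        obtain ⟨⟨_, o⟩, x1, rfl, x3⟩ := exists_ok (p := r0) hr.2 hx
        cases o with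
        | none => exact Or.inl (x3 _ g2 (ht ▸ g3))
        | some γ =>
          by_cases e : x.2 = some γ
          · have e' : x = (t, some γ) := Prod.ext ht e
            exact Or.inr (mem_iUnion.2 ⟨⟨γ, x1.2 γ rfl⟩, e' ▸ k4 ⟨γ, x1.2 γ rfl⟩ (ht ▸ x1)⟩)
          · by_cases e2 : ∃ β, x.2 = some β ∧ β < r0.δ
            · obtain ⟨β, e3, e4⟩ := e2
              have e' : x = (t, some β) := Prod.ext ht e3
              refine Or.inr (mem_iUnion.2 ⟨⟨β, e4⟩, e' ▸ k4 ⟨β, e4⟩ ⟨?_, ?_⟩⟩)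
              · exact adm.congr (fun β hβ => (hr.2 β hβ).symm)
                  (fun γ h => by rw [← Option.some.inj h]; exact e4) (e' ▸ hx)
              · exact fun γ h => by rw [← Option.some.inj h]; exact e4
            · refine Or.inl (g2.emb_congr hr.2 ht.symm (fun β hβ => ?_) g3)
              simp only [reduceCtorEq, false_iff]
              exact fun h => e2 ⟨β, h, hβ⟩)
    obtain ⟨u, hu⟩ := (((isClosed_KK r.c).inter (isClopen_cyl a1).isClosed).sdiff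
      g1.isOpen).isCompact.elim_finite_subcover d (fun γ => (k1 γ).isOpen) (by
        rintro y ⟨⟨y1, y2⟩, y3⟩
        obtain ⟨x, hx, rfl⟩ := exists_emb y1
        exact (a3 x hx y2).resolve_left y3)
    refine ⟨a, a1, a2, (h1 ⟨a, a1⟩).resolve_right fun h3 => h3 r (hr.trans hr0)
      ⟨insert d0 ((u.image d).erase ∅), fun b hb => ?_, fun r' hr' x hx ha => ?_⟩⟩
    · rcases Finset.mem_insert.1 hb with rfl | hb
      · exact ⟨g1, g2.mono hr.1, hΨ _ _ _ hr g4⟩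
      · obtain ⟨γ, -, rfl⟩ := Finset.mem_image.1 (Finset.mem_of_mem_erase hb)
        exact ⟨k1 γ, k2 γ, (k3 γ).resolve_left (Finset.ne_of_mem_erase hb)⟩
    · obtain ⟨x', x1, x2, x3⟩ := exists_ok hr'.2 hx.1
      by_cases e : emb r.c x' ∈ d0
      · exact ⟨d0, Finset.mem_insert_self _ _, x3 _ (g2.mono hr.1) e⟩
      · obtain ⟨γ, hγ, h4⟩ := mem_iUnion₂.1 (hu ⟨⟨emb_mem x1.1, (x2 ▸ ha : x'.1 ∈ a)⟩, e⟩)
        exact ⟨d γ, Finset.mem_insert_of_mem (Finset.mem_erase.2 ⟨Set.Nonempty.ne_empty ⟨_, h4⟩,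
          Finset.mem_image_of_mem d hγ⟩), x3 _ (k2 γ) h4⟩
  choose a a1 a2 s s1 s2 using h2
  obtain ⟨u, hu⟩ := isCompact_univ.elim_finite_subcover a (fun t => (a1 t).isOpen)
    fun t _ => mem_iUnion.2 ⟨t, a2 t⟩
  refine ⟨q, hq, u.biUnion s, fun d hd => ?_, fun r hr x hx => ?_⟩
  · obtain ⟨t, -, ht⟩ := Finset.mem_biUnion.1 hd
    exact s1 t d ht
  · obtain ⟨t, ht, h3⟩ := mem_iUnion₂.1 (hu (mem_univ x.1))
    obtain ⟨d, hd, h4⟩ := s2 t r hr x hx h3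
    exact ⟨d, Finset.mem_biUnion.2 ⟨t, ht, hd⟩, h4⟩

theorem exists_branch (p : PP) (R : II → PP → Prop) (h : ∀ ξ, ∀ q ≤ p, ∃ r ≤ q, R ξ r) :
    ∃ g : II → PP, Antitone g ∧ ∀ ξ, g ξ ≤ p ∧ ξ < (g ξ).δ ∧ R ξ (g ξ) := by
  obtain ⟨g, hg⟩ := rec_choice p (fun ξ (g : II → PP) q => q ≤ p ∧ ξ < q.δ ∧ R ξ q ∧
      ((∀ i < ξ, g i ≤ p ∧ ∀ j < i, g i ≤ g j) → ∀ i < ξ, q ≤ g i)) (by
    intro ξ g
    obtain ⟨q, hq, h1⟩ : ∃ q ≤ p, (∀ i < ξ, g i ≤ p ∧ ∀ j < i, g i ≤ g j) → ∀ i < ξ, q ≤ g i := by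
      by_cases h1 : ∀ i < ξ, g i ≤ p ∧ ∀ j < i, g i ≤ g j
      · have := (countable_Iio ξ).to_subtype
        obtain ⟨q, hq⟩ := PP.exists_lower (fun i : Option (Iio ξ) => i.elim p fun i => g i) (by
          rintro (_ | i) (_ | j)
          · exact Or.inl le_rfl
          · exact Or.inr (h1 j j.2).1
          · exact Or.inl (h1 i i.2).1
          · rcases lt_trichotomy i.1 j.1 with h2 | h2 | h2
            · exact Or.inr ((h1 j j.2).2 i h2)
            · exact Or.inl (by simp [h2])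
            · exact Or.inl ((h1 i i.2).2 j h2))
        exact ⟨q, hq none, fun _ i hi => hq (some ⟨i, hi⟩)⟩
      · exact ⟨p, le_rfl, fun h2 => absurd h2 h1⟩
    obtain ⟨q', hq', h2⟩ := q.exists_ge ξ
    obtain ⟨r, hr, h3⟩ := h ξ q' (hq'.trans hq)
    exact ⟨r, hr.trans (hq'.trans hq), h2.trans_le hr.1, h3,
      fun h4 i hi => hr.trans (hq'.trans (h1 h4 i hi))⟩)
  have key : ∀ ξ, ∀ i < ξ, g ξ ≤ g i := by
    intro ξ
    induction ξ using WellFoundedLT.induction with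
    | ind ξ ih =>
      intro i hi
      have := (hg ξ).2.2.2 (fun i hi => ⟨by simpa [hi] using (hg i).1, fun j hj => by
        simpa [hi, hj.trans hi] using ih i hi j hj⟩) i hi
      simpa [hi] using this
  exact ⟨g, fun i j hij => (hij.eq_or_lt).elim (fun e => e ▸ le_rfl) (key j i),
    fun ξ => ⟨(hg ξ).1, (hg ξ).2.1, (hg ξ).2.2.1⟩⟩

end Pool.Agent.P.MP_5a7e2f_gt
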