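import Mathlib

set_option autoImplicit false
set_option linter.unusedSectionVars false

open Set Filter Topology MeasureTheory TopologicalSpace
open scoped ENNReal BoundedContinuousFunction CompactlySupported

namespace Pool.Agent.P.MP_5a7e2f_gt

theorem rec_choice {I D : Type*} [LinearOrder I] [WellFoundedLT I] (d₀ : D)
    (R : I → (I → D) → D → Prop) (h : ∀ i g, ∃ d, R i g d) :
    ∃ f : I → D, ∀ i, R i (fun j => if j < i then f j else d₀) (f i) := by
  classical
  let F : (i : I) → ((j : I) → j < i → D) → D :=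
    fun i g => (h i (fun j => if hj : j < i then g j hj else d₀)).choose
  let f : I → D := (wellFounded_lt (α := I)).fix F
  refine ⟨f, fun i => ?_⟩
  have h1 : f i = F i (fun j _ => f j) := (wellFounded_lt (α := I)).fix_eq F i
  have h2 : (fun j => if j < i then f j else d₀) =
      (fun j => if _hj : j < i then f j else d₀) := by
    funext j; simp
  rw [h1, h2]
  exact (h i _).choose_spec

theorem clopen_induction {X : Type*} [TopologicalSpace X] [CompactSpace X] (P : Set X → Prop)
    (h0 : P ∅) (hc : ∀ a, P a → P aᶜ) (hu : ∀ a b, P a → P b → P (a ∪ b))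
    (hsep : ∀ x y : X, x ≠ y → ∃ a, IsClopen a ∧ P a ∧ x ∈ a ∧ y ∉ a) :
    ∀ b, IsClopen b → P b := by
  have hi : ∀ a b, P a → P b → P (a ∩ b) := fun a b ha hb => by
    have := hc _ (hu _ _ (hc _ ha) (hc _ hb))
    rwa [compl_union, compl_compl, compl_compl] at this
  have hU : ∀ (t : Finset X) (a : X → Set X), (∀ x ∈ t, P (a x)) → P (⋃ x ∈ t, a x) := by
    classical
    intro t a
    induction t using Finset.induction_on with
    | empty => intro _; simpa using h0
    | insert x t hx ih =>
      intro h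
      rw [Finset.set_biUnion_insert]
      exact hu _ _ (h x (Finset.mem_insert_self _ _))
        (ih fun y hy => h y (Finset.mem_insert_of_mem hy))
  have s1 : ∀ (x : X) (C : Set X), IsCompact C → x ∉ C →
      ∃ a, IsClopen a ∧ P a ∧ x ∉ a ∧ C ⊆ a := by
    intro x C hC hx
    have : ∀ y : X, ∃ a, IsClopen a ∧ P a ∧ x ∉ a ∧ (y ∈ C → y ∈ a) := by
      intro y
      by_cases hy : y ∈ C
      · obtain ⟨a, h1, h2, h3, h4⟩ := hsep y x (fun h => hx (h ▸ hy))
        exact ⟨a, h1, h2, h4, fun _ => h3⟩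
      · exact ⟨∅, isClopen_empty, h0, notMem_empty _, fun h => absurd h hy⟩
    choose a h1 h2 h3 h4 using this
    obtain ⟨t, ht⟩ := hC.elim_finite_subcover a (fun y => (h1 y).isOpen)
      (fun y hy => mem_iUnion.2 ⟨y, h4 y hy⟩)
    refine ⟨⋃ y ∈ t, a y, isClopen_biUnion_finset fun y _ => h1 y, hU t a fun y _ => h2 y, ?_, ht⟩
    simp only [mem_iUnion, not_exists]
    exact fun y _ => h3 y
  intro b hb
  have : ∀ x : X, ∃ a, IsClopen a ∧ P a ∧ a ⊆ b ∧ (x ∈ b → x ∈ a) := by
    intro x
    by_cases hx : x ∈ b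
    · obtain ⟨a, h1, h2, h3, h4⟩ := s1 x bᶜ hb.compl.isClosed.isCompact (fun h => h hx)
      exact ⟨aᶜ, h1.compl, hc _ h2, compl_subset_comm.1 h4, fun _ => h3⟩
    · exact ⟨∅, isClopen_empty, h0, empty_subset _, fun h => absurd h hx⟩
  choose a h1 h2 h3 h4 using this
  obtain ⟨t, ht⟩ := hb.isClosed.isCompact.elim_finite_subcover a (fun y => (h1 y).isOpen)
    (fun y hy => mem_iUnion.2 ⟨y, h4 y hy⟩)
  have : b = ⋃ y ∈ t, a y := subset_antisymm ht (iUnion₂_subset fun y _ => h3 y)
  rw [this]
  exact hU t a fun y _ => h2 y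

theorem totallyDisconnected_of_sep {X : Type*} [TopologicalSpace X]
    (hsep : ∀ x y : X, x ≠ y → ∃ a, IsClopen a ∧ x ∈ a ∧ y ∉ a) :
    TotallySeparatedSpace X :=
  totallySeparatedSpace_iff_exists_isClopen.2 fun x y hxy => hsep x y hxy

section profinite

variable {X : Type*} [TopologicalSpace X] [CompactSpace X] [T2Space X] [TotallyDisconnectedSpace X]

theorem exists_simple_approx (f : X → ℝ) (hf : Continuous f) {ε : ℝ} (hε : 0 < ε) :
    ∃ (n : ℕ) (U : Fin n → Set X) (v : Fin n → ℝ), (∀ i, IsClopen (U i)) ∧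
      ∀ x, |f x - ∑ i, (U i).indicator (fun _ => v i) x| < ε := by
  have hS : {p : ℝ × ℝ | |p.1 - p.2| < ε} ∈ nhdsSet (diagonal ℝ) := by
    apply IsOpen.mem_nhdsSet _ |>.2
    · rintro ⟨a, b⟩ (h : a = b)
      simp [h, hε]
    · exact isOpen_lt (by fun_prop) continuous_const
  obtain ⟨n, U, v, h⟩ :=
    ContinuousMap.exists_finite_sum_const_indicator_approximation_of_mem_nhds_diagonal
      (⟨f, hf⟩ : C(X, ℝ)) hS
  exact ⟨n, fun i => U i, v, fun i => (U i).isClopen, h⟩

variable [MeasurableSpace X] [BorelSpace X]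

theorem integral_simple_approx (σ : Measure X) [IsProbabilityMeasure σ] (f : X →ᵇ ℝ) {ε : ℝ}
    {n : ℕ} (U : Fin n → Set X) (v : Fin n → ℝ) (hU : ∀ i, IsClopen (U i))
    (h : ∀ x, |f x - ∑ i, (U i).indicator (fun _ => v i) x| < ε) :
    |∫ x, f x ∂σ - ∑ i, σ.real (U i) * v i| ≤ ε := by
  have hint : ∀ i, Integrable ((U i).indicator (fun _ => v i)) σ := fun i =>
    (integrable_const _).indicator (hU i).isOpen.measurableSet
  have h1 : ∑ i, σ.real (U i) * v i = ∫ x, ∑ i, (U i).indicator (fun _ => v i) x ∂σ := by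
    rw [integral_finsetSum _ fun i _ => hint i]
    refine Finset.sum_congr rfl fun i _ => ?_
    rw [integral_indicator (hU i).isOpen.measurableSet]
    simp
  rw [h1, ← integral_sub (f.integrable σ) (integrable_finsetSum _ fun i _ => hint i)]
  have := norm_integral_le_of_norm_le_const (μ := σ)
    (f := fun x => f x - ∑ i, (U i).indicator (fun _ => v i) x) (C := ε)
    (Eventually.of_forall fun x => (h x).le)
  simpa using this

theorem continuous_real_clopen {b : Set X} (hb : IsClopen b) :
    Continuous fun σ : ProbabilityMeasure X => (σ : Measure X).real b := by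
  have := ProbabilityMeasure.continuous_integral_boundedContinuousFunction
    (BoundedContinuousFunction.indicator b hb)
  convert this using 2 with σ
  simp only [BoundedContinuousFunction.indicator_apply]
  rw [integral_indicator_one hb.isOpen.measurableSet]

theorem approx_of_mem_closure {A : Set (ProbabilityMeasure X)} {ν : ProbabilityMeasure X}
    (h : ν ∈ closure A) (s : Finset (Set X)) (hs : ∀ b ∈ s, IsClopen b) {ε : ℝ} (hε : 0 < ε) :
    ∃ σ ∈ A, ∀ b ∈ s, |(σ : Measure X).real b - (ν : Measure X).real b| < ε := by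
  have ho : IsOpen (⋂ b ∈ s, {σ : ProbabilityMeasure X |
      |(σ : Measure X).real b - (ν : Measure X).real b| < ε}) := by
    refine isOpen_biInter_finset fun b hb => isOpen_lt ?_ continuous_const
    exact ((continuous_real_clopen (hs b hb)).sub continuous_const).abs
  obtain ⟨σ, h1, h2⟩ := mem_closure_iff.1 h _ ho (by simp [hε])
  refine ⟨σ, h2, fun b hb => ?_⟩
  simpa using mem_iInter₂.1 h1 b hb

theorem mem_closure_of_approx {B : Set (ProbabilityMeasure X)} {ν : ProbabilityMeasure X}
    (h : ∀ (s : Finset (Set X)), (∀ b ∈ s, IsClopen b) → ∀ ε : ℝ, 0 < ε →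
      ∃ σ ∈ B, ∀ b ∈ s, |(σ : Measure X).real b - (ν : Measure X).real b| < ε) :
    ν ∈ closure B := by
  classical
  let J := {s : Finset (Set X) // ∀ b ∈ s, IsClopen b} × {ε : ℝ // 0 < ε}
  let G : J → Set (ProbabilityMeasure X) := fun j =>
    {σ | σ ∈ B ∧ ∀ b ∈ j.1.1, |(σ : Measure X).real b - (ν : Measure X).real b| < j.2.1}
  have : Nonempty J := ⟨(⟨∅, by simp⟩, ⟨1, one_pos⟩)⟩
  let F : Filter (ProbabilityMeasure X) := ⨅ j, 𝓟 (G j)
  have hdir : Directed (· ≥ ·) fun j => 𝓟 (G j) := by
    intro j k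
    refine ⟨(⟨j.1.1 ∪ k.1.1, ?_⟩, ⟨min j.2.1 k.2.1, lt_min j.2.2 k.2.2⟩), ?_, ?_⟩
    · intro b hb
      rcases Finset.mem_union.1 hb with hb | hb
      exacts [j.1.2 b hb, k.1.2 b hb]
    · refine principal_mono.2 fun σ hσ => ⟨hσ.1, fun b hb => ?_⟩
      exact (hσ.2 b (Finset.mem_union_left _ hb)).trans_le (min_le_left _ _)
    · refine principal_mono.2 fun σ hσ => ⟨hσ.1, fun b hb => ?_⟩
      exact (hσ.2 b (Finset.mem_union_right _ hb)).trans_le (min_le_right _ _)
  have hne : F.NeBot := by
    refine iInf_neBot_of_directed' hdir fun j => principal_neBot_iff.2 ?_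
    obtain ⟨σ, h1, h2⟩ := h j.1.1 j.1.2 j.2.1 j.2.2
    exact ⟨σ, h1, h2⟩
  have hG : ∀ j, G j ∈ F := fun j => mem_iInf_of_mem j (mem_principal_self _)
  have hb : ∀ b, IsClopen b → Tendsto (fun σ : ProbabilityMeasure X => (σ : Measure X).real b) F
      (𝓝 ((ν : Measure X).real b)) := by
    intro b hb
    refine Metric.tendsto_nhds.2 fun ε hε => ?_
    filter_upwards [hG (⟨{b}, by simpa using hb⟩, ⟨ε, hε⟩)] with σ hσ
    exact hσ.2 b (Finset.mem_singleton_self _)
  have ht : Tendsto (fun σ : ProbabilityMeasure X => σ) F (𝓝 ν) := by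
    refine ProbabilityMeasure.tendsto_iff_forall_integral_tendsto.2 fun f => ?_
    refine Metric.tendsto_nhds.2 fun ε hε => ?_
    obtain ⟨n, U, v, hU, hv⟩ := exists_simple_approx f f.continuous (ε := ε / 3) (by positivity)
    have h1 : Tendsto (fun σ : ProbabilityMeasure X => ∑ i, (σ : Measure X).real (U i) * v i) F
        (𝓝 (∑ i, (ν : Measure X).real (U i) * v i)) :=
      tendsto_finsetSum _ fun i _ => (hb _ (hU i)).mul_const _
    filter_upwards [Metric.tendsto_nhds.1 h1 (ε / 3) (by positivity)] with σ hσ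
    have h2 := integral_simple_approx (σ : Measure X) f U v hU hv
    have h3 := integral_simple_approx (ν : Measure X) f U v hU hv
    rw [Real.dist_eq] at hσ ⊢
    rw [abs_le] at h2 h3
    rw [abs_lt] at hσ ⊢
    constructor <;> linarith [h2.1, h2.2, h3.1, h3.2, hσ.1, hσ.2]
  refine mem_closure_of_tendsto ht ?_
  obtain ⟨j⟩ := this
  filter_upwards [hG j] with σ hσ using hσ.1

theorem exists_lift_measure {T : Type*} [MeasurableSpace T] (lam : Measure T)
    [IsProbabilityMeasure lam] (L : T → X) (hL : ∀ b, IsClopen b → MeasurableSet (L ⁻¹' b)) :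
    ∃ μ : Measure X, IsProbabilityMeasure μ ∧ μ.Regular ∧
      ∀ b, IsClopen b → μ b = lam (L ⁻¹' b) := by
  have hm : ∀ f : X → ℝ, Continuous f → Measurable (fun t => f (L t)) := by
    intro f hf
    choose n U v hU hv using fun k : ℕ =>
      exists_simple_approx f hf (ε := 1 / ((k : ℝ) + 1)) (by positivity)
    refine measurable_of_tendsto_metrizable
      (f := fun k t => ∑ i, (U k i).indicator (fun _ => v k i) (L t)) (fun k => ?_) ?_
    · refine Finset.measurable_sum _ fun i _ => ?_
      exact (measurable_const (a := v k i)).indicator (hL _ (hU k i))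
    · refine tendsto_pi_nhds.2 fun t => ?_
      refine Metric.tendsto_atTop.2 fun ε hε => ?_
      obtain ⟨N, hN⟩ := exists_nat_one_div_lt hε
      refine ⟨N, fun k hk => ?_⟩
      rw [dist_comm, Real.dist_eq]
      refine (hv k (L t)).trans_le (le_trans ?_ hN.le)
      gcongr
  have hi : ∀ g : C_c(X, ℝ), Integrable (fun t => g (L t)) lam := by
    intro g
    obtain ⟨C, hC⟩ := (isCompact_range g.continuous).isBounded.exists_norm_le
    exact Integrable.of_bound (hm g g.continuous).aestronglyMeasurable C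
      (Eventually.of_forall fun t => hC _ (mem_range_self _))
  let Λ : C_c(X, ℝ) →ₚ[ℝ] ℝ :=
  { toFun g := ∫ t, g (L t) ∂lam
    map_add' g g' := integral_add (hi g) (hi g')
    map_smul' c g := integral_smul c (fun t => g (L t))
    monotone' g g' hgg' := integral_mono (hi g) (hi g') fun t => hgg' (L t) }
  have key : ∀ b, IsClopen b → RealRMK.rieszMeasure Λ b = lam (L ⁻¹' b) := by
    intro b hb
    let g : C_c(X, ℝ) :=
    { toFun := BoundedContinuousFunction.indicator b hb
      hasCompactSupport' := HasCompactSupport.of_compactSpace _ }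
    have h1 := RealRMK.integral_rieszMeasure Λ g
    have h2 : ∫ x, g x ∂(RealRMK.rieszMeasure Λ) = (RealRMK.rieszMeasure Λ).real b := by
      rw [← integral_indicator_one hb.isOpen.measurableSet]; rfl
    have h3 : Λ g = lam.real (L ⁻¹' b) := by
      rw [← integral_indicator_one (hL b hb)]; rfl
    rw [h2, h3] at h1
    exact (ENNReal.toReal_eq_toReal_iff' (measure_ne_top _ _) (measure_ne_top _ _)).1 h1
  refine ⟨RealRMK.rieszMeasure Λ, ⟨?_⟩, inferInstance, key⟩
  rw [key _ isClopen_univ]; simp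

end profinite

end Pool.Agent.P.MP_5a7e2f_gt
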