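import Pool.Agent.P.MP_5a7e2f_gt.Top

set_option autoImplicit false
set_option synthInstance.maxSize 100000

open Set Filter MeasureTheory Pool.Agent.Lib.PosetForcing
open scoped ENNReal Topology

namespace Pool.Agent.P.MP_5a7e2f_gt

theorem dep_biUnion {ι : Type*} {s : Finset ι} {d : ι → Set YY} {δ : II}
    (h : ∀ i ∈ s, Dep (d i) δ) : Dep (⋃ i ∈ s, d i) δ := fun y y' h1 h2 h3 => by
  obtain ⟨i, hi, h4⟩ := mem_iUnion₂.1 h3
  exact mem_iUnion₂.2 ⟨i, hi, h i hi y y' h1 h2 h4⟩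

theorem cover2 {ι : Type*} [Nonempty ι] {p : PP} (V : ι → Name PP) {d0 : Set YY}
    (hV : ∀ i, Forces p fun U => Mod.mem ((V i).val U) (CC.val U).top) (h0 : IsClopen d0)
    (h1 : Dep d0 p.δ) (h : ∀ q ≤ p, ∀ x, ok q x → emb q.c x ∈ d0 →
      ∃ r ≤ q, ∃ i, Forces r fun U => Mod.mem ((elt x).val U) ((V i).val U)) :
    ∃ q ≤ p, ∃ (s : Finset ι) (b : ι → Set YY), (∀ i, IsClopen (b i) ∧ Dep (b i) q.δ ∧
      Forces q fun U => IsSub Mod.mem ((NN (b i)).val U) ((V i).val U)) ∧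
      ell q.c d0 ⊆ ⋃ i ∈ s, ell q.c (b i) := by
  classical
  obtain ⟨q, hq, s, g1, g2⟩ := cover_lemma (p := p) (fun d r => r ≤ p ∧ (d = d0ᶜ ∨ ∃ i,
      Forces r fun U => IsSub Mod.mem ((NN d).val U) ((V i).val U)))
    (fun d q r hr h => ⟨hr.trans h.1, h.2.imp id fun ⟨i, h⟩ => ⟨i, h.mono hr⟩⟩) (by
      intro q hq x hx
      by_cases e : emb q.c x ∈ d0
      · obtain ⟨r, hr, i, hi⟩ := h q hq x hx e
        obtain ⟨t, ht, d, k1, k2, k3, k4⟩ := open_nbhd (hx.mono hr) ((hV i).mono (hr.trans hq)) hi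
        exact ⟨t, ht.trans hr, d, k1, k2, k3, ht.trans (hr.trans hq), Or.inr ⟨i, k4⟩⟩
      · exact ⟨q, le_rfl, d0ᶜ, h0.compl, (h1.mono hq.1).compl, e, hq, Or.inl rfl⟩)
  choose! j hj using fun d (hd : d ∈ s.erase d0ᶜ) =>
    (g1 d (Finset.mem_of_mem_erase hd)).2.2.2.resolve_left (Finset.ne_of_mem_erase hd)
  have g3 : ∀ i, ∀ d ∈ (s.erase d0ᶜ).filter (j · = i), d ∈ s := fun i d hd =>
    Finset.mem_of_mem_erase (Finset.mem_filter.1 hd).1
  refine ⟨q, hq, (s.erase d0ᶜ).image j, fun i => ⋃ d ∈ (s.erase d0ᶜ).filter (j · = i), d,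
    fun i => ⟨isClopen_biUnion_finset fun d hd => (g1 d (g3 i d hd)).1,
      dep_biUnion fun d hd => (g1 d (g3 i d hd)).2.1, fun U hU z hz => ?_⟩, fun t ht => ?_⟩
  · obtain ⟨d, hd, h2⟩ := (mem_NN_biUnion _ (d := fun d => d)
      (fun d hd => (g1 d (g3 i d hd)).1) U z).1 hz
    rw [Finset.mem_filter] at hd
    exact hd.2 ▸ hj d hd.1 U hU z h2
  · obtain ⟨d, hd, h2⟩ := g2 q le_rfl _ (ok_none q t)
    have h3 : d ∈ s.erase d0ᶜ := Finset.mem_erase.2 ⟨fun e => (e ▸ h2 :) ht, hd⟩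
    exact mem_iUnion₂.2 ⟨j d, Finset.mem_image_of_mem j h3,
      mem_iUnion₂.2 ⟨d, Finset.mem_filter.2 ⟨h3, rfl⟩, h2⟩⟩

/-- clopen subsets of `V` are almost contained in `E` -/
def Small (p : PP) (V : Name PP) (E : Set TT) (ε : ℝ≥0∞) : Prop :=
  ∀ r ≤ p, ∀ d, IsClopen d → Dep d r.δ →
    (Forces r fun U => IsSub Mod.mem ((NN d).val U) (V.val U)) → lam (ell r.c d \ E) ≤ ε

theorem Small.mono {p q : PP} {V : Name PP} {E : Set TT} {ε : ℝ≥0∞} (h : Small p V E ε)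
    (hq : q ≤ p) : Small q V E ε := fun r hr => h r (hr.trans hq)

/-- the set named by `B` is represented by the Borel set `E` -/
def Rel (p : PP) (B : Name PP) (E : Set TT) : Prop :=
  MeasurableSet E ∧ ∀ ε > 0, ∃ V V' : Name PP, (Forces p fun U =>
    Mod.mem (V.val U) (CC.val U).top ∧ Mod.mem (V'.val U) (CC.val U).top ∧
    IsSub Mod.mem (B.val U) (V.val U) ∧
    ∀ x, Mod.mem x (CC.val U).S → ¬ Mod.mem x (B.val U) → Mod.mem x (V'.val U)) ∧
    Small p V E ε ∧ Small p V' Eᶜ ε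

variable {p q : PP} {B B' : Name PP} {E E' : Set TT}

theorem Rel.mono (h : Rel p B E) (hq : q ≤ p) : Rel q B E := ⟨h.1, fun ε hε => by
  obtain ⟨V, V', h1, h2, h3⟩ := h.2 ε hε
  exact ⟨V, V', h1.mono hq, h2.mono hq, h3.mono hq⟩⟩

theorem Rel.congr (h : Rel p B E) (e : Forces p fun U => B.val U = B'.val U) : Rel p B' E :=
  ⟨h.1, fun ε hε => by
    obtain ⟨V, V', h1, h2, h3⟩ := h.2 ε hε
    exact ⟨V, V', (h1.and e).imp fun U h => h.2 ▸ h.1, h2, h3⟩⟩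

theorem Rel.compl (h : Rel p B E) (e : Forces p fun U => ∀ x, Mod.mem x (B'.val U) ↔
    Mod.mem x (CC.val U).S ∧ ¬ Mod.mem x (B.val U)) : Rel p B' Eᶜ :=
  ⟨h.1.compl, fun ε hε => by
    obtain ⟨V, V', h1, h2, h3⟩ := h.2 ε hε
    refine ⟨V', V, (h1.and e).imp fun U h => ⟨h.1.2.1, h.1.1, fun x hx =>
      h.1.2.2.2 x ((h.2 x).1 hx).1 ((h.2 x).1 hx).2, fun x h4 h5 => h.1.2.2.1 x ?_⟩, h3,
      by rwa [compl_compl]⟩
    by_contra h6
    exact h5 ((h.2 x).2 ⟨h4, h6⟩)⟩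

theorem Rel.null_diff (h : Rel p B E) (h' : Rel p B' E')
    (e : Forces p fun U => IsSub Mod.mem (B.val U) (B'.val U)) : lam (E \ E') = 0 := by
  refine le_antisymm (ENNReal.le_of_forall_pos_le_add fun ε hε _ => ?_) zero_le
  obtain ⟨V0, V', h1, -, h2⟩ := h.2 (ε / 2) (by simpa using hε.ne')
  obtain ⟨V, V1, h3, h4, -⟩ := h'.2 (ε / 2) (by simpa using hε.ne')
  obtain ⟨q, hq, s, b, g1, g2⟩ := cover2 (p := p) (fun i : Bool => if i then V else V') (d0 := univ)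
    (by rintro (_ | _); exacts [h1.imp fun _ h => h.2.1, h3.imp fun _ h => h.1]) isClopen_univ
    (fun _ _ _ _ _ => trivial) (by
      intro q hq x hx _
      obtain ⟨r, hr, k | k⟩ := exists_decide
        (fun U => Mod.mem ((elt x : Name PP).val U) (B.val U)) q
      · exact ⟨r, hr, true, fun U hU => (h3.mono (hr.trans hq) U hU).2.2.1 _
          (e.mono (hr.trans hq) U hU _ (k U hU))⟩
      · exact ⟨r, hr, false, fun U hU => (h1.mono (hr.trans hq) U hU).2.2.2 _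
          (forces_mem_S (hx.mono hr) U hU) (k U hU)⟩)
  have g3 : E \ E' ⊆ (ell q.c (b true) \ E') ∪ (ell q.c (b false) \ Eᶜ) := fun t ht => by
    obtain ⟨i, -, hi⟩ := mem_iUnion₂.1 (g2 (show t ∈ ell q.c univ from trivial))
    cases i
    exacts [Or.inr ⟨hi, not_not.2 ht.1⟩, Or.inl ⟨hi, ht.2⟩]
  refine (measure_mono g3).trans ((measure_union_le _ _).trans ?_)
  rw [zero_add, ← ENNReal.add_halves ε]
  exact add_le_add (h4 q hq _ (g1 true).1 (g1 true).2.1 (g1 true).2.2)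
    (h2 q hq _ (g1 false).1 (g1 false).2.1 (g1 false).2.2)

theorem Rel.lam_le (h : Rel p B E) (h' : Rel p B' E')
    (e : Forces p fun U => IsSub Mod.mem (B.val U) (B'.val U)) : lam E ≤ lam E' :=
  measure_mono_ae (ae_le_set.2 (h.null_diff h' e))

theorem Rel.lam_eq (h : Rel p B E) (h' : Rel p B E') : lam E = lam E' :=
  le_antisymm (h.lam_le h' (Forces.of_forall (fun _ _ h => h) p))
    (h'.lam_le h (Forces.of_forall (fun _ _ h => h) p))

theorem rel_NN {d : Set YY} (hd : IsClopen d) (h : Dep d p.δ) : Rel p (NN d) (ell p.c d) := by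
  refine ⟨measurableSet_ell hd, fun ε _ => ⟨NN d, NN dᶜ, fun U _ => ⟨NN_open hd U,
    NN_open hd.compl U, fun _ h => h, fun x h1 h2 => (mem_NN_compl hd U x).2 ⟨h1, h2⟩⟩,
    fun r hr b _ h2 h3 => ?_, fun r hr b _ h2 h3 => ?_⟩⟩
  · rw [← h.ell_mono hr, sdiff_eq_empty.2 (ell_subset_of_forces h2 (h.mono hr.1) h3)]; simp
  · rw [← h.ell_mono hr, sdiff_eq_empty.2
      (show ell r.c b ⊆ (ell r.c d)ᶜ from ell_subset_of_forces h2 (h.mono hr.1).compl h3)]; simp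

theorem Rel.null_inter (h : Rel p B E) (h' : Rel p B' E')
    (e : Forces p fun U => ∀ x, Mod.mem x (B.val U) → ¬ Mod.mem x (B'.val U)) :
    lam (E ∩ E') = 0 := by
  have e1 := mem_sepName (NN univ) fun U x => ¬ Mod.mem x (B'.val U)
  have := h.null_diff (h'.compl (Forces.of_forall e1 p)) fun U hU x hx => (e1 U x).2 ⟨by
    obtain ⟨V, V1, h1, -⟩ := h.2 1 one_pos
    exact (mem_top.1 (h1 U hU).1).1 x ((h1 U hU).2.2.1 x hx), e U hU x hx⟩
  rwa [Set.sdiff_compl] at this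

theorem exists_small {V : Name PP} (p : PP) {ε : ℝ≥0∞} (hε : 0 < ε) :
    ∃ q ≤ p, ∃ d, IsClopen d ∧ Dep d q.δ ∧
      (Forces q fun U => IsSub Mod.mem ((NN d).val U) (V.val U)) ∧ Small q V (ell q.c d) ε := by
  let T := {z : PP × Set YY // z.1 ≤ p ∧ IsClopen z.2 ∧ Dep z.2 z.1.δ ∧
    Forces z.1 fun U => IsSub Mod.mem ((NN z.2).val U) (V.val U)}
  have : Nonempty T := ⟨⟨(p, ∅), le_rfl, isClopen_empty, fun _ _ _ _ h => h,
    fun U _ z hz => absurd hz (not_mem_NN_empty U z)⟩⟩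
  have h1 : ⨆ z : T, lam (ell z.1.1.c z.1.2) ≠ ∞ :=
    ne_top_of_le_ne_top ENNReal.one_ne_top (iSup_le fun _ => prob_le_one)
  have h0 := ENNReal.lt_add_right h1 hε.ne'
  rw [ENNReal.iSup_add (fun z : T => lam (ell z.1.1.c z.1.2)), lt_iSup_iff] at h0
  obtain ⟨⟨⟨q, d⟩, hq, k1, k2, k3⟩, hz⟩ := h0
  refine ⟨q, hq, d, k1, k2, k3, fun r hr b b1 b2 b3 => ?_⟩
  have h2 : lam (ell r.c (b ∪ d)) ≤ _ := le_iSup (fun z : T => lam (ell z.1.1.c z.1.2))
    ⟨(r, b ∪ d), hr.trans hq, b1.union k1, b2.union (k2.mono hr.1), fun U hU z hz =>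
      ((mem_NN_union b1 k1 U z).1 hz).elim (b3 U hU z) (k3.mono hr U hU z)⟩
  have h3 : ell r.c (b ∪ d) = ell q.c d ∪ ell r.c b := by
    rw [← k2.ell_mono hr, union_comm]; rfl
  rw [h3, ← measure_add_sdiff (measurableSet_ell k1).nullMeasurableSet] at h2
  exact (ENNReal.add_le_add_iff_left (measure_ne_top _ _)).1 (h2.trans hz.le)

theorem rel_open {V : Name PP} (h : Forces p fun U => Mod.mem (V.val U) (CC.val U).top) :
    ∃ q ≤ p, ∃ E, Rel q V E ∧ ∀ F ε, Small q V F ε → lam (E \ F) ≤ ε := by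
  obtain ⟨q, hq, h1⟩ := sigmaClosed.exists_forall p (fun (n : ℕ) q => ∃ d, IsClopen d ∧ Dep d q.δ ∧
      (Forces q fun U => IsSub Mod.mem ((NN d).val U) (V.val U)) ∧ Small q V (ell q.c d) (n : ℝ≥0∞)⁻¹)
    (fun n q r hr ⟨d, k1, k2, k3, k4⟩ => ⟨d, k1, k2.mono hr.1, k3.mono hr,
      k2.ell_mono hr ▸ k4.mono hr⟩) fun n q _ => exists_small q (by simp)
  choose d k1 k2 k3 k4 using h1
  have aux : ∀ F ε, Small q V F ε → lam ((⋃ n, ell q.c (d n)) \ F) ≤ ε := by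
    intro F ε hF
    have g2 : (⋃ n, ell q.c (d n)) \ F ⊆
        ⋃ m, ell q.c (⋃ i ∈ Finset.range m, d i) \ F := fun t ht => by
      obtain ⟨m, hm⟩ := mem_iUnion.1 ht.1
      exact mem_iUnion.2 ⟨m + 1, mem_iUnion₂.2 ⟨m, Finset.self_mem_range_succ m, hm⟩, ht.2⟩
    refine (measure_mono g2).trans ?_
    rw [Monotone.measure_iUnion fun a b hab => sdiff_subset_sdiff_left fun t ht => by
      obtain ⟨i, hi, h⟩ := mem_iUnion₂.1 ht
      exact mem_iUnion₂.2 ⟨i, Finset.range_mono hab hi, h⟩]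
    refine iSup_le fun m => hF q le_rfl _ (isClopen_biUnion_finset fun i _ => k1 i)
      (dep_biUnion fun i _ => k2 i) fun U hU z hz => ?_
    obtain ⟨i, -, hi⟩ := (mem_NN_biUnion _ (fun i _ => k1 i) U z).1 hz
    exact k3 i U hU z hi
  refine ⟨q, hq, ⋃ n, ell q.c (d n), ⟨MeasurableSet.iUnion fun n => measurableSet_ell (k1 n),
    fun ε hε => ?_⟩, aux⟩
  obtain ⟨n, hn⟩ := ENNReal.exists_inv_nat_lt hε.ne'
  refine ⟨V, NN (d n)ᶜ, fun U hU => ⟨h.mono hq U hU, NN_open (k1 n).compl U, fun _ h => h,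
    fun x h1 h2 => (mem_NN_compl (k1 n) U x).2 ⟨h1, fun h3 => h2 (k3 n U hU x h3)⟩⟩,
    fun r hr b b1 b2 b3 => ?_, fun r hr b b1 b2 b3 => ?_⟩
  · exact (measure_mono (sdiff_subset_sdiff_right (subset_iUnion (fun n => ell q.c (d n)) n))).trans
      ((k4 n r hr b b1 b2 b3).trans hn.le)
  · have g1 : ell r.c b ⊆ (ell q.c (d n))ᶜ := by
      rw [← (k2 n).ell_mono hr]
      exact ell_subset_of_forces b2 ((k2 n).mono hr.1).compl b3
    refine le_trans (measure_mono fun t ht => ?_) ((aux _ _ (k4 n)).trans hn.le)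
    exact ⟨not_not.1 ht.2, g1 ht.1⟩

theorem exists_inter_name (V : ℕ → Name PP) (N : ℕ) : ∃ W : Name PP, ∀ U,
    ((∀ n < N, Mod.mem ((V n).val U) (CC.val U).top) → Mod.mem (W.val U) (CC.val U).top) ∧
    ∀ z, Mod.mem z (W.val U) ↔ Mod.mem z (CC.val U).S ∧ ∀ n < N, Mod.mem z ((V n).val U) := by
  induction N with
  | zero => exact ⟨NN univ, fun U => ⟨fun _ => NN_open isClopen_univ U, fun z =>
      ⟨fun h => ⟨h, by simp⟩, fun h => h.1⟩⟩⟩
  | succ N ih =>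
    obtain ⟨W, hW⟩ := ih
    have e := mem_sepName W fun U z => Mod.mem z ((V N).val U)
    refine ⟨_, fun U => ⟨fun h => (isTop U).2.2.1 _ _ _ ((hW U).1 fun n hn => h n (by omega))
      (h N (by omega)) (e U), fun z => ?_⟩⟩
    rw [e, (hW U).2, Nat.forall_lt_succ_right, and_assoc]

theorem rel_iUnion {B : ℕ → Name PP} {E : ℕ → Set TT} {X : Name PP} (h : ∀ n, Rel p (B n) (E n))
    (h1 : ∀ n, Forces p fun U => IsSub Mod.mem ((B n).val U) (X.val U))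
    (h2 : ∀ q ≤ p, ∀ x : Name PP, (Forces q fun U => Mod.mem (x.val U) (X.val U)) →
      ∃ r ≤ q, ∃ n, Forces r fun U => Mod.mem (x.val U) ((B n).val U)) :
    Rel p X (⋃ n, E n) := by
  refine ⟨MeasurableSet.iUnion fun n => (h n).1, fun ε hε => ?_⟩
  have hε2 : ε / 2 ≠ 0 := by simpa using hε.ne'
  obtain ⟨η, η1, η2⟩ := ENNReal.exists_pos_sum_of_countable' hε2 ℕ
  choose V V' g1 g2 g3 using fun n => (h n).2 (η n) (η1 n)
  obtain ⟨N, hN⟩ : ∃ N, lam ((⋃ n, E n) \ ⋃ n ∈ Finset.range N, E n) < ε / 2 := by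
    have t1 := tendsto_measure_iInter_atTop (μ := lam)
      (s := fun N => (⋃ n, E n) \ ⋃ n ∈ Finset.range N, E n) (fun N =>
        ((MeasurableSet.iUnion fun n => (h n).1).diff
          (Finset.measurableSet_biUnion _ fun n _ => (h n).1)).nullMeasurableSet)
      (fun a b hab => sdiff_subset_sdiff_right
        (biUnion_subset_biUnion_left (Finset.coe_subset.2 (Finset.range_mono hab))))
      ⟨0, measure_ne_top _ _⟩
    have t2 : ⋂ N, ((⋃ n, E n) \ ⋃ n ∈ Finset.range N, E n) = ∅ := by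
      refine eq_empty_of_forall_notMem fun t ht => ?_
      obtain ⟨m, hm⟩ := mem_iUnion.1 (mem_iInter.1 ht 0).1
      exact (mem_iInter.1 ht (m + 1)).2 (mem_iUnion₂.2 ⟨m, Finset.self_mem_range_succ m, hm⟩)
    rw [t2, measure_empty] at t1
    exact (t1.eventually (gt_mem_nhds (pos_iff_ne_zero.2 hε2))).exists
  obtain ⟨W, hW⟩ := exists_inter_name V' N
  have k1 : Forces p fun U => IsSub Mod.mem ((fam V).val U) (CC.val U).top :=
    forces_forall_mem_fam (Φ := fun U x => Mod.mem x (CC.val U).top)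
      fun i q hq => ⟨q, le_rfl, ((g1 i).mono hq).imp fun _ h => h.1⟩
  have k2 : Forces p fun U => IsSub Mod.mem (X.val U) ((unionName (fam V)).val U) :=
    forces_forall fun x => forces_imp fun q hq hx => by
      obtain ⟨r, hr, n, hn⟩ := h2 q hq x hx
      exact ⟨r, hr, fun U hU => (mem_unionName _ U _).2 ⟨_, mem_fam V n U,
        ((g1 n).mono (hr.trans hq) U hU).2.2.1 _ (hn U hU)⟩⟩
  refine ⟨unionName (fam V), W, fun U hU => ⟨(isTop U).2.2.2 _ _ (k1 U hU) (mem_unionName _ U),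
    (hW U).1 fun n _ => (g1 n U hU).2.1, k2 U hU, fun x h3 h4 => ((hW U).2 x).2 ⟨h3, fun n _ =>
      (g1 n U hU).2.2.2 x h3 fun h5 => h4 (h1 n U hU x h5)⟩⟩,
    fun r hr d d1 d2 d3 => ?_, fun r hr d d1 d2 d3 => ?_⟩
  · obtain ⟨q, hq, s, b, b1, b2⟩ := cover2 (p := r) V
      (fun i => ((g1 i).mono hr).imp fun _ h => h.1) d1 d2 (by
        intro q hq x hx h3
        obtain ⟨y, hy⟩ := Forces.exists_name (p := q) (Φ := fun U y => Mod.mem y ((fam V).val U) ∧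
          Mod.mem ((elt x).val U) y) fun U hU => (mem_unionName _ U _).1
            (d3.mono hq U hU _ ((mem_NN_iff (d2.mono hq.1) hx U hU).2 h3))
        obtain ⟨t, ht, i, hi⟩ := (hy.imp fun _ h => h.1).exists_fam
        exact ⟨t, ht, i, ((hy.mono ht).and hi).imp fun U h => h.2 ▸ h.1.2⟩)
    rw [← d2.ell_mono hq]
    have b3 : ell q.c d \ ⋃ n, E n ⊆ ⋃ i ∈ s, ell q.c (b i) \ E i := fun t ht => by
      obtain ⟨i, hi, h3⟩ := mem_iUnion₂.1 (b2 ht.1)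
      exact mem_iUnion₂.2 ⟨i, hi, h3, fun h4 => ht.2 (mem_iUnion.2 ⟨i, h4⟩)⟩
    refine (measure_mono b3).trans ((measure_biUnion_finset_le _ _).trans
      ((Finset.sum_le_sum fun i _ => g2 i q (hq.trans hr) _ (b1 i).1 (b1 i).2.1 (b1 i).2.2).trans
        ((ENNReal.sum_le_tsum _).trans (η2.le.trans ENNReal.half_le_self))))
  · have b3 : ell r.c d \ (⋃ n, E n)ᶜ ⊆ ((⋃ n, E n) \ ⋃ n ∈ Finset.range N, E n) ∪
        ⋃ n ∈ Finset.range N, ell r.c d \ (E n)ᶜ := fun t ht => by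
      by_cases h3 : t ∈ ⋃ n ∈ Finset.range N, E n
      · obtain ⟨i, hi, h4⟩ := mem_iUnion₂.1 h3
        exact Or.inr (mem_iUnion₂.2 ⟨i, hi, ht.1, not_not.2 h4⟩)
      · exact Or.inl ⟨not_not.1 ht.2, h3⟩
    refine (measure_mono b3).trans ((measure_union_le _ _).trans ?_)
    rw [← ENNReal.add_halves ε]
    refine add_le_add hN.le ((measure_biUnion_finset_le _ _).trans
      ((Finset.sum_le_sum fun i hi => g3 i r hr _ d1 d2 fun U hU z hz => ?_).trans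
        ((ENNReal.sum_le_tsum _).trans η2.le)))
    exact (((hW U).2 z).1 (d3 U hU z hz)).2 i (Finset.mem_range.1 hi)

end Pool.Agent.P.MP_5a7e2f_gt
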