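import Pool.Agent.P.MP_5a7e2f_gt.Frag

namespace Pool.Agent.P.MP_5a7e2f_gt

open MeasureTheory Set Filter Topology

/-- signed distance to the two levels -/
def gap (α β : ℝ) (b : Bool) (t : ℝ) : ℝ := if b then t - β else α - t

lemma gap_lip (α β : ℝ) (b : Bool) (t t' : ℝ) : gap α β b t - |t' - t| ≤ gap α β b t' := by
  have := le_abs_self (t' - t)
  have := neg_abs_le (t' - t)
  cases b <;> simp only [gap, if_true, Bool.false_eq_true, if_false] <;> linarith

lemma gap_cont (α β : ℝ) (b : Bool) : Continuous (gap α β b) := by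
  cases b <;> unfold gap <;> simp only [if_true, Bool.false_eq_true, if_false] <;> fun_prop

section

variable {S X : Type} [TopologicalSpace S] [MeasurableSpace S] [BorelSpace S]
  [MetricSpace X] (μ : Measure S) (e : S → X → ℝ) (α β ε : ℝ)

/-- the set of functions oscillating on `Y` -/
def osc (Y : Set X) : Set S := {s | ∀ b, ∃ x ∈ Y, 0 < gap α β b (e s x)}

/-- the sigma-ideal generated by sets with small oscillation -/
def Tiny (Y : Set X) : Prop :=
  ∃ 𝒴 : Set (Set X), 𝒴.Countable ∧ Y ⊆ ⋃₀ 𝒴 ∧ ∀ Z ∈ 𝒴, μ.real (osc e α β Z) ≤ ε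

/-- closed and not tiny -/
def Big (F : Set X) : Prop := IsClosed F ∧ ¬ Tiny μ e α β ε F

/-- condensation points for convergence in measure -/
def core (F : Set X) : Set X :=
  {d ∈ F | ∀ m > 0, ∀ θ > 0, ∃ F' ⊆ F, Big μ e α β ε F' ∧
    ∀ x ∈ F', μ.real {s | m ≤ |e s x - e s d|} < θ}

variable {μ e α β ε}

omit [TopologicalSpace S] [MeasurableSpace S] [BorelSpace S] [MetricSpace X] in
lemma osc_mono {Y Y' : Set X} (h : Y ⊆ Y') : osc e α β Y ⊆ osc e α β Y' := fun _ hs b =>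
  let ⟨x, hx, h'⟩ := hs b; ⟨x, h hx, h'⟩

omit [MeasurableSpace S] [BorelSpace S] [MetricSpace X] in
lemma osc_open (he : Continuous e) (Y : Set X) : IsOpen (osc e α β Y) := by
  have : osc e α β Y = ⋂ b, ⋃ x ∈ Y, {s | 0 < gap α β b (e s x)} := by
    ext s; simp [osc]
  rw [this]
  exact isOpen_iInter_of_finite fun b => isOpen_biUnion fun x _ =>
    isOpen_lt continuous_const ((gap_cont α β b).comp ((continuous_apply x).comp he))

omit [TopologicalSpace S] [BorelSpace S] [MetricSpace X] in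
lemma Tiny.mono {Y Y' : Set X} (h : Tiny μ e α β ε Y') (h' : Y ⊆ Y') : Tiny μ e α β ε Y :=
  let ⟨𝒴, h1, h2, h3⟩ := h; ⟨𝒴, h1, h'.trans h2, h3⟩

omit [TopologicalSpace S] [BorelSpace S] [MetricSpace X] in
lemma Tiny.biUnion {ι : Type} {T : Set ι} (hT : T.Countable) {Y : ι → Set X}
    (h : ∀ i ∈ T, Tiny μ e α β ε (Y i)) : Tiny μ e α β ε (⋃ i ∈ T, Y i) := by
  choose! 𝒴 h1 h2 h3 using h
  refine ⟨⋃ i ∈ T, 𝒴 i, hT.biUnion h1, ?_, ?_⟩
  · refine iUnion₂_subset fun i hi => (h2 i hi).trans (sUnion_mono ?_)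
    exact subset_biUnion_of_mem (u := 𝒴) hi
  · intro Z hZ
    obtain ⟨i, hi, hZ⟩ := mem_iUnion₂.1 hZ
    exact h3 i hi Z hZ

omit [TopologicalSpace S] [BorelSpace S] [MetricSpace X] in
lemma Tiny.union {Y Y' : Set X} (h : Tiny μ e α β ε Y) (h' : Tiny μ e α β ε Y') :
    Tiny μ e α β ε (Y ∪ Y') := by
  obtain ⟨𝒴, h1, h2, h3⟩ := h
  obtain ⟨𝒴', h1', h2', h3'⟩ := h'
  refine ⟨𝒴 ∪ 𝒴', h1.union h1', ?_, fun Z hZ => hZ.elim (h3 Z) (h3' Z)⟩
  rw [sUnion_union]
  exact union_subset_union h2 h2'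

omit [TopologicalSpace S] [BorelSpace S] [MetricSpace X] in
lemma lt_of_not_tiny {Y : Set X} (h : ¬ Tiny μ e α β ε Y) : ε < μ.real (osc e α β Y) := by
  by_contra h'
  exact h ⟨{Y}, countable_singleton _, by simp, by simpa using h'⟩

variable [SecondCountableTopology X]

omit [TopologicalSpace S] [BorelSpace S] in
lemma exists_kernel {Y : Set X} (h : ¬ Tiny μ e α β ε Y) :
    ∃ Y' ⊆ Y, Y'.Nonempty ∧ ∀ z ∈ Y', ∀ r > 0, ¬ Tiny μ e α β ε (Y' ∩ Metric.ball z r) := by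
  set T := {B ∈ TopologicalSpace.countableBasis X | Tiny μ e α β ε (Y ∩ B)} with hT
  have hTc : T.Countable := (TopologicalSpace.countable_countableBasis X).mono (sep_subset _ _)
  have hU : Tiny μ e α β ε (⋃ B ∈ T, Y ∩ B) := Tiny.biUnion hTc fun B hB => hB.2
  refine ⟨Y \ ⋃ B ∈ T, Y ∩ B, sdiff_subset, ?_, ?_⟩
  · by_contra hne
    rw [not_nonempty_iff_eq_empty, sdiff_eq_empty] at hne
    exact h (hU.mono hne)
  · intro z hz r hr hs
    obtain ⟨B, hB, hzB, hBr⟩ := (TopologicalSpace.isBasis_countableBasis X).exists_subset_of_mem_open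
      (Metric.mem_ball_self hr) Metric.isOpen_ball (a := z)
    refine hz.2 (mem_iUnion₂.2 ⟨B, ⟨hB, (hs.union hU).mono fun x hx => ?_⟩, hz.1, hzB⟩)
    by_cases hx' : x ∈ ⋃ B ∈ T, Y ∩ B
    · exact Or.inr hx'
    · exact Or.inl ⟨⟨hx.1, hx'⟩, hBr hx.2⟩

omit [TopologicalSpace S] [BorelSpace S] in
lemma Big.shrink {F : Set X} (h : Big μ e α β ε F) {δ : ℝ} (hδ : 0 < δ) :
    ∃ F' ⊆ F, Big μ e α β ε F' ∧ ∃ z, F' ⊆ Metric.closedBall z δ := by
  obtain ⟨Y, hY, ⟨z, hz⟩, H⟩ := exists_kernel h.2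
  refine ⟨F ∩ Metric.closedBall z δ, inter_subset_left,
    ⟨h.1.inter Metric.isClosed_closedBall, fun h' => H z hz δ hδ (h'.mono ?_)⟩, z,
    inter_subset_right⟩
  exact inter_subset_inter hY Metric.ball_subset_closedBall

omit [TopologicalSpace S] [BorelSpace S] [SecondCountableTopology X] in
lemma core_mono {F F' : Set X} (h : F ⊆ F') : core μ e α β ε F ⊆ core μ e α β ε F' := by
  intro d hd
  refine ⟨h hd.1, fun m hm θ hθ => ?_⟩
  obtain ⟨F'', h1, h2⟩ := hd.2 m hm θ hθ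
  exact ⟨F'', h1.trans h, h2⟩

variable [IsProbabilityMeasure μ]

lemma Big.not_tiny_core (he : Continuous e) {Z : Set S} (hZ : μ Z = 0) (hF : ∀ s ∉ Z, Frag (e s))
    {F : Set X} (h : Big μ e α β ε F) : ¬ Tiny μ e α β ε (core μ e α β ε F) := by
  intro hc
  set B : ℕ → Set X := fun n => {d ∈ F | ¬ ∃ F' ⊆ F, Big μ e α β ε F' ∧
    ∀ x ∈ F', μ.real {s | 1 / ((n : ℝ) + 1) ≤ |e s x - e s d|} < 1 / ((n : ℝ) + 1)} with hB
  have hBt : ∀ n, Tiny μ e α β ε (B n) := by
    intro n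
    by_contra hn
    obtain ⟨Y, hY, hne, H⟩ := exists_kernel hn
    obtain ⟨z, hz, r, hr, H'⟩ := frag_measure μ e
      (fun x => ((continuous_apply x).comp he).measurable) hZ hF (closure Y) hne.closure
      (m := 1 / ((n : ℝ) + 1)) (θ := 1 / ((n : ℝ) + 1)) (by positivity) (by positivity)
    obtain ⟨d, hd, hzd⟩ := Metric.mem_closure_iff.1 hz (r / 2) (by positivity)
    rw [dist_comm] at hzd
    refine (hY hd).2 ⟨closure Y ∩ Metric.closedBall d (r / 2), ?_,
      ⟨isClosed_closure.inter Metric.isClosed_closedBall,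
        fun h' => H d hd (r / 2) (by positivity) (h'.mono ?_)⟩, fun x hx => ?_⟩
    · exact inter_subset_left.trans (closure_minimal (fun y hy => (hY hy).1) h.1)
    · exact inter_subset_inter subset_closure Metric.ball_subset_closedBall
    · refine H' x hx.1 d (subset_closure hd) ?_ (by linarith)
      have := dist_triangle x d z
      have := Metric.mem_closedBall.1 hx.2
      linarith
  refine h.2 ((hc.union (Tiny.biUnion countable_univ fun n _ => hBt n)).mono fun d hd => ?_)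
  by_cases hd' : d ∈ ⋃ n ∈ (univ : Set ℕ), B n
  · exact Or.inr hd'
  · left
    refine ⟨hd, fun m hm θ hθ => ?_⟩
    obtain ⟨n, hn⟩ := exists_nat_one_div_lt (lt_min hm hθ)
    have h0 : d ∉ B n := fun h => hd' (mem_iUnion₂.2 ⟨n, mem_univ _, h⟩)
    obtain ⟨F', h1, h2, h3⟩ := not_not.1 fun h => h0 ⟨hd, h⟩
    refine ⟨F', h1, h2, fun x hx => ?_⟩
    refine lt_of_le_of_lt (measureReal_mono fun s hs => ?_)
      ((h3 x hx).trans (hn.trans_le (min_le_right _ _)))
    exact (hn.le.trans (min_le_left _ _)).trans hs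

variable (μ e α β ε) in
/-- families whose oscillation sets keep a common part under shrinking -/
def Robust {ι : Type} (I : Finset ι) (F : ι → Set X) : Prop :=
  (∀ i ∈ I, Big μ e α β ε (F i)) ∧ ∃ η > 0, ∀ F' : ι → Set X,
    (∀ i ∈ I, F' i ⊆ F i ∧ Big μ e α β ε (F' i)) →
    η ≤ μ.real (⋂ i ∈ I, osc e α β (core μ e α β ε (F' i)))

omit [TopologicalSpace S] [BorelSpace S] [SecondCountableTopology X] [IsProbabilityMeasure μ] in
lemma Robust.sub {ι : Type} {I : Finset ι} {F F' : ι → Set X} (h : Robust μ e α β ε I F)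
    (h' : ∀ i ∈ I, F' i ⊆ F i ∧ Big μ e α β ε (F' i)) : Robust μ e α β ε I F' := by
  obtain ⟨_, η, hη, H⟩ := h
  exact ⟨fun i hi => (h' i hi).2, η, hη, fun F'' h'' =>
    H F'' fun i hi => ⟨(h'' i hi).1.trans (h' i hi).1, (h'' i hi).2⟩⟩

omit [SecondCountableTopology X] in
lemma Big.stab (he : Continuous e) {F : Set X} (h : Big μ e α β ε F) {η : ℝ} (hη : 0 < η) :
    ∃ F' ⊆ F, Big μ e α β ε F' ∧ ∀ F'' ⊆ F', Big μ e α β ε F'' →
      μ.real (osc e α β (core μ e α β ε F') \ osc e α β (core μ e α β ε F'')) ≤ η := by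
  set T : Set ℝ := {r | ∃ F' ⊆ F, Big μ e α β ε F' ∧
    r = μ.real (osc e α β (core μ e α β ε F'))} with hT
  have hne : T.Nonempty := ⟨_, F, Subset.rfl, h, rfl⟩
  have hbd : BddBelow T := ⟨0, by rintro r ⟨F', _, _, rfl⟩; exact measureReal_nonneg⟩
  obtain ⟨r, ⟨F', h1, h2, rfl⟩, hr⟩ := Real.lt_sInf_add_pos hne hη
  refine ⟨F', h1, h2, fun F'' h3 h4 => ?_⟩
  have := csInf_le hbd (show _ ∈ T from ⟨F'', h3.trans h1, h4, rfl⟩)
  rw [measureReal_sdiff (osc_mono (core_mono h3)) (osc_open he _).measurableSet]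
  linarith

omit [SecondCountableTopology X] in
lemma Robust.double (he : Continuous e) {ι κ : Type} {I : Finset ι} {F : ι → Set X}
    (h : Robust μ e α β ε I F) (I' : Finset κ) (π : κ → ι) (hπ : ∀ j ∈ I', π j ∈ I) :
    ∃ F' : ι → Set X, (∀ i ∈ I, F' i ⊆ F i) ∧ Robust μ e α β ε I' (fun j => F' (π j)) := by
  obtain ⟨hb, η, hη, H⟩ := h
  choose! F' h1 h2 h3 using fun i (hi : i ∈ I) =>
    (hb i hi).stab he (η := η / 2 / (I'.card + 1)) (by positivity)
  refine ⟨F', h1, fun j hj => h2 _ (hπ j hj), η / 2, by positivity, fun F'' h'' => ?_⟩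
  have a1 := H F' fun i hi => ⟨h1 i hi, h2 i hi⟩
  have a2 : (⋂ i ∈ I, osc e α β (core μ e α β ε (F' i))) ⊆
      (⋂ j ∈ I', osc e α β (core μ e α β ε (F'' j))) ∪ ⋃ j ∈ I',
        (osc e α β (core μ e α β ε (F' (π j))) \ osc e α β (core μ e α β ε (F'' j))) := by
    intro s hs
    by_cases h : s ∈ ⋂ j ∈ I', osc e α β (core μ e α β ε (F'' j))
    · exact Or.inl h
    · right
      simp only [mem_iInter, not_forall] at h hs
      obtain ⟨j, hj, h⟩ := h
      exact mem_iUnion₂.2 ⟨j, hj, hs _ (hπ j hj), h⟩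
  have a3 := (measureReal_mono (μ := μ) a2).trans ((measureReal_union_le _ _).trans
    (add_le_add le_rfl (measureReal_biUnion_finset_le _ _)))
  have a4 : ∑ j ∈ I', μ.real (osc e α β (core μ e α β ε (F' (π j))) \
      osc e α β (core μ e α β ε (F'' j))) ≤ η / 2 := by
    refine (Finset.sum_le_card_nsmul _ _ _ fun j hj =>
      h3 _ (hπ j hj) _ (h'' j hj).1 (h'' j hj).2).trans ?_
    rw [nsmul_eq_mul, mul_div_assoc', div_le_iff₀ (by positivity)]
    nlinarith
  linarith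

lemma Robust.pattern [Nonempty X] (he : Continuous e) (hsupp : μ μ.supportᶜ = 0) {Z : Set S} (hZ : μ Z = 0)
    {ι : Type} {I : Finset ι} {F : ι → Set X} (h : Robust μ e α β ε I F) (σ : ι → Bool)
    {δ : ℝ} (hδ : 0 < δ) :
    ∃ F' : ι → Set X, (∀ i ∈ I, F' i ⊆ F i ∧ Big μ e α β ε (F' i) ∧
        ∃ z, F' i ⊆ Metric.closedBall z δ) ∧
      ∀ x : ι → X, (∀ i ∈ I, x i ∈ F' i) → ∃ s ∉ Z, ∀ i ∈ I, 0 ≤ gap α β (σ i) (e s (x i)) := by
  obtain ⟨hb, η, hη, H⟩ := h
  have a1 := H F fun i hi => ⟨Subset.rfl, hb i hi⟩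
  obtain ⟨s₀, hs₀, hs₀'⟩ : ∃ s ∈ ⋂ i ∈ I, osc e α β (core μ e α β ε (F i)), s ∈ μ.support := by
    by_contra hcon
    push Not at hcon
    rw [(measureReal_eq_zero_iff (μ := μ)).2 (measure_mono_null hcon hsupp)] at a1
    linarith
  choose! d hd hd' using fun i (hi : i ∈ I) => mem_iInter₂.1 hs₀ i hi (σ i)
  obtain ⟨m, hm, hm'⟩ : ∃ m > 0, ∀ i ∈ I, m < gap α β (σ i) (e s₀ (d i)) := by
    have : ∀ᶠ m in 𝓝[>] (0 : ℝ), ∀ i ∈ I, m < gap α β (σ i) (e s₀ (d i)) :=
      (eventually_all_finset I).2 fun i hi => nhdsWithin_le_nhds (eventually_lt_nhds (hd' i hi))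
    obtain ⟨m, h1, h2⟩ := (this.and self_mem_nhdsWithin).exists
    exact ⟨m, h2, h1⟩
  set O : Set S := ⋂ i ∈ I, {s | m < gap α β (σ i) (e s (d i))} with hO
  have hOo : IsOpen O := isOpen_biInter_finset fun i _ =>
    isOpen_lt continuous_const ((gap_cont α β _).comp ((continuous_apply _).comp he))
  have hOp : 0 < μ.real O :=
    ENNReal.toReal_pos ((Measure.mem_support_iff_forall s₀).1 hs₀' O
      (hOo.mem_nhds (mem_iInter₂.2 hm'))).ne' (measure_ne_top _ _)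
  choose! F₁ h1 h2 h3 using fun i (hi : i ∈ I) =>
    (hd i hi).2 m hm (μ.real O / (I.card + 1)) (by positivity)
  choose! F₂ h4 h5 h6 using fun i (hi : i ∈ I) => (h2 i hi).shrink hδ
  refine ⟨F₂, fun i hi => ⟨(h4 i hi).trans (h1 i hi), h5 i hi, h6 i hi⟩, fun x hx => ?_⟩
  by_contra hcon
  push Not at hcon
  have a2 : O ⊆ Z ∪ ⋃ i ∈ I, {s | m ≤ |e s (x i) - e s (d i)|} := by
    intro s hs
    by_cases hsZ : s ∈ Z
    · exact Or.inl hsZ
    · obtain ⟨i, hi, h⟩ := hcon s hsZ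
      refine Or.inr (mem_iUnion₂.2 ⟨i, hi, ?_⟩)
      have h7 : m < gap α β (σ i) (e s (d i)) := mem_iInter₂.1 hs i hi
      have := gap_lip α β (σ i) (e s (d i)) (e s (x i))
      show m ≤ _
      linarith
  have a3 := (measureReal_mono (μ := μ) a2).trans ((measureReal_union_le _ _).trans
    (add_le_add le_rfl (measureReal_biUnion_finset_le _ _)))
  rw [(measureReal_eq_zero_iff (μ := μ)).2 hZ] at a3
  have a4 : ∑ i ∈ I, μ.real {s | m ≤ |e s (x i) - e s (d i)|} ≤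
      I.card • (μ.real O / (I.card + 1)) :=
    Finset.sum_le_card_nsmul _ _ _ fun i hi => (h3 i hi _ (h4 i hi (hx i hi))).le
  rw [nsmul_eq_mul, mul_div_assoc', le_div_iff₀ (by positivity)] at a4
  have : (0 : ℝ) ≤ I.card := by positivity
  nlinarith

end

/-- sequences that are constant from position `k` on -/
def lev (k : ℕ) : Set (ℕ → Bool) := {z | ∀ i ≥ k, z i = z k}

/-- truncation -/
def trunc (k : ℕ) (z : ℕ → Bool) : ℕ → Bool := fun i => z (min i k)

lemma trunc_mem (k : ℕ) (z : ℕ → Bool) : trunc k z ∈ lev k := fun i hi => by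
  simp [trunc, min_eq_right hi]

lemma trunc_eq {k : ℕ} {z : ℕ → Bool} (h : z ∈ lev k) : trunc k z = z := by
  ext i
  rcases le_total i k with h' | h'
  · simp [trunc, min_eq_left h']
  · simp [trunc, min_eq_right h', h i h']

lemma lev_mono {k n : ℕ} (h : k ≤ n) : lev k ⊆ lev n := fun z hz i hi => by
  rw [hz i (h.trans hi), hz n h]

lemma lev_finite (k : ℕ) : (lev k).Finite := by
  refine (finite_range fun f : Fin (k + 1) → Bool =>
    fun i => f ⟨min i k, by omega⟩).subset fun z hz => ⟨fun i => z i, ?_⟩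
  exact trunc_eq hz

theorem tiny_univ {S X : Type} [TopologicalSpace S] [CompactSpace S] [MeasurableSpace S]
    [BorelSpace S] [MetricSpace X] [CompleteSpace X] [SecondCountableTopology X]
    (μ : Measure S) [IsProbabilityMeasure μ] (hsupp : μ μ.supportᶜ = 0)
    (e : S → X → ℝ) (he : Continuous e) (hF : ∀ s ∈ μ.support, Frag (e s))
    {α β ε : ℝ} (hαβ : α < β) (hε : 0 < ε) : Tiny μ e α β ε univ := by
  by_contra hcon
  have hF' : ∀ s ∉ μ.supportᶜ, Frag (e s) := fun s hs => hF s (not_not.1 hs)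
  have : Nonempty X := by
    obtain ⟨_, _, ⟨y, _⟩, _⟩ := exists_kernel hcon
    exact ⟨y⟩
  set I : ℕ → Finset (ℕ → Bool) := fun k => (lev_finite k).toFinset with hI
  have hIm : ∀ k z, z ∈ I k ↔ z ∈ lev k := fun k z => by simp [hI]
  have r0 : Robust μ e α β ε ({()} : Finset Unit) (fun _ => univ) := by
    refine ⟨fun _ _ => ⟨isClosed_univ, hcon⟩, ε, hε, fun F' h => ?_⟩
    rw [Finset.set_biInter_singleton]
    exact (lt_of_not_tiny ((h () (by simp)).2.not_tiny_core he hsupp hF')).le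
  obtain ⟨F₀, _, r1⟩ := r0.double he (I 0) (fun _ => ()) (by simp)
  have step : ∀ (k : ℕ) (F : (ℕ → Bool) → Set X), Robust μ e α β ε (I k) F →
      ∃ F' : (ℕ → Bool) → Set X, Robust μ e α β ε (I (k + 1)) F' ∧
        (∀ z ∈ lev (k + 1), F' z ⊆ F (trunc k z) ∧
          ∃ c, F' z ⊆ Metric.closedBall c ((1 / 2) ^ k)) ∧
        ∀ x : (ℕ → Bool) → X, (∀ z ∈ lev (k + 1), x z ∈ F' z) →
          ∃ s ∈ μ.support, ∀ z ∈ lev (k + 1), 0 ≤ gap α β (z (k + 1)) (e s (x z)) := by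
    intro k F hr
    obtain ⟨F₁, h1, h2⟩ := hr.double he (I (k + 1)) (trunc k)
      (fun z _ => (hIm _ _).2 (trunc_mem k z))
    obtain ⟨F₂, h3, h4⟩ := h2.pattern he hsupp hsupp (fun z => z (k + 1))
      (δ := (1 / 2) ^ k) (by positivity)
    refine ⟨F₂, h2.sub fun z hz => ⟨(h3 z hz).1, (h3 z hz).2.1⟩, fun z hz => ?_, fun x hx => ?_⟩
    · have := h3 z ((hIm _ _).2 hz)
      exact ⟨this.1.trans (h1 _ ((hIm _ _).2 (trunc_mem k z))), this.2.2⟩
    · obtain ⟨s, hs, hs'⟩ := h4 x fun z hz => hx z ((hIm _ _).1 hz)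
      exact ⟨s, not_not.1 hs, fun z hz => hs' z ((hIm _ _).2 hz)⟩
  choose G hG1 hG2 hG3 using step
  let F : ∀ k : ℕ, {F : (ℕ → Bool) → Set X // Robust μ e α β ε (I k) F} := fun k =>
    Nat.rec ⟨_, r1⟩ (fun k F => ⟨G k F.1 F.2, hG1 k F.1 F.2⟩) k
  have p1 : ∀ k, ∀ z ∈ lev k, Big μ e α β ε ((F k).1 z) := fun k z hz =>
    (F k).2.1 z ((hIm _ _).2 hz)
  have p2 : ∀ k, ∀ z ∈ lev (k + 1), (F (k + 1)).1 z ⊆ (F k).1 (trunc k z) ∧
      ∃ c, (F (k + 1)).1 z ⊆ Metric.closedBall c ((1 / 2) ^ k) := fun k => hG2 k (F k).1 (F k).2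
  have p3 : ∀ k, ∀ x : (ℕ → Bool) → X, (∀ z ∈ lev (k + 1), x z ∈ (F (k + 1)).1 z) →
      ∃ s ∈ μ.support, ∀ z ∈ lev (k + 1), 0 ≤ gap α β (z (k + 1)) (e s (x z)) :=
    fun k => hG3 k (F k).1 (F k).2
  have p4 : ∀ k, ∀ z ∈ lev k, ∀ n ≥ k, ∀ n' ≥ n, (F n').1 z ⊆ (F n).1 z := by
    intro k z hz n hn n' hn'
    induction n', hn' using Nat.le_induction with
    | base => exact Subset.rfl
    | succ n' hn' ih =>
      have := (p2 n' z (lev_mono (by omega) hz)).1
      rw [trunc_eq (lev_mono (by omega) hz)] at this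
      exact this.trans ih
  have p5 : ∀ z : ℕ → Bool, (∃ k, z ∈ lev k) → ∃ y, ∀ n, z ∈ lev n → y ∈ (F n).1 z := by
    rintro z ⟨k, hz⟩
    have hb : ∀ n, ∃ c, (F (k + n + 1)).1 z ⊆ Metric.closedBall c ((1 / 2) ^ (k + n)) :=
      fun n => (p2 (k + n) z (lev_mono (by omega) hz)).2
    obtain ⟨y, hy⟩ := Metric.nonempty_iInter_of_nonempty_biInter
      (s := fun n => (F (k + n + 1)).1 z) (fun n => (p1 _ z (lev_mono (by omega) hz)).1)
      (fun n => by
        obtain ⟨c, hc⟩ := hb n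
        exact Metric.isBounded_closedBall.subset hc)
      (fun N => by
        obtain ⟨Y, hY, ⟨y, hy⟩, _⟩ := exists_kernel (p1 (k + N + 1) z (lev_mono (by omega) hz)).2
        exact ⟨y, mem_iInter₂.2 fun n hn => p4 k z hz _ (by omega) _ (by omega) (hY hy)⟩)
      (by
        refine squeeze_zero (fun _ => Metric.diam_nonneg) (g := fun n => 2 * (1 / 2 : ℝ) ^ n)
          (fun n => ?_) ?_
        · obtain ⟨c, hc⟩ := hb n
          refine (Metric.diam_le_of_subset_closedBall (by positivity) hc).trans ?_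
          have : (1 / 2 : ℝ) ^ (k + n) ≤ (1 / 2) ^ n :=
            pow_le_pow_of_le_one (by norm_num) (by norm_num) (by omega)
          linarith
        · simpa using (tendsto_pow_atTop_nhds_zero_of_lt_one (r := (1 / 2 : ℝ)) (by norm_num)
            (by norm_num)).const_mul 2)
    exact ⟨y, fun n hn => p4 n z hn n le_rfl (k + n + 1) (by omega) (mem_iInter.1 hy n)⟩
  choose! y hy using p5
  obtain ⟨s, hs⟩ := IsCompact.nonempty_iInter_of_sequence_nonempty_isCompact_isClosed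
    (fun k => μ.support ∩ ⋂ z ∈ lev (k + 1), {s | 0 ≤ gap α β (z (k + 1)) (e s (y z))})
    (fun k s hs => ⟨hs.1, mem_iInter₂.2 fun z hz => by
      have := mem_iInter₂.1 hs.2 z (lev_mono (by omega) hz)
      rwa [hz (k + 1 + 1) (by omega)] at this⟩)
    (fun k => by
      obtain ⟨s, h1, h2⟩ := p3 k y fun z hz => hy z ⟨_, hz⟩ _ hz
      exact ⟨s, h1, mem_iInter₂.2 h2⟩)
    ((Measure.isClosed_support.inter (isClosed_biInter fun z _ => isClosed_le continuous_const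
      ((gap_cont α β _).comp ((continuous_apply _).comp he)))).isCompact)
    (fun k => Measure.isClosed_support.inter (isClosed_biInter fun z _ =>
      isClosed_le continuous_const ((gap_cont α β _).comp ((continuous_apply _).comp he))))
  obtain ⟨_, ⟨z, ⟨k, hz⟩, rfl⟩, r, hr, H⟩ := hF s (mem_iInter.1 hs 0).1
    (y '' {z | ∃ k, z ∈ lev k}) ⟨_, fun _ => true, ⟨0, fun _ _ => rfl⟩, rfl⟩ (β - α)
    (sub_pos.2 hαβ)
  obtain ⟨n, hn⟩ := exists_pow_lt_of_lt_one (half_pos hr) (show (1 / 2 : ℝ) < 1 by norm_num)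
  set N := k + n with hN
  have key : ∀ b : Bool, ∃ x ∈ y '' {z | ∃ k, z ∈ lev k}, dist x (y z) < r ∧
      0 ≤ gap α β b (e s x) := by
    intro b
    set w : ℕ → Bool := fun i => if i ≤ N + 1 then z i else b with hw
    have hwl : w ∈ lev (N + 2) := fun i hi => by
      simp only [hw]; rw [if_neg (by omega), if_neg (by omega)]
    have hwt : trunc (N + 1) w = z := by
      rw [← trunc_eq (lev_mono (show k ≤ N + 1 by omega) hz)]
      ext i
      simp [trunc, hw]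
    refine ⟨y w, ⟨w, ⟨_, hwl⟩, rfl⟩, ?_, ?_⟩
    · have h1 := (p2 (N + 1) w hwl).1 (hy w ⟨_, hwl⟩ _ hwl)
      rw [hwt] at h1
      have h2 := hy z ⟨_, hz⟩ (N + 1) (lev_mono (by omega) hz)
      obtain ⟨c, hc⟩ := (p2 N z (lev_mono (by omega) hz)).2
      have h3 := Metric.mem_closedBall.1 (hc h1)
      have h4 := Metric.mem_closedBall.1 (hc h2)
      have h5 := dist_triangle_right (y w) (y z) c
      have : (1 / 2 : ℝ) ^ N ≤ (1 / 2) ^ n :=
        pow_le_pow_of_le_one (by norm_num) (by norm_num) (by omega)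
      linarith
    · have := mem_iInter₂.1 (mem_iInter.1 hs (N + 1)).2 w hwl
      have e1 : w (N + 1 + 1) = b := by simp only [hw]; rw [if_neg (by omega)]
      rwa [e1] at this
  obtain ⟨x, hx, h1, h2⟩ := key true
  obtain ⟨x', hx', h1', h2'⟩ := key false
  have := (abs_lt.1 (H x hx x' hx' h1 h1')).2
  simp only [gap, if_true, Bool.false_eq_true, if_false] at h2 h2'
  linarith

end Pool.Agent.P.MP_5a7e2f_gt
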