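import Pool.Agent.P.MP_5a7e2f_gt.Reals

set_option autoImplicit false
set_option synthInstance.maxSize 100000
set_option linter.unusedSectionVars false

open Pool.Agent.Lib.PosetForcing

namespace Pool.Agent.P.MP_5a7e2f_gt

variable {P : Type} [Preorder P] [OrderTop P]

/-- name of a sequence -/
noncomputable def seqName (A : ℕ → Name P) : Name P := funName (fun n : ℕ => natName n) A

theorem app_seq {A : ℕ → Name P} {n : ℕ} {U : Gen P} {y : Mod U} :
    App Mod.mem ((seqName A).val U) ((natName n).val U) y ↔ y = (A n).val U :=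
  ⟨fun h => forall_app_fun (Φ := fun U x y => x = (natName n).val U → y = (A n).val U)
    (fun i U h => by rw [natName_inj h]) U _ _ h rfl,
    fun h => h ▸ app_funName (fun n : ℕ => natName n) A n U⟩

/-- name of a finite sequence -/
noncomputable def finName (N : ℕ) (A : ℕ → Name P) : Name P :=
  funName (fun i : Fin N => natName i) fun i => A i

theorem app_fin {N : ℕ} {A : ℕ → Name P} {U : Gen P} {x y : Mod U} :
    App Mod.mem ((finName N A).val U) x y ↔ ∃ m < N, x = (natName m).val U ∧ y = (A m).val U :=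
  ⟨forall_app_fun (Φ := fun U x y => ∃ m < N, x = (natName m).val U ∧ y = (A m).val U)
    (fun (i : Fin N) _ => ⟨i, i.2, rfl, rfl⟩) U _ _, by
      rintro ⟨m, hm, rfl, rfl⟩
      exact app_funName (fun i : Fin N => natName i) (fun i => A i) ⟨m, hm⟩ U⟩

theorem isFunOn_fin {N : ℕ} {A : ℕ → Name P} {U : Gen P} {V : Mod U → Prop}
    (h : ∀ m < N, V ((A m).val U)) :
    IsFunOn Mod.mem ((finName N A).val U) ((natName N).val U) V := by
  refine ⟨fun p hp => ?_, fun x hx => ?_, fun x y y' h1 h2 => ?_⟩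
  · obtain ⟨m, hm, h1⟩ := forall_mem_fam
      (A := fun i : Fin N => pairName (natName i) (A i))
      (Φ := fun U p => ∃ m < N, IsPair Mod.mem p ((natName m).val U) ((A m).val U))
      (fun i U => ⟨i, i.2, isPair_pairName _ _ U⟩) U p hp
    exact ⟨_, _, h1, natName_mem hm U, h m hm⟩
  · obtain ⟨m, hm, rfl⟩ := (mem_natName U x).1 hx
    exact ⟨_, app_fin.2 ⟨m, hm, rfl, rfl⟩⟩
  · obtain ⟨m, -, rfl, rfl⟩ := app_fin.1 h1
    obtain ⟨k, -, h3, rfl⟩ := app_fin.1 h2
    rw [natName_inj h3]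

theorem mem_fam_finset {ι : Type} (s : Finset ι) (A : ι → Name P) (U : Gen P) (x : Mod U) :
    Mod.mem x ((fam fun i : s => A i).val U) ↔ ∃ i ∈ s, x = (A i).val U :=
  ⟨forall_mem_fam (Φ := fun U x => ∃ i ∈ s, x = (A i).val U) (fun (i : s) _ => ⟨i, i.2, rfl⟩) U x,
    fun ⟨i, hi, h⟩ => h ▸ mem_fam (fun i : s => A i) ⟨i, hi⟩ U⟩

variable {C : Ctx (Name P)} [hC : Std C]

theorem forces_isFunOn_seq {A : ℕ → Name P} {V : ∀ U : Gen P, Mod U → Prop}
    [∀ a : Name P, Clopen fun U => V U (a.val U)] {p : P}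
    (h : ∀ n, Forces p fun U => V U ((A n).val U)) :
    Forces p fun U => IsFunOn Mod.mem ((seqName A).val U) (C.val U).w (V U) := by
  show Forces p fun U => IsFunOn Mod.mem ((seqName A).val U) (C.w.val U) (V U)
  rw [hC.w]
  refine forces_isFunOn_graph (fun i q hq _ => ⟨q, le_rfl,
    (Forces.of_forall (natName_mem_omega i) q).and ((h i).mono hq)⟩)
    (fun j q _ _ => ⟨q, le_rfl, j.down, le_top, Forces.of_forall (fun _ => rfl) q⟩)
    fun i j q _ _ _ h => ⟨q, le_rfl, Forces.of_forall (fun _ => by rw [h.natName_inj]) q⟩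

theorem fin_cover {p : P} {A : Name P} (h : Forces p fun U => IsFin Mod.mem (C.val U) (A.val U)) :
    ∃ q ≤ p, ∃ (s : Finset ℕ) (a : ℕ → Name P),
      Forces q fun U => ∀ x, Mod.mem x (A.val U) ↔ ∃ i ∈ s, x = (a i).val U := by
  classical
  obtain ⟨n, hn⟩ := h.exists_name
  obtain ⟨p1, hp1, N, hN⟩ := dec_nat (C := C) (hn.imp fun _ h => h.1)
  obtain ⟨j, hj⟩ := Forces.exists_name (Φ := fun U j => IsInj Mod.mem j (A.val U) (n.val U))
    (hn.imp fun _ h => h.2)
  choose a ha using fun i : ℕ =>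
    max_principle (P := P) fun U x => App Mod.mem (j.val U) x ((natName i : Name P).val U)
  obtain ⟨q, hq, b, hb⟩ := exists_decide_lt N (fun m U => Mod.mem ((a m).val U) (A.val U)) p1
  refine ⟨q, hq.trans hp1, (Finset.range N).filter fun m => b m = true, a, fun U hU x => ?_⟩
  have h1 := hj.mono (hq.trans hp1) U hU
  beta_reduce at h1
  rw [hN.mono hq U hU] at h1
  constructor
  · intro hx
    obtain ⟨y, hy⟩ := h1.1.2.1 x hx
    obtain ⟨m, hm, rfl⟩ := (mem_natName U y).1 ((isZFC U).app_val h1.1 hy).2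
    have e := h1.2 _ _ _ hy (ha m U ⟨x, hy⟩)
    exact ⟨m, Finset.mem_filter.2 ⟨Finset.mem_range.2 hm, (hb m hm U hU).1 (e ▸ hx)⟩, e⟩
  · rintro ⟨m, hm, rfl⟩
    rw [Finset.mem_filter, Finset.mem_range] at hm
    exact (hb m hm.1 U hU).2 hm.2

theorem isFin_fam {ι : Type} [Fintype ι] (A : ι → Name P) (U : Gen P) :
    IsFin Mod.mem (C.val U) ((fam A).val U) := by
  refine ⟨_, nat_mem_w (Fintype.card ι) U, ?_⟩
  revert U
  refine of_forces_all fun p => ⟨p, le_rfl, forces_leCard A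
    (fun i => natName (Fintype.equivFin ι i)) (fun x q _ h => h.exists_fam)
    (fun i => Forces.of_forall (natName_mem (Fintype.equivFin ι i).2) p) fun i j hne q _ h =>
      hne ((Fintype.equivFin ι).injective (Fin.ext h.natName_inj))⟩

theorem leCard_fam {ι : Type} [Countable ι] (A : ι → Name P) (U : Gen P) :
    LeCard Mod.mem ((fam A).val U) (C.val U).w := by
  obtain ⟨f, hf⟩ := exists_injective_nat ι
  revert U
  exact of_forces_all fun p => ⟨p, le_rfl, forces_leCard A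
    (fun i => natName (f i)) (fun x q _ h => h.exists_fam)
    (fun i => Forces.of_forall (nat_mem_w (f i)) p) fun i j hne q _ h => hne (hf h.natName_inj)⟩

theorem psums_eval {U : Gen P} {term : Mod U → Mod U → Prop} {s n : Mod U}
    (h : PSums Mod.mem (C.val U) term s n) (b : ℕ → ℝ) (k : ℕ)
    (hb : ∀ i < k, Mod.mem ((natName i).val U) n ∧ term ((natName i).val U) ((elt (b i)).val U)) :
    App Mod.mem s ((natName k).val U) ((elt (∑ i ∈ Finset.range k, b i)).val U) := by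
  induction k with
  | zero =>
    rw [Finset.sum_range_zero, ← zero_eq (C := C)]
    exact h.2.1 _ fun x => by simp [mem_natName]
  | succ k ih =>
    rw [Finset.sum_range_succ]
    exact h.2.2 _ _ _ _ _ (hb k (by omega)).1 (natName_succ k U)
      (ih fun i hi => hb i (by omega)) (hb k (by omega)).2 (radd_iff.2 rfl)

theorem psums_seq {U : Gen P} {term : Mod U → Mod U → Prop} (b : ℕ → ℝ) (N : ℕ)
    (hb : ∀ i < N, ∀ y, term ((natName i).val U) y → y = (elt (b i)).val U) :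
    PSums Mod.mem (C.val U) term ((seqName fun k => elt (∑ i ∈ Finset.range k, b i)).val U)
      ((natName N).val U) := by
  refine ⟨of_forces_all (Φ := fun U => IsFun Mod.mem
    ((seqName fun k => elt (∑ i ∈ Finset.range k, b i)).val U) (C.val U).w (C.val U).R)
    (fun p => ⟨p, le_rfl, forces_isFunOn_seq (V := fun U y => Mod.mem y (C.val U).R)
      fun n => Forces.of_forall (elt_mem_R _) p⟩) U, fun e he => ?_,
    fun i j a y c hi hj ha hy hc => ?_⟩
  · have : e = (natName 0).val U := Mod.ext _ _ fun z => by simp [mem_natName, he]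
    rw [this, app_seq, zero_eq, Finset.sum_range_zero]
  · obtain ⟨m, hm, rfl⟩ := (mem_natName U i).1 hi
    have : j = (natName (m + 1)).val U :=
      Mod.ext _ _ fun z => (hj z).trans (natName_succ m U z).symm
    rw [app_seq.1 ha, hb m hm y hy, radd_iff] at hc
    rw [this, app_seq, hc, Finset.sum_range_succ]

section sigma
variable {U : Gen P} {A : Mod U}

theorem sigma_union (h : IsSigma Mod.mem (C.val U) A) {B B' : Mod U} (h1 : Mod.mem B A)
    (h2 : Mod.mem B' A) : ∃ X, Mod.mem X A ∧ ∀ x, Mod.mem x X ↔ Mod.mem x B ∨ Mod.mem x B' := by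
  obtain ⟨A, rfl⟩ := A.exists_name
  obtain ⟨B, rfl⟩ := B.exists_name
  obtain ⟨B', rfl⟩ := B'.exists_name
  have e : ∀ x, Mod.mem x ((unionName (upairName B B')).val U) ↔
      Mod.mem x (B.val U) ∨ Mod.mem x (B'.val U) := fun x => by
    simp only [mem_unionName, mem_upairName, exists_eq_or_imp, exists_eq_left]
  refine ⟨_, h.2.2.2 ((seqName fun n => if n = 0 then B else B').val U) _ ?_ fun x => ?_, e⟩
  · clear e h
    revert U
    refine @by_forcing2 P _ _ _ _ _ _ _ fun p h1 h2 => ?_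
    refine ⟨p, le_rfl, forces_isFunOn_seq (V := fun U y => Mod.mem y (A.val U)) fun n => ?_⟩
    split_ifs
    exacts [h1, h2]
  · rw [e]
    constructor
    · rintro (h | h)
      · exact ⟨_, _, (app_seq (n := 0)).2 rfl, h⟩
      · exact ⟨_, _, (app_seq (n := 1)).2 rfl, h⟩
    · rintro ⟨n, D, h3, h4⟩
      rcases forall_app_fun (Φ := fun U _ D => D = B.val U ∨ D = B'.val U) (fun i U => by
        split_ifs <;> simp) U n D h3 with rfl | rfl
      exacts [Or.inl h4, Or.inr h4]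

theorem sigma_compl (h : IsSigma Mod.mem (C.val U) A) {B : Mod U} (h1 : Mod.mem B A) :
    ∃ X, Mod.mem X A ∧ ∀ x, Mod.mem x X ↔ Mod.mem x (C.val U).S ∧ ¬ Mod.mem x B := by
  obtain ⟨B, rfl⟩ := B.exists_name
  obtain ⟨X, hX⟩ := Mod.sep (fun U x => ¬ Mod.mem x (B.val U)) U (C.val U).S
  exact ⟨X, h.2.2.1 _ _ h1 hX, hX⟩

theorem sigma_inter (h : IsSigma Mod.mem (C.val U) A) {B B' : Mod U} (h1 : Mod.mem B A)
    (h2 : Mod.mem B' A) : ∃ X, Mod.mem X A ∧ ∀ x, Mod.mem x X ↔ Mod.mem x B ∧ Mod.mem x B' := by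
  obtain ⟨D, d1, d2⟩ := sigma_compl h h1
  obtain ⟨D', d3, d4⟩ := sigma_compl h h2
  obtain ⟨E, e1, e2⟩ := sigma_union h d1 d3
  obtain ⟨X, x1, x2⟩ := sigma_compl h e1
  refine ⟨X, x1, fun x => ?_⟩
  have := h.1 _ h1 x
  rw [x2, e2, d2, d4]
  tauto

theorem sigma_empty (h : IsSigma Mod.mem (C.val U) A) {X : Mod U} (hX : ∀ x, ¬ Mod.mem x X) :
    Mod.mem X A := h.2.2.1 _ _ h.2.1 fun x => by simp [hX]

end sigma

section prob
variable {U : Gen P} {σ : Mod U}

theorem prob_empty (hb : IsSigma Mod.mem (C.val U) (C.val U).bor) (h : IsProb Mod.mem (C.val U) σ)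
    {X : Mod U} (hX : ∀ x, ¬ Mod.mem x X) : App Mod.mem σ X ((elt (0 : ℝ)).val U) := by
  obtain ⟨y, hy⟩ := h.1.2.1 X (sigma_empty hb hX)
  have h1 := ((isZFC U).app_val h.1 hy).2
  obtain ⟨c, hc⟩ := (add_op U).2.1 y h1 y h1
  obtain rfl : y = c := h.1.2.2 _ _ _ hy
    (h.2.2.2.1 X X X y y c hy hy (fun x hx => absurd hx (hX x)) (by simp) hc)
  have : ∀ (U : Gen P) y, Mod.mem y (C.val U).R → RAdd Mod.mem (C.val U) y y y →
      y = (elt (0 : ℝ)).val U := by
    refine allR fun a U => ?_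
    rw [radd_iff, elt_eq_iff, elt_eq_iff]
    intro h; linarith
  exact this U y h1 hc ▸ hy

theorem prob_sum (hb : IsSigma Mod.mem (C.val U) (C.val U).bor) (h : IsProb Mod.mem (C.val U) σ)
    (B : ℕ → Mod U) (m : ℕ → ℝ) (n : ℕ) (h1 : ∀ i < n, App Mod.mem σ (B i) ((elt (m i)).val U))
    (h2 : ∀ i < n, ∀ j < n, ∀ x, Mod.mem x (B i) → Mod.mem x (B j) → i = j) {X : Mod U}
    (hX : ∀ x, Mod.mem x X ↔ ∃ i < n, Mod.mem x (B i)) :
    App Mod.mem σ X ((elt (∑ i ∈ Finset.range n, m i)).val U) := by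
  have key : ∀ k ≤ n, ∃ Y, (∀ x, Mod.mem x Y ↔ ∃ i < k, Mod.mem x (B i)) ∧
      App Mod.mem σ Y ((elt (∑ i ∈ Finset.range k, m i)).val U) := by
    intro k
    induction k with
    | zero =>
      exact fun _ => ⟨(natName 0).val U, by simp [mem_natName],
        prob_empty hb h (by simp [mem_natName])⟩
    | succ k ih =>
      intro hk
      obtain ⟨Y, y1, y2⟩ := ih (by omega)
      obtain ⟨Z, -, z2⟩ := sigma_union hb ((isZFC U).app_val h.1 y2).1
        ((isZFC U).app_val h.1 (h1 k (by omega))).1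
      refine ⟨Z, fun x => by rw [z2, y1, Nat.exists_lt_succ_right], ?_⟩
      rw [Finset.sum_range_succ]
      refine h.2.2.2.1 _ _ _ _ _ _ y2 (h1 k (by omega)) (fun x h3 h4 => ?_) z2 (radd_iff.2 rfl)
      obtain ⟨i, hi, h5⟩ := (y1 x).1 h3
      exact hi.ne (h2 i (by omega) k (by omega) x h5 h4)
  obtain ⟨Y, y1, y2⟩ := key n le_rfl
  rwa [Mod.ext X Y fun x => (hX x).trans (y1 x).symm]

theorem prob_val_eq (h : IsProb Mod.mem (C.val U) σ) {B : Mod U} {a b : ℝ}
    (h1 : App Mod.mem σ B ((elt a).val U)) (h2 : App Mod.mem σ B ((elt b).val U)) : a = b :=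
  elt_inj (h.1.2.2 _ _ _ h1 h2)

theorem prob_nonneg (h : IsProb Mod.mem (C.val U) σ) {B : Mod U} {a : ℝ}
    (h1 : App Mod.mem σ B ((elt a).val U)) : 0 ≤ a := by
  have := h.2.1 _ _ h1
  rwa [zero_eq, rle_iff] at this

theorem lower_le (hb : IsSigma Mod.mem (C.val U) (C.val U).bor) (h : IsProb Mod.mem (C.val U) σ)
    {N n : ℕ} {B D : ℕ → Mod U} {X : ℕ → ℕ → Mod U} {q m v d : ℕ → ℝ} {x : ℕ → ℕ → ℝ}
    (hB : ∀ z, Mod.mem z (C.val U).S → ∃! j, j < N ∧ Mod.mem z (B j))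
    (hD : ∀ z, Mod.mem z (C.val U).S → ∃! i, i < n ∧ Mod.mem z (D i))
    (hm : ∀ j < N, App Mod.mem σ (B j) ((elt (m j)).val U))
    (hd : ∀ i < n, App Mod.mem σ (D i) ((elt (d i)).val U))
    (hX : ∀ j < N, ∀ i < n, ∀ z, Mod.mem z (X j i) ↔ Mod.mem z (B j) ∧ Mod.mem z (D i))
    (hx : ∀ j < N, ∀ i < n, App Mod.mem σ (X j i) ((elt (x j i)).val U))
    (hq : ∀ j < N, ∀ i < n, ∀ z, Mod.mem z (B j) → Mod.mem z (D i) → q j ≤ v i) :
    ∑ j ∈ Finset.range N, q j * m j ≤ ∑ i ∈ Finset.range n, v i * d i := by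
  have sB : ∀ j < N, ∀ z, Mod.mem z (B j) → Mod.mem z (C.val U).S := fun j hj =>
    hb.1 _ ((isZFC U).app_val h.1 (hm j hj)).1
  have sD : ∀ i < n, ∀ z, Mod.mem z (D i) → Mod.mem z (C.val U).S := fun i hi =>
    hb.1 _ ((isZFC U).app_val h.1 (hd i hi)).1
  have e1 : ∀ j < N, m j = ∑ i ∈ Finset.range n, x j i := fun j hj =>
    prob_val_eq h (hm j hj) (prob_sum hb h (X j) (x j) n (hx j hj) (fun i hi i' hi' z h1 h2 =>
      (hD z (sD i hi z ((hX j hj i hi z).1 h1).2)).unique ⟨hi, ((hX j hj i hi z).1 h1).2⟩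
        ⟨hi', ((hX j hj i' hi' z).1 h2).2⟩) fun z => ⟨fun h1 => by
          obtain ⟨i, hi, -⟩ := hD z (sB j hj z h1)
          exact ⟨i, hi.1, (hX j hj i hi.1 z).2 ⟨h1, hi.2⟩⟩,
        fun ⟨i, hi, h1⟩ => ((hX j hj i hi z).1 h1).1⟩)
  have e2 : ∀ i < n, d i = ∑ j ∈ Finset.range N, x j i := fun i hi =>
    prob_val_eq h (hd i hi) (prob_sum hb h (X · i) (x · i) N (hx · · i hi)
      (fun j hj j' hj' z h1 h2 =>
      (hB z (sB j hj z ((hX j hj i hi z).1 h1).1)).unique ⟨hj, ((hX j hj i hi z).1 h1).1⟩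
        ⟨hj', ((hX j' hj' i hi z).1 h2).1⟩) fun z => ⟨fun h1 => by
          obtain ⟨j, hj, -⟩ := hB z (sD i hi z h1)
          exact ⟨j, hj.1, (hX j hj.1 i hi z).2 ⟨hj.2, h1⟩⟩,
        fun ⟨j, hj, h1⟩ => ((hX j hj i hi z).1 h1).2⟩)
  calc ∑ j ∈ Finset.range N, q j * m j
      = ∑ j ∈ Finset.range N, ∑ i ∈ Finset.range n, q j * x j i :=
        Finset.sum_congr rfl fun j hj => by rw [e1 j (Finset.mem_range.1 hj), Finset.mul_sum]
    _ ≤ ∑ j ∈ Finset.range N, ∑ i ∈ Finset.range n, v i * x j i := by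
        refine Finset.sum_le_sum fun j hj => Finset.sum_le_sum fun i hi => ?_
        rw [Finset.mem_range] at hi hj
        by_cases h1 : ∃ z, Mod.mem z (X j i)
        · obtain ⟨z, hz⟩ := h1
          exact mul_le_mul_of_nonneg_right (hq j hj i hi z ((hX j hj i hi z).1 hz).1
            ((hX j hj i hi z).1 hz).2) (prob_nonneg h (hx j hj i hi))
        · rw [prob_val_eq h (hx j hj i hi) (prob_empty hb h (not_exists.1 h1))]; simp
    _ = ∑ i ∈ Finset.range n, v i * d i := by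
        rw [Finset.sum_comm]
        exact Finset.sum_congr rfl fun i hi => by
          rw [e2 i (Finset.mem_range.1 hi), Finset.mul_sum]

theorem lowerSum_of_partition (h : IsProb Mod.mem (C.val U) σ) {f : Mod U} {n : ℕ}
    {D : ℕ → Name P} {v d : ℕ → ℝ}
    (hD : ∀ z, Mod.mem z (C.val U).S → ∃! i, i < n ∧ Mod.mem z ((D i).val U))
    (hd : ∀ i < n, App Mod.mem σ ((D i).val U) ((elt (d i)).val U))
    (hv : ∀ i < n, ∀ z y, Mod.mem z ((D i).val U) → App Mod.mem f z y →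
      RLe Mod.mem (C.val U) ((elt (v i)).val U) y) :
    LowerSum Mod.mem (C.val U) σ f ((elt (∑ i ∈ Finset.range n, v i * d i)).val U) := by
  refine ⟨_, (finName n D).val U, (finName n fun i => elt (v i)).val U, _, nat_mem_w n U,
    isFunOn_fin fun i hi => ((isZFC U).app_val h.1 (hd i hi)).1,
    isFunOn_fin fun i _ => elt_mem_R _ U, fun z hz => ?_, fun i A a z y h1 h2 h3 h4 => ?_,
    psums_seq (fun i => v i * d i) n ?_, app_seq.2 rfl⟩
  · obtain ⟨i, hi, hu⟩ := hD z hz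
    refine ⟨_, ⟨_, app_fin.2 ⟨i, hi.1, rfl, rfl⟩, hi.2⟩, ?_⟩
    rintro j ⟨A, h1, h2⟩
    obtain ⟨k, hk, rfl, rfl⟩ := app_fin.1 h1
    rw [hu k ⟨hk, h2⟩]
  · obtain ⟨k, hk, rfl, rfl⟩ := app_fin.1 h1
    obtain ⟨l, -, e, rfl⟩ := app_fin.1 h2
    obtain rfl := natName_inj e
    exact hv k hk z y h3 h4
  · rintro i hi y ⟨A, a, m, h1, h2, h3, h4⟩
    obtain ⟨k, -, e, rfl⟩ := app_fin.1 h1
    obtain rfl := natName_inj e
    obtain ⟨l, -, e', rfl⟩ := app_fin.1 h2
    obtain rfl := natName_inj e'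
    rw [h.1.2.2 _ _ _ h3 (hd i hi)] at h4
    exact rmul_iff.1 h4

end prob

end Pool.Agent.P.MP_5a7e2f_gt
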