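import Pool.Agent.P.MP_5a7e2f_gt.Step

set_option autoImplicit false

open Set Filter Topology MeasureTheory TopologicalSpace
open scoped ENNReal

namespace Pool.Agent.P.MP_5a7e2f_gt

/-- the ambient cube -/
abbrev YY : Type := TT × (II → Bool)

/-- codes of points -/
abbrev XX : Type := TT × Option II

/-- cylinder over a subset of Cantor space -/
abbrev cyl (a : Set TT) : Set YY := Prod.fst ⁻¹' a

/-- the generating clopen sets -/
def uu (β : II) : Set YY := {y | y.2 β = true}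

theorem isClopen_cyl {a : Set TT} (h : IsClopen a) : IsClopen (cyl a) := h.preimage continuous_fst

theorem isClopen_uu (β : II) : IsClopen (uu β) :=
  (isClopen_discrete {true}).preimage ((continuous_apply β).comp continuous_snd)

theorem clopen_ind (P : Set YY → Prop) (h0 : P ∅) (hc : ∀ a, P a → P aᶜ)
    (hu : ∀ a b, P a → P b → P (a ∪ b)) (hT : ∀ a, IsClopen a → P (cyl a)) (hI : ∀ β, P (uu β)) :
    ∀ d, IsClopen d → P d := by
  refine clopen_induction P h0 hc hu fun x y hxy => ?_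
  by_cases h1 : x.1 = y.1
  · have h2 : x.2 ≠ y.2 := fun h => hxy (Prod.ext h1 h)
    obtain ⟨β, hβ⟩ := Function.ne_iff.1 h2
    by_cases h3 : x.2 β = true
    · exact ⟨uu β, isClopen_uu β, hI β, h3, fun h => hβ (h3.trans h.symm)⟩
    · refine ⟨(uu β)ᶜ, (isClopen_uu β).compl, hc _ (hI β), h3, fun h => hβ ?_⟩
      simp only [uu, mem_compl_iff, mem_ofPred_eq, Bool.not_eq_true] at h h3
      rw [h, h3]
  · obtain ⟨a, h2, h3, h4⟩ := exists_isClopen_of_totally_separated h1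
    exact ⟨cyl a, isClopen_cyl h2, hT a h2, h3, h4⟩

/-- `d` depends only on the coordinates below `δ` -/
def Dep (d : Set YY) (δ : II) : Prop :=
  ∀ y y' : YY, y.1 = y'.1 → (∀ β < δ, y.2 β = y'.2 β) → y ∈ d → y' ∈ d

theorem Dep.mono {d : Set YY} {δ δ' : II} (h : Dep d δ) (h' : δ ≤ δ') : Dep d δ' :=
  fun y y' h1 h2 => h y y' h1 fun β hβ => h2 β (hβ.trans_le h')

theorem Dep.compl {d : Set YY} {δ : II} (h : Dep d δ) : Dep dᶜ δ :=
  fun y y' h1 h2 h3 h4 => h3 (h y' y h1.symm (fun β hβ => (h2 β hβ).symm) h4)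

theorem Dep.union {d d' : Set YY} {δ : II} (h : Dep d δ) (h' : Dep d' δ) : Dep (d ∪ d') δ :=
  fun y y' h1 h2 h3 => h3.imp (h y y' h1 h2) (h' y y' h1 h2)

theorem Dep.inter {d d' : Set YY} {δ : II} (h : Dep d δ) (h' : Dep d' δ) : Dep (d ∩ d') δ :=
  fun y y' h1 h2 h3 => ⟨h y y' h1 h2 h3.1, h' y y' h1 h2 h3.2⟩

theorem dep_cyl (a : Set TT) (δ : II) : Dep (cyl a) δ :=
  fun y y' h1 _ h3 => by simpa [← h1] using h3

theorem dep_uu {β δ : II} (h : β < δ) : Dep (uu β) δ :=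
  fun _ _ _ h2 h3 => (h2 β h).symm.trans h3

theorem exists_gt' (a b : II) : ∃ δ, a < δ ∧ b < δ := by
  obtain ⟨δ, h⟩ := exists_bound ((countable_singleton b).insert a)
  exact ⟨δ, h a (by simp), h b (by simp)⟩

theorem exists_dep {d : Set YY} (h : IsClopen d) : ∃ δ, Dep d δ := by
  obtain ⟨x⟩ : Nonempty II := inferInstance
  refine clopen_ind (fun d => ∃ δ, Dep d δ) ⟨x, fun _ _ _ _ h => h⟩
    (fun a ⟨δ, h⟩ => ⟨δ, h.compl⟩) (fun a b ⟨δ, h⟩ ⟨δ', h'⟩ => ?_) (fun a _ => ⟨x, dep_cyl a x⟩)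
    (fun β => ?_) d h
  · exact ⟨max δ δ', (h.mono (le_max_left _ _)).union (h'.mono (le_max_right _ _))⟩
  · obtain ⟨δ, h, -⟩ := exists_gt' β β
    exact ⟨δ, dep_uu h⟩

theorem countable_dep (ρ : II) : {d : Set YY | IsClopen d ∧ Dep d ρ}.Countable := by
  classical
  have := (countable_Iio ρ).to_subtype
  have hc : Countable (Clopens (TT × (Iio ρ → Bool))) :=
    Clopens.countable_iff_secondCountable.2 inferInstance
  let r : TT × (Iio ρ → Bool) → YY := fun z => (z.1, fun β => if h : β < ρ then z.2 ⟨β, h⟩ else false)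
  have hr : Continuous r := by
    refine continuous_fst.prodMk (continuous_pi fun β => ?_)
    by_cases h : β < ρ
    · simp only [h, dif_pos]; fun_prop
    · simp only [h, dif_neg, not_false_eq_true]; fun_prop
  rw [← Set.countable_coe_iff]
  refine Function.Injective.countable (β := Clopens (TT × (Iio ρ → Bool)))
    (f := fun d => ⟨r ⁻¹' d.1, d.2.1.preimage hr⟩) fun d d' h => Subtype.ext ?_
  have h1 : r ⁻¹' d.1 = r ⁻¹' d'.1 := congrArg (fun z : Clopens _ => z.1) h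
  have key : ∀ a : Set YY, Dep a ρ → ∀ y : YY, y ∈ a ↔ (y.1, fun β : Iio ρ => y.2 β) ∈ r ⁻¹' a :=
    fun a ha y => ⟨ha _ _ rfl fun β hβ => by simp [r, hβ], ha _ _ rfl fun β hβ => by simp [r, hβ]⟩
  ext y
  rw [key _ d.2.2, key _ d'.2.2, h1]

variable (c : II → DD)

/-- the generator with its first pieces removed -/
def WW (β : II) (m : ℕ) : Set YY := {y | y.2 β = true ∧ ∀ i < m, y.1 ∉ (c β).c i}

theorem WW_eq (β : II) (m : ℕ) : WW c β m = uu β \ cyl (⋃ i ∈ Finset.range m, (c β).c i) := by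
  ext y; simp [WW, uu]

theorem isClopen_WW (β : II) (m : ℕ) : IsClopen (WW c β m) := by
  rw [WW_eq]
  exact (isClopen_uu β).diff (isClopen_cyl (isClopen_biUnion_finset fun i _ => (c β).clopen i))

/-- the compact space -/
def KK : Set YY := {y | ∀ γ,
  (∀ β < γ, y ∈ WW c β (ee γ β) → (∀ i < ee γ β, y.1 ∉ (c γ).c i) → y.2 γ = false) ∧
  ∀ k, y.1 ∈ (c γ).c k → (∀ β < γ, ee γ β ≤ k → y ∉ WW c β (ee γ β)) → y.2 γ = true}

theorem isClosed_KK : IsClosed (KK c) := by
  have : KK c = ⋂ γ, (⋂ β ∈ Iio γ, (WW c β (ee γ β) ∩ WW c γ (ee γ β))ᶜ) ∩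
      ⋂ k, ((cyl ((c γ).c k))ᶜ ∪ (⋃ β ∈ {β | β < γ ∧ ee γ β ≤ k}, WW c β (ee γ β)) ∪ uu γ) := by
    ext y
    simp only [KK, mem_ofPred_eq, mem_iInter, mem_inter_iff, mem_Iio, mem_compl_iff, mem_union,
      mem_preimage, mem_iUnion, uu]
    refine forall_congr' fun γ => and_congr (forall₂_congr fun β _ => ?_) (forall_congr' fun k => ?_)
    · simp only [WW, mem_ofPred_eq, ← Bool.not_eq_true]; tauto
    · by_cases h : ∃ β, ∃ _ : β < γ ∧ ee γ β ≤ k, y ∈ WW c β (ee γ β)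
      · simp only [h, or_true, true_or, iff_true]
        obtain ⟨β, h1, h2⟩ := h
        exact fun _ h3 => absurd h2 (h3 β h1.1 h1.2)
      · simp only [h, or_false]
        push Not at h
        exact ⟨fun h1 => or_iff_not_imp_left.2 fun h2 => h1 (not_not.1 h2)
          fun β h3 h4 => h β ⟨h3, h4⟩, fun h1 h2 _ => h1.resolve_left (not_not.2 h2)⟩
  rw [this]
  refine isClosed_iInter fun γ => IsClosed.inter (isClosed_biInter fun β _ => ?_)
    (isClosed_iInter fun k => ?_)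
  · exact ((isClopen_WW c _ _).inter (isClopen_WW c _ _)).compl.isClosed
  · exact (((isClopen_cyl ((c γ).clopen k)).compl.union
      ((finite_ee γ k).isClopen_biUnion fun β _ => isClopen_WW c _ _)).union
      (isClopen_uu γ)).isClosed

variable {c}

theorem KK_piece {y : YY} (hy : y ∈ KK c) {γ : II} {k : ℕ} (h : y.1 ∈ (c γ).c k) :
    y.2 γ = true ↔ ∀ β < γ, ee γ β ≤ k → y ∉ WW c β (ee γ β) := by
  refine ⟨fun h1 β hβ h2 h3 => ?_, (hy γ).2 k h⟩
  have := (hy γ).1 β hβ h3 fun i hi h4 =>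
    disjoint_left.1 ((c γ).disj i k (by omega)) h4 h
  simp [h1] at this

theorem KK_disj {y : YY} (hy : y ∈ KK c) {β γ : II} (h : β < γ) {m : ℕ} (hm : ee γ β ≤ m)
    (h1 : y ∈ WW c β m) (h2 : y ∈ WW c γ m) : False := by
  have := (hy γ).1 β h ⟨h1.1, fun i hi => h1.2 i (hi.trans_le hm)⟩
    fun i hi => h2.2 i (hi.trans_le hm)
  simp [h2.1] at this

open Classical in
/-- the coordinates of the point with code `x` -/
noncomputable def pat (c : II → DD) (x : XX) : II → Bool :=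
  (wellFounded_lt (α := II)).fix fun γ ih => decide (x.2 = some γ ∨ ∃ k, x.1 ∈ (c γ).c k ∧
    ∀ β (h : β < γ), ee γ β ≤ k → ¬ (ih β h = true ∧ ∀ i < ee γ β, x.1 ∉ (c β).c i))

/-- the point with code `x` -/
noncomputable def emb (c : II → DD) (x : XX) : YY := (x.1, pat c x)

theorem pat_iff (x : XX) (γ : II) : pat c x γ = true ↔ x.2 = some γ ∨ ∃ k, x.1 ∈ (c γ).c k ∧
    ∀ β < γ, ee γ β ≤ k → emb c x ∉ WW c β (ee γ β) := by
  rw [pat, WellFounded.fix_eq]
  exact @decide_eq_true_iff _ (_)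

/-- admissible codes -/
def adm (c : II → DD) (x : XX) : Prop :=
  ∀ γ, x.2 = some γ → (∀ k, x.1 ∉ (c γ).c k) ∧ ∀ β < γ, emb c x ∉ WW c β (ee γ β)

theorem adm_none (t : TT) : adm c (t, none) := fun _ h => by simp at h

theorem emb_mem {x : XX} (h : adm c x) : emb c x ∈ KK c := by
  intro γ
  refine ⟨fun β hβ h1 h2 => ?_, fun k h1 h2 => (pat_iff x γ).2 (Or.inr ⟨k, h1, h2⟩)⟩
  rw [← Bool.not_eq_true]
  intro h3
  rcases (pat_iff x γ).1 h3 with h4 | ⟨k, h4, h5⟩
  · exact (h γ h4).2 β hβ h1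
  · exact h5 β hβ (not_lt.1 fun h6 => h2 k h6 h4) h1

theorem exists_emb {y : YY} (hy : y ∈ KK c) : ∃ x, adm c x ∧ emb c x = y := by
  obtain ⟨o, ho⟩ : ∃ o : Option II, ∀ γ, o = some γ ↔ y.2 γ = true ∧ ∀ k, y.1 ∉ (c γ).c k := by
    by_cases h : ∃ γ, y.2 γ = true ∧ ∀ k, y.1 ∉ (c γ).c k
    · obtain ⟨γ, hγ⟩ := h
      refine ⟨some γ, fun β => ⟨fun h => Option.some.inj h ▸ hγ, fun h => ?_⟩⟩
      rcases lt_trichotomy β γ with h1 | h1 | h1
      · exact (KK_disj hy h1 le_rfl ⟨h.1, fun i _ => h.2 i⟩ ⟨hγ.1, fun i _ => hγ.2 i⟩).elim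
      · rw [h1]
      · exact (KK_disj hy h1 le_rfl ⟨hγ.1, fun i _ => hγ.2 i⟩ ⟨h.1, fun i _ => h.2 i⟩).elim
    · exact ⟨none, fun γ => ⟨fun h => by simp at h, fun h' => absurd ⟨γ, h'⟩ h⟩⟩
  have key : ∀ γ, pat c (y.1, o) γ = y.2 γ := by
    intro γ
    induction γ using WellFoundedLT.induction with
    | ind γ ih =>
      have e : ∀ β < γ, ∀ m, emb c (y.1, o) ∈ WW c β m ↔ y ∈ WW c β m := fun β hβ m => by
        simp only [WW, emb, mem_ofPred_eq, ih β hβ]
      rw [Bool.eq_iff_iff, pat_iff, ho]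
      constructor
      · rintro (h | ⟨k, h1, h2⟩)
        · exact h.1
        · exact (KK_piece hy h1).2 fun β hβ h3 => (e β hβ _).not.1 (h2 β hβ h3)
      · intro h
        by_cases h1 : ∃ k, y.1 ∈ (c γ).c k
        · obtain ⟨k, h1⟩ := h1
          exact Or.inr ⟨k, h1, fun β hβ h3 => (e β hβ _).not.2 ((KK_piece hy h1).1 h β hβ h3)⟩
        · exact Or.inl ⟨h, not_exists.1 h1⟩
  have e : emb c (y.1, o) = y := Prod.ext rfl (funext key)
  refine ⟨(y.1, o), fun γ h => ⟨((ho γ).1 h).2, fun β hβ h1 => ?_⟩, e⟩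
  rw [e] at h1
  exact KK_disj hy hβ le_rfl h1 ⟨((ho γ).1 h).1, fun i _ => ((ho γ).1 h).2 i⟩

theorem pat_congr {c' : II → DD} {δ : II} (h : ∀ β < δ, c β = c' β) {x x' : XX} (h1 : x.1 = x'.1)
    (h2 : ∀ β < δ, (x.2 = some β ↔ x'.2 = some β)) : ∀ γ < δ, pat c x γ = pat c' x' γ := by
  intro γ
  induction γ using WellFoundedLT.induction with
  | ind γ ih =>
    intro hγ
    rw [Bool.eq_iff_iff, pat_iff, pat_iff, h2 γ hγ, h γ hγ, h1]
    refine or_congr_right (exists_congr fun k => and_congr_right fun _ =>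
      forall₃_congr fun β hβ _ => not_congr ?_)
    simp only [WW, emb, mem_ofPred_eq, ih β hβ (hβ.trans hγ), h β (hβ.trans hγ), h1]

theorem Dep.emb_congr {c' : II → DD} {δ : II} {d : Set YY} (hd : Dep d δ)
    (h : ∀ β < δ, c β = c' β) {x x' : XX} (h1 : x.1 = x'.1)
    (h2 : ∀ β < δ, (x.2 = some β ↔ x'.2 = some β)) (h3 : emb c x ∈ d) : emb c' x' ∈ d :=
  hd (emb c x) (emb c' x') h1 (pat_congr h h1 h2) h3

theorem adm.congr {c' : II → DD} {δ : II} (h : ∀ β < δ, c β = c' β) {x : XX}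
    (h1 : ∀ γ, x.2 = some γ → γ < δ) (h2 : adm c x) : adm c' x := by
  intro γ hγ
  refine ⟨h γ (h1 γ hγ) ▸ (h2 γ hγ).1, fun β hβ h3 => (h2 γ hγ).2 β hβ ?_⟩
  have hβ' := hβ.trans (h1 γ hγ)
  simpa only [WW, emb, mem_ofPred_eq, pat_congr h rfl (fun _ _ => Iff.rfl) β hβ', h β hβ'] using h3

theorem finite_exc (t : TT) (β : II) : {γ | pat c (t, some γ) β ≠ pat c (t, none) β}.Finite := by
  induction β using WellFoundedLT.induction with
  | ind β ih =>
    by_cases h : ∃ k, t ∈ (c β).c k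
    · obtain ⟨k, hk⟩ := h
      refine (((finite_ee β k).biUnion fun α hα => ih α hα.1).insert β).subset fun γ hγ => ?_
      by_contra hcon
      simp only [mem_insert_iff, mem_iUnion, not_or, not_exists, mem_ofPred_eq, not_not] at hcon
      refine hγ ?_
      rw [Bool.eq_iff_iff, pat_iff, pat_iff]
      simp only [Option.some.injEq, hcon.1, false_or, reduceCtorEq]
      refine exists_congr fun j => and_congr_right fun hj => forall₃_congr fun α hα h2 => ?_
      obtain rfl : j = k := by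
        by_contra hne
        exact disjoint_left.1 ((c β).disj j k hne) hj hk
      simp only [WW, emb, mem_ofPred_eq, hcon.2 α ⟨hα, h2⟩]
    · refine (finite_singleton β).subset fun γ hγ => ?_
      by_contra hcon
      refine hγ ?_
      rw [Bool.eq_iff_iff, pat_iff, pat_iff]
      have : γ ≠ β := hcon
      simp [this, not_exists.1 h]

theorem finite_exc_clopen (t : TT) {d : Set YY} (hd : IsClopen d) :
    {γ | ¬ (emb c (t, some γ) ∈ d ↔ emb c (t, none) ∈ d)}.Finite := by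
  refine clopen_ind (fun d => {γ | ¬ (emb c (t, some γ) ∈ d ↔ emb c (t, none) ∈ d)}.Finite)
    (by simp) (fun a h => by simpa [not_iff_not] using h)
    (fun a b ha hb => (ha.union hb).subset fun γ hγ => ?_) (fun a _ => by simp [emb])
    (fun β => (finite_exc (c := c) t β).subset fun γ hγ => ?_) d hd
  · by_contra hcon
    simp only [mem_union, mem_ofPred_eq, not_or, not_not] at hcon
    exact hγ (or_congr hcon.1 hcon.2)
  · intro h
    exact hγ (by simp only [uu, emb, mem_ofPred_eq, h])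

/-- the trace of a set on the generic points -/
def ell (c : II → DD) (d : Set YY) : Set TT := {t | emb c (t, none) ∈ d}

theorem measurableSet_ell {d : Set YY} (hd : IsClopen d) : MeasurableSet (ell c d) := by
  refine clopen_ind (fun d => MeasurableSet (ell c d)) MeasurableSet.empty (fun a h => h.compl)
    (fun a b ha hb => ha.union hb) (fun a ha => ha.isOpen.measurableSet) (fun γ => ?_) d hd
  induction γ using WellFoundedLT.induction with
  | ind γ ih =>
    have : ell c (uu γ) = ⋃ k, (c γ).c k ∩ ⋂ β ∈ {β | β < γ ∧ ee γ β ≤ k},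
        (ell c (uu β) \ ⋃ i ∈ Finset.range (ee γ β), (c β).c i)ᶜ := by
      ext t
      simp only [ell, uu, mem_ofPred_eq, mem_iUnion, mem_inter_iff, mem_iInter, mem_compl_iff]
      refine (pat_iff _ _).trans ?_
      simp [WW, emb]
    rw [this]
    refine MeasurableSet.iUnion fun k => ((c γ).clopen k).isOpen.measurableSet.inter
      (MeasurableSet.biInter (finite_ee γ k).countable fun β hβ => ((ih β hβ.1).diff ?_).compl)
    exact Finset.measurableSet_biUnion _ fun i _ => ((c β).clopen i).isOpen.measurableSet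

theorem ell_uu_subset (γ : II) : ell c (uu γ) ⊆ (c γ).tail 0 := fun t ht => by
  rcases (pat_iff _ _).1 ht with h | ⟨k, h, -⟩
  · simp at h
  · exact DD.mem_tail.2 ⟨k, k.zero_le, h⟩

theorem subset_ell_uu (γ : II) (k : ℕ) : (c γ).c k \ avoid c γ ⊆ ell c (uu γ) := fun t ht => by
  refine (pat_iff _ _).2 (Or.inr ⟨k, ht.1, fun β hβ _ h => ht.2 (mem_iUnion.2 ⟨⟨β, hβ⟩, ?_⟩)⟩)
  obtain ⟨i, -, hi⟩ := DD.mem_tail.1 (ell_uu_subset β h.1)
  exact DD.mem_tail.2 ⟨i, not_lt.1 fun h1 => h.2 i h1 hi, hi⟩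

theorem tube {t : TT} {W : Set YY} (hW : IsOpen W) (h : ∀ x : XX, adm c x → x.1 = t → emb c x ∈ W) :
    ∃ a, IsClopen a ∧ t ∈ a ∧ ∀ x : XX, adm c x → x.1 ∈ a → emb c x ∈ W := by
  have h1 : IsClosed (Prod.fst '' (KK c \ W)) :=
    (((isClosed_KK c).sdiff hW).isCompact.image continuous_fst).isClosed
  obtain ⟨a, h2, h3, h4⟩ := compact_exists_isClopen_in_isOpen h1.isOpen_compl (x := t) (by
    rintro ⟨y, hy, rfl⟩
    obtain ⟨x, hx, rfl⟩ := exists_emb hy.1
    exact hy.2 (h x hx rfl))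
  refine ⟨a, h2, h3, fun x hx h5 => ?_⟩
  by_contra h6
  exact h4 h5 ⟨emb c x, ⟨emb_mem hx, h6⟩, rfl⟩

end Pool.Agent.P.MP_5a7e2f_gt
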