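import Pool.Agent.P.MP_5a7e2f_gt.Rec

set_option autoImplicit false

open Set Filter Topology MeasureTheory TopologicalSpace
open scoped ENNReal

namespace Pool.Agent.P.MP_5a7e2f_gt

/-- the first uncountable ordinal as a type -/
abbrev II : Type := (Cardinal.aleph 1).ord.ToType

/-- Cantor space -/
abbrev TT : Type := ℕ → Bool

/-- the coin tossing measure -/
noncomputable def lam : Measure TT :=
  Measure.infinitePi fun _ => (PMF.uniformOfFintype Bool).toMeasure

instance : IsProbabilityMeasure lam := by unfold lam; infer_instance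

theorem lam_singleton (t : TT) : lam {t} = 0 := by
  have h : ∀ n : ℕ, lam {t} ≤ 2⁻¹ ^ n := by
    intro n
    have h1 : ({t} : Set TT) ⊆ Set.pi (Finset.range n) fun i => {t i} := by
      rintro _ rfl i _; rfl
    refine (measure_mono h1).trans ?_
    rw [lam, Measure.infinitePi_pi _ fun i _ => measurableSet_singleton _]
    simp [PMF.toMeasure_apply_singleton _ _ (measurableSet_singleton _)]
  exact le_antisymm (ge_of_tendsto' (ENNReal.tendsto_pow_atTop_nhds_zero_of_lt_one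
    (by norm_num : (2⁻¹ : ℝ≥0∞) < 1)) h) zero_le

theorem countable_Iio (x : II) : (Iio x).Countable := by
  rw [← Cardinal.le_aleph0_iff_set_countable, ← Order.lt_succ_iff, Cardinal.succ_aleph0]
  simpa using Cardinal.mk_Iio_lt x

instance : Uncountable II := by
  rw [← Cardinal.aleph0_lt_mk_iff, Cardinal.mk_ord_toType]
  exact Cardinal.aleph0_lt_aleph_one

theorem exists_bound {S : Set II} (hS : S.Countable) : ∃ δ, ∀ x ∈ S, x < δ := by
  have h1 : (⋃ x ∈ S, Iic x).Countable := hS.biUnion fun x _ => by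
    rw [← Iio_insert]; exact (countable_Iio x).insert x
  by_contra h
  push Not at h
  refine not_countable_univ (α := II) (h1.mono fun δ _ => ?_)
  obtain ⟨x, hx, h2⟩ := h δ
  exact mem_biUnion hx h2

theorem exists_ee : ∃ e : II → II → ℕ, ∀ γ, InjOn (e γ) (Iio γ) := by
  choose e he using fun γ : II => Set.countable_iff_exists_injOn.1 (countable_Iio γ)
  exact ⟨e, he⟩

/-- fixed injections of the countable ordinals into the natural numbers -/
noncomputable def ee : II → II → ℕ := exists_ee.choose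

theorem ee_inj (γ : II) : InjOn (ee γ) (Iio γ) := exists_ee.choose_spec γ

theorem finite_ee (γ : II) (k : ℕ) : {β | β < γ ∧ ee γ β ≤ k}.Finite :=
  Set.Finite.of_finite_image (f := ee γ) ((finite_Iic k).subset (by
    rintro _ ⟨β, h, rfl⟩; exact h.2)) ((ee_inj γ).mono fun _ h => h.1)

/-- sequences of pairwise disjoint small clopen sets -/
structure DD : Type where
  /-- the sets -/
  c : ℕ → Set TT
  clopen : ∀ k, IsClopen (c k)
  disj : ∀ i j, i ≠ j → Disjoint (c i) (c j)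
  small : ∀ k, lam (c k) ≤ 2⁻¹ ^ (k + 4)

instance : Inhabited DD := ⟨⟨fun _ => ∅, fun _ => isClopen_empty, by simp, by simp⟩⟩

theorem geo (m : ℕ) : ∑' i : ℕ, (2⁻¹ : ℝ≥0∞) ^ (i + m + 1) = 2⁻¹ ^ m := by
  have : ∀ i : ℕ, (2⁻¹ : ℝ≥0∞) ^ (i + m + 1) = 2⁻¹ ^ i * (2⁻¹ ^ m * 2⁻¹) := fun i => by ring
  simp_rw [this]
  rw [ENNReal.tsum_mul_right, ENNReal.tsum_geometric, ENNReal.one_sub_inv_two, inv_inv,
    mul_left_comm, ENNReal.mul_inv_cancel (by norm_num) (by norm_num), mul_one]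

/-- the union of the sets with index at least `m` -/
def DD.tail (a : DD) (m : ℕ) : Set TT := ⋃ i, a.c (i + m)

theorem DD.mem_tail {a : DD} {m : ℕ} {t : TT} : t ∈ a.tail m ↔ ∃ i, m ≤ i ∧ t ∈ a.c i := by
  simp only [DD.tail, mem_iUnion]
  exact ⟨fun ⟨i, h⟩ => ⟨i + m, by omega, h⟩, fun ⟨i, h1, h2⟩ => ⟨i - m, by
    rwa [Nat.sub_add_cancel h1]⟩⟩

theorem DD.lam_tail (a : DD) (m : ℕ) : lam (a.tail m) ≤ 2⁻¹ ^ (m + 3) := by
  refine (measure_iUnion_le _).trans ?_
  rw [← geo]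
  exact ENNReal.tsum_le_tsum fun i => a.small (i + m)

/-- the union of the tails that have to be avoided at stage `γ` -/
def avoid (c : II → DD) (γ : II) : Set TT := ⋃ β : Iio γ, (c β).tail (ee γ β)

theorem lam_avoid (c : II → DD) (γ : II) : lam (avoid c γ) ≤ 2⁻¹ ^ 2 := by
  have := (countable_Iio γ).to_subtype
  refine (measure_iUnion_le _).trans ?_
  rw [← geo]
  refine (ENNReal.tsum_le_tsum fun β : Iio γ => (c β).lam_tail (ee γ β)).trans ?_
  exact ENNReal.tsum_comp_le_tsum_of_injective (f := fun β : Iio γ => ee γ β)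
    (fun a b h => Subtype.ext (ee_inj γ a.2 b.2 h)) fun m => (2⁻¹ : ℝ≥0∞) ^ (m + 3)

theorem select {R D : Set TT} (hD : IsClopen D) (hR : lam (R \ D) ≠ 0) {η : ℝ≥0∞} (hη : 0 < η) :
    ∃ c, IsClopen c ∧ lam c ≤ η ∧ Disjoint c D ∧ lam (R ∩ c) ≠ 0 := by
  by_contra hcon
  push Not at hcon
  refine hR (measure_null_of_locally_null _ fun t ht => ?_)
  obtain ⟨W, h1, h2, h3⟩ := Set.exists_isOpen_lt_of_lt {t} η (μ := lam) (by rwa [lam_singleton])
  obtain ⟨c, h4, h5, h6⟩ := compact_exists_isClopen_in_isOpen (h2.inter hD.compl.isOpen)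
    (⟨h1 rfl, ht.2⟩ : t ∈ W ∩ Dᶜ)
  refine ⟨(R \ D) ∩ c, inter_mem_nhdsWithin _ (h4.isOpen.mem_nhds h5), ?_⟩
  refine measure_mono_null (inter_subset_inter_left _ sdiff_subset) (hcon c h4 ?_ ?_)
  · exact (measure_mono fun x hx => (h6 hx).1).trans h3.le
  · exact disjoint_left.2 fun x hx => (h6 hx).2

theorem step {O : Set TT} (hO : lam O ≤ 2⁻¹ ^ 2) (F : ℕ → Set TT) (hF : ∀ k, 2⁻¹ < lam (F k)) :
    ∃ a : DD, ∀ k, lam ((F k \ O) ∩ a.c k) ≠ 0 := by
  obtain ⟨c, hc⟩ := rec_choice (∅ : Set TT) (fun (k : ℕ) g c => IsClopen c ∧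
      lam c ≤ 2⁻¹ ^ (k + 4) ∧ ((∀ i < k, IsClopen (g i) ∧ lam (g i) ≤ 2⁻¹ ^ (i + 4)) →
        (∀ i < k, Disjoint c (g i)) ∧ lam ((F k \ O) ∩ c) ≠ 0)) (by
    intro k g
    by_cases h : ∀ i < k, IsClopen (g i) ∧ lam (g i) ≤ 2⁻¹ ^ (i + 4)
    · have hD : IsClopen (⋃ i ∈ Finset.range k, g i) :=
        isClopen_biUnion_finset fun i hi => (h i (Finset.mem_range.1 hi)).1
      have h1 : lam (⋃ i ∈ Finset.range k, g i) ≤ 2⁻¹ ^ 3 := by
        refine (measure_biUnion_finset_le _ _).trans ?_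
        rw [← geo]
        refine (Finset.sum_le_sum fun i hi => (h i (Finset.mem_range.1 hi)).2).trans ?_
        exact ENNReal.sum_le_tsum _
      obtain ⟨c, c1, c2, c3, c4⟩ := select (R := F k \ O) hD (η := 2⁻¹ ^ (k + 4)) (by
        intro h0
        have h2 : F k ⊆ ((F k \ O) \ ⋃ i ∈ Finset.range k, g i) ∪
            (O ∪ ⋃ i ∈ Finset.range k, g i) := fun x hx => by
          by_cases h3 : x ∈ O ∪ ⋃ i ∈ Finset.range k, g i
          · exact Or.inr h3
          · exact Or.inl ⟨⟨hx, fun h => h3 (Or.inl h)⟩, fun h => h3 (Or.inr h)⟩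
        have h3 := (hF k).trans_le ((measure_mono h2).trans ((measure_union_le _ _).trans
          (add_le_add h0.le ((measure_union_le _ _).trans (add_le_add hO h1)))))
        have h4 : (0 : ℝ≥0∞) + (2⁻¹ ^ 2 + 2⁻¹ ^ 3) ≤ 2⁻¹ := by
          rw [zero_add]
          calc (2⁻¹ ^ 2 + 2⁻¹ ^ 3 : ℝ≥0∞) ≤ 2⁻¹ ^ 2 + 2⁻¹ ^ 2 :=
                add_le_add le_rfl (pow_le_pow_of_le_one (by simp) (by simp) (by norm_num))
            _ = 2⁻¹ := by
                rw [pow_two, ← mul_add, ENNReal.inv_two_add_inv_two, mul_one]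
        exact absurd h3 (not_lt.2 h4)) (ENNReal.pow_pos (by simp) _)
      refine ⟨c, c1, c2, fun _ => ⟨fun i hi => c3.mono_right ?_, c4⟩⟩
      exact subset_biUnion_of_mem (u := g) (Finset.mem_coe.2 (Finset.mem_range.2 hi))
    · exact ⟨∅, isClopen_empty, by simp, fun h' => absurd h' h⟩)
  have h1 : ∀ k, (∀ i < k, Disjoint (c k) (c i)) ∧ lam ((F k \ O) ∩ c k) ≠ 0 := by
    intro k
    have := (hc k).2.2 fun i hi => by simpa [hi] using ⟨(hc i).1, (hc i).2.1⟩
    exact ⟨fun i hi => by simpa [hi] using this.1 i hi, this.2⟩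
  refine ⟨⟨c, fun k => (hc k).1, fun i j hij => ?_, fun k => (hc k).2.1⟩, fun k => (h1 k).2⟩
  rcases lt_or_gt_of_ne hij with h | h
  · exact ((h1 j).1 i h).symm
  · exact (h1 i).1 j h

end Pool.Agent.P.MP_5a7e2f_gt
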