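import Pool.Agent.P.MP_5a7e2f_gt.Space

set_option autoImplicit false

open Set Filter Topology MeasureTheory TopologicalSpace

namespace Pool.Agent.P.MP_5a7e2f_gt

/-- finitely additive probabilities on the clopen sets that live on `KK c` -/
structure FA (c : II → DD) (m : Set YY → ℝ) : Prop where
  nonneg : ∀ d, IsClopen d → 0 ≤ m d
  total : m univ = 1
  add : ∀ d d', IsClopen d → IsClopen d' → Disjoint d d' → m (d ∪ d') = m d + m d'
  null : ∀ d, IsClopen d → Disjoint d (KK c) → m d = 0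

variable {c : II → DD} {m : Set YY → ℝ}

theorem FA.mono (h : FA c m) {d d' : Set YY} (hd : IsClopen d) (hd' : IsClopen d')
    (hs : ∀ y ∈ KK c, y ∈ d → y ∈ d') : m d ≤ m d' := by
  have h1 := h.add _ _ (hd.inter hd') (hd.diff hd') disjoint_inf_sdiff
  have h2 := h.add _ _ (hd'.inter hd) (hd'.diff hd) disjoint_inf_sdiff
  rw [inter_union_sdiff] at h1 h2
  have h3 := h.null _ (hd.diff hd') (disjoint_left.2 fun y hy hy' => hy.2 (hs y hy' hy.1))
  have h4 := h.nonneg _ (hd'.diff hd)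
  rw [inter_comm] at h2
  linarith

theorem FA.empty (h : FA c m) : m ∅ = 0 := h.null _ isClopen_empty (by simp)

theorem FA.le_one (h : FA c m) {d : Set YY} (hd : IsClopen d) : m d ≤ 1 :=
  h.total ▸ h.mono hd isClopen_univ fun _ _ _ => trivial

theorem FA.union_le (h : FA c m) {d d' : Set YY} (hd : IsClopen d) (hd' : IsClopen d') :
    m (d ∪ d') ≤ m d + m d' := by
  have h1 := h.add _ _ (hd.diff hd') hd' disjoint_sdiff_left
  rw [sdiff_union_self] at h1
  have h2 := h.mono (hd.diff hd') hd fun _ _ h => h.1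
  linarith

theorem FA.biUnion_le (h : FA c m) {ι : Type*} (s : Finset ι) {d : ι → Set YY}
    (hd : ∀ i, IsClopen (d i)) : m (⋃ i ∈ s, d i) ≤ ∑ i ∈ s, m (d i) := by
  classical
  induction s using Finset.induction_on with
  | empty => simp [h.empty]
  | insert a s ha ih =>
    rw [Finset.set_biUnion_insert, Finset.sum_insert ha]
    exact (h.union_le (hd a) (isClopen_biUnion_finset fun i _ => hd i)).trans (by linarith)

theorem FA.sum_le (h : FA c m) {ι : Type*} (s : Finset ι) {d : ι → Set YY}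
    (hd : ∀ i, IsClopen (d i)) (hs : ∀ i ∈ s, ∀ j ∈ s, i ≠ j → ∀ y ∈ KK c, y ∈ d i → y ∉ d j) :
    ∑ i ∈ s, m (d i) ≤ m (⋃ i ∈ s, d i) := by
  classical
  induction s using Finset.induction_on with
  | empty => simp [h.empty]
  | insert a s ha ih =>
    rw [Finset.set_biUnion_insert, Finset.sum_insert ha]
    have hU : IsClopen (⋃ i ∈ s, d i) := isClopen_biUnion_finset fun i _ => hd i
    have h1 := h.add _ _ ((hd a).diff hU) hU disjoint_sdiff_left
    rw [sdiff_union_self] at h1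
    have h2 := h.mono (hd a) ((hd a).diff hU) fun y hy h3 => ⟨h3, fun h4 => by
      obtain ⟨i, hi, h5⟩ := mem_iUnion₂.1 h4
      exact hs a (Finset.mem_insert_self _ _) i (Finset.mem_insert_of_mem hi)
        (fun e => ha (e ▸ hi)) y hy h3 h5⟩
    have h3 := ih fun i hi j hj => hs i (Finset.mem_insert_of_mem hi) j (Finset.mem_insert_of_mem hj)
    linarith

theorem FA.abs_sub_le (h : FA c m) {b b' W : Set YY} (hb : IsClopen b) (hb' : IsClopen b')
    (hW : IsClopen W) (hs : ∀ y ∈ KK c, y ∉ W → (y ∈ b ↔ y ∈ b')) : |m b - m b'| ≤ m W := by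
  have h1 := (h.mono hb (hb'.union hW) fun y hy h1 =>
    or_iff_not_imp_right.2 fun h2 => (hs y hy h2).1 h1).trans (h.union_le hb' hW)
  have h2 := (h.mono hb' (hb.union hW) fun y hy h1 =>
    or_iff_not_imp_right.2 fun h2 => (hs y hy h2).2 h1).trans (h.union_le hb hW)
  rw [abs_le]; constructor <;> linarith

/-- total mass of the pieces with index at least `k` -/
noncomputable def tl (c : II → DD) (m : Set YY → ℝ) (γ : II) (k : ℕ) : ℝ :=
  ∑' i, m (cyl ((c γ).c (i + k)))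

theorem FA.summable (h : FA c m) (γ : II) (k : ℕ) :
    Summable fun i => m (cyl ((c γ).c (i + k))) := by
  refine summable_of_sum_le (c := 1) (fun i => h.nonneg _ (isClopen_cyl ((c γ).clopen _)))
    fun s => (h.sum_le s (fun i => isClopen_cyl ((c γ).clopen _)) ?_).trans
      (h.le_one (isClopen_biUnion_finset fun i _ => isClopen_cyl ((c γ).clopen _)))
  exact fun i _ j _ hij y _ h => disjoint_left.1 ((c γ).disj _ _ (by omega)) h

theorem tl_tendsto (m : Set YY → ℝ) (γ : II) : Tendsto (tl c m γ) atTop (𝓝 0) :=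
  tendsto_sum_nat_add fun i => m (cyl ((c γ).c i))

/-- the stages whose new closed set is charged by `m` -/
def charged (c : II → DD) (m : Set YY → ℝ) : Set II := {γ | ∃ η > 0, ∀ k, η ≤ m (WW c γ k)}

theorem FA.countable_charged (h : FA c m) : (charged c m).Countable := by
  have : charged c m ⊆ ⋃ n : ℕ, {γ | ∀ k, 1 / ((n : ℝ) + 1) ≤ m (WW c γ k)} := by
    rintro γ ⟨η, h1, h2⟩
    obtain ⟨n, hn⟩ := exists_nat_one_div_lt h1
    exact mem_iUnion.2 ⟨n, fun k => hn.le.trans (h2 k)⟩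
  refine (countable_iUnion fun n => Set.Finite.countable ?_).mono this
  by_contra hinf
  obtain ⟨s, hs, hcard⟩ := Set.Infinite.exists_subset_card_eq hinf (n + 2)
  let k := (s ×ˢ s).sup fun p => ee p.1 p.2
  have hk : ∀ i ∈ s, ∀ j ∈ s, ee i j ≤ k := fun i hi j hj =>
    Finset.le_sup (f := fun p : II × II => ee p.1 p.2) (b := (i, j)) (Finset.mem_product.2 ⟨hi, hj⟩)
  have h1 := (h.sum_le s (d := fun γ => WW c γ k) (fun γ => isClopen_WW c γ k) (by
    intro i hi j hj hij y hy h1 h2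
    rcases lt_or_gt_of_ne hij with h3 | h3
    · exact KK_disj hy h3 (hk j hj i hi) h1 h2
    · exact KK_disj hy h3 (hk i hi j hj) h2 h1)).trans
    (h.le_one (isClopen_biUnion_finset fun γ _ => isClopen_WW c γ k))
  have h2 := (Finset.card_nsmul_le_sum s (fun γ => m (WW c γ k)) _ fun γ hγ => hs hγ k).trans h1
  rw [hcard, nsmul_eq_mul, mul_one_div, div_le_one (by positivity)] at h2
  push_cast at h2
  linarith

theorem FA.WW_le (h : FA c m) {γ : II} (hγ : γ ∉ charged c m) (k : ℕ) :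
    m (WW c γ k) ≤ tl c m γ k := by
  refine le_of_forall_pos_lt_add fun η hη => ?_
  obtain ⟨j, hj⟩ : ∃ j, m (WW c γ j) < η := by
    by_contra hcon
    push Not at hcon
    exact hγ ⟨η, hη, hcon⟩
  have hU : IsClopen (⋃ i ∈ Finset.range j, cyl ((c γ).c (i + k))) :=
    isClopen_biUnion_finset fun i _ => isClopen_cyl ((c γ).clopen _)
  have h1 := (h.mono (isClopen_WW c γ k) ((isClopen_WW c γ j).union hU) (by
    intro y _ h1
    refine or_iff_not_imp_right.2 fun h2 => ⟨h1.1, fun i hi h3 => ?_⟩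
    have h4 : k ≤ i := not_lt.1 fun h4 => h1.2 i h4 h3
    exact h2 (mem_iUnion₂.2 ⟨i - k, Finset.mem_range.2 (by omega), by
      rwa [Nat.sub_add_cancel h4]⟩))).trans (h.union_le (isClopen_WW c γ j) hU)
  have h2 := (h.biUnion_le (Finset.range j) fun i => isClopen_cyl ((c γ).clopen (i + k))).trans
    ((h.summable γ k).sum_le_tsum _ fun i _ => h.nonneg _ (isClopen_cyl ((c γ).clopen _)))
  unfold tl
  linarith

theorem FA.tl_nonneg (h : FA c m) (γ : II) (k : ℕ) : 0 ≤ tl c m γ k :=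
  tsum_nonneg fun _ => h.nonneg _ (isClopen_cyl ((c γ).clopen _))

/-- `b` is approximable by clopen sets depending on coordinates below some `δ n` -/
def Appr (c : II → DD) (m : Set YY → ℝ) (δ : ℕ → II) (b : Set YY) : Prop :=
  ∀ η > 0, ∃ (F : Finset (II × ℕ)) (b' : Set YY) (n : ℕ), IsClopen b' ∧ Dep b' (δ n) ∧
    (∀ p ∈ F, ∀ n, δ n ≤ p.1) ∧ ∑ p ∈ F, tl c m p.1 p.2 ≤ η ∧
    ∀ y ∈ KK c, y ∉ ⋃ p ∈ F, WW c p.1 p.2 → (y ∈ b ↔ y ∈ b')

theorem Appr.of_dep {δ : ℕ → II} {b : Set YY} (hb : IsClopen b) {n : ℕ} (h : Dep b (δ n)) :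
    Appr c m δ b := fun _ hη => ⟨∅, b, n, hb, h, by simp, by simpa using hη.le, by simp⟩

theorem Appr.compl {δ : ℕ → II} {b : Set YY} (h : Appr c m δ b) : Appr c m δ bᶜ := fun η hη => by
  obtain ⟨F, b', n, h1, h2, h3, h4, h5⟩ := h η hη
  exact ⟨F, b'ᶜ, n, h1.compl, h2.compl, h3, h4, fun y hy h6 => (h5 y hy h6).not⟩

theorem FA.sum_tl_union (h : FA c m) (F G : Finset (II × ℕ)) [DecidableEq (II × ℕ)] :
    ∑ p ∈ F ∪ G, tl c m p.1 p.2 ≤ ∑ p ∈ F, tl c m p.1 p.2 + ∑ p ∈ G, tl c m p.1 p.2 := by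
  rw [← Finset.sum_union_inter]
  exact le_add_of_nonneg_right (Finset.sum_nonneg fun p _ => h.tl_nonneg _ _)

theorem Appr.union (h : FA c m) {δ : ℕ → II} (hδ : Monotone δ) {a b : Set YY}
    (ha : Appr c m δ a) (hb : Appr c m δ b) : Appr c m δ (a ∪ b) := fun η hη => by
  classical
  obtain ⟨F, a', n, h1, h2, h3, h4, h5⟩ := ha (η / 2) (by positivity)
  obtain ⟨G, b', k, g1, g2, g3, g4, g5⟩ := hb (η / 2) (by positivity)
  refine ⟨F ∪ G, a' ∪ b', max n k, h1.union g1, (h2.mono (hδ (le_max_left _ _))).union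
    (g2.mono (hδ (le_max_right _ _))), fun p hp => (Finset.mem_union.1 hp).elim (h3 p) (g3 p),
    (h.sum_tl_union F G).trans (by linarith), fun y hy h6 => ?_⟩
  rw [Finset.set_biUnion_union] at h6
  exact or_congr (h5 y hy fun h => h6 (Or.inl h)) (g5 y hy fun h => h6 (Or.inr h))

theorem Appr.biUnion (h : FA c m) {δ : ℕ → II} (hδ : Monotone δ) {ι : Type*} {s : Set ι}
    (hs : s.Finite) {a : ι → Set YY} (ha : ∀ i ∈ s, Appr c m δ (a i)) :
    Appr c m δ (⋃ i ∈ s, a i) := by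
  induction s, hs using Set.Finite.induction_on with
  | empty => simpa using Appr.of_dep (n := 0) isClopen_empty fun _ _ _ _ h => h
  | insert _ _ ih =>
    rw [biUnion_insert]
    exact (ha _ (mem_insert _ _)).union h hδ (ih fun i hi => ha i (mem_insert_of_mem _ hi))

theorem Appr.diff (h : FA c m) {δ : ℕ → II} (hδ : Monotone δ) {a b : Set YY}
    (ha : Appr c m δ a) (hb : Appr c m δ b) : Appr c m δ (a \ b) := by
  have := (ha.compl.union h hδ hb).compl
  rwa [compl_union, compl_compl] at this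

theorem FA.appr (h : FA c m) {δ : ℕ → II} (hδ : Monotone δ) {b : Set YY} (hb : IsClopen b) :
    Appr c m δ b := by
  classical
  have hc : ∀ a, IsClopen a → Appr c m δ (cyl a) := fun a ha =>
    Appr.of_dep (n := 0) (isClopen_cyl ha) (dep_cyl _ _)
  refine clopen_ind (Appr c m δ) (Appr.of_dep (n := 0) isClopen_empty fun _ _ _ _ h => h)
    (fun _ => Appr.compl) (fun _ _ => Appr.union h hδ) hc (fun γ => ?_) b hb
  induction γ using WellFoundedLT.induction with
  | ind γ ih =>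
    by_cases hγ : ∃ n, γ < δ n
    · obtain ⟨n, hn⟩ := hγ
      exact Appr.of_dep (isClopen_uu γ) (dep_uu hn)
    intro η hη
    obtain ⟨k, hk⟩ := ((tl_tendsto (c := c) m γ).eventually (gt_mem_nhds (half_pos hη))).exists
    have h1 : Appr c m δ (⋃ i ∈ Iio k, cyl ((c γ).c i) \
        ⋃ β ∈ {β | β < γ ∧ ee γ β ≤ i}, WW c β (ee γ β)) :=
      Appr.biUnion h hδ (finite_Iio k) fun i _ => (hc _ ((c γ).clopen i)).diff h hδ
        (Appr.biUnion h hδ (finite_ee γ i) fun β hβ => by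
          rw [WW_eq]
          exact (ih β hβ.1).diff h hδ (hc _ (isClopen_biUnion_finset fun j _ => (c β).clopen j)))
    obtain ⟨F, b', n, h2, h3, h4, h5, h6⟩ := h1 (η / 2) (half_pos hη)
    refine ⟨{(γ, k)} ∪ F, b', n, h2, h3, fun p hp => (Finset.mem_union.1 hp).elim (fun hp n => ?_)
      (h4 p), (h.sum_tl_union _ F).trans (by rw [Finset.sum_singleton]; linarith),
      fun y hy h7 => ?_⟩
    · rw [Finset.mem_singleton.1 hp]
      exact not_lt.1 fun h => hγ ⟨n, h⟩
    · rw [Finset.set_biUnion_union, Finset.set_biUnion_singleton] at h7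
      rw [← h6 y hy fun h => h7 (Or.inr h)]
      simp only [mem_iUnion, Set.mem_sdiff, mem_ofPred_eq, not_exists, mem_Iio, mem_preimage]
      constructor
      · intro h8
        obtain ⟨i, hi, h9⟩ : ∃ i < k, y.1 ∈ (c γ).c i := by
          by_contra hcon
          push Not at hcon
          exact h7 (Or.inl ⟨h8, hcon⟩)
        exact ⟨i, hi, h9, fun β hβ => (KK_piece hy h9).1 h8 β hβ.1 hβ.2⟩
      · rintro ⟨i, -, h9, h10⟩
        exact (KK_piece hy h9).2 fun β h11 h12 => h10 β ⟨h11, h12⟩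

theorem exists_limit (σ : ℕ → Set YY → ℝ) (hσ : ∀ n, FA c (σ n)) :
    ∃ l, FA c l ∧ ∀ d, IsClopen d → Tendsto (fun n => σ n d) (hyperfilter ℕ) (𝓝 (l d)) := by
  have : ∀ d, ∃ x, IsClopen d → Tendsto (fun n => σ n d) (hyperfilter ℕ) (𝓝 x) := by
    intro d
    by_cases hd : IsClopen d
    · obtain ⟨x, -, hx⟩ := (isCompact_Icc (a := (0 : ℝ)) (b := 1)).ultrafilter_le_nhds
        ((hyperfilter ℕ).map fun n => σ n d) (le_principal_iff.2 (mem_map.2
          (univ_mem' fun n => ⟨(hσ n).nonneg d hd, (hσ n).le_one hd⟩)))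
      exact ⟨x, fun _ => hx⟩
    · exact ⟨0, fun h => absurd h hd⟩
  choose l hl using this
  refine ⟨l, ⟨fun d hd => ge_of_tendsto' (hl d hd) fun n => (hσ n).nonneg d hd, ?_,
    fun d d' hd hd' h => ?_, fun d hd h => ?_⟩, hl⟩
  · exact tendsto_nhds_unique (hl _ isClopen_univ)
      (tendsto_const_nhds.congr fun n => (hσ n).total.symm)
  · exact tendsto_nhds_unique (hl _ (hd.union hd'))
      (((hl d hd).add (hl d' hd')).congr fun n => ((hσ n).add d d' hd hd' h).symm)
  · exact tendsto_nhds_unique (hl _ hd)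
      (tendsto_const_nhds.congr fun n => ((hσ n).null d hd h).symm)

theorem tight {ι : Type*} (σ : ι → Set YY → ℝ) (ν : Set YY → ℝ) (hσ : ∀ i, FA c (σ i))
    (hν : FA c ν) (h : ∀ s : Finset (Set YY), (∀ d ∈ s, IsClopen d) → ∀ ε > 0,
      ∃ i, ∀ d ∈ s, |σ i d - ν d| < ε) :
    ∃ B : Set ι, B.Countable ∧ ∀ s : Finset (Set YY), (∀ d ∈ s, IsClopen d) → ∀ ε > 0,
      ∃ i ∈ B, ∀ d ∈ s, |σ i d - ν d| < ε := by
  classical
  have hc : Countable (Clopens TT) := Clopens.countable_iff_secondCountable.2 inferInstance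
  obtain ⟨a, ha⟩ := exists_surjective_nat (Clopens TT)
  have h1 : ∀ (s : Finset (Set YY)) (k n : ℕ), ∃ i, (∀ d ∈ s, IsClopen d) →
      (∀ d ∈ s, |σ i d - ν d| < 1 / ((k : ℝ) + 1)) ∧
      ∀ j ≤ n, |σ i (cyl (a j)) - ν (cyl (a j))| < 1 / ((n : ℝ) + 1) := by
    intro s k n
    by_cases hs : ∀ d ∈ s, IsClopen d
    · obtain ⟨i, hi⟩ := h (s ∪ (Finset.range (n + 1)).image fun j => cyl (a j)) (by
        intro d hd
        rcases Finset.mem_union.1 hd with hd | hd
        · exact hs d hd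
        · obtain ⟨j, -, rfl⟩ := Finset.mem_image.1 hd
          exact isClopen_cyl (a j).isClopen) (min (1 / ((k : ℝ) + 1)) (1 / ((n : ℝ) + 1)))
        (by positivity)
      refine ⟨i, fun _ => ⟨fun d hd => (hi d (Finset.mem_union_left _ hd)).trans_le
        (min_le_left _ _), fun j hj => (hi _ (Finset.mem_union_right _ (Finset.mem_image.2
          ⟨j, Finset.mem_range.2 (by omega), rfl⟩))).trans_le (min_le_right _ _)⟩⟩
    · obtain ⟨i, -⟩ := h ∅ (by simp) 1 one_pos
      exact ⟨i, fun h => absurd h hs⟩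
  choose E hE using h1
  choose l hl hl' using fun s k => exists_limit (fun n => σ (E s k n)) fun n => hσ _
  have htl : ∀ s k, (∀ d ∈ s, IsClopen d) → tl c (l s k) = tl c ν := by
    intro s k hs
    funext γ j
    refine tsum_congr fun i => ?_
    obtain ⟨r, hr⟩ := ha ⟨_, (c γ).clopen (i + j)⟩
    have e : (a r : Set TT) = (c γ).c (i + j) := by rw [hr]; rfl
    refine tendsto_nhds_unique (hl' s k _ (isClopen_cyl ((c γ).clopen _)))
      (Tendsto.mono_left ?_ Nat.hyperfilter_le_atTop)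
    rw [← e, tendsto_iff_norm_sub_tendsto_zero]
    refine squeeze_zero' (Eventually.of_forall fun _ => norm_nonneg _)
      ((eventually_ge_atTop r).mono fun n hn => ((hE s k n hs).2 r hn).le)
      tendsto_one_div_add_atTop_nhds_zero_nat
  let S : II → Set (Finset (Set YY)) := fun ρ => {s | ↑s ⊆ {d | IsClopen d ∧ Dep d ρ}}
  have hS : ∀ ρ, (S ρ).Countable := fun ρ => by
    refine ((countable_ofPred_finite_subset (countable_dep ρ)).preimage_of_injOn
      (f := fun s : Finset (Set YY) => (s : Set (Set YY))) Finset.coe_injective.injOn).mono ?_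
    exact fun s hs => ⟨s.finite_toSet, hs⟩
  have h2 : ∀ ρ : II, ∃ ρ', ρ ≤ ρ' ∧ (∀ γ ∈ charged c ν, γ < ρ') ∧
      ∀ s ∈ S ρ, ∀ k, ∀ γ ∈ charged c (l s k), γ < ρ' := by
    intro ρ
    obtain ⟨ρ', h3⟩ := exists_bound (((hν.countable_charged.union ((hS ρ).biUnion fun s _ =>
      countable_iUnion fun k => (hl s k).countable_charged))).insert ρ)
    exact ⟨ρ', (h3 ρ (mem_insert _ _)).le, fun γ hγ => h3 γ (Or.inr (Or.inl hγ)),
      fun s hs k γ hγ => h3 γ (Or.inr (Or.inr (mem_biUnion hs (mem_iUnion.2 ⟨k, hγ⟩))))⟩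
  choose G hG1 hG2 hG3 using h2
  obtain ⟨x⟩ : Nonempty II := inferInstance
  let δ : ℕ → II := fun n => G^[n] x
  have hδ' : ∀ n, δ (n + 1) = G (δ n) := fun n => Function.iterate_succ_apply' G n x
  have hδ : Monotone δ := monotone_nat_of_le_succ fun n => hδ' n ▸ hG1 _
  refine ⟨⋃ n, ⋃ s ∈ S (δ n), ⋃ k, range (E s k), countable_iUnion fun n =>
    (hS _).biUnion fun s _ => countable_iUnion fun k => countable_range _, fun s hs ε hε => ?_⟩
  choose! F b n g1 g2 g3 g4 g5 using fun d (hd : IsClopen d) =>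
    hν.appr hδ hd (ε / 4) (by positivity)
  obtain ⟨k, hk⟩ := exists_nat_one_div_lt (show 0 < ε / 4 by positivity)
  have hs1 : ∀ d ∈ s.image b, IsClopen d := fun d' hd' => by
    obtain ⟨d, hd, rfl⟩ := Finset.mem_image.1 hd'
    exact g1 d (hs d hd)
  have hs2 : s.image b ∈ S (δ (s.sup n)) := fun d' hd' => by
    obtain ⟨d, hd, rfl⟩ := Finset.mem_image.1 (Finset.mem_coe.1 hd')
    exact ⟨g1 d (hs d hd), (g2 d (hs d hd)).mono (hδ (Finset.le_sup hd))⟩
  have hW : ∀ d, IsClopen (⋃ p ∈ F d, WW c p.1 p.2) := fun d =>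
    isClopen_biUnion_finset fun p _ => isClopen_WW c _ _
  have key : ∀ m, FA c m → tl c m = tl c ν → (∀ γ ∈ charged c m, ∃ j, γ < δ j) →
      ∀ d ∈ s, m (⋃ p ∈ F d, WW c p.1 p.2) ≤ ε / 4 := by
    intro m hm e h3 d hd
    refine (hm.biUnion_le _ fun p : II × ℕ => isClopen_WW c p.1 p.2).trans
      ((Finset.sum_le_sum fun p hp => ?_).trans (g4 d (hs d hd)))
    rw [← e]
    refine hm.WW_le (fun h4 => ?_) _
    obtain ⟨j, hj⟩ := h3 _ h4
    exact absurd (g3 d (hs d hd) p hp j) (not_le.2 hj)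
  have k1 := key ν hν rfl fun γ hγ => ⟨1, hδ' 0 ▸ hG2 _ γ hγ⟩
  have k2 := key _ (hl (s.image b) k) (htl _ _ hs1) fun γ hγ =>
    ⟨s.sup n + 1, hδ' _ ▸ hG3 _ _ hs2 k γ hγ⟩
  obtain ⟨j, hj⟩ := ((Filter.eventually_all_finset s).2 fun d hd =>
    (hl' (s.image b) k _ (hW d)).eventually (gt_mem_nhds
      ((k2 d hd).trans_lt (show ε / 4 < ε / 2 by linarith)))).exists
  refine ⟨E (s.image b) k j, mem_iUnion.2 ⟨_, mem_biUnion hs2 (mem_iUnion.2 ⟨k, j, rfl⟩)⟩,
    fun d hd => ?_⟩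
  have t1 := (hσ (E (s.image b) k j)).abs_sub_le (hs d hd) (g1 d (hs d hd)) (hW d) (g5 d (hs d hd))
  have t2 := hν.abs_sub_le (hs d hd) (g1 d (hs d hd)) (hW d) (g5 d (hs d hd))
  have t3 := (hE _ k j hs1).1 _ (Finset.mem_image_of_mem b hd)
  have t4 := hj d hd
  have t5 := k1 d hd
  rw [abs_le] at t1 t2
  rw [abs_lt] at t3 ⊢
  constructor <;> linarith [t1.1, t1.2, t2.1, t2.2, t3.1, t3.2]

end Pool.Agent.P.MP_5a7e2f_gt
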