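import Pool.Agent.P.MP_5a7e2f_gt.Poset

set_option autoImplicit false
set_option synthInstance.maxSize 100000

open Set Pool.Agent.Lib.PosetForcing

namespace Pool.Agent.P.MP_5a7e2f_gt

/-- `p` puts the point with code `x` into the trace of `d` -/
def inN (d : Set YY) (p : PP) (x : XX) : Prop := ok p x ∧ ∀ q ≤ p, emb q.c x ∈ d

/-- name of the trace of `d` on the generic space -/
noncomputable def NN (d : Set YY) : Name PP :=
  .mk {z : XX × PP // inN d z.2 z.1} (fun z => elt z.1.1) fun z => z.1.2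

/-- name of the basis of clopen sets -/
noncomputable def BN : Name PP := fam fun d : {d : Set YY // IsClopen d} => NN d

/-- name of the topology -/
noncomputable def topN : Name PP := sepName (powName (NN univ)) fun U V =>
  ∀ x, Mod.mem x V → ∃ b, Mod.mem b (BN.val U) ∧ Mod.mem x b ∧ IsSub Mod.mem b V

/-- the context without Borel sets -/
noncomputable def C0 : Ctx (Name PP) :=
  ⟨omegaName, tyName ℝ, opName (· + ·), opName (· * ·), leName, elt (0 : ℝ), elt (1 : ℝ),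
    NN univ, topN, NN univ⟩

/-- name of the Borel sets -/
noncomputable def borN : Name PP := sepName (powName (NN univ)) fun U B =>
  ∀ A, IsSigma Mod.mem (C0.val U) A → IsSub Mod.mem (topN.val U) A → Mod.mem B A

/-- the context -/
noncomputable def CC : Ctx (Name PP) := { C0 with bor := borN }

instance : Std CC := ⟨rfl, rfl, rfl, rfl, rfl, rfl, rfl⟩

theorem forces_mem_NN {d : Set YY} {p : PP} {x : XX} (h : inN d p x) :
    Forces p fun U => Mod.mem ((elt x).val U) ((NN d).val U) :=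
  forces_el_mem (b := NN d) ⟨(x, p), h⟩ le_rfl

theorem exists_pt {d : Set YY} {p : PP} {a : Name PP}
    (h : Forces p fun U => Mod.mem (a.val U) ((NN d).val U)) :
    ∃ q ≤ p, ∃ x, inN d q x ∧ Forces q fun U => a.val U = (elt x).val U := by
  obtain ⟨q, hq, ⟨⟨x, r⟩, h1⟩, h2, h3⟩ := h.exists_el
  exact ⟨q, hq, x, ⟨h1.1.mono h2, fun s hs => h1.2 s (hs.trans h2)⟩, h3⟩

theorem mem_NN_iff {d : Set YY} {p : PP} {x : XX} (hd : Dep d p.δ) (hx : ok p x)
    (U : Gen PP) (hU : Set.Iic p ∈ U.1) :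
    Mod.mem ((elt x).val U) ((NN d).val U) ↔ emb p.c x ∈ d := by
  revert U
  show Forces p _
  by_cases h : emb p.c x ∈ d
  · exact (forces_mem_NN ⟨hx, fun q hq => (hd.emb_mono hq x).2 h⟩).imp fun U h1 =>
      ⟨fun _ => h, fun _ => h1⟩
  · refine (forces_not_iff.2 fun q hq h1 => ?_ : Forces p fun U =>
      ¬ Mod.mem ((elt x).val U) ((NN d).val U)).imp fun U h1 =>
        ⟨fun h2 => absurd h2 h1, fun h2 => absurd h2 h⟩
    obtain ⟨r, hr, y, h2, h3⟩ := exists_pt h1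
    obtain rfl := h3.elt_inj
    exact h ((hd.emb_mono (hr.trans hq) x).1 (h2.2 r le_rfl))

theorem forces_mem_S {p : PP} {x : XX} (h : ok p x) :
    Forces p fun U => Mod.mem ((elt x).val U) (CC.val U).S :=
  forces_mem_NN ⟨h, fun _ _ => trivial⟩

theorem forces_pts {Φ : ∀ U : Gen PP, Mod U → Prop}
    [∀ a : Name PP, Clopen fun U => Φ U (a.val U)] {p : PP}
    (h : ∀ q ≤ p, ∀ x, ok q x → ∃ r ≤ q, Forces r fun U => Φ U ((elt x).val U)) :
    Forces p fun U => ∀ z, Mod.mem z (CC.val U).S → Φ U z :=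
  forces_forall_mem (b := NN univ) fun i q hq hi => h q hq i.1.1 (i.2.1.mono hi)

theorem all_pts {Φ : ∀ U : Gen PP, Mod U → Prop} [∀ a : Name PP, Clopen fun U => Φ U (a.val U)]
    (h : ∀ q x, ok q x → ∃ r ≤ q, Forces r fun U => Φ U ((elt x).val U)) (U : Gen PP) :
    ∀ z, Mod.mem z (CC.val U).S → Φ U z :=
  of_forces_all (Φ := fun U => ∀ z, Mod.mem z (CC.val U).S → Φ U z)
    (fun p => ⟨p, le_rfl, forces_pts fun q _ => h q⟩) U

theorem NN_mono {d d' : Set YY} (h : d ⊆ d') (U : Gen PP) :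
    IsSub Mod.mem ((NN d).val U) ((NN d').val U) :=
  forall_mem (b := NN d) (Φ := fun U z => Mod.mem z ((NN d').val U)) (fun i q hq =>
    ⟨q, le_rfl, (forces_mem_NN ⟨i.2.1, fun r hr => h (i.2.2 r hr)⟩).mono hq⟩) U

theorem NN_sub (d : Set YY) (U : Gen PP) : IsSub Mod.mem ((NN d).val U) (CC.val U).S :=
  NN_mono (subset_univ d) U

theorem not_mem_NN_empty (U : Gen PP) (z : Mod U) : ¬ Mod.mem z ((NN ∅).val U) :=
  forall_mem (b := NN ∅) (Φ := fun _ _ => False) (fun i _ _ => (i.2.2 _ le_rfl).elim) U z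

theorem mem_NN_union {d d' : Set YY} (h : IsClopen d) (h' : IsClopen d') (U : Gen PP) (z : Mod U) :
    Mod.mem z ((NN (d ∪ d')).val U) ↔ Mod.mem z ((NN d).val U) ∨ Mod.mem z ((NN d').val U) := by
  refine ⟨fun hz => all_pts (Φ := fun U z => Mod.mem z ((NN (d ∪ d')).val U) →
    Mod.mem z ((NN d).val U) ∨ Mod.mem z ((NN d').val U)) (fun q x hx => ?_) U z
    (NN_sub _ U z hz) hz, fun hz => hz.elim (NN_mono subset_union_left U z)
      (NN_mono subset_union_right U z)⟩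
  obtain ⟨r, hr, h1⟩ := q.exists_dep h
  obtain ⟨s, hs, h2⟩ := r.exists_dep h'
  replace h1 := h1.mono hs.1
  replace hx := hx.mono (hs.trans hr)
  refine ⟨s, hs.trans hr, fun U hU => ?_⟩
  beta_reduce
  rw [mem_NN_iff h1 hx U hU, mem_NN_iff h2 hx U hU, mem_NN_iff (h1.union h2) hx U hU]
  exact id

theorem mem_NN_compl {d : Set YY} (h : IsClopen d) (U : Gen PP) (z : Mod U) :
    Mod.mem z ((NN dᶜ).val U) ↔ Mod.mem z (CC.val U).S ∧ ¬ Mod.mem z ((NN d).val U) := by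
  have := all_pts (Φ := fun U z => Mod.mem z ((NN dᶜ).val U) ↔ ¬ Mod.mem z ((NN d).val U))
    (fun q x hx => by
      obtain ⟨r, hr, h1⟩ := q.exists_dep h
      refine ⟨r, hr, fun U hU => ?_⟩
      beta_reduce
      rw [mem_NN_iff h1 (hx.mono hr) U hU, mem_NN_iff h1.compl (hx.mono hr) U hU]
      rfl) U z
  exact ⟨fun h1 => ⟨NN_sub _ U z h1, (this (NN_sub _ U z h1)).1 h1⟩, fun h1 => (this h1.1).2 h1.2⟩

theorem mem_NN_inter {d d' : Set YY} (h : IsClopen d) (h' : IsClopen d') (U : Gen PP) (z : Mod U) :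
    Mod.mem z ((NN (d ∩ d')).val U) ↔ Mod.mem z ((NN d).val U) ∧ Mod.mem z ((NN d').val U) := by
  have := mem_NN_compl (h.compl.union h'.compl) U z
  rw [compl_union, compl_compl, compl_compl, mem_NN_union h.compl h'.compl, mem_NN_compl h,
    mem_NN_compl h'] at this
  have h1 := NN_sub d U z
  tauto

theorem mem_NN_biUnion {ι : Type*} (s : Finset ι) {d : ι → Set YY} (h : ∀ i ∈ s, IsClopen (d i))
    (U : Gen PP) (z : Mod U) :
    Mod.mem z ((NN (⋃ i ∈ s, d i)).val U) ↔ ∃ i ∈ s, Mod.mem z ((NN (d i)).val U) := by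
  classical
  induction s using Finset.induction_on with
  | empty => simp [not_mem_NN_empty]
  | insert a s _ ih =>
    have h1 := fun i hi => h i (Finset.mem_insert_of_mem hi)
    rw [Finset.set_biUnion_insert, mem_NN_union (h a (Finset.mem_insert_self _ _))
      (isClopen_biUnion_finset h1), ih h1]
    simp

theorem ell_subset_of_forces {d d' : Set YY} {p : PP} (hd : Dep d p.δ) (hd' : Dep d' p.δ)
    (h : Forces p fun U => IsSub Mod.mem ((NN d).val U) ((NN d').val U)) :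
    ell p.c d ⊆ ell p.c d' := fun t ht => forces_const (p := p) fun U hU =>
  (mem_NN_iff hd' (ok_none p t) U hU).1 (h U hU _ ((mem_NN_iff hd (ok_none p t) U hU).2 ht))

theorem mem_top {U : Gen PP} {V : Mod U} : Mod.mem V (CC.val U).top ↔
    IsSub Mod.mem V (CC.val U).S ∧
      ∀ x, Mod.mem x V → ∃ b, Mod.mem b (BN.val U) ∧ Mod.mem x b ∧ IsSub Mod.mem b V := by
  show Mod.mem V (topN.val U) ↔ _
  rw [topN, mem_sepName, mem_powName]
  rfl

theorem NN_mem_BN {d : Set YY} (h : IsClopen d) (U : Gen PP) : Mod.mem ((NN d).val U) (BN.val U) :=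
  mem_fam (fun d : {d : Set YY // IsClopen d} => NN d) ⟨d, h⟩ U

theorem NN_open {d : Set YY} (h : IsClopen d) (U : Gen PP) :
    Mod.mem ((NN d).val U) (CC.val U).top :=
  mem_top.2 ⟨NN_sub d U, fun _ hx => ⟨_, NN_mem_BN h U, hx, fun _ h => h⟩⟩

theorem open_nbhd {p : PP} {V : Name PP} {x : XX} (hx : ok p x)
    (h1 : Forces p fun U => Mod.mem (V.val U) (CC.val U).top)
    (h2 : Forces p fun U => Mod.mem ((elt x).val U) (V.val U)) :
    ∃ r ≤ p, ∃ d, IsClopen d ∧ Dep d r.δ ∧ emb r.c x ∈ d ∧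
      Forces r fun U => IsSub Mod.mem ((NN d).val U) (V.val U) := by
  obtain ⟨b, hb⟩ := Forces.exists_name (Φ := fun U b => Mod.mem b (BN.val U) ∧
    Mod.mem ((elt x).val U) b ∧ IsSub Mod.mem b (V.val U))
    ((h1.and h2).imp fun U h => (mem_top.1 h.1).2 _ h.2)
  obtain ⟨q, hq, d, hd⟩ := (hb.imp fun _ h => h.1).exists_fam
  obtain ⟨r, hr, h3⟩ := q.exists_dep d.2
  have h4 := ((hb.mono hq).and hd).mono hr
  refine ⟨r, hr.trans hq, d, d.2, h3, forces_const (p := r) fun U hU => ?_,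
    h4.imp fun U h => h.2 ▸ h.1.2.2⟩
  exact (mem_NN_iff h3 (hx.mono (hr.trans hq)) U hU).1 ((h4 U hU).2 ▸ (h4 U hU).1.2.1)

theorem isTop (U : Gen PP) : IsTop Mod.mem (CC.val U) := by
  refine ⟨fun V h => (mem_top.1 h).1, NN_open isClopen_univ U, fun V W X hV hW hX => ?_,
    fun F X hF hX => ?_⟩
  · refine mem_top.2 ⟨fun x hx => (mem_top.1 hV).1 x ((hX x).1 hx).1, fun x hx => ?_⟩
    obtain ⟨b, b1, b2, b3⟩ := (mem_top.1 hV).2 x ((hX x).1 hx).1
    obtain ⟨b', b4, b5, b6⟩ := (mem_top.1 hW).2 x ((hX x).1 hx).2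
    have : ∀ (U : Gen PP) b, Mod.mem b (BN.val U) → ∀ b', Mod.mem b' (BN.val U) →
        ∃ e, Mod.mem e (BN.val U) ∧ ∀ z, Mod.mem z e ↔ Mod.mem z b ∧ Mod.mem z b' := by
      refine forall_mem_fam fun d => ?_
      refine forall_mem_fam fun d' U => ?_
      exact ⟨_, NN_mem_BN (d.2.inter d'.2) U, mem_NN_inter d.2 d'.2 U⟩
    obtain ⟨e, e1, e2⟩ := this U b b1 b' b4
    exact ⟨e, e1, (e2 x).2 ⟨b2, b5⟩, fun z hz =>
      (hX z).2 ⟨b3 z ((e2 z).1 hz).1, b6 z ((e2 z).1 hz).2⟩⟩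
  · refine mem_top.2 ⟨fun x hx => ?_, fun x hx => ?_⟩
    · obtain ⟨V, h1, h2⟩ := (hX x).1 hx
      exact (mem_top.1 (hF V h1)).1 x h2
    · obtain ⟨V, h1, h2⟩ := (hX x).1 hx
      obtain ⟨b, b1, b2, b3⟩ := (mem_top.1 (hF V h1)).2 x h2
      exact ⟨b, b1, b2, fun z hz => (hX z).2 ⟨V, h1, b3 z hz⟩⟩

theorem exists_sep {p : PP} {x y : XX} (hx : ok p x) (hy : ok p y) (h : x ≠ y) :
    ∃ d, IsClopen d ∧ Dep d p.δ ∧ emb p.c x ∈ d ∧ emb p.c y ∉ d := by
  have key : ∀ {x y : XX}, ok p x → x.1 = y.1 → ∀ γ, x.2 = some γ → y.2 ≠ some γ →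
      Dep (uu γ) p.δ ∧ emb p.c x ∈ uu γ ∧ emb p.c y ∉ uu γ := by
    intro x y hx h1 γ h2 h3
    refine ⟨dep_uu (hx.2 γ h2), (pat_iff x γ).2 (Or.inl h2), fun h4 => ?_⟩
    rcases (pat_iff y γ).1 h4 with h5 | ⟨k, h5, -⟩
    · exact h3 h5
    · exact (hx.1 γ h2).1 k (h1 ▸ h5)
  by_cases h1 : x.1 = y.1
  · have h2 : x.2 ≠ y.2 := fun e => h (Prod.ext h1 e)
    cases h3 : x.2 with
    | some γ => exact ⟨_, isClopen_uu γ, key hx h1 γ h3 (h3 ▸ h2.symm)⟩
    | none =>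
      obtain ⟨γ, h4⟩ := Option.ne_none_iff_exists'.1 (h3 ▸ h2.symm)
      obtain ⟨k1, k2, k3⟩ := key hy h1.symm γ h4 (by simp [h3])
      exact ⟨_, (isClopen_uu γ).compl, k1.compl, k3, not_not.2 k2⟩
  · obtain ⟨a, h2, h3, h4⟩ := exists_isClopen_of_totally_separated h1
    exact ⟨cyl a, isClopen_cyl h2, dep_cyl _ _, h3, h4⟩

theorem exists_sep_BN (U : Gen PP) : ∀ x, Mod.mem x (CC.val U).S → ∀ y, Mod.mem y (CC.val U).S →
    x ≠ y → ∃ b b', Mod.mem b (BN.val U) ∧ Mod.mem b' (BN.val U) ∧ Mod.mem x b ∧ Mod.mem y b' ∧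
      ∀ z, Mod.mem z b → ¬ Mod.mem z b' := by
  revert U
  refine all_pts fun q x hx => ⟨q, le_rfl, ?_⟩
  refine forces_pts fun r hr y hy => ⟨r, le_rfl, fun U hU h => ?_⟩
  obtain ⟨d, h1, h2, h3, h4⟩ := exists_sep (hx.mono hr) hy fun e => h (e ▸ rfl)
  exact ⟨_, _, NN_mem_BN h1 U, NN_mem_BN h1.compl U, (mem_NN_iff h2 (hx.mono hr) U hU).2 h3,
    (mem_NN_iff h2.compl hy U hU).2 h4, fun z h5 h6 => ((mem_NN_compl h1 U z).1 h6).2 h5⟩

theorem BN_sub_top (U : Gen PP) : IsSub Mod.mem (BN.val U) (CC.val U).top :=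
  forall_mem_fam (Φ := fun U b => Mod.mem b (CC.val U).top) (fun d U => NN_open d.2 U) U

theorem isHausdorff (U : Gen PP) : IsHausdorff Mod.mem (CC.val U) := fun x y hx hy h => by
  obtain ⟨b, b', h1, h2, h3⟩ := exists_sep_BN U x hx y hy h
  exact ⟨b, b', BN_sub_top U _ h1, BN_sub_top U _ h2, h3⟩

theorem cpt_of_compl (U : Gen PP) (V K : Mod U) (h1 : Mod.mem V (CC.val U).top)
    (h2 : ∀ x, Mod.mem x K ↔ Mod.mem x (CC.val U).S ∧ ¬ Mod.mem x V) :
    IsCpt Mod.mem (CC.val U) K := by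
  classical
  refine ⟨fun x hx => ((h2 x).1 hx).1, fun F h3 h4 => ?_⟩
  obtain ⟨V, rfl⟩ := V.exists_name
  obtain ⟨K, rfl⟩ := K.exists_name
  obtain ⟨F, rfl⟩ := F.exists_name
  have h5 := And.intro h1 h2
  clear h1 h2
  revert U
  refine by_forcing3 fun p h3 h4 h1 => ?_
  obtain ⟨q, hq, s, g1, g2⟩ := cover_lemma (p := p) (fun d r =>
      (Forces r fun U => IsSub Mod.mem ((NN d).val U) (V.val U)) ∨ ∃ W : Name PP,
        Forces r fun U => Mod.mem (W.val U) (F.val U) ∧ IsSub Mod.mem ((NN d).val U) (W.val U))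
    (fun d q r hr h => h.imp (·.mono hr) fun ⟨W, h⟩ => ⟨W, h.mono hr⟩) (by
      intro q hq x hx
      obtain ⟨r, hr, h | h⟩ := exists_decide
        (fun U => Mod.mem ((elt x : Name PP).val U) (V.val U)) q
      · obtain ⟨r', hr', d, k1, k2, k3, k4⟩ := open_nbhd (hx.mono hr)
          ((h1.mono (hr.trans hq)).imp fun _ h => h.1) h
        exact ⟨r', hr'.trans hr, d, k1, k2, k3, Or.inl k4⟩
      · obtain ⟨W, hW⟩ := Forces.exists_name (p := r) (Φ := fun U W => Mod.mem W (F.val U) ∧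
          Mod.mem ((elt x).val U) W) fun U hU => h4.mono (hr.trans hq) U hU _
            (((h1.mono (hr.trans hq) U hU).2 _).2 ⟨forces_mem_S (hx.mono hr) U hU, h U hU⟩)
        obtain ⟨r', hr', d, k1, k2, k3, k4⟩ := open_nbhd (hx.mono hr)
          (((h3.mono (hr.trans hq)).and hW).imp fun _ h => h.1 _ h.2.1) (hW.imp fun _ h => h.2)
        exact ⟨r', hr'.trans hr, d, k1, k2, k3,
          Or.inr ⟨W, ((hW.mono hr').imp fun _ h => h.1).and k4⟩⟩)
  let s' := s.filter fun d => ¬ Forces q fun U => IsSub Mod.mem ((NN d).val U) (V.val U)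
  have g3 : ∀ d, ∃ W : Name PP, d ∈ s' → Forces q fun U =>
      Mod.mem (W.val U) (F.val U) ∧ IsSub Mod.mem ((NN d).val U) (W.val U) := by
    intro d
    by_cases hd : d ∈ s'
    · obtain ⟨W, hW⟩ := (g1 d (Finset.mem_filter.1 hd).1).2.2.resolve_left (Finset.mem_filter.1 hd).2
      exact ⟨W, fun _ => hW⟩
    · exact ⟨V, fun h => absurd h hd⟩
  choose W hW using g3
  have g4 : Forces q fun U => ∀ z, Mod.mem z (CC.val U).S → ∃ d ∈ s, Mod.mem z ((NN d).val U) := by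
    refine forces_pts fun r hr x hx => ⟨r, le_rfl, fun U hU => ?_⟩
    obtain ⟨d, hd, h⟩ := g2 r hr x hx
    exact ⟨d, hd, (mem_NN_iff ((g1 d hd).2.1.mono hr.1) hx U hU).2 h⟩
  refine ⟨q, hq, fun U hU => ⟨(fam fun d : s' => W d).val U, fun z hz => ?_, isFin_fam _ U,
    fun z hz => ?_⟩⟩
  · obtain ⟨d, hd, rfl⟩ := (mem_fam_finset s' W U z).1 hz
    exact (hW d hd U hU).1
  · have k := ((h1.mono hq U hU).2 z).1 hz
    obtain ⟨d, hd, h⟩ := g4 U hU z k.1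
    have hd' : d ∈ s' := Finset.mem_filter.2 ⟨hd, fun h' => k.2 (h' U hU z h)⟩
    exact ⟨_, (mem_fam_finset s' W U _).2 ⟨d, hd', rfl⟩, (hW d hd' U hU).2 z h⟩

theorem isCpt_S (U : Gen PP) : IsCpt Mod.mem (CC.val U) (CC.val U).S :=
  cpt_of_compl U _ _ (NN_open isClopen_empty U) fun x => by simp [not_mem_NN_empty]

theorem open_of_cpt (U : Gen PP) (K X : Mod U) (h1 : IsCpt Mod.mem (CC.val U) K)
    (h2 : ∀ x, Mod.mem x X ↔ Mod.mem x (CC.val U).S ∧ ¬ Mod.mem x K) :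
    Mod.mem X (CC.val U).top := by
  refine mem_top.2 ⟨fun x hx => ((h2 x).1 hx).1, fun x hx => ?_⟩
  obtain ⟨x, rfl⟩ := x.exists_name
  obtain ⟨F, hF⟩ := Mod.sep (fun U b => ¬ Mod.mem (x.val U) b) U (BN.val U)
  obtain ⟨G, g1, g2, g3⟩ := h1.2 F (fun b hb => BN_sub_top U b ((hF b).1 hb).1) fun y hy => by
    obtain ⟨b, b', k1, k2, k3, k4, k5⟩ := exists_sep_BN U _ ((h2 _).1 hx).1 y (h1.1 y hy)
      fun e => ((h2 _).1 hx).2 (e ▸ hy)
    exact ⟨b', (hF b').2 ⟨k2, k5 _ k3⟩, k4⟩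
  suffices ∃ b, Mod.mem b (BN.val U) ∧ Mod.mem (x.val U) b ∧
      ∀ z, Mod.mem z b → Mod.mem z (CC.val U).S ∧ ∀ V, Mod.mem V G → ¬ Mod.mem z V by
    obtain ⟨b, b1, b2, b3⟩ := this
    refine ⟨b, b1, b2, fun z hz => (h2 z).2 ⟨(b3 z hz).1, fun h => ?_⟩⟩
    obtain ⟨V, v1, v2⟩ := g3 z h
    exact (b3 z hz).2 V v1 v2
  have g4 : ∀ b, Mod.mem b G → Mod.mem b (BN.val U) ∧ ¬ Mod.mem (x.val U) b :=
    fun b hb => (hF b).1 (g1 b hb)
  have g5 := ((h2 _).1 hx).1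
  obtain ⟨G, rfl⟩ := G.exists_name
  clear g1 g3 hF hx h2 h1 F K X
  revert U
  refine by_forcing3 fun p g5 g2 g4 => ?_
  obtain ⟨q, hq, s, a, ha⟩ := fin_cover g2
  obtain ⟨r, hr, h⟩ := sigmaClosed.exists_forall q (fun i r => ∃ d : Set YY, i ∈ s → IsClopen d ∧
    Forces r fun U => (a i).val U = (NN d).val U)
    (fun i q r h ⟨d, hd⟩ => ⟨d, fun hi => ⟨(hd hi).1, (hd hi).2.mono h⟩⟩) fun i r hr => by
      by_cases hi : i ∈ s
      · obtain ⟨t, ht, d, hd⟩ := Forces.exists_fam (p := r) (a := a i) fun U hU =>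
          (g4.mono (hr.trans hq) U hU _ ((ha.mono hr U hU _).2 ⟨i, hi, rfl⟩)).1
        exact ⟨t, ht, d, fun _ => ⟨d.2, hd⟩⟩
      · exact ⟨r, le_rfl, ∅, fun h => absurd h hi⟩
  choose d hd using h
  have hc : IsClopen (⋃ i ∈ s, d i) := isClopen_biUnion_finset fun i hi => (hd i hi).1
  refine ⟨r, hr.trans hq, fun U hU => ⟨_, NN_mem_BN hc.compl U, ?_, fun z hz => ?_⟩⟩
  · rw [mem_NN_compl hc, mem_NN_biUnion s fun i hi => (hd i hi).1]
    refine ⟨g5.mono (hr.trans hq) U hU, fun ⟨i, hi, h⟩ => ?_⟩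
    rw [← (hd i hi).2 U hU] at h
    exact (g4.mono (hr.trans hq) U hU _ ((ha.mono hr U hU _).2 ⟨i, hi, rfl⟩)).2 h
  · rw [mem_NN_compl hc, mem_NN_biUnion s fun i hi => (hd i hi).1] at hz
    refine ⟨hz.1, fun V hV h => ?_⟩
    obtain ⟨i, hi, rfl⟩ := (ha.mono hr U hU V).1 hV
    exact hz.2 ⟨i, hi, (hd i hi).2 U hU ▸ h⟩

theorem mem_bor {U : Gen PP} {B : Mod U} : Mod.mem B (CC.val U).bor ↔
    IsSub Mod.mem B (CC.val U).S ∧
      ∀ A, IsSigma Mod.mem (CC.val U) A → IsSub Mod.mem (CC.val U).top A → Mod.mem B A := by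
  show Mod.mem B (borN.val U) ↔ _
  rw [borN, mem_sepName, mem_powName]
  rfl

theorem isBorel (U : Gen PP) : IsBorel Mod.mem (CC.val U) := by
  refine ⟨⟨fun B h => (mem_bor.1 h).1, mem_bor.2 ⟨fun _ h => h, fun A h _ => h.2.1⟩,
    fun B X h1 h2 => mem_bor.2 ⟨fun x hx => ((h2 x).1 hx).1, fun A h3 h4 =>
      h3.2.2.1 B X ((mem_bor.1 h1).2 A h3 h4) h2⟩, fun f X h1 h2 => mem_bor.2
        ⟨fun x hx => ?_, fun A h3 h4 => h3.2.2.2 f X ⟨fun p hp => ?_, h1.2⟩ h2⟩⟩,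
    fun V h => mem_bor.2 ⟨(mem_top.1 h).1, fun A _ h' => h' V h⟩,
    fun A h1 h2 B h3 => (mem_bor.1 h3).2 A h1 h2⟩
  · obtain ⟨n, B, h3, h4⟩ := (h2 x).1 hx
    exact (mem_bor.1 ((isZFC U).app_val h1 h3).2).1 x h4
  · obtain ⟨x, y, k1, k2, k3⟩ := h1.1 p hp
    exact ⟨x, y, k1, k2, (mem_bor.1 k3).2 A h3 h4⟩

theorem NN_bor {d : Set YY} (h : IsClopen d) (U : Gen PP) :
    Mod.mem ((NN d).val U) (CC.val U).bor := (isBorel U).2.1 _ (NN_open h U)

end Pool.Agent.P.MP_5a7e2f_gt
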